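import Pool.Agent.QCT.Defs

/-!
# Project QCT: real closed fields in the sense of Mathlib have the intermediate value property
-/

set_option autoImplicit false
set_option linter.unusedSectionVars false
set_option linter.unusedSimpArgs false

namespace Pool.Agent.QCT.IvtP

open Polynomial

/-- A monic polynomial of degree two is reducible or has no root; a root in the base field of an
irreducible polynomial of degree two is impossible. -/
theorem no_quadratic {F : Type*} [Field F] [CharZero F] (hsq : ∀ x : F, IsSquare x)
    {f : F[X]} (hf : Irreducible f) (hm : f.Monic) : f.natDegree ≠ 2 := by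
  intro h2
  have h3 : f = X ^ 2 + C (f.coeff 1) * X + C (f.coeff 0) := by
    ext j
    rcases j with _ | _ | _ | j
    · simp
    · simp [coeff_X]
    · have : f.coeff 2 = 1 := by rw [← h2]; exact hm
      simp [coeff_X, coeff_C, this]
    · rw [coeff_eq_zero_of_natDegree_lt (by omega)]
      simp [coeff_X, coeff_C]
  obtain ⟨b, c, h3⟩ : ∃ b c : F, f = X ^ 2 + C b * X + C c := ⟨_, _, h3⟩
  obtain ⟨β, hβ⟩ := hsq ((b / 2) ^ 2 - c)
  have h4 : f.IsRoot (-(b / 2) + β) := by
    rw [IsRoot, h3]
    simp only [eval_add, eval_pow, eval_X, eval_mul, eval_C]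
    linear_combination hβ * (-1)
  have h5 := degree_eq_one_of_irreducible_of_root hf h4
  rw [degree_eq_natDegree hf.ne_zero, h2] at h5
  norm_num at h5

/-- Over a field in which every element is a square a finite Galois extension whose group is a
2-group is trivial. -/
theorem galois_two {F : Type*} [Field F] [CharZero F] (hsq : ∀ x : F, IsSquare x)
    {E : Type*} [Field E] [Algebra F E] [FiniteDimensional F E] [IsGalois F E] {m : ℕ}
    (hm : Module.finrank F E = 2 ^ m) : m = 0 := by
  by_contra h0
  obtain ⟨m, rfl⟩ : ∃ j, m = j + 1 := ⟨m - 1, by omega⟩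
  have hc : Nat.card (E ≃ₐ[F] E) = 2 ^ (m + 1) := by rw [IsGalois.card_aut_eq_finrank, hm]
  obtain ⟨H, hH⟩ := Sylow.exists_subgroup_card_pow_prime (G := E ≃ₐ[F] E) 2 (n := m)
    (by rw [hc]; exact pow_dvd_pow 2 (Nat.le_succ m))
  have h1 : Module.finrank (IntermediateField.fixedField H) E = 2 ^ m := by
    rw [IntermediateField.finrank_fixedField_eq_card, hH]
  have h2 := Module.finrank_mul_finrank F (IntermediateField.fixedField H) E
  rw [h1, hm, pow_succ, mul_comm] at h2
  have h3 : Module.finrank F (IntermediateField.fixedField H) = 2 :=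
    Nat.eq_of_mul_eq_mul_left (by positivity) h2
  have h4 : ∃ θ : IntermediateField.fixedField H, θ ∉ (algebraMap F (IntermediateField.fixedField H)).range := by
    by_contra hcon
    push Not at hcon
    have h5 : (⊥ : Subalgebra F (IntermediateField.fixedField H)) = ⊤ := by
      rw [eq_top_iff]
      intro x _
      exact Algebra.mem_bot.2 (hcon x)
    have h6 := Subalgebra.bot_eq_top_iff_finrank_eq_one.1 h5
    omega
  obtain ⟨θ, hθ⟩ := h4
  have hint : IsIntegral F θ := Algebra.IsIntegral.isIntegral θ
  have h5 : (minpoly F θ).natDegree ≤ 2 := by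
    rw [← h3]
    exact minpoly.natDegree_le θ
  have h6 : 2 ≤ (minpoly F θ).natDegree := (minpoly.two_le_natDegree_iff hint).2 hθ
  exact no_quadratic hsq (minpoly.irreducible hint) (minpoly.monic hint) (le_antisymm h5 h6)

variable {R : Type*} [Field R] [LinearOrder R] [IsStrictOrderedRing R] [IsRealClosed R]

/-- Complex numbers over `R` have square roots. -/
theorem isSquare_quad {F : Type*} [Field F] [Algebra R F] (hF : Module.finrank R F = 2)
    (z : F) : IsSquare z := by
  have : CharZero F := charZero_of_injective_algebraMap (algebraMap R F).injective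
  have : FiniteDimensional R F := Module.finite_of_finrank_pos (by omega)
  -- every element outside `R` is `x + w` with `w ^ 2 = - e ^ 2`, `e ≠ 0`
  have key : ∀ θ : F, θ ∉ (algebraMap R F).range → ∃ (x e : R) (w : F), e ≠ 0 ∧
      θ = algebraMap R F x + w ∧ w ^ 2 = - (algebraMap R F e) ^ 2 := by
    intro θ hθ
    have hint : IsIntegral R θ := Algebra.IsIntegral.isIntegral θ
    have h5 : (minpoly R θ).natDegree ≤ 2 := by
      rw [← hF]
      exact minpoly.natDegree_le θ
    have h6 : 2 ≤ (minpoly R θ).natDegree := (minpoly.two_le_natDegree_iff hint).2 hθ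
    have h2 : (minpoly R θ).natDegree = 2 := le_antisymm h5 h6
    set f := minpoly R θ with hf
    have hm : f.Monic := minpoly.monic hint
    have h3 : f = X ^ 2 + C (f.coeff 1) * X + C (f.coeff 0) := by
      ext j
      rcases j with _ | _ | _ | j
      · simp
      · simp [coeff_X]
      · have : f.coeff 2 = 1 := by rw [← h2]; exact hm
        simp [coeff_X, coeff_C, this]
      · rw [coeff_eq_zero_of_natDegree_lt (by omega)]
        simp [coeff_X, coeff_C]
    have h4 : aeval θ f = 0 := minpoly.aeval R θ
    rw [h3] at h4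
    simp only [map_add, map_pow, aeval_X, map_mul, aeval_C] at h4
    set b := f.coeff 1
    set c := f.coeff 0
    set d := (b / 2) ^ 2 - c with hd
    have h7 : (θ + algebraMap R F (b / 2)) ^ 2 = algebraMap R F d := by
      rw [hd]
      simp only [map_sub, map_pow, map_div₀, map_ofNat]
      linear_combination h4
    rcases IsRealClosed.isSquare_or_isSquare_neg d with ⟨s, hs⟩ | ⟨s, hs⟩
    · exfalso
      rw [hs, map_mul] at h7
      have h8 : (θ + algebraMap R F (b / 2) - algebraMap R F s) *
          (θ + algebraMap R F (b / 2) + algebraMap R F s) = 0 := by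
        linear_combination h7
      rcases mul_eq_zero.1 h8 with h | h
      · exact hθ ⟨s - b / 2, by rw [map_sub]; linear_combination -h⟩
      · exact hθ ⟨-s - b / 2, by rw [map_sub, map_neg]; linear_combination -h⟩
    · have hs0 : s ≠ 0 := by
        rintro rfl
        have hd0 : d = 0 := by linear_combination -hs
        rw [hd0, map_zero] at h7
        have h8 := pow_eq_zero_iff (two_ne_zero) |>.1 h7
        exact hθ ⟨-(b / 2), by rw [map_neg]; linear_combination -h8⟩
      refine ⟨-(b / 2), s, θ + algebraMap R F (b / 2), hs0, ?_, ?_⟩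
      · rw [map_neg]; ring
      · rw [h7]
        have : d = -(s ^ 2) := by linear_combination -hs
        rw [this, map_neg, map_pow]
  obtain ⟨θ, hθ⟩ : ∃ θ : F, θ ∉ (algebraMap R F).range := by
    by_contra hcon
    push Not at hcon
    have h5 : (⊥ : Subalgebra R F) = ⊤ := by
      rw [eq_top_iff]
      intro x _
      exact Algebra.mem_bot.2 (hcon x)
    have h6 := Subalgebra.bot_eq_top_iff_finrank_eq_one.1 h5
    omega
  obtain ⟨x0, e0, w0, he0, -, hw0⟩ := key θ hθ
  have he0' : algebraMap R F e0 ≠ 0 := by
    rwa [Ne, map_eq_zero]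
  set i : F := w0 / algebraMap R F e0 with hi
  have hi2 : i ^ 2 = -1 := by
    rw [hi, div_pow, hw0, neg_div, div_self (pow_ne_zero 2 he0')]
  -- every element is `x + y i`
  have hxy : ∃ x y : R, z = algebraMap R F x + algebraMap R F y * i := by
    by_cases hz : z ∈ (algebraMap R F).range
    · obtain ⟨x, rfl⟩ := hz
      exact ⟨x, 0, by simp⟩
    · obtain ⟨x, e, w, he, rfl, hw⟩ := key z hz
      have h1 : (w - algebraMap R F e * i) * (w + algebraMap R F e * i) = 0 := by
        linear_combination hw - (algebraMap R F e) ^ 2 * hi2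
      rcases mul_eq_zero.1 h1 with h | h
      · exact ⟨x, e, by linear_combination h⟩
      · exact ⟨x, -e, by rw [map_neg]; linear_combination h⟩
  obtain ⟨x, y, rfl⟩ := hxy
  by_cases hy : y = 0
  · subst hy
    rcases IsRealClosed.isSquare_or_isSquare_neg x with ⟨s, hs⟩ | ⟨s, hs⟩
    · exact ⟨algebraMap R F s, by rw [hs]; simp⟩
    · refine ⟨algebraMap R F s * i, ?_⟩
      have : x = -(s * s) := by linear_combination -hs
      rw [this]
      simp only [map_neg, map_mul, map_zero, zero_mul, add_zero]
      linear_combination (-(algebraMap R F s) ^ 2) * hi2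
  · obtain ⟨r0, hr0⟩ := IsSquare.of_nonneg (show (0 : R) ≤ x ^ 2 + y ^ 2 by positivity)
    obtain ⟨r, hr, hr1⟩ : ∃ r : R, 0 ≤ r ∧ r ^ 2 = x ^ 2 + y ^ 2 :=
      ⟨|r0|, abs_nonneg _, by rw [sq_abs, hr0]; ring⟩
    have hy2 : 0 < y ^ 2 := by positivity
    have hrx : 0 < r + x := by
      by_contra hcon
      push Not at hcon
      have h1 : r ≤ -x := by linarith
      have h2 : r ^ 2 ≤ x ^ 2 := by nlinarith
      linarith
    obtain ⟨a, ha⟩ := IsSquare.of_nonneg (show (0 : R) ≤ (r + x) / 2 by positivity)
    have ha0 : a ≠ 0 := by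
      rintro rfl
      linarith
    have ha0' : algebraMap R F a ≠ 0 := by rwa [Ne, map_eq_zero]
    have h2 : a ^ 2 - (y / (2 * a)) ^ 2 = x := by
      have h3 : (2 * a) ^ 2 = 2 * (r + x) := by linear_combination (-4) * ha
      have h4 : a ^ 2 = (r + x) / 2 := by linear_combination -ha
      rw [div_pow, h3, h4]
      field_simp
      linear_combination hr1
    refine ⟨algebraMap R F a + algebraMap R F (y / (2 * a)) * i, ?_⟩
    have h3 : 2 * a * (y / (2 * a)) = y := by field_simp
    have h2' := congrArg (algebraMap R F) h2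
    have h3' := congrArg (algebraMap R F) h3
    simp only [map_sub, map_pow, map_mul, map_ofNat] at h2' h3'
    linear_combination -h2' - i * h3' - (algebraMap R F (y / (2 * a))) ^ 2 * hi2

/-- Extensions of odd degree are trivial. -/
theorem odd_ext {F : Type*} [Field F] [Algebra R F] [FiniteDimensional R F]
    (hF : Odd (Module.finrank R F)) : Module.finrank R F = 1 := by
  have : CharZero R := inferInstance
  obtain ⟨α, hα⟩ := Field.exists_primitive_element R F
  have h1 : (minpoly R α).natDegree = Module.finrank R F :=
    (Field.primitive_element_iff_minpoly_natDegree_eq R α).1 hα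
  have hint : IsIntegral R α := Algebra.IsIntegral.isIntegral α
  obtain ⟨r, hr⟩ := IsRealClosed.exists_isRoot_of_odd_natDegree (f := minpoly R α)
    (by rw [h1]; exact hF)
  have h2 := degree_eq_one_of_irreducible_of_root (minpoly.irreducible hint) hr
  rw [← h1]
  exact natDegree_eq_of_degree_eq_some h2

/-- The degree of a finite Galois extension is at most two. -/
theorem galois_le_two {E : Type*} [Field E] [Algebra R E] [FiniteDimensional R E] [IsGalois R E] :
    Module.finrank R E ≤ 2 := by
  have : CharZero R := inferInstance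
  obtain ⟨H⟩ : Nonempty (Sylow 2 (E ≃ₐ[R] E)) := inferInstance
  have hH := H.isPGroup'
  obtain ⟨n, hn⟩ := IsPGroup.iff_card.1 hH
  have h1 : Module.finrank (IntermediateField.fixedField (H : Subgroup (E ≃ₐ[R] E))) E = 2 ^ n := by
    rw [IntermediateField.finrank_fixedField_eq_card]
    exact hn
  have h2 := Module.finrank_mul_finrank R
    (IntermediateField.fixedField (H : Subgroup (E ≃ₐ[R] E))) E
  have hindex : Odd (H : Subgroup (E ≃ₐ[R] E)).index := by
    rw [← Nat.not_even_iff_odd, even_iff_two_dvd]
    exact H.not_dvd_index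
  have h3 : Module.finrank R (IntermediateField.fixedField (H : Subgroup (E ≃ₐ[R] E))) =
      (H : Subgroup (E ≃ₐ[R] E)).index := by
    have h4 := (H : Subgroup (E ≃ₐ[R] E)).card_mul_index
    rw [IsGalois.card_aut_eq_finrank] at h4
    have h5 : Nat.card (H : Subgroup (E ≃ₐ[R] E)) = 2 ^ n := hn
    rw [h5, ← h2, h1, mul_comm] at h4
    exact (Nat.eq_of_mul_eq_mul_right (by positivity) h4).symm
  have h4 := odd_ext (R := R)
    (F := IntermediateField.fixedField (H : Subgroup (E ≃ₐ[R] E))) (by rw [h3]; exact hindex)
  rw [h4, one_mul, h1] at h2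
  -- `finrank R E = 2 ^ n`
  by_contra hcon
  push Not at hcon
  have hn2 : 2 ≤ n := by
    by_contra h
    have : n ≤ 1 := by omega
    have := Nat.pow_le_pow_right (show 0 < 2 by norm_num) this
    omega
  obtain ⟨m, rfl⟩ : ∃ j, n = j + 1 := ⟨n - 1, by omega⟩
  have hc : Nat.card (E ≃ₐ[R] E) = 2 ^ (m + 1) := by rw [IsGalois.card_aut_eq_finrank, h2]
  obtain ⟨K, hK⟩ := Sylow.exists_subgroup_card_pow_prime (G := E ≃ₐ[R] E) 2 (n := m)
    (by rw [hc]; exact pow_dvd_pow 2 (Nat.le_succ m))
  have h5 : Module.finrank (IntermediateField.fixedField K) E = 2 ^ m := by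
    rw [IntermediateField.finrank_fixedField_eq_card, hK]
  have h6 := Module.finrank_mul_finrank R (IntermediateField.fixedField K) E
  rw [h5, ← h2, pow_succ, mul_comm] at h6
  have h7 : Module.finrank R (IntermediateField.fixedField K) = 2 :=
    Nat.eq_of_mul_eq_mul_left (by positivity) h6
  have : CharZero (IntermediateField.fixedField K) :=
    charZero_of_injective_algebraMap (algebraMap R (IntermediateField.fixedField K)).injective
  have h8 := galois_two (F := IntermediateField.fixedField K) (isSquare_quad (R := R) h7)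
    (E := E) h5
  omega

/-- A nonconstant polynomial over a real closed field is divisible by a linear polynomial or by a
polynomial `(X - u) ^ 2 + v ^ 2` with `v ≠ 0`. -/
theorem exists_factor (p : R[X]) (hp : 0 < p.natDegree) :
    (∃ r : R, X - C r ∣ p) ∨ ∃ u v : R, v ≠ 0 ∧ (X - C u) ^ 2 + C (v ^ 2) ∣ p := by
  have : CharZero R := inferInstance
  obtain ⟨f, hf, hfp⟩ := exists_irreducible_of_natDegree_pos hp
  have : IsGalois R f.SplittingField :=
    IsGalois.of_separable_splitting_field (p := f) hf.separable
  have h1 : Module.finrank R f.SplittingField ≤ 2 := galois_le_two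
  have h2 : f.natDegree ≤ 2 := by
    obtain ⟨θ, hθ⟩ := (SplittingField.splits f).exists_eval_eq_zero (by
      rw [degree_map]
      exact (degree_pos_of_irreducible hf).ne')
    have h3 : aeval θ f = 0 := by rwa [aeval_def, ← eval_map]
    have hint : IsIntegral R θ := Algebra.IsIntegral.isIntegral θ
    have h4 : minpoly R θ ∣ f := minpoly.dvd R θ h3
    have h5 : Associated (minpoly R θ) f := (minpoly.irreducible hint).associated_of_dvd hf h4
    have h6 : f.natDegree = (minpoly R θ).natDegree :=
      natDegree_eq_of_degree_eq (degree_eq_degree_of_associated h5.symm)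
    rw [h6]
    exact (minpoly.natDegree_le θ).trans h1
  by_cases hroot : ∃ r, f.IsRoot r
  · obtain ⟨r, hr⟩ := hroot
    exact Or.inl ⟨r, (dvd_iff_isRoot.2 hr).trans hfp⟩
  · right
    have h0 : 0 < f.natDegree := hf.natDegree_pos
    have h3 : f.natDegree = 2 := by
      by_contra hne
      have h4 : f.natDegree = 1 := by omega
      obtain ⟨a, ha, b, hab⟩ := natDegree_eq_one.1 h4
      refine hroot ⟨-b / a, ?_⟩
      rw [IsRoot, ← hab]
      simp only [eval_add, eval_mul, eval_C, eval_X]
      field_simp
      ring
    set a := f.coeff 2 with haa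
    set b := f.coeff 1 with hbb
    set c := f.coeff 0 with hcc
    have ha : a ≠ 0 := by
      rw [haa, ← h3]
      exact leadingCoeff_ne_zero.2 hf.ne_zero
    have hfeq : f = C a * X ^ 2 + C b * X + C c := by
      ext j
      rcases j with _ | _ | _ | j
      · simp [hcc]
      · simp [coeff_X, coeff_X_pow, hbb, coeff_C]
      · simp [coeff_X, coeff_C, haa]
      · rw [coeff_eq_zero_of_natDegree_lt (by omega)]
        simp [coeff_X, coeff_C, coeff_X_pow]
    set u := -(b / (2 * a)) with hu
    set w := c / a - (b / (2 * a)) ^ 2 with hw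
    have hfw : f = C a * ((X - C u) ^ 2 + C w) := by
      rw [hfeq]
      have h4 : b = -(2 * a * u) := by rw [hu]; field_simp
      have h5 : c = a * (u ^ 2 + w) := by
        rw [hu, hw]
        field_simp
        ring
      rw [h4, h5]
      simp only [map_neg, map_mul, map_add, map_pow, map_ofNat]
      ring
    have hnsq : ¬ IsSquare (-w) := by
      rintro ⟨s, hs⟩
      refine hroot ⟨u + s, ?_⟩
      rw [IsRoot, hfw]
      simp only [eval_mul, eval_add, eval_C, eval_pow, eval_sub, eval_X]
      linear_combination (-a) * hs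
    obtain ⟨v, hv⟩ := IsSquare.of_not_isSquare_neg hnsq
    refine ⟨u, v, ?_, ?_⟩
    · rintro rfl
      apply hnsq
      rw [hv]
      exact ⟨0, by ring⟩
    · refine Dvd.dvd.trans ?_ hfp
      rw [hfw, hv, sq v]
      exact Dvd.intro_left _ rfl

/-- Sign change of polynomials. -/
theorem ivt_aux : ∀ (n : ℕ) (p : R[X]), p.natDegree ≤ n → ∀ {a b : R}, a < b →
    p.eval a * p.eval b < 0 → ∃ c, a < c ∧ c < b ∧ p.eval c = 0 := by
  intro n
  induction n with
  | zero =>
    intro p hp a b hab h
    exfalso
    obtain ⟨c, rfl⟩ := natDegree_eq_zero.1 (Nat.le_zero.1 hp)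
    simp only [eval_C] at h
    nlinarith [mul_self_nonneg c]
  | succ n ih =>
    intro p hp a b hab h
    by_cases hp0 : 0 < p.natDegree
    swap
    · exact ih p (by omega) hab h
    have hpne : p ≠ 0 := by
      rintro rfl
      simp at hp0
    rcases exists_factor p hp0 with ⟨r, g, rfl⟩ | ⟨u, v, hv, g, rfl⟩
    · have hg0 : g ≠ 0 := right_ne_zero_of_mul hpne
      have hdeg : g.natDegree ≤ n := by
        rw [natDegree_mul (X_sub_C_ne_zero r) hg0, natDegree_X_sub_C] at hp
        omega
      by_cases hr : a < r ∧ r < b
      · exact ⟨r, hr.1, hr.2, by simp⟩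
      · have h1 : 0 < (a - r) * (b - r) := by
          simp only [eval_mul, eval_sub, eval_X, eval_C] at h
          have har : a - r ≠ 0 := by
            intro h0
            rw [h0] at h
            simp at h
          have hbr : b - r ≠ 0 := by
            intro h0
            rw [h0] at h
            simp at h
          rcases lt_or_gt_of_ne har with h2 | h2
          · have h3 : a < r := by linarith
            have h4 : ¬ r < b := fun h5 => hr ⟨h3, h5⟩
            have h5 : b - r < 0 := lt_of_le_of_ne (by linarith) hbr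
            exact mul_pos_of_neg_of_neg h2 h5
          · exact mul_pos h2 (by linarith)
        have h2 : g.eval a * g.eval b < 0 := by
          simp only [eval_mul, eval_sub, eval_X, eval_C] at h
          by_contra hcon
          push Not at hcon
          have := mul_nonneg h1.le hcon
          nlinarith
        obtain ⟨c, hc1, hc2, hc3⟩ := ih g hdeg hab h2
        exact ⟨c, hc1, hc2, by simp [hc3]⟩
    · have hq : ∀ t : R, 0 < ((X - C u) ^ 2 + C (v ^ 2) : R[X]).eval t := by
        intro t
        simp only [eval_add, eval_pow, eval_sub, eval_X, eval_C]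
        positivity
      have hg0 : g ≠ 0 := right_ne_zero_of_mul hpne
      have hq0 : ((X - C u) ^ 2 + C (v ^ 2) : R[X]) ≠ 0 := left_ne_zero_of_mul hpne
      have hqd : 0 < ((X - C u) ^ 2 + C (v ^ 2) : R[X]).natDegree := by
        have : ((X - C u) ^ 2 + C (v ^ 2) : R[X]).natDegree = 2 := by
          rw [natDegree_add_C, natDegree_pow, natDegree_X_sub_C]
        omega
      have hdeg : g.natDegree ≤ n := by
        rw [natDegree_mul hq0 hg0] at hp
        omega
      have h2 : g.eval a * g.eval b < 0 := by
        rw [eval_mul, eval_mul] at h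
        have h1 := mul_pos (hq a) (hq b)
        by_contra hcon
        push Not at hcon
        have := mul_nonneg h1.le hcon
        nlinarith
      obtain ⟨c, hc1, hc2, hc3⟩ := ih g hdeg hab h2
      exact ⟨c, hc1, hc2, by rw [eval_mul, hc3, mul_zero]⟩

end Pool.Agent.QCT.IvtP

namespace Pool.Agent.QCT

/-- Real closed fields have the intermediate value property for polynomials. -/
instance (priority := 100) RCF.of_isRealClosed (R : Type*) [Field R] [LinearOrder R]
    [IsStrictOrderedRing R] [IsRealClosed R] : RCF R where
  ivt p a b hab ha hb := IvtP.ivt_aux p.natDegree p le_rfl hab (mul_neg_of_neg_of_pos ha hb)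

end Pool.Agent.QCT
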