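import Pool.Agent.QCT.PolDef

/-!
# Project QCT: the closure of a list of polynomials, and the list sorted by length
-/

namespace Pool.Agent.QCT.Clos

open Pool.Agent.QCT

theorem length_tr (p : UP) : p.tr.length = p.length - 1 := by
  simp only [UP.tr, List.length_take]
  omega

theorem length_dv (p : UP) : p.dv.length = p.length - 1 := by
  simp [UP.dv]

theorem length_rs (p q : UP) : (p.rs q).length = p.length - 1 := by
  simp [UP.rs]

theorem length_iter (p q : UP) (n : ℕ) :
    ((fun r : UP => if q.length ≤ r.length then r.rs q else r)^[n] p).length ≤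
      max (p.length - n) (q.length - 1) := by
  induction n with
  | zero => simp
  | succ n ih =>
    rw [Function.iterate_succ_apply']
    split_ifs with h
    · rw [length_rs]
      omega
    · omega

theorem length_prem {p q : UP} (h : 2 ≤ q.length) (h' : q.length ≤ p.length) :
    (p.prem q).length < q.length := by
  unfold UP.prem
  rw [if_pos ⟨h, h'⟩]
  have := length_iter p q p.length
  omega

theorem prem_eq {p q : UP} (h : ¬ (2 ≤ q.length ∧ q.length ≤ p.length)) : p.prem q = [] := by
  unfold UP.prem
  rw [if_neg h]

theorem mem_ops {F : List UP} {r : UP} : r ∈ ops F ↔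
    r ∈ F ∨ (∃ p ∈ F, p.tr = r) ∨ (∃ p ∈ F, p.dv = r) ∨ ∃ p ∈ F, ∃ q ∈ F, p.prem q = r := by
  simp only [ops, List.mem_append, List.mem_map, List.mem_flatMap]

theorem le_mxl {F : List UP} {p : UP} (h : p ∈ F) : p.length ≤ mxl F := by
  unfold mxl
  induction F with
  | nil => simp at h
  | cons a F ih =>
    simp only [List.map_cons, List.foldr_cons]
    rcases List.mem_cons.1 h with h | h
    · rw [h]
      exact le_max_left _ _
    · exact (ih h).trans (le_max_right _ _)

theorem mono {F : List UP} {m n : ℕ} (h : m ≤ n) {r : UP} (hr : r ∈ ops^[m] F) :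
    r ∈ ops^[n] F := by
  induction n, h using Nat.le_induction with
  | base => exact hr
  | succ n _ ih =>
    rw [Function.iterate_succ_apply']
    exact mem_ops.2 (Or.inl ih)

theorem tr_mem {F : List UP} {n : ℕ} {p : UP} (hp : p ∈ ops^[n] F) : p.tr ∈ ops^[n + 1] F := by
  rw [Function.iterate_succ_apply']
  exact mem_ops.2 (Or.inr (Or.inl ⟨p, hp, rfl⟩))

theorem dv_mem {F : List UP} {n : ℕ} {p : UP} (hp : p ∈ ops^[n] F) : p.dv ∈ ops^[n + 1] F := by
  rw [Function.iterate_succ_apply']
  exact mem_ops.2 (Or.inr (Or.inr (Or.inl ⟨p, hp, rfl⟩)))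

theorem prem_mem {F : List UP} {n : ℕ} {p q : UP} (hp : p ∈ ops^[n] F) (hq : q ∈ ops^[n] F) :
    p.prem q ∈ ops^[n + 1] F := by
  rw [Function.iterate_succ_apply']
  exact mem_ops.2 (Or.inr (Or.inr (Or.inr ⟨p, hp, q, hq, rfl⟩)))

/-- New elements are short. -/
theorem inv (F : List UP) (n : ℕ) {r : UP} (hr : r ∈ ops^[n + 1] F) :
    r ∈ ops^[n] F ∨ r.length ≤ mxl F - (n + 1) := by
  induction n generalizing r with
  | zero =>
    rw [Function.iterate_succ_apply', Function.iterate_zero, id] at hr
    rcases mem_ops.1 hr with h | ⟨p, hp, rfl⟩ | ⟨p, hp, rfl⟩ | ⟨p, hp, q, hq, rfl⟩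
    · exact Or.inl h
    · right
      have := le_mxl hp
      rw [length_tr]
      omega
    · right
      have := le_mxl hp
      rw [length_dv]
      omega
    · right
      by_cases h : 2 ≤ q.length ∧ q.length ≤ p.length
      · have h1 := length_prem h.1 h.2
        have h2 := le_mxl hq
        omega
      · rw [prem_eq h]
        simp
  | succ n ih =>
    rw [Function.iterate_succ_apply'] at hr
    rcases mem_ops.1 hr with h | ⟨p, hp, rfl⟩ | ⟨p, hp, rfl⟩ | ⟨p, hp, q, hq, rfl⟩
    · exact Or.inl h
    · rcases ih hp with h | h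
      · exact Or.inl (tr_mem h)
      · right
        rw [length_tr]
        omega
    · rcases ih hp with h | h
      · exact Or.inl (dv_mem h)
      · right
        rw [length_dv]
        omega
    · by_cases h : 2 ≤ q.length ∧ q.length ≤ p.length
      · have h1 := length_prem h.1 h.2
        rcases ih hp with h2 | h2
        · rcases ih hq with h3 | h3
          · exact Or.inl (prem_mem h2 h3)
          · right
            omega
        · right
          omega
      · right
        rw [prem_eq h]
        simp

theorem length_le {F : List UP} {n : ℕ} {r : UP} (hr : r ∈ ops^[n] F) : r.length ≤ mxl F := by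
  induction n generalizing r with
  | zero => exact le_mxl hr
  | succ n ih =>
    rcases inv F n hr with h | h
    · exact ih h
    · omega

theorem ne_nil {F : List UP} {n : ℕ} {r : UP} (hr : r ∈ ops^[n] F) : F ≠ [] := by
  rintro rfl
  have : ∀ n : ℕ, ops^[n] ([] : List UP) = [] := by
    intro n
    induction n with
    | zero => rfl
    | succ n ih =>
      rw [Function.iterate_succ_apply', ih]
      rfl
  rw [this] at hr
  simp at hr

theorem nil_mem {F : List UP} {f : UP} (hf : f ∈ F) : [] ∈ ops^[mxl F] F := by
  have h : ∀ n : ℕ, UP.tr^[n] f ∈ ops^[n] F ∧ (UP.tr^[n] f).length = f.length - n := by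
    intro n
    induction n with
    | zero => exact ⟨hf, rfl⟩
    | succ n ih =>
      rw [Function.iterate_succ_apply' UP.tr]
      refine ⟨tr_mem ih.1, ?_⟩
      rw [length_tr, ih.2]
      omega
  obtain ⟨h1, h2⟩ := h f.length
  rw [Nat.sub_self, List.length_eq_zero_iff] at h2
  rw [h2] at h1
  exact mono (le_mxl hf) h1

theorem closed_clos (F : List UP) : Closed (clos F) := by
  unfold clos
  refine ⟨fun p hp h => ?_, fun p hp h => ?_, fun p hp q hq h h' => ?_⟩
  · rcases inv F _ (tr_mem hp) with h1 | h1
    · exact h1
    · rw [length_tr] at h1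
      omega
  · rcases inv F _ (dv_mem hp) with h1 | h1
    · exact h1
    · rw [length_dv] at h1
      omega
  · rcases inv F _ (prem_mem hp hq) with h1 | h1
    · exact h1
    · have h2 : (p.prem q).length = 0 := by omega
      rw [List.length_eq_zero_iff] at h2
      rw [h2]
      obtain ⟨f, hf⟩ := List.exists_mem_of_ne_nil F (ne_nil hp)
      exact nil_mem hf

theorem subset_clos (F : List UP) : F ⊆ clos F := fun _ hp => mono (Nat.zero_le _) hp

theorem mem_srt {G : List UP} {p : UP} : p ∈ srt G ↔ p ∈ G := by
  simp only [srt, List.mem_flatMap, List.mem_range, List.mem_filter, decide_eq_true_eq]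
  constructor
  · rintro ⟨d, -, h, -⟩
    exact h
  · intro h
    exact ⟨p.length, Nat.lt_succ_of_le (le_mxl h), h, rfl⟩

theorem srt_sorted (G : List UP) : (srt G).Pairwise fun p q => p.length ≤ q.length := by
  unfold srt
  rw [List.pairwise_flatMap]
  constructor
  · intro d _
    rw [List.pairwise_filter]
    refine List.pairwise_of_forall_mem_list fun p _ q _ hp hq => ?_
    simp only [decide_eq_true_eq] at hp hq
    omega
  · refine List.pairwise_lt_range.imp fun {a b} hab p hp q hq => ?_
    simp only [List.mem_filter, decide_eq_true_eq] at hp hq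
    omega

end Pool.Agent.QCT.Clos
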