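import Pool.Agent.QCT.PolDef

/-!
# Project QCT: semantics of the operations on list polynomials
-/

namespace Pool.Agent.QCT

open Polynomial

namespace Ops

section Pl

variable {R : Type*} [CommRing R]

/-- Value of a signed monomial. -/
def mon (x : ℕ → R) (c : Bool × List ℕ) : R := (if c.1 then 1 else -1) * (c.2.map x).prod

theorem ev_nil (x : ℕ → R) : Pl.ev x [] = 0 := by simp [Pl.ev]

theorem ev_cons (x : ℕ → R) (c : Bool × List ℕ) (p : Pl) :
    Pl.ev x (c :: p) = mon x c + Pl.ev x p := by
  simp [Pl.ev, mon]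

theorem ev_append (x : ℕ → R) (p q : Pl) : Pl.ev x (p ++ q) = Pl.ev x p + Pl.ev x q := by
  simp [Pl.ev]

theorem ev_add (x : ℕ → R) (p q : Pl) : (p.add q).ev x = p.ev x + q.ev x := ev_append x p q

theorem ev_neg (x : ℕ → R) (p : Pl) : p.neg.ev x = -p.ev x := by
  induction p with
  | nil => simp [Pl.neg, Pl.ev]
  | cons c p ih =>
    have h : Pl.neg (c :: p) = (!c.1, c.2) :: Pl.neg p := rfl
    rw [h, ev_cons, ev_cons, ih]
    rcases c with ⟨b, m⟩
    cases b <;> simp [mon] <;> ring

theorem ev_map_mul (x : ℕ → R) (a : Bool × List ℕ) (q : Pl) :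
    Pl.ev x (q.map fun b => (a.1 == b.1, a.2 ++ b.2)) = mon x a * q.ev x := by
  induction q with
  | nil => simp [Pl.ev]
  | cons c q ih =>
    rw [List.map_cons, ev_cons, ev_cons, ih, mul_add]
    congr 1
    rcases a with ⟨b, m⟩
    rcases c with ⟨b', m'⟩
    cases b <;> cases b' <;> simp [mon]

theorem ev_mul (x : ℕ → R) (p q : Pl) : (p.mul q).ev x = p.ev x * q.ev x := by
  induction p with
  | nil => simp [Pl.mul, Pl.ev]
  | cons a p ih =>
    have h : Pl.mul (a :: p) q = (q.map fun b => (a.1 == b.1, a.2 ++ b.2)) ++ Pl.mul p q := by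
      simp [Pl.mul]
    rw [h, ev_append, ev_map_mul, ih, ev_cons]
    ring

theorem ev_nsc (x : ℕ → R) (j : ℕ) (p : Pl) : (p.nsc j).ev x = j * p.ev x := by
  induction j with
  | zero => simp [Pl.nsc, Pl.ev]
  | succ j ih =>
    have h : p.nsc (j + 1) = p.nsc j ++ p := by
      simp [Pl.nsc, List.range_succ]
    rw [h, ev_append, ih]
    push_cast
    ring

theorem ev_var (x : ℕ → R) (i : ℕ) : (Pl.var i).ev x = x i := by
  simp [Pl.var, Pl.ev]

theorem ev_cst (x : ℕ → R) (z : Bool × ℕ) :
    (Pl.cst z).ev x = (if z.1 then 1 else -1) * (z.2 : R) := by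
  rcases z with ⟨b, n⟩
  induction n with
  | zero => simp [Pl.cst, Pl.ev]
  | succ n ih =>
    have h : Pl.cst (b, n + 1) = Pl.cst (b, n) ++ [(b, [])] := by
      simp [Pl.cst, List.range_succ]
    rw [h, ev_append, ih, ev_cons, ev_nil]
    simp [mon]
    cases b <;> simp <;> ring

theorem ev_cst_int (x : ℕ → R) (z : Bool × ℕ) :
    (Pl.cst z).ev x = (((if z.1 then (z.2 : ℤ) else -(z.2 : ℤ)) : ℤ) : R) := by
  rw [ev_cst]
  rcases z with ⟨b, n⟩
  cases b <;> simp

theorem ev_ren (x : ℕ → R) (ρ : ℕ → ℕ) (p : Pl) : (p.ren ρ).ev x = p.ev (fun i => x (ρ i)) := by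
  induction p with
  | nil => simp [Pl.ren, Pl.ev]
  | cons c p ih =>
    have h : Pl.ren ρ (c :: p) = (c.1, c.2.map ρ) :: Pl.ren ρ p := rfl
    rw [h, ev_cons, ev_cons, ih]
    congr 1
    simp [mon, Function.comp_def]

theorem ev_flatMap {α : Type*} (x : ℕ → R) (L : List α) (f : α → Pl) :
    Pl.ev x (L.flatMap f) = (L.map fun a => (f a).ev x).sum := by
  induction L with
  | nil => simp [Pl.ev]
  | cons a L ih => rw [List.flatMap_cons, ev_append, ih, List.map_cons, List.sum_cons]

/-- The value only depends on the variables which occur. -/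
theorem ev_congr {x y : ℕ → R} {p : Pl} (h : ∀ c ∈ p, ∀ v ∈ c.2, x v = y v) :
    p.ev x = p.ev y := by
  unfold Pl.ev
  congr 1
  refine List.map_congr_left fun c hc => ?_
  congr 2
  exact List.map_congr_left fun v hv => h c hc v hv

/-! ### Variables of results of operations -/

/-- All variables of `p` satisfy `P`. -/
def AllV (P : ℕ → Prop) (p : Pl) : Prop := ∀ c ∈ p, ∀ v ∈ c.2, P v

theorem ev_congr_allV {P : ℕ → Prop} {x y : ℕ → R} {p : Pl} (h : AllV P p)
    (hxy : ∀ v, P v → x v = y v) : p.ev x = p.ev y :=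
  ev_congr fun c hc v hv => hxy v (h c hc v hv)

/-! ### Degree and coefficients -/

theorem cnt_cons (i a : ℕ) (m : List ℕ) : cnt i (a :: m) = cnt i m + if a = i then 1 else 0 := by
  unfold cnt
  by_cases h : a = i <;> simp [h]

theorem prod_update (x : ℕ → R) (i : ℕ) (y : R) (m : List ℕ) :
    (m.map (Function.update x i y)).prod =
      ((m.filter fun a => a ≠ i).map x).prod * y ^ cnt i m := by
  induction m with
  | nil => simp [cnt]
  | cons a m ih =>
    rw [List.map_cons, List.prod_cons, ih, cnt_cons]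
    by_cases h : a = i
    · subst h
      simp
      ring
    · simp [h]
      ring

theorem le_foldr_max {l : List ℕ} {a : ℕ} (h : a ∈ l) : a ≤ l.foldr max 0 := by
  induction l with
  | nil => simp at h
  | cons b l ih =>
    rw [List.foldr_cons]
    rcases List.mem_cons.1 h with h | h
    · exact h ▸ le_max_left _ _
    · exact (ih h).trans (le_max_right _ _)

theorem cnt_le_dg {i : ℕ} {p : Pl} {c : Bool × List ℕ} (hc : c ∈ p) : cnt i c.2 ≤ p.dg i :=
  le_foldr_max (List.mem_map.2 ⟨c, hc, rfl⟩)

theorem cf_nil (i j : ℕ) : Pl.cf i j [] = [] := rfl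

theorem cf_cons (i j : ℕ) (c : Bool × List ℕ) (p : Pl) : Pl.cf i j (c :: p) =
    if cnt i c.2 = j then (c.1, c.2.filter fun a => a ≠ i) :: Pl.cf i j p else Pl.cf i j p := by
  unfold Pl.cf
  by_cases h : cnt i c.2 = j <;> simp [h]

/-- Expansion in powers of `y`. -/
theorem sum_cf (x : ℕ → R) (i : ℕ) (y : R) (p : Pl) {N : ℕ} (hN : p.dg i < N) :
    ∑ j ∈ Finset.range N, (p.cf i j).ev x * y ^ j = p.ev (Function.update x i y) := by
  have key : ∀ q : Pl, (∀ c ∈ q, cnt i c.2 < N) →
      ∑ j ∈ Finset.range N, (q.cf i j).ev x * y ^ j = q.ev (Function.update x i y) := by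
    intro q
    induction q with
    | nil => intro _; simp [cf_nil, ev_nil]
    | cons c q ih =>
      intro hq
      rw [ev_cons, ← ih fun d hd => hq d (List.mem_cons_of_mem _ hd)]
      have h1 : ∀ j, (Pl.cf i j (c :: q)).ev x * y ^ j =
          (if cnt i c.2 = j then mon x (c.1, c.2.filter fun a => a ≠ i) * y ^ j else 0) +
            (Pl.cf i j q).ev x * y ^ j := by
        intro j
        rw [cf_cons]
        split_ifs with h
        · rw [ev_cons, add_mul]
        · rw [zero_add]
      simp_rw [h1]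
      rw [Finset.sum_add_distrib, Finset.sum_ite_eq, if_pos (Finset.mem_range.2
        (hq c (List.mem_cons_self ..)))]
      congr 1
      unfold mon
      rw [prod_update]
      ring
  exact key p fun c hc => (cnt_le_dg hc).trans_lt hN

end Pl

section UP

variable {R : Type*} [CommRing R]

theorem getD_map_range {α : Type*} (f : ℕ → α) (d : α) (n j : ℕ) :
    ((List.range n).map f).getD j d = if j < n then f j else d := by
  rw [List.getD_eq_getElem?_getD, List.getElem?_map]
  split_ifs with h
  · rw [List.getElem?_range h]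
    rfl
  · rw [List.getElem?_eq_none (by simpa using h)]
    rfl

theorem length_toU (i : ℕ) (p : Pl) : (toU i p).length = p.dg i + 1 := by simp [toU]

theorem eval_pol (x : ℕ → R) (p : UP) (y : R) :
    (UP.pol x p).eval y = ∑ j ∈ Finset.range p.length, (p.getD j []).ev x * y ^ j := by
  simp [UP.pol, eval_finsetSum]

theorem coeff_pol (x : ℕ → R) (p : UP) (j : ℕ) :
    (UP.pol x p).coeff j = (p.getD j []).ev x := by
  unfold UP.pol
  rw [finsetSum_coeff]
  simp only [coeff_C_mul, coeff_X_pow, mul_ite, mul_one, mul_zero]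
  rw [Finset.sum_ite_eq]
  split_ifs with h
  · rfl
  · rw [List.getD_eq_default _ _ (by simpa using h), ev_nil]

theorem eval_pol_toU (x : ℕ → R) (i : ℕ) (p : Pl) (y : R) :
    (UP.pol x (toU i p)).eval y = p.ev (Function.update x i y) := by
  rw [eval_pol, length_toU, ← sum_cf x i y p (Nat.lt_succ_self _)]
  refine Finset.sum_congr rfl fun j hj => ?_
  rw [toU, getD_map_range, if_pos (Finset.mem_range.1 hj)]

theorem length_tr (p : UP) : p.tr.length = p.length - 1 := by
  simp [UP.tr]

theorem length_dv (p : UP) : p.dv.length = p.length - 1 := by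
  simp [UP.dv]

theorem getD_take {α : Type*} (d : α) (l : List α) (n j : ℕ) :
    (l.take n).getD j d = if j < n then l.getD j d else d := by
  rw [List.getD_eq_getElem?_getD, List.getD_eq_getElem?_getD, List.getElem?_take]
  split_ifs <;> rfl

theorem pol_tr (x : ℕ → R) {p : UP} (hp : 1 ≤ p.length) :
    UP.pol x p = UP.pol x p.tr + C (p.lc.ev x) * X ^ (p.length - 1) := by
  ext j
  rw [coeff_add, coeff_pol, coeff_pol, coeff_C_mul, coeff_X_pow, UP.tr, getD_take, UP.lc]
  rcases lt_trichotomy j (p.length - 1) with h | h | h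
  · rw [if_pos h, if_neg h.ne]; simp
  · rw [if_neg (by omega), if_pos h, h, ev_nil]; simp
  · rw [if_neg (by omega), if_neg (by omega), ev_nil,
      List.getD_eq_default _ _ (by omega), ev_nil]; simp

theorem pol_dv (x : ℕ → R) (p : UP) : UP.pol x p.dv = (UP.pol x p).derivative := by
  ext j
  rw [coeff_pol, coeff_derivative, coeff_pol, UP.dv, getD_map_range]
  split_ifs with h
  · rw [ev_nsc]
    push_cast
    ring
  · rw [ev_nil, List.getD_eq_default _ _ (by omega), ev_nil, zero_mul]

theorem length_rs (p q : UP) : (p.rs q).length = p.length - 1 := by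
  simp [UP.rs]

theorem coeff_rs (x : ℕ → R) {p q : UP} (hq : 1 ≤ q.length) (h : q.length ≤ p.length) (j : ℕ) :
    ((p.rs q).getD j []).ev x = q.lc.ev x * q.lc.ev x * (p.getD j []).ev x -
      q.lc.ev x * p.lc.ev x * (if p.length - q.length ≤ j then
        (q.getD (j - (p.length - q.length)) []).ev x else 0) := by
  rw [UP.rs, getD_map_range]
  split_ifs with h1 h2 h2
  · rw [ev_add, ev_neg, ev_mul, ev_mul, ev_mul, ev_mul]
    ring
  · rw [ev_add, ev_neg, ev_mul, ev_mul, ev_mul, ev_mul, ev_nil]
    ring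
  · rw [ev_nil]
    rcases eq_or_lt_of_le (show p.length - 1 ≤ j by omega) with h3 | h3
    · have h4 : j - (p.length - q.length) = q.length - 1 := by omega
      rw [h4, ← h3]
      simp only [UP.lc]
      ring
    · rw [List.getD_eq_default p _ (by omega), List.getD_eq_default q _ (by omega), ev_nil]
      ring
  · omega

theorem pol_rs (x : ℕ → R) {p q : UP} (hq : 1 ≤ q.length) (h : q.length ≤ p.length) :
    UP.pol x (p.rs q) = C (q.lc.ev x * q.lc.ev x) * UP.pol x p -
      C (q.lc.ev x * p.lc.ev x) * X ^ (p.length - q.length) * UP.pol x q := by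
  ext j
  rw [coeff_sub, mul_assoc, coeff_C_mul, coeff_C_mul, coeff_X_pow_mul', coeff_pol, coeff_pol,
    coeff_rs x hq h, coeff_pol]

/-- The step of the pseudo-division. -/
def stp (q r : UP) : UP := if q.length ≤ r.length then r.rs q else r

theorem prem_eq {p q : UP} (h : 2 ≤ q.length) (h' : q.length ≤ p.length) :
    p.prem q = (stp q)^[p.length] p := by
  rw [UP.prem, if_pos ⟨h, h'⟩]
  rfl

theorem length_stp {q : UP} (h : 2 ≤ q.length) (n : ℕ) (p : UP) :
    ((stp q)^[n] p).length < q.length ∨ ((stp q)^[n] p).length + n ≤ p.length := by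
  induction n with
  | zero => right; simp
  | succ n ih =>
    rw [Function.iterate_succ_apply']
    set r := (stp q)^[n] p
    unfold stp
    split_ifs with h1
    · rw [length_rs]
      rcases ih with ih | ih
      · omega
      · right
        omega
    · left
      omega

theorem length_prem {p q : UP} (h : 2 ≤ q.length) (h' : q.length ≤ p.length) :
    (p.prem q).length < q.length := by
  rw [prem_eq h h']
  rcases length_stp h p.length p with h1 | h1
  · exact h1
  · omega

theorem pol_iter (x : ℕ → R) {q : UP} (h : 2 ≤ q.length) (n : ℕ) (p : UP) :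
    ∃ (e : ℕ) (a : R[X]), C (q.lc.ev x ^ (2 * e)) * UP.pol x p =
      a * UP.pol x q + UP.pol x ((stp q)^[n] p) := by
  induction n with
  | zero => exact ⟨0, 0, by simp⟩
  | succ n ih =>
    obtain ⟨e, a, he⟩ := ih
    rw [Function.iterate_succ_apply']
    set r := (stp q)^[n] p with hr
    unfold stp
    split_ifs with h1
    · refine ⟨e + 1, C (q.lc.ev x * q.lc.ev x) * a +
        C (q.lc.ev x * r.lc.ev x) * X ^ (r.length - q.length), ?_⟩
      rw [pol_rs x (by omega) h1]
      have h2 : (C (q.lc.ev x ^ (2 * (e + 1))) : R[X]) =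
          C (q.lc.ev x * q.lc.ev x) * C (q.lc.ev x ^ (2 * e)) := by
        rw [← C_mul]
        congr 1
        ring
      rw [h2, mul_assoc, he]
      ring
    · exact ⟨e, a, he⟩

theorem pol_prem (x : ℕ → R) {p q : UP} (h : 2 ≤ q.length) (h' : q.length ≤ p.length) :
    ∃ (e : ℕ) (a : R[X]), C (q.lc.ev x ^ (2 * e)) * UP.pol x p =
      a * UP.pol x q + UP.pol x (p.prem q) := by
  rw [prem_eq h h']
  exact pol_iter x h _ p

end UP

end Ops

end Pool.Agent.QCT
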