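import Pool.Agent.QCT.PolDef
import Pool.Agent.QCT.Ops
import Pool.Agent.QCT.Clos

/-!
# Project QCT, P5: quantifier elimination and decision
-/

namespace Pool.Agent.QCT.QE

open Polynomial

section Basic

variable {R : Type*} [CommRing R] [LinearOrder R]

theorem lookup_of {α β : Type} [DecidableEq α] (f : α → β) :
    ∀ (c : List (α × β)) (p : α), (∀ e ∈ c, e.2 = f e.1) → (∃ e ∈ c, e.1 = p) →
      c.lookup p = some (f p)
  | [], p, _, h => by simp at h
  | (q, s) :: c, p, h, h' => by
    by_cases h1 : p = q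
    · subst h1
      have h2 := h (p, s) (List.mem_cons_self ..)
      simp only at h2
      simp [h2]
    · have h2 : (p == q) = false := by simpa using h1
      simp only [List.lookup_cons, h2]
      refine lookup_of f c p (fun d hd => h d (List.mem_cons_of_mem _ hd)) ?_
      obtain ⟨d, hd, hdp⟩ := h'
      rcases List.mem_cons.1 hd with rfl | hd
      · exact absurd hdp.symm h1
      · exact ⟨d, hd, hdp⟩

theorem lookup_none {α β : Type} [DecidableEq α] :
    ∀ (c : List (α × β)) (p : α), (∀ e ∈ c, e.1 ≠ p) → c.lookup p = none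
  | [], p, _ => rfl
  | (q, s) :: c, p, h => by
    have h1 : (p == q) = false := by
      have := h (q, s) (List.mem_cons_self ..)
      simpa using fun h' : p = q => this h'.symm
    simp only [List.lookup_cons, h1]
    exact lookup_none c p fun e he => h e (List.mem_cons_of_mem _ he)

/-- The correct assignment. -/
def sx (x : ℕ → R) (K : List Pl) : Asg := K.map fun p => (p, SignType.sign (p.ev x))

theorem sx_mem (x : ℕ → R) : ∀ K : List Pl, sx x K ∈ asg K
  | [] => by simp [sx, asg]
  | p :: K => by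
    have h := sx_mem x K
    have h1 : asg (p :: K) = (asg K).flatMap fun a => [(p, -1) :: a, (p, 0) :: a, (p, 1) :: a] :=
      rfl
    rw [h1, List.mem_flatMap]
    refine ⟨sx x K, h, ?_⟩
    have h2 : sx x (p :: K) = (p, SignType.sign (p.ev x)) :: sx x K := rfl
    rw [h2]
    cases SignType.sign (p.ev x) <;> simp

theorem sx_sat (x : ℕ → R) (K : List Pl) : Asg.sat x (sx x K) := by
  intro a ha
  obtain ⟨p, _, rfl⟩ := List.mem_map.1 ha
  rfl

theorem eq_sx (x : ℕ → R) : ∀ (K : List Pl) (σ : Asg), σ ∈ asg K → Asg.sat x σ → σ = sx x K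
  | [], σ, h, _ => by simpa [asg, sx] using h
  | p :: K, σ, h, hs => by
    have h1 : asg (p :: K) = (asg K).flatMap fun a => [(p, -1) :: a, (p, 0) :: a, (p, 1) :: a] :=
      rfl
    rw [h1, List.mem_flatMap] at h
    obtain ⟨a, ha, hσ⟩ := h
    obtain ⟨s, rfl⟩ : ∃ s, σ = (p, s) :: a := by
      simp only [List.mem_cons, List.not_mem_nil, or_false] at hσ
      rcases hσ with h | h | h <;> exact ⟨_, h⟩
    have h2 : s = SignType.sign (p.ev x) := (hs (p, s) (List.mem_cons_self ..)).symm
    have h3 := eq_sx x K a ha fun e he => hs e (List.mem_cons_of_mem _ he)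
    subst h2
    rw [h3]
    rfl

theorem sx_ok (x : ℕ → R) (G : List UP) : SigOK x (sx x G.flatten) G := by
  intro p hp c hc
  rw [lk, lookup_of (fun c : Pl => SignType.sign (c.ev x)) (sx x G.flatten) c]
  · rfl
  · intro e he
    obtain ⟨q, _, rfl⟩ := List.mem_map.1 he
    rfl
  · exact ⟨(c, SignType.sign (c.ev x)), List.mem_map.2 ⟨c, List.mem_flatten.2 ⟨p, hp, hc⟩, rfl⟩,
      rfl⟩

theorem sx_nil (x : ℕ → R) (K : List Pl) : lk (sx x K) [] = 0 := by
  by_cases h : ([] : Pl) ∈ K
  · rw [lk, lookup_of (fun c : Pl => SignType.sign (c.ev x)) (sx x K) []]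
    · simp [Pl.ev]
    · intro e he
      obtain ⟨q, _, rfl⟩ := List.mem_map.1 he
      rfl
    · exact ⟨([], SignType.sign (Pl.ev x [])), List.mem_map.2 ⟨[], h, rfl⟩, rfl⟩
  · rw [lk, lookup_none]
    · rfl
    · intro e he
      obtain ⟨q, hq, rfl⟩ := List.mem_map.1 he
      intro h1
      exact h (h1 ▸ hq)

theorem sat_filter (x : ℕ → R) (K : List Pl) (c : Asg → Bool) :
    Mat.sat x ((asg K).filter c) ↔ c (sx x K) = true := by
  constructor
  · rintro ⟨σ, hσ, hs⟩
    rw [List.mem_filter] at hσ
    rw [← eq_sx x K σ hσ.1 hs]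
    exact hσ.2
  · intro h
    exact ⟨sx x K, List.mem_filter.2 ⟨sx_mem x K, h⟩, sx_sat x K⟩

end Basic

section Field

variable {R : Type*} [Field R] [LinearOrder R] [IsStrictOrderedRing R]

/-- The specification of `cols`. -/
def Spec (R : Type*) [Field R] [LinearOrder R] [IsStrictOrderedRing R] : Prop :=
  ∀ (x : ℕ → R) (G : List UP), Closed G → ∀ σ : Asg, lk σ [] = 0 → SigOK x σ G →
    (∀ y : R, ∃ c ∈ cols σ G, ColAt x G c y) ∧ (∀ c ∈ cols σ G, ∃ y : R, ColAt x G c y)

theorem evC_iff {x : ℕ → R} {i : ℕ} {M : Mat} {c : Col} {y : R}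
    (h : ColAt x (clos (M.pls.map (toU i))) c y) :
    M.evC i c = true ↔ M.sat (Function.update x i y) := by
  have h1 : ∀ cl ∈ M, ∀ a ∈ cl, lk c (toU i a.1) =
      SignType.sign (a.1.ev (Function.update x i y)) := by
    intro cl hcl a ha
    rw [h (toU i a.1), Ops.eval_pol_toU]
    refine Clos.subset_clos _ ?_
    exact List.mem_map.2 ⟨a.1, List.mem_flatMap.2 ⟨cl, hcl, List.mem_map.2 ⟨a, ha, rfl⟩⟩, rfl⟩
  simp only [Mat.evC, List.any_eq_true, List.all_eq_true, decide_eq_true_eq]
  constructor
  · rintro ⟨cl, hcl, h2⟩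
    exact ⟨cl, hcl, fun a ha => by rw [← h1 cl hcl a ha]; exact h2 a ha⟩
  · rintro ⟨cl, hcl, h2⟩
    exact ⟨cl, hcl, fun a ha => by rw [h1 cl hcl a ha]; exact h2 a ha⟩

theorem qe_iff (hS : Spec R) (b : Bool) (i : ℕ) (M : Mat) (x : ℕ → R) :
    (qe b i M).sat x ↔
      if b then ∃ a, M.sat (Function.update x i a) else ∀ a, M.sat (Function.update x i a) := by
  have h1 := hS x (clos (M.pls.map (toU i))) (Clos.closed_clos _) _ (sx_nil x _) (sx_ok x _)
  rw [qe, sat_filter]
  cases b with
  | true =>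
    simp only [if_true, List.any_eq_true]
    constructor
    · rintro ⟨c, hc, h2⟩
      obtain ⟨y, hy⟩ := h1.2 c hc
      exact ⟨y, (evC_iff hy).1 h2⟩
    · rintro ⟨y, hy⟩
      obtain ⟨c, hc, h2⟩ := h1.1 y
      exact ⟨c, hc, (evC_iff h2).2 hy⟩
  | false =>
    simp only [Bool.false_eq_true, if_false, List.all_eq_true]
    constructor
    · intro h y
      obtain ⟨c, hc, h2⟩ := h1.1 y
      exact (evC_iff h2).1 (h c hc)
    · intro h c hc
      obtain ⟨y, hy⟩ := h1.2 c hc
      exact (evC_iff hy).2 (h y)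

/-! ## The decision -/

theorem ev_zero (p : Pl) : p.ev (fun _ => (0 : R)) =
    ((p.filter fun c => c.2 = [] ∧ c.1 = true).length : R) -
      ((p.filter fun c => c.2 = [] ∧ c.1 = false).length : R) := by
  induction p with
  | nil => simp [Pl.ev]
  | cons c p ih =>
    have h1 : Pl.ev (fun _ => (0 : R)) (c :: p) =
        (if c.1 then 1 else -1) * (c.2.map fun _ => (0 : R)).prod + Pl.ev (fun _ => (0 : R)) p := rfl
    rw [h1, ih]
    rcases c with ⟨s, m⟩
    cases m with
    | nil =>
      cases s with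
      | true => simp; ring
      | false => simp; ring
    | cons v m => simp

theorem sg0_eq (p : Pl) : p.sg0 = SignType.sign (p.ev (fun _ => (0 : R))) := by
  rw [ev_zero]
  simp only [Pl.sg0]
  set a := (p.filter fun c => c.2 = [] ∧ c.1 = true).length
  set b := (p.filter fun c => c.2 = [] ∧ c.1 = false).length
  split_ifs with h1 h2
  · have h3 : (a : R) < b := by exact_mod_cast h1
    rw [sign_neg (by linarith)]
  · rw [h2, sub_self, sign_zero]
  · have h3 : (b : R) < a := by
      have : b < a := by omega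
      exact_mod_cast this
    rw [sign_pos (by linarith)]

theorem ev0_iff (M : Mat) : M.ev0 = true ↔ M.sat (fun _ => (0 : R)) := by
  simp only [Mat.ev0, List.any_eq_true, List.all_eq_true, decide_eq_true_eq, sg0_eq (R := R)]
  rfl

theorem fold_iff (hS : Spec R) (M : Mat) : ∀ (qs : List Bool) (i : ℕ) (x : ℕ → R),
    ((qs.zip (List.range' i qs.length)).foldr (fun e M => qe e.1 e.2 M) M).sat x ↔
      SatQ M qs i x
  | [], i, x => Iff.rfl
  | q :: qs, i, x => by
    have h1 : ((q :: qs).zip (List.range' i (q :: qs).length)).foldr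
        (fun e M => qe e.1 e.2 M) M = qe q i ((qs.zip (List.range' (i + 1) qs.length)).foldr
          (fun e M => qe e.1 e.2 M) M) := rfl
    rw [h1, qe_iff hS]
    cases q with
    | true =>
      simp only [if_true, SatQ]
      exact exists_congr fun a => fold_iff hS M qs (i + 1) _
    | false =>
      simp only [Bool.false_eq_true, if_false, SatQ]
      exact forall_congr' fun a => fold_iff hS M qs (i + 1) _

theorem decideQ_iff (hS : Spec R) (qs : List Bool) (M : Mat) :
    decideQ qs M = true ↔ SatQ (R := R) M qs 0 (fun _ => 0) := by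
  rw [decideQ, List.range_eq_range', ← fold_iff hS M qs 0, ← ev0_iff]

end Field

end Pool.Agent.QCT.QE
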