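import Pool.Agent.QCT.Defs

/-!
# Project QCT: polynomials over a real closed field

Signs, the theorem of Rolle, monotonicity, signs for large arguments.
-/

set_option autoImplicit false

namespace Pool.Agent.QCT.RolleP

open Polynomial

variable {R : Type*} [Field R] [LinearOrder R] [IsStrictOrderedRing R]

theorem ivt' [RCF R] (p : R[X]) {a b : R} (hab : a < b) (h : p.eval a * p.eval b < 0) :
    ∃ c, a < c ∧ c < b ∧ p.eval c = 0 := by
  rcases mul_neg_iff.1 h with ⟨h1, h2⟩ | ⟨h1, h2⟩
  · obtain ⟨c, hc1, hc2, hc3⟩ := RCF.ivt (-p) a b hab (by simpa using h1) (by simpa using h2)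
    exact ⟨c, hc1, hc2, by simpa using hc3⟩
  · exact RCF.ivt p a b hab h1 h2

theorem sign_eq' [RCF R] {p : R[X]} {s : Set R} (hs : s.OrdConnected)
    (h : ∀ c ∈ s, p.eval c ≠ 0) {x y : R} (hx : x ∈ s) (hy : y ∈ s) (hxy : x ≤ y) :
    SignType.sign (p.eval x) = SignType.sign (p.eval y) := by
  rcases hxy.eq_or_lt with rfl | hlt
  · rfl
  rcases lt_trichotomy (p.eval x * p.eval y) 0 with hl | he | hg
  · obtain ⟨c, hc1, hc2, hc3⟩ := ivt' p hlt hl
    exact absurd hc3 (h c (hs.out hx hy ⟨hc1.le, hc2.le⟩))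
  · rcases mul_eq_zero.1 he with h0 | h0
    · exact absurd h0 (h x hx)
    · exact absurd h0 (h y hy)
  · rcases mul_pos_iff.1 hg with ⟨h1, h2⟩ | ⟨h1, h2⟩
    · rw [sign_pos h1, sign_pos h2]
    · rw [sign_neg h1, sign_neg h2]

theorem sign_eq [RCF R] {p : R[X]} {s : Set R} (hs : s.OrdConnected)
    (h : ∀ c ∈ s, p.eval c ≠ 0) {x y : R} (hx : x ∈ s) (hy : y ∈ s) :
    SignType.sign (p.eval x) = SignType.sign (p.eval y) := by
  rcases le_total x y with hxy | hxy
  · exact sign_eq' hs h hx hy hxy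
  · exact (sign_eq' hs h hy hx hxy).symm

/-- The theorem of Rolle for two roots with no root between them. -/
theorem rolle_aux [RCF R] {q : R[X]} {x y : R} (hq : q ≠ 0) (hxy : x < y) (hx : q.eval x = 0)
    (hy : q.eval y = 0) (hno : ∀ c, x < c → c < y → q.eval c ≠ 0) :
    ∃ c, x < c ∧ c < y ∧ q.derivative.eval c = 0 := by
  obtain ⟨g1, hg1, hr1⟩ := exists_eq_pow_rootMultiplicity_mul_and_not_dvd q hq x
  set m := rootMultiplicity x q with hm
  have hg10 : g1 ≠ 0 := by
    rintro rfl
    exact hr1 (dvd_zero _)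
  have hm0 : m ≠ 0 := by
    intro h0
    have := (rootMultiplicity_pos hq).2 (show IsRoot q x from hx)
    omega
  have hy1 : g1.eval y = 0 := by
    have h1 := hy
    rw [hg1, eval_mul, eval_pow, eval_sub, eval_X, eval_C] at h1
    rcases mul_eq_zero.1 h1 with h2 | h2
    · exact absurd (pow_eq_zero_iff hm0 |>.1 h2) (sub_ne_zero.2 hxy.ne')
    · exact h2
  obtain ⟨g, hg, hr⟩ := exists_eq_pow_rootMultiplicity_mul_and_not_dvd g1 hg10 y
  set n := rootMultiplicity y g1 with hn
  have hn0 : n ≠ 0 := by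
    intro h0
    have := (rootMultiplicity_pos hg10).2 (show IsRoot g1 y from hy1)
    omega
  have hfac : q = (X - C x) ^ m * ((X - C y) ^ n * g) := by rw [← hg]; exact hg1
  have hgx : g.eval x ≠ 0 := by
    intro h0
    apply hr1
    rw [hg]
    exact Dvd.dvd.mul_left (dvd_iff_isRoot.2 h0) _
  have hgy : g.eval y ≠ 0 := fun h0 => hr (dvd_iff_isRoot.2 h0)
  have hsg : SignType.sign (g.eval x) = SignType.sign (g.eval y) := by
    refine sign_eq (s := Set.Icc x y) Set.ordConnected_Icc ?_ ⟨le_rfl, hxy.le⟩ ⟨hxy.le, le_rfl⟩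
    intro c hc h0
    rcases hc.1.eq_or_lt with h1 | h1
    · exact hgx (by rw [h1]; exact h0)
    rcases hc.2.eq_or_lt with h2 | h2
    · exact hgy (by rw [← h2]; exact h0)
    · apply hno c h1 h2
      rw [hfac]
      simp [h0]
  obtain ⟨m', hm'⟩ : ∃ m', m = m' + 1 := ⟨m - 1, by omega⟩
  obtain ⟨n', hn'⟩ : ∃ n', n = n' + 1 := ⟨n - 1, by omega⟩
  set h : R[X] := C ((m' : R) + 1) * (X - C y) * g + C ((n' : R) + 1) * (X - C x) * g +
    (X - C x) * (X - C y) * derivative g with hh
  have hder : derivative q = (X - C x) ^ m' * (X - C y) ^ n' * h := by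
    rw [hfac, hm', hn', hh]
    simp only [derivative_mul, derivative_pow_succ, derivative_sub, derivative_X, derivative_C,
      map_add, map_natCast, map_one]
    ring
  have hhx : h.eval x = ((m' : R) + 1) * (x - y) * g.eval x := by
    rw [hh]; simp
  have hhy : h.eval y = ((n' : R) + 1) * (y - x) * g.eval y := by
    rw [hh]; simp
  have hm1 : (0 : R) < (m' : R) + 1 := by positivity
  have hn1 : (0 : R) < (n' : R) + 1 := by positivity
  have hgg : 0 < g.eval x * g.eval y := by
    rcases lt_or_gt_of_ne hgx with h1 | h1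
    · have h2 : g.eval y < 0 := by
        rw [sign_neg h1] at hsg
        exact sign_eq_neg_one_iff.1 hsg.symm
      exact mul_pos_of_neg_of_neg h1 h2
    · have h2 : 0 < g.eval y := by
        rw [sign_pos h1] at hsg
        exact sign_eq_one_iff.1 hsg.symm
      exact mul_pos h1 h2
  have hlt : h.eval x * h.eval y < 0 := by
    rw [hhx, hhy]
    have h3 : ((m' : R) + 1) * (x - y) * g.eval x * (((n' : R) + 1) * (y - x) * g.eval y) =
      -((((m' : R) + 1) * ((n' : R) + 1)) * (y - x) ^ 2 * (g.eval x * g.eval y)) := by ring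
    rw [h3, neg_lt_zero]
    have : 0 < (y - x) ^ 2 := by
      have : y - x ≠ 0 := sub_ne_zero.2 hxy.ne'
      positivity
    positivity
  obtain ⟨c, hc1, hc2, hc3⟩ := ivt' h hxy hlt
  refine ⟨c, hc1, hc2, ?_⟩
  rw [hder]
  simp [hc3]

theorem rolle [RCF R] {q : R[X]} {x y : R} (hq : q ≠ 0) (hxy : x < y) (hx : q.eval x = 0)
    (hy : q.eval y = 0) : ∃ c, x < c ∧ c < y ∧ q.derivative.eval c = 0 := by
  classical
  -- the first root after `x`
  set S : Finset R := q.roots.toFinset.filter fun c => x < c ∧ c ≤ y with hS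
  have hyS : y ∈ S := by
    rw [hS, Finset.mem_filter, Multiset.mem_toFinset, mem_roots hq]
    exact ⟨hy, hxy, le_rfl⟩
  have hne : S.Nonempty := ⟨y, hyS⟩
  set z := S.min' hne with hz
  have hzS : z ∈ S := Finset.min'_mem _ _
  rw [hS, Finset.mem_filter, Multiset.mem_toFinset, mem_roots hq] at hzS
  obtain ⟨c, hc1, hc2, hc3⟩ := rolle_aux hq hzS.2.1 hx hzS.1 (by
    intro c h1 h2 h3
    have : c ∈ S := by
      rw [hS, Finset.mem_filter, Multiset.mem_toFinset, mem_roots hq]
      exact ⟨h3, h1, h2.le.trans hzS.2.2⟩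
    exact absurd (Finset.min'_le _ _ this) (not_le.2 h2))
  exact ⟨c, hc1, hc2.trans_le hzS.2.2, hc3⟩

/-- The mean value theorem. -/
theorem mean [RCF R] (p : R[X]) {x y : R} (hxy : x < y) :
    ∃ c, x < c ∧ c < y ∧ p.eval y - p.eval x = p.derivative.eval c * (y - x) := by
  set q : R[X] := (p - C (p.eval x)) * C (y - x) - C (p.eval y - p.eval x) * (X - C x) with hq
  have hqx : q.eval x = 0 := by rw [hq]; simp
  have hqy : q.eval y = 0 := by rw [hq]; simp
  have hd : ∀ c, q.derivative.eval c =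
      p.derivative.eval c * (y - x) - (p.eval y - p.eval x) := by
    intro c
    rw [hq]
    simp
  by_cases h0 : q = 0
  · refine ⟨(x + y) / 2, by linarith, by linarith, ?_⟩
    have := hd ((x + y) / 2)
    rw [h0] at this
    simp only [derivative_zero, eval_zero] at this
    linarith
  · obtain ⟨c, h1, h2, h3⟩ := rolle h0 hxy hqx hqy
    refine ⟨c, h1, h2, ?_⟩
    rw [hd] at h3
    linarith

theorem lt_of_deriv_pos [RCF R] {p : R[X]} {a b : R}
    (h : ∀ c, a < c → c < b → 0 < p.derivative.eval c) {x y : R} (hx : a ≤ x) (hxy : x < y)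
    (hy : y ≤ b) : p.eval x < p.eval y := by
  obtain ⟨c, h1, h2, h3⟩ := mean p hxy
  have h4 := h c (hx.trans_lt h1) (h2.trans_le hy)
  have h5 : 0 < p.derivative.eval c * (y - x) := mul_pos h4 (sub_pos.2 hxy)
  linarith

theorem sign_top {p : R[X]} (hp : p ≠ 0) :
    ∃ a, ∀ x, a < x → SignType.sign (p.eval x) = SignType.sign p.leadingCoeff := by
  set n := p.natDegree with hn
  set S : R := ∑ i ∈ Finset.range n, |p.coeff i| with hS
  have hl : p.leadingCoeff ≠ 0 := leadingCoeff_ne_zero.2 hp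
  have hl' : 0 < |p.leadingCoeff| := abs_pos.2 hl
  refine ⟨max 1 (S / |p.leadingCoeff|), fun x hx => ?_⟩
  have hx1 : 1 < x := (le_max_left _ _).trans_lt hx
  have hx0 : 0 < x := zero_lt_one.trans hx1
  have hxS : S < |p.leadingCoeff| * x := by
    have := (le_max_right _ _).trans_lt hx
    rw [div_lt_iff₀ hl'] at this
    rwa [mul_comm]
  have hev : p.eval x = ∑ i ∈ Finset.range n, p.coeff i * x ^ i + p.leadingCoeff * x ^ n := by
    rw [eval_eq_sum_range, Finset.sum_range_succ]
    rfl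
  have hb : |∑ i ∈ Finset.range n, p.coeff i * x ^ i| < |p.leadingCoeff| * x ^ n := by
    rcases Nat.eq_zero_or_pos n with h0 | h0
    · rw [h0]
      simpa using hl
    · calc |∑ i ∈ Finset.range n, p.coeff i * x ^ i|
          ≤ ∑ i ∈ Finset.range n, |p.coeff i * x ^ i| := Finset.abs_sum_le_sum_abs _ _
        _ ≤ ∑ i ∈ Finset.range n, |p.coeff i| * x ^ (n - 1) := by
            refine Finset.sum_le_sum fun i hi => ?_
            rw [abs_mul, abs_of_pos (pow_pos hx0 i)]
            refine mul_le_mul_of_nonneg_left ?_ (abs_nonneg _)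
            exact pow_le_pow_right₀ hx1.le (by have := Finset.mem_range.1 hi; omega)
        _ = S * x ^ (n - 1) := by rw [← Finset.sum_mul]
        _ < |p.leadingCoeff| * x * x ^ (n - 1) :=
            mul_lt_mul_of_pos_right hxS (pow_pos hx0 _)
        _ = |p.leadingCoeff| * x ^ n := by
            rw [mul_assoc, ← pow_succ']
            congr 2
            omega
  have hxn : 0 < x ^ n := pow_pos hx0 n
  rw [abs_lt] at hb
  rcases lt_or_gt_of_ne hl with h1 | h1
  · rw [sign_neg h1]
    rw [abs_of_neg h1] at hb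
    apply sign_neg
    rw [hev]
    linarith [hb.2]
  · rw [sign_pos h1]
    rw [abs_of_pos h1] at hb
    apply sign_pos
    rw [hev]
    linarith [hb.1]

theorem sign_bot {p : R[X]} (hp : p ≠ 0) :
    ∃ a, ∀ x, x < a → SignType.sign (p.eval x) =
      SignType.sign p.leadingCoeff * (-1) ^ p.natDegree := by
  have hX : (-X : R[X]).natDegree = 1 := by rw [natDegree_neg, natDegree_X]
  have hlc : (p.comp (-X)).leadingCoeff = p.leadingCoeff * (-1) ^ p.natDegree := by
    rw [leadingCoeff_comp (by rw [hX]; exact one_ne_zero), leadingCoeff_neg, leadingCoeff_X]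
  have hp' : p.comp (-X) ≠ 0 := by
    rw [← leadingCoeff_ne_zero, hlc]
    exact mul_ne_zero (leadingCoeff_ne_zero.2 hp) (pow_ne_zero _ (by norm_num))
  obtain ⟨a, ha⟩ := sign_top hp'
  refine ⟨-a, fun x hx => ?_⟩
  have h1 := ha (-x) (by linarith)
  rw [eval_comp, hlc] at h1
  simp only [eval_neg, eval_X, neg_neg] at h1
  rw [h1, sign_mul, sign_pow]
  congr 2
  exact sign_neg (by norm_num)

end Pool.Agent.QCT.RolleP
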