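import Pool.Agent.QCT.Rolle
import Pool.Agent.QCT.Ops
import Pool.Agent.QCT.Clos

/-!
# Project QCT: correctness of the sign tables (P4)
-/

set_option autoImplicit false
set_option linter.unusedSectionVars false

namespace Pool.Agent.QCT.Table

open Polynomial

variable {R : Type*} [Field R] [LinearOrder R] [IsStrictOrderedRing R]

/-! ## Association lists -/

theorem lk_eq {α : Type} [DecidableEq α] {a : List (α × SignType)} {k : α} {s : SignType}
    (h : ∀ e ∈ a, e.1 = k → e.2 = s) (h' : ∃ e ∈ a, e.1 = k) : lk a k = s := by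
  induction a with
  | nil =>
    obtain ⟨e, he, -⟩ := h'
    simp at he
  | cons b a ih =>
    unfold lk
    obtain ⟨b1, b2⟩ := b
    rw [List.lookup_cons]
    by_cases hb : k = b1
    · subst hb
      simp only [beq_self_eq_true, Option.getD_some]
      exact h (k, b2) (by simp) rfl
    · have hb' : (k == b1) = false := by simpa using hb
      simp only [hb']
      refine ih (fun e he => h e (List.mem_cons_of_mem _ he)) ?_
      obtain ⟨e, he, hek⟩ := h'
      rcases List.mem_cons.1 he with rfl | he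
      · exact absurd hek.symm hb
      · exact ⟨e, he, hek⟩

/-! ## Intervals; `none` is minus or plus infinity -/

/-- `y` is to the right of `lo`. -/
def Gt (lo : Option R) (y : R) : Prop := ∀ a, lo = some a → a < y

/-- `y` is to the left of `hi`. -/
def Lt (hi : Option R) (y : R) : Prop := ∀ a, hi = some a → y < a

theorem Gt.trans {lo : Option R} {y z : R} (h : Gt lo y) (hz : y < z) : Gt lo z :=
  fun a ha => (h a ha).trans hz

theorem Lt.trans {hi : Option R} {y z : R} (h : Lt hi y) (hz : z < y) : Lt hi z :=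
  fun a ha => hz.trans (h a ha)

theorem gt_none (y : R) : Gt none y := by
  intro a ha
  simp at ha

theorem lt_none (y : R) : Lt none y := by
  intro a ha
  simp at ha

theorem gt_some {a y : R} : Gt (some a) y ↔ a < y := by
  constructor
  · exact fun h => h a rfl
  · rintro h b hb
    rwa [← Option.some.inj hb]

theorem lt_some {a y : R} : Lt (some a) y ↔ y < a := by
  constructor
  · exact fun h => h a rfl
  · rintro h b hb
    rwa [← Option.some.inj hb]

/-- The sign of `f` at the left end is `s`. -/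
def SgL (f : R → R) (lo : Option R) (s : SignType) : Prop :=
  (∀ a, lo = some a → SignType.sign (f a) = s) ∧
    (lo = none → ∃ a, ∀ y, y < a → SignType.sign (f y) = s)

/-- The sign of `f` at the right end is `s`. -/
def SgR (f : R → R) (hi : Option R) (s : SignType) : Prop :=
  (∀ a, hi = some a → SignType.sign (f a) = s) ∧
    (hi = none → ∃ a, ∀ y, a < y → SignType.sign (f y) = s)

theorem SgL.some {f : R → R} {a : R} {s : SignType} (h : SignType.sign (f a) = s) :
    SgL f (some a) s := ⟨fun b hb => by rwa [← Option.some.inj hb], by simp⟩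

theorem SgR.some {f : R → R} {a : R} {s : SignType} (h : SignType.sign (f a) = s) :
    SgR f (some a) s := ⟨fun b hb => by rwa [← Option.some.inj hb], by simp⟩

theorem SgL.exists {f : R → R} {lo : Option R} {s : SignType} (h : SgL f lo s) {y : R}
    (hy : Gt lo y) : ∃ u, u < y ∧ (∀ z, u < z → Gt lo z) ∧ SignType.sign (f u) = s := by
  rcases lo with _ | a
  · obtain ⟨a, ha⟩ := h.2 rfl
    refine ⟨min y a - 1, ?_, fun z _ => gt_none z, ha _ ?_⟩
    · linarith [min_le_left y a]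
    · linarith [min_le_right y a]
  · exact ⟨a, gt_some.1 hy, fun z hz => gt_some.2 hz, h.1 a rfl⟩

theorem SgR.exists {f : R → R} {hi : Option R} {s : SignType} (h : SgR f hi s) {y : R}
    (hy : Lt hi y) : ∃ v, y < v ∧ (∀ z, z < v → Lt hi z) ∧ SignType.sign (f v) = s := by
  rcases hi with _ | a
  · obtain ⟨a, ha⟩ := h.2 rfl
    refine ⟨max y a + 1, ?_, fun z _ => lt_none z, ha _ ?_⟩
    · linarith [le_max_left y a]
    · linarith [le_max_right y a]
  · exact ⟨a, lt_some.1 hy, fun z hz => lt_some.2 hz, h.1 a rfl⟩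

/-- The conclusion of the monotonicity lemma. -/
def Key (f : R → R) (lo hi : Option R) (sl sr : SignType) : Prop :=
  (sl * sr = -1 → ∃ b, Gt lo b ∧ Lt hi b ∧ f b = 0 ∧
    (∀ y, Gt lo y → y < b → SignType.sign (f y) = sl) ∧
    ∀ y, b < y → Lt hi y → SignType.sign (f y) = sr) ∧
  (sl * sr ≠ -1 → ∀ y, Gt lo y → Lt hi y → SignType.sign (f y) = if sl = 0 then sr else sl)

theorem key_pos [RCF R] {p : R[X]} {lo hi : Option R} (hne : ∃ y, Gt lo y ∧ Lt hi y)
    (hd : ∀ y, Gt lo y → Lt hi y → 0 < p.derivative.eval y) {sl sr : SignType}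
    (hl : SgL (fun y => p.eval y) lo sl) (hr : SgR (fun y => p.eval y) hi sr) :
    Key (fun y => p.eval y) lo hi sl sr := by
  have hmono : ∀ u v, u < v → (∀ z, u < z → Gt lo z) → (∀ z, z < v → Lt hi z) →
      p.eval u < p.eval v := fun u v huv h1 h2 =>
    RolleP.lt_of_deriv_pos (a := u) (b := v) (fun c hc hc' => hd c (h1 c hc) (h2 c hc')) le_rfl huv
      le_rfl
  have hA : ∀ y, Gt lo y → Lt hi y → (sl ≠ -1 → SignType.sign (p.eval y) = 1) ∧
      (sr ≠ 1 → SignType.sign (p.eval y) = -1) := by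
    intro y h1 h2
    obtain ⟨u, hu1, hu2, hu3⟩ := hl.exists h1
    obtain ⟨v, hv1, hv2, hv3⟩ := hr.exists h2
    have e1 := hmono u y hu1 hu2 (fun z hz => h2.trans hz)
    have e2 := hmono y v hv1 (fun z hz => h1.trans hz) hv2
    refine ⟨fun h => ?_, fun h => ?_⟩
    · refine sign_pos (lt_of_le_of_lt ?_ e1)
      by_contra hcon
      push Not at hcon
      exact h (by rw [← hu3]; exact sign_neg hcon)
    · refine sign_neg (lt_of_lt_of_le e2 ?_)
      by_contra hcon
      push Not at hcon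
      exact h (by rw [← hv3]; exact sign_pos hcon)
  obtain ⟨y0, hy1, hy2⟩ := hne
  have hB : ¬ (sl ≠ -1 ∧ sr ≠ 1) := by
    rintro ⟨h1, h2⟩
    have e1 := (hA y0 hy1 hy2).1 h1
    have e2 := (hA y0 hy1 hy2).2 h2
    rw [e1] at e2
    exact absurd e2 (by decide)
  refine ⟨fun h => ?_, fun h y h1 h2 => ?_⟩
  · have h3 : sl = -1 ∧ sr = 1 := by
      revert hB h
      clear * -
      revert sl sr
      decide
    obtain ⟨rfl, rfl⟩ := h3
    obtain ⟨u, hu1, hu2, hu3⟩ := hl.exists hy1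
    obtain ⟨v, hv1, hv2, hv3⟩ := hr.exists hy2
    obtain ⟨c, hc1, hc2, hc3⟩ := RCF.ivt p u v (hu1.trans hv1) (sign_eq_neg_one_iff.1 hu3)
      (sign_eq_one_iff.1 hv3)
    refine ⟨c, hu2 c hc1, hv2 c hc2, hc3, fun y h1 h2 => ?_, fun y h1 h2 => ?_⟩
    · refine sign_neg ?_
      have := hmono y c h2 (fun z hz => h1.trans hz) (fun z hz => (hv2 c hc2).trans hz)
      rwa [hc3] at this
    · refine sign_pos ?_
      have := hmono c y h1 (fun z hz => (hu2 c hc1).trans hz) (fun z hz => h2.trans hz)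
      rwa [hc3] at this
  · have e := hA y h1 h2
    generalize SignType.sign (p.eval y) = s at e ⊢
    revert hB h e
    clear * -
    revert sl sr s
    decide

theorem key [RCF R] {p : R[X]} {lo hi : Option R} (hne : ∃ y, Gt lo y ∧ Lt hi y)
    (hd : ∀ y, Gt lo y → Lt hi y → p.derivative.eval y ≠ 0) {sl sr : SignType}
    (hl : SgL (fun y => p.eval y) lo sl) (hr : SgR (fun y => p.eval y) hi sr) :
    Key (fun y => p.eval y) lo hi sl sr := by
  obtain ⟨y0, hy1, hy2⟩ := hne
  set s : Set R := {y | Gt lo y ∧ Lt hi y} with hs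
  have hoc : s.OrdConnected := by
    refine ⟨?_⟩
    rintro u ⟨hu1, -⟩ v ⟨-, hv2⟩ z ⟨hz1, hz2⟩
    exact ⟨fun a ha => (hu1 a ha).trans_le hz1, fun a ha => hz2.trans_lt (hv2 a ha)⟩
  have hsg : ∀ y ∈ s, SignType.sign (p.derivative.eval y) =
      SignType.sign (p.derivative.eval y0) := fun y hy =>
    RolleP.sign_eq hoc (fun c hc => hd c hc.1 hc.2) hy ⟨hy1, hy2⟩
  rcases lt_or_gt_of_ne (hd y0 hy1 hy2) with h | h
  · have hn : ∀ y, Gt lo y → Lt hi y → 0 < (-p).derivative.eval y := by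
      intro y h1 h2
      have := hsg y ⟨h1, h2⟩
      rw [sign_neg h, sign_eq_neg_one_iff] at this
      rw [derivative_neg, eval_neg]
      linarith
    have hs1 : ∀ y, SignType.sign ((-p).eval y) = -SignType.sign (p.eval y) := by
      intro y
      rw [eval_neg, Left.sign_neg]
    have k := key_pos (p := -p) (sl := -sl) (sr := -sr) ⟨y0, hy1, hy2⟩ hn
      ⟨fun a ha => by simp only [hs1, hl.1 a ha], fun h0 => by
        obtain ⟨a, ha⟩ := hl.2 h0
        exact ⟨a, fun y hy => by simp only [hs1]; rw [ha y hy]⟩⟩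
      ⟨fun a ha => by simp only [hs1, hr.1 a ha], fun h0 => by
        obtain ⟨a, ha⟩ := hr.2 h0
        exact ⟨a, fun y hy => by simp only [hs1]; rw [ha y hy]⟩⟩
    have hmul : -sl * -sr = sl * sr := by
      clear * -
      revert sl sr
      decide
    have hni : ∀ a b : SignType, -a = -b → a = b := by decide
    refine ⟨fun h1 => ?_, fun h1 y h2 h3 => ?_⟩
    · obtain ⟨b, b1, b2, b3, b4, b5⟩ := k.1 (hmul.trans h1)
      refine ⟨b, b1, b2, ?_, fun y h4 h5 => hni _ _ ?_, fun y h4 h5 => hni _ _ ?_⟩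
      · have : -(p.eval b) = 0 := by rw [← eval_neg]; exact b3
        simpa using this
      · rw [← b4 y h4 h5]; exact (hs1 y).symm
      · rw [← b5 y h4 h5]; exact (hs1 y).symm
    · have e := k.2 (by rwa [hmul]) y h2 h3
      simp only [hs1] at e
      apply hni
      rw [e]
      clear * -
      revert sl sr
      decide
  · refine key_pos ⟨y0, hy1, hy2⟩ (fun y h1 h2 => ?_) hl hr
    have := hsg y ⟨h1, h2⟩
    rw [sign_pos h, sign_eq_one_iff] at this
    exact this

/-! ## Correct columns and tables -/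

/-- `c` is the column of the polynomials in `S` at `y`. -/
def CE (x : ℕ → R) (S : Set UP) (c : Col) (y : R) : Prop :=
  (∀ e ∈ c, e.1 ∈ S ∧ e.2 = SignType.sign ((UP.pol x e.1).eval y)) ∧ ∀ p ∈ S, ∃ e ∈ c, e.1 = p

theorem CE.lk {x : ℕ → R} {S : Set UP} {c : Col} {y : R} (h : CE x S c y) {p : UP} (hp : p ∈ S) :
    lk c p = SignType.sign ((UP.pol x p).eval y) :=
  lk_eq (fun e he hep => by rw [(h.1 e he).2, hep]) (h.2 p hp)

theorem CE.cons {x : ℕ → R} {S : Set UP} {c : Col} {y : R} (h : CE x S c y) {p : UP}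
    {s : SignType} (hs : SignType.sign ((UP.pol x p).eval y) = s) :
    CE x (insert p S) ((p, s) :: c) y := by
  refine ⟨fun e he => ?_, fun q hq => ?_⟩
  · rcases List.mem_cons.1 he with rfl | he
    · exact ⟨Set.mem_insert _ _, hs.symm⟩
    · exact ⟨Set.mem_insert_of_mem _ (h.1 e he).1, (h.1 e he).2⟩
  · rcases hq with rfl | hq
    · exact ⟨_, List.mem_cons_self, rfl⟩
    · obtain ⟨e, he, hep⟩ := h.2 q hq
      exact ⟨e, List.mem_cons_of_mem _ he, hep⟩

/-- Points of the table are roots. -/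
def Rt (x : ℕ → R) (σ : Asg) (S : Set UP) (a : R) : Prop :=
  ∃ q ∈ S, 2 ≤ q.length ∧ lk σ q.lc ≠ 0 ∧ (UP.pol x q).eval a = 0

/-- Correct tables, to the right of `lo`. -/
def OK (x : ℕ → R) (σ : Asg) (S : Set UP) : Option R → Col → List (Col × Col) → Prop
  | lo, c, [] => ∀ y, Gt lo y → CE x S c y
  | lo, c, e :: l => ∃ a : R, Gt lo a ∧ (∀ y, Gt lo y → y < a → CE x S c y) ∧ CE x S e.1 a ∧
      Rt x σ S a ∧ OK x σ S (some a) e.2 l

theorem OK.exists_col {x : ℕ → R} {σ : Asg} {S : Set UP} : ∀ (l : List (Col × Col))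
    (lo : Option R) (c : Col), OK x σ S lo c l → ∀ y, Gt lo y →
      CE x S c y ∨ ∃ e ∈ l, CE x S e.1 y ∨ CE x S e.2 y
  | [], lo, c, h, y, hy => Or.inl (h y hy)
  | e :: l, lo, c, h, y, hy => by
    obtain ⟨a, h1, h2, h3, -, h5⟩ := h
    rcases lt_trichotomy y a with hya | rfl | hya
    · exact Or.inl (h2 y hy hya)
    · exact Or.inr ⟨e, List.mem_cons_self, Or.inl h3⟩
    · rcases OK.exists_col l (some a) e.2 h5 y (gt_some.2 hya) with h6 | ⟨e', he', h6⟩
      · exact Or.inr ⟨e, List.mem_cons_self, Or.inr h6⟩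
      · exact Or.inr ⟨e', List.mem_cons_of_mem _ he', h6⟩

theorem exists_gt (lo : Option R) : ∃ y, Gt lo y := by
  rcases lo with _ | a
  · exact ⟨0, gt_none _⟩
  · exact ⟨a + 1, gt_some.2 (lt_add_one a)⟩

theorem exists_between_gt {lo : Option R} {a : R} (h : Gt lo a) : ∃ y, Gt lo y ∧ y < a := by
  rcases lo with _ | b
  · exact ⟨a - 1, gt_none _, sub_one_lt a⟩
  · obtain ⟨y, h1, h2⟩ := exists_between (gt_some.1 h)
    exact ⟨y, gt_some.2 h1, h2⟩

theorem OK.realized_left {x : ℕ → R} {σ : Asg} {S : Set UP} {l : List (Col × Col)}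
    {lo : Option R} {c : Col} (h : OK x σ S lo c l) : ∃ y, CE x S c y := by
  rcases l with _ | ⟨e, l⟩
  · obtain ⟨y, hy⟩ := exists_gt lo
    exact ⟨y, h y hy⟩
  · obtain ⟨a, h1, h2, -⟩ := h
    obtain ⟨y, hy1, hy2⟩ := exists_between_gt h1
    exact ⟨y, h2 y hy1 hy2⟩

theorem OK.realized {x : ℕ → R} {σ : Asg} {S : Set UP} : ∀ (l : List (Col × Col))
    (lo : Option R) (c : Col), OK x σ S lo c l → ∀ e ∈ l, (∃ y, CE x S e.1 y) ∧ ∃ y, CE x S e.2 y
  | [], _, _, _, _, he => by simp at he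
  | e :: l, lo, c, h, e', he' => by
    obtain ⟨a, -, -, h3, -, h5⟩ := h
    rcases List.mem_cons.1 he' with rfl | he'
    · exact ⟨⟨a, h3⟩, h5.realized_left⟩
    · exact OK.realized l _ _ h5 e' he'

/-! ## Splitting of an interval -/

theorem spl_ok [RCF R] {x : ℕ → R} {S : Set UP} {p : UP} {lo hi : Option R} {c : Col}
    (hne : ∃ y, Gt lo y ∧ Lt hi y) (hdv : p.dv ∈ S) (hd : (UP.pol x p).derivative ≠ 0)
    (hc : ∀ y, Gt lo y → Lt hi y → CE x S c y) {sl sr : SignType}
    (hl : SgL (fun y => (UP.pol x p).eval y) lo sl)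
    (hr : SgR (fun y => (UP.pol x p).eval y) hi sr) :
    (sl * sr = -1 → ∃ b, Gt lo b ∧ Lt hi b ∧ (UP.pol x p).eval b = 0 ∧
      (∀ y, Gt lo y → y < b → CE x (insert p S) ((p, sl) :: c) y) ∧
      CE x (insert p S) ((p, 0) :: c) b ∧
      ∀ y, b < y → Lt hi y → CE x (insert p S) ((p, sr) :: c) y) ∧
    (sl * sr ≠ -1 → ∀ y, Gt lo y → Lt hi y →
      CE x (insert p S) ((p, if sl = 0 then sr else sl) :: c) y) := by
  have hd' : ∀ y, Gt lo y → Lt hi y → (UP.pol x p).derivative.eval y ≠ 0 := by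
    intro y h1 h2 h3
    apply hd
    obtain ⟨z, hz1, hz2⟩ : ∃ z, y < z ∧ Lt hi z := by
      rcases hi with _ | a
      · exact ⟨y + 1, lt_add_one y, lt_none _⟩
      · obtain ⟨z, h4, h5⟩ := exists_between (lt_some.1 h2)
        exact ⟨z, h4, lt_some.2 h5⟩
    refine Polynomial.eq_zero_of_infinite_isRoot _ ((Set.Ioo_infinite hz1).mono ?_)
    rintro w ⟨hw1, hw2⟩
    have e1 := (hc y h1 h2).lk hdv
    have e2 := (hc w (h1.trans hw1) (hz2.trans hw2)).lk hdv
    rw [e1, Ops.pol_dv, h3, sign_zero] at e2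
    exact sign_eq_zero_iff.1 e2.symm
  have k := key hne hd' hl hr
  refine ⟨fun h => ?_, fun h y h1 h2 => (hc y h1 h2).cons (k.2 h y h1 h2)⟩
  obtain ⟨b, b1, b2, b3, b4, b5⟩ := k.1 h
  refine ⟨b, b1, b2, b3, fun y h1 h2 => (hc y h1 (b2.trans h2)).cons (b4 y h1 h2),
    (hc b b1 b2).cons ?_, fun y h1 h2 => (hc y (b1.trans h1) h2).cons (b5 y h1 h2)⟩
  have : (UP.pol x p).eval b = 0 := b3
  rw [this, sign_zero]

/-- The step of the loop. -/
def step (σ : Asg) (p : UP) (e : Col × Col) (acc : SignType × List (Col × Col)) :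
    SignType × List (Col × Col) :=
  (sgA p σ e.1, ((p, sgA p σ e.1) :: e.1, (spl p e.2 (sgA p σ e.1) acc.1).1) ::
    ((spl p e.2 (sgA p σ e.1) acc.1).2 ++ acc.2))

/-- The hypotheses on the polynomial. -/
structure HP (x : ℕ → R) (σ : Asg) (S : Set UP) (p : UP) : Prop where
  len : 2 ≤ p.length
  lc : lk σ p.lc ≠ 0
  dv : p.dv ∈ S
  der : (UP.pol x p).derivative ≠ 0
  top : SgR (fun y => (UP.pol x p).eval y) none (lk σ p.lc)
  bot : SgL (fun y => (UP.pol x p).eval y) none (lk σ p.lc * (-1) ^ (p.length - 1))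
  sgA : ∀ d a, CE x S d a → Rt x σ S a → sgA p σ d = SignType.sign ((UP.pol x p).eval a)

theorem Rt.mono {x : ℕ → R} {σ : Asg} {S : Set UP} {a : R} (h : Rt x σ S a) (p : UP) :
    Rt x σ (insert p S) a := by
  obtain ⟨q, h1, h2⟩ := h
  exact ⟨q, Set.mem_insert_of_mem _ h1, h2⟩

theorem fold_ok [RCF R] {x : ℕ → R} {σ : Asg} {S : Set UP} {p : UP} (H : HP x σ S p) :
    ∀ (l : List (Col × Col)) (lo : Option R) (c : Col) (sl : SignType),
      SgL (fun y => (UP.pol x p).eval y) lo sl → OK x σ S lo c l →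
      OK x σ (insert p S) lo (spl p c sl (l.foldr (step σ p) (lk σ p.lc, [])).1).1
        ((spl p c sl (l.foldr (step σ p) (lk σ p.lc, [])).1).2 ++
          (l.foldr (step σ p) (lk σ p.lc, [])).2)
  | [], lo, c, sl, hl, h => by
    have hne : ∃ y, Gt lo y ∧ Lt none y := by
      obtain ⟨y, hy⟩ := exists_gt lo
      exact ⟨y, hy, lt_none y⟩
    have k := spl_ok (x := x) (S := S) (p := p) (c := c) hne H.dv H.der
      (fun y h1 _ => h y h1) hl H.top
    simp only [List.foldr_nil]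
    unfold spl
    by_cases hs : sl * lk σ p.lc = -1
    · rw [if_pos hs]
      obtain ⟨b, b1, b2, b3, b4, b5, b6⟩ := k.1 hs
      exact ⟨b, b1, b4, b5, ⟨p, Set.mem_insert _ _, H.len, H.lc, b3⟩,
        fun y hy => b6 y (gt_some.1 hy) (lt_none y)⟩
    · rw [if_neg hs]
      exact fun y hy => k.2 hs y hy (lt_none y)
  | e :: l, lo, c, sl, hl, h => by
    obtain ⟨a, h1, h2, h3, h4, h5⟩ := h
    have hsA := H.sgA e.1 a h3 h4
    have ih := fold_ok H l (some a) e.2 (sgA p σ e.1) (SgL.some hsA.symm) h5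
    have hne : ∃ y, Gt lo y ∧ Lt (some a) y := by
      obtain ⟨y, hy1, hy2⟩ := exists_between_gt h1
      exact ⟨y, hy1, lt_some.2 hy2⟩
    have k := spl_ok (x := x) (S := S) (p := p) (c := c) hne H.dv H.der
      (fun y h6 h7 => h2 y h6 (lt_some.1 h7)) hl (SgR.some hsA.symm)
    have hstep : (e :: l).foldr (step σ p) (lk σ p.lc, []) =
      step σ p e (l.foldr (step σ p) (lk σ p.lc, [])) := rfl
    rw [hstep]
    set r := l.foldr (step σ p) (lk σ p.lc, []) with hr
    simp only [step]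
    have hcons := h3.cons (p := p) (s := sgA p σ e.1) hsA.symm
    unfold spl at ih ⊢
    by_cases hs : sl * sgA p σ e.1 = -1
    · rw [if_pos hs]
      obtain ⟨b, b1, b2, b3, b4, b5, b6⟩ := k.1 hs
      exact ⟨b, b1, b4, b5, ⟨p, Set.mem_insert _ _, H.len, H.lc, b3⟩,
        a, gt_some.2 (lt_some.1 b2), fun y hy hy' => b6 y (gt_some.1 hy) (lt_some.2 hy'),
        hcons, h4.mono p, ih⟩
    · rw [if_neg hs]
      exact ⟨a, h1, fun y hy hy' => k.2 hs y hy (lt_some.2 hy'), hcons, h4.mono p, ih⟩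

/-! ## The polynomial of a list -/

theorem coeff_pol (x : ℕ → R) (p : UP) (j : ℕ) :
    (UP.pol x p).coeff j = if j < p.length then (p.getD j []).ev x else 0 := by
  unfold UP.pol
  rw [Polynomial.finsetSum_coeff]
  simp only [Polynomial.coeff_C_mul_X_pow]
  by_cases h : j < p.length
  · rw [if_pos h, Finset.sum_eq_single j]
    · simp
    · intro b _ hb
      rw [if_neg (Ne.symm hb)]
    · intro h'
      exact absurd (Finset.mem_range.2 h) h'
  · rw [if_neg h]
    refine Finset.sum_eq_zero fun b hb => ?_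
    rw [if_neg]
    rintro rfl
    exact h (Finset.mem_range.1 hb)

theorem lc_mem {p : UP} (h : 1 ≤ p.length) : p.lc ∈ p := by
  unfold UP.lc
  rw [List.getD_eq_getElem _ _ (by omega)]
  exact List.getElem_mem _

theorem natDegree_pol (x : ℕ → R) {p : UP} (h : 1 ≤ p.length) (h' : p.lc.ev x ≠ 0) :
    (UP.pol x p).natDegree = p.length - 1 := by
  refine Polynomial.natDegree_eq_of_le_of_coeff_ne_zero ?_ ?_
  · refine Polynomial.natDegree_le_iff_coeff_eq_zero.2 fun j hj => ?_
    rw [coeff_pol, if_neg (by omega)]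
  · rw [coeff_pol, if_pos (by omega)]
    exact h'

theorem leadingCoeff_pol (x : ℕ → R) {p : UP} (h : 1 ≤ p.length) (h' : p.lc.ev x ≠ 0) :
    (UP.pol x p).leadingCoeff = p.lc.ev x := by
  rw [Polynomial.leadingCoeff, natDegree_pol x h h', coeff_pol, if_pos (by omega)]
  rfl

/-! ## Processing of one polynomial -/

/-- The polynomial `p` is the next one. -/
structure Pre (G : List UP) (S : Set UP) (p : UP) : Prop where
  mem : p ∈ G
  sub : ∀ q ∈ S, q ∈ G
  le : ∀ q ∈ S, q.length ≤ p.length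
  lt : ∀ q ∈ G, q.length < p.length → q ∈ S

theorem sgA_ok {x : ℕ → R} {σ : Asg} {G : List UP} {S : Set UP} {p : UP} (hG : Closed G)
    (hσ : SigOK x σ G) (H : Pre G S p) {d : Col} {a : R} (hd : CE x S d a)
    (ha : Rt x σ S a) : sgA p σ d = SignType.sign ((UP.pol x p).eval a) := by
  have hne : (d.filter fun e => 2 ≤ e.1.length ∧ lk σ e.1.lc ≠ 0 ∧ e.2 = 0) ≠ [] := by
    obtain ⟨q, h1, h2, h3, h4⟩ := ha
    obtain ⟨e, he, rfl⟩ := hd.2 q h1
    refine List.ne_nil_of_mem (a := e) ?_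
    rw [List.mem_filter]
    refine ⟨he, ?_⟩
    have h5 := (hd.1 e he).2
    rw [h4, sign_zero] at h5
    simp [h2, h3, h5]
  unfold sgA
  cases hL : (d.filter fun e => 2 ≤ e.1.length ∧ lk σ e.1.lc ≠ 0 ∧ e.2 = 0) with
  | nil => exact absurd hL hne
  | cons e l =>
    simp only [List.head?_cons]
    have he : e ∈ d.filter fun e => 2 ≤ e.1.length ∧ lk σ e.1.lc ≠ 0 ∧ e.2 = 0 := by
      rw [hL]
      exact List.mem_cons_self
    rw [List.mem_filter] at he
    obtain ⟨he1, he2⟩ := he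
    simp only [decide_eq_true_eq] at he2
    obtain ⟨h2, h3, h4⟩ := he2
    obtain ⟨h5, h6⟩ := hd.1 e he1
    have hle := H.le _ h5
    have hGe := H.sub _ h5
    have hS : p.prem e.1 ∈ S := H.lt _ (hG.prem p H.mem e.1 hGe h2 hle)
      ((Ops.length_prem h2 hle).trans_le hle)
    rw [hd.lk hS]
    obtain ⟨m, b, hb⟩ := Ops.pol_prem x h2 hle
    have hz : (UP.pol x e.1).eval a = 0 := by
      rw [h4] at h6
      exact sign_eq_zero_iff.1 h6.symm
    have h7 := congrArg (Polynomial.eval a) hb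
    rw [eval_mul, eval_C, eval_add, eval_mul, hz, mul_zero, zero_add] at h7
    rw [← h7, sign_mul]
    have h8 : e.1.lc.ev x ≠ 0 := by
      have := hσ e.1 hGe _ (lc_mem (by omega))
      rw [this] at h3
      exact fun h => h3 (by rw [h, sign_zero])
    rw [sign_pos (by
      rw [pow_mul]
      exact pow_pos (by positivity) m), one_mul]

theorem HP_of_pre {x : ℕ → R} {σ : Asg} {G : List UP} {S : Set UP} {p : UP}
    (hG : Closed G) (hσ : SigOK x σ G) (H : Pre G S p) (h2 : 2 ≤ p.length)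
    (hlc : lk σ p.lc ≠ 0) : HP x σ S p := by
  have h1 : 1 ≤ p.length := by omega
  have hs := hσ p H.mem _ (lc_mem h1)
  have h8 : p.lc.ev x ≠ 0 := by
    rw [hs] at hlc
    exact fun h => hlc (by rw [h, sign_zero])
  have hdeg := natDegree_pol x h1 h8
  have hlead := leadingCoeff_pol x h1 h8
  have hp0 : UP.pol x p ≠ 0 := by
    intro h
    rw [h, leadingCoeff_zero] at hlead
    exact h8 hlead.symm
  refine ⟨h2, hlc, H.lt _ (hG.dv p H.mem h2) (by rw [Ops.length_dv]; omega), fun h => ?_,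
    ⟨by simp, fun _ => ?_⟩, ⟨by simp, fun _ => ?_⟩, fun d a hd ha => sgA_ok hG hσ H hd ha⟩
  · have := Polynomial.derivative_eq_zero.1 h
    omega
  · obtain ⟨a, ha⟩ := RolleP.sign_top hp0
    exact ⟨a, fun y hy => by rw [ha y hy, hlead, hs]⟩
  · obtain ⟨a, ha⟩ := RolleP.sign_bot hp0
    exact ⟨a, fun y hy => by rw [ha y hy, hlead, hs, hdeg]⟩

theorem sgT_ok {x : ℕ → R} {σ : Asg} {G : List UP} {S : Set UP} {p : UP} (hG : Closed G)
    (h0 : lk σ [] = 0) (hσ : SigOK x σ G) (H : Pre G S p)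
    (hp : ¬ (2 ≤ p.length ∧ lk σ p.lc ≠ 0)) {c : Col} {y : R} (hc : CE x S c y) :
    sgT p σ c = SignType.sign ((UP.pol x p).eval y) := by
  unfold sgT
  rcases Nat.eq_zero_or_pos p.length with hl | hl
  · have hp : p = [] := List.length_eq_zero_iff.1 hl
    subst hp
    have h1 : UP.lc [] = [] := rfl
    rw [h1, h0]
    simp [UP.pol]
  · have hs := hσ p H.mem _ (lc_mem hl)
    have ht := Ops.pol_tr x hl
    have he : (UP.pol x p).eval y = (UP.pol x p.tr).eval y + p.lc.ev x * y ^ (p.length - 1) := by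
      rw [ht]
      simp only [eval_add, eval_mul, eval_C, eval_pow, eval_X]
    by_cases hz : lk σ p.lc = 0
    · have h8 : p.lc.ev x = 0 := by
        rw [hs] at hz
        exact sign_eq_zero_iff.1 hz
      rw [if_pos hz, he, h8, zero_mul, add_zero]
      by_cases h2 : 2 ≤ p.length
      · rw [if_pos h2]
        exact hc.lk (H.lt _ (hG.tr p H.mem h2) (by rw [Ops.length_tr]; omega))
      · rw [if_neg h2]
        have : p.tr = [] := by
          rw [← List.length_eq_zero_iff, Ops.length_tr]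
          omega
        rw [this]
        simp [UP.pol]
    · rw [if_neg hz]
      have h1 : p.length = 1 := by
        by_contra hne
        exact hp ⟨by omega, hz⟩
      have : p.tr = [] := by
        rw [← List.length_eq_zero_iff, Ops.length_tr]
        omega
      rw [he, this, h1, hs]
      simp [UP.pol]

theorem OK.map {x : ℕ → R} {σ : Asg} {S : Set UP} {p : UP} {f : Col → SignType}
    (hf : ∀ c y, CE x S c y → f c = SignType.sign ((UP.pol x p).eval y)) :
    ∀ (l : List (Col × Col)) (lo : Option R) (c : Col), OK x σ S lo c l →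
      OK x σ (insert p S) lo ((p, f c) :: c)
        (l.map fun e => ((p, f e.1) :: e.1, (p, f e.2) :: e.2))
  | [], _, _, h => fun y hy => (h y hy).cons (hf _ _ (h y hy)).symm
  | e :: l, lo, c, h => by
    obtain ⟨a, h1, h2, h3, h4, h5⟩ := h
    exact ⟨a, h1, fun y hy hy' => (h2 y hy hy').cons (hf _ _ (h2 y hy hy')).symm,
      h3.cons (hf _ _ h3).symm, h4.mono p, OK.map hf l _ _ h5⟩

theorem addP_ok [RCF R] {x : ℕ → R} {σ : Asg} {G : List UP} {S : Set UP} {p : UP}
    (hG : Closed G) (h0 : lk σ [] = 0) (hσ : SigOK x σ G) (H : Pre G S p) {T : Tab}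
    (hT : OK x σ S none T.1 T.2) :
    OK x σ (insert p S) none (addP σ T p).1 (addP σ T p).2 := by
  unfold addP
  by_cases hp : 2 ≤ p.length ∧ lk σ p.lc ≠ 0
  · rw [if_pos hp]
    have hH := HP_of_pre hG hσ H hp.1 hp.2
    exact fold_ok hH T.2 none T.1 _ hH.bot hT
  · rw [if_neg hp]
    exact OK.map (fun c y hc => sgT_ok hG h0 hσ H hp hc) T.2 none T.1 hT

theorem foldl_ok [RCF R] {x : ℕ → R} {σ : Asg} {G : List UP}
    (hG : Closed G) (h0 : lk σ [] = 0) (hσ : SigOK x σ G) : ∀ (L2 L1 : List UP) (T : Tab),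
      srt G = L1 ++ L2 → OK x σ {q | q ∈ L1} none T.1 T.2 →
      OK x σ {q | q ∈ srt G} none (L2.foldl (addP σ) T).1 (L2.foldl (addP σ) T).2
  | [], L1, T, h, hT => by
    rw [h, List.append_nil]
    exact hT
  | p :: L2, L1, T, h, hT => by
    have hs := Clos.srt_sorted G
    rw [h, List.pairwise_append, List.pairwise_cons] at hs
    have H : Pre G {q | q ∈ L1} p := by
      refine ⟨?_, fun q hq => ?_, fun q hq => hs.2.2 q hq p List.mem_cons_self,
        fun q hq hlt => ?_⟩
      · rw [← Clos.mem_srt, h]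
        simp
      · rw [← Clos.mem_srt, h]
        exact List.mem_append_left _ hq
      · rw [← Clos.mem_srt, h, List.mem_append, List.mem_cons] at hq
        rcases hq with hq | rfl | hq
        · exact hq
        · exact absurd hlt (lt_irrefl _)
        · exact absurd (hs.2.1.1 q hq) (not_le.2 hlt)
    have e := addP_ok hG h0 hσ H hT
    have hS : (insert p {q | q ∈ L1} : Set UP) = {q | q ∈ L1 ++ [p]} := by
      ext q
      simp only [Set.mem_insert_iff, Set.mem_ofPred_eq, List.mem_append, List.mem_singleton]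
      exact or_comm
    rw [hS] at e
    rw [List.foldl_cons]
    exact foldl_ok hG h0 hσ L2 (L1 ++ [p]) (addP σ T p) (by rw [h]; simp) e

theorem cols_spec' [RCF R] (x : ℕ → R) {G : List UP} (hG : Closed G) {σ : Asg}
    (h0 : lk σ [] = 0) (hσ : SigOK x σ G) :
    (∀ y : R, ∃ c ∈ cols σ G, ColAt x G c y) ∧ (∀ c ∈ cols σ G, ∃ y : R, ColAt x G c y) := by
  have h : OK x σ {q | q ∈ srt G} none (tabl σ G).1 (tabl σ G).2 := by
    refine foldl_ok hG h0 hσ (srt G) [] ([], []) rfl ?_
    intro y _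
    exact ⟨by simp, by simp⟩
  have hcol : ∀ c y, CE x {q | q ∈ srt G} c y → ColAt x G c y := fun c y hc p hp =>
    hc.lk (Clos.mem_srt.2 hp)
  refine ⟨fun y => ?_, fun c hc => ?_⟩
  · rcases OK.exists_col _ _ _ h y (gt_none y) with h1 | ⟨e, he, h1 | h1⟩
    · exact ⟨_, List.mem_cons_self, hcol _ _ h1⟩
    · exact ⟨e.1, List.mem_cons_of_mem _ (List.mem_flatMap.2 ⟨e, he, by simp⟩), hcol _ _ h1⟩
    · exact ⟨e.2, List.mem_cons_of_mem _ (List.mem_flatMap.2 ⟨e, he, by simp⟩), hcol _ _ h1⟩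
  · rcases List.mem_cons.1 hc with rfl | hc
    · obtain ⟨y, hy⟩ := h.realized_left
      exact ⟨y, hcol _ _ hy⟩
    · obtain ⟨e, he, hce⟩ := List.mem_flatMap.1 hc
      obtain ⟨⟨y1, h1⟩, y2, h2⟩ := OK.realized _ _ _ h e he
      simp only [List.mem_cons, List.not_mem_nil, or_false] at hce
      rcases hce with rfl | rfl
      · exact ⟨y1, hcol _ _ h1⟩
      · exact ⟨y2, hcol _ _ h2⟩

end Pool.Agent.QCT.Table
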