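import Pool.Agent.QCT.PolDef
import Pool.Agent.QCT.Clos
import Pool.Agent.QCT.Ops
import Pool.Agent.QCT.QE
import Pool.Agent.QCT.Rolle
import Pool.Agent.QCT.Table

/-!
# Project QCT: statements of the quantifier elimination (P2 - P5)

Prove each group in its own file; then replace the `sorry` here by the theorem (primed name).
-/

namespace Pool.Agent.QCT

open Polynomial

variable {R : Type*} [Field R] [LinearOrder R] [IsStrictOrderedRing R]

/-! ## P2: polynomials over a real closed field (QCT/Rolle.lean) -/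

theorem RCF.lt_of_deriv_pos [RCF R] {p : R[X]} {a b : R}
    (h : ∀ c, a < c → c < b → 0 < p.derivative.eval c) {x y : R} (hx : a ≤ x) (hxy : x < y)
    (hy : y ≤ b) : p.eval x < p.eval y :=
  RolleP.lt_of_deriv_pos h hx hxy hy

theorem RCF.sign_eq [RCF R] {p : R[X]} {s : Set R} (hs : s.OrdConnected)
    (h : ∀ c ∈ s, p.eval c ≠ 0) {x y : R} (hx : x ∈ s) (hy : y ∈ s) :
    SignType.sign (p.eval x) = SignType.sign (p.eval y) :=
  RolleP.sign_eq hs h hx hy

theorem sign_top {p : R[X]} (hp : p ≠ 0) :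
    ∃ a, ∀ x, a < x → SignType.sign (p.eval x) = SignType.sign p.leadingCoeff :=
  RolleP.sign_top hp

theorem sign_bot {p : R[X]} (hp : p ≠ 0) :
    ∃ a, ∀ x, x < a → SignType.sign (p.eval x) =
      SignType.sign p.leadingCoeff * (-1) ^ p.natDegree :=
  RolleP.sign_bot hp

/-! ## P3: semantics of the operations (QCT/Ops.lean), closure (QCT/Clos.lean) -/

theorem eval_pol_toU (x : ℕ → R) (i : ℕ) (p : Pl) (y : R) :
    (UP.pol x (toU i p)).eval y = p.ev (Function.update x i y) :=
  Ops.eval_pol_toU x i p y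

theorem pol_tr (x : ℕ → R) {p : UP} (hp : 1 ≤ p.length) :
    UP.pol x p = UP.pol x p.tr + C (p.lc.ev x) * X ^ (p.length - 1) :=
  Ops.pol_tr x hp

theorem pol_dv (x : ℕ → R) (p : UP) : UP.pol x p.dv = (UP.pol x p).derivative :=
  Ops.pol_dv x p

theorem pol_prem (x : ℕ → R) {p q : UP} (h : 2 ≤ q.length) (h' : q.length ≤ p.length) :
    ∃ (e : ℕ) (a : R[X]), C (q.lc.ev x ^ (2 * e)) * UP.pol x p =
      a * UP.pol x q + UP.pol x (p.prem q) :=
  Ops.pol_prem x h h'

theorem length_tr (p : UP) : p.tr.length = p.length - 1 :=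
  Ops.length_tr p

theorem length_dv (p : UP) : p.dv.length = p.length - 1 :=
  Ops.length_dv p

theorem length_prem {p q : UP} (h : 2 ≤ q.length) (h' : q.length ≤ p.length) :
    (p.prem q).length < q.length :=
  Ops.length_prem h h'

theorem closed_clos (F : List UP) : Closed (clos F) := Clos.closed_clos F

theorem subset_clos (F : List UP) : F ⊆ clos F := Clos.subset_clos F

theorem mem_srt {G : List UP} {p : UP} : p ∈ srt G ↔ p ∈ G := Clos.mem_srt

theorem srt_sorted (G : List UP) : (srt G).Pairwise fun p q => p.length ≤ q.length :=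
  Clos.srt_sorted G

/-! ## P4: the table (QCT/Table.lean) -/

theorem cols_spec [RCF R] (x : ℕ → R) {G : List UP} (hG : Closed G) {σ : Asg}
    (h0 : lk σ [] = 0) (hσ : SigOK x σ G) :
    (∀ y : R, ∃ c ∈ cols σ G, ColAt x G c y) ∧ (∀ c ∈ cols σ G, ∃ y : R, ColAt x G c y) :=
  Table.cols_spec' x hG h0 hσ

/-! ## P5: quantifier elimination (QCT/QE.lean) -/

theorem qe_iff [RCF R] (b : Bool) (i : ℕ) (M : Mat) (x : ℕ → R) :
    (qe b i M).sat x ↔
      if b then ∃ a, M.sat (Function.update x i a) else ∀ a, M.sat (Function.update x i a) :=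
  QE.qe_iff (fun x _ hG _ h0 hσ => cols_spec x hG h0 hσ) b i M x

theorem decideQ_iff' [RCF R] (qs : List Bool) (M : Mat) :
    decideQ qs M = true ↔ SatQ (R := R) M qs 0 (fun _ => 0) :=
  QE.decideQ_iff (fun x _ hG _ h0 hσ => cols_spec x hG h0 hσ) qs M

end Pool.Agent.QCT
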