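import Pool.Agent.QCT.DpDef
import Pool.Agent.QCT.StubA

/-!
# Project QCT, P9a: definable predicates and functions
-/

namespace Pool.Agent.QCT.Dp

open MvPolynomial

/-! ## Definable sets -/

section Sets

variable {α β γ : Type}

theorem ds_congr {S T : Set (α → ℝ)} (h : DS S) (e : ∀ x, x ∈ T ↔ x ∈ S) : DS T := by
  rw [Set.ext e]
  exact h

theorem ds_inter {S T : Set (α → ℝ)} (hS : DS S) (hT : DS T) : DS (S ∩ T) := by
  refine ds_congr ((hS.compl.union hT.compl).compl) fun x => ?_
  simp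

theorem ds_empty : DS (∅ : Set (α → ℝ)) :=
  ds_congr (DS.pos 0) fun x => by simp

theorem ds_univ : DS (Set.univ : Set (α → ℝ)) :=
  ds_congr ds_empty.compl fun x => by simp

theorem ds_prop (p : Prop) : DS {_x : α → ℝ | p} := by
  by_cases h : p
  · exact ds_congr ds_univ fun x => by simp [h]
  · exact ds_congr ds_empty fun x => by simp [h]

theorem ds_iUnion {ι : Type*} [Finite ι] {S : ι → Set (α → ℝ)} (h : ∀ i, DS (S i)) :
    DS (⋃ i, S i) := by
  classical
  have := Fintype.ofFinite ι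
  have key : ∀ s : Finset ι, DS (⋃ i ∈ s, S i) := by
    intro s
    induction s using Finset.induction_on with
    | empty => exact ds_congr ds_empty fun x => by simp
    | insert a s _ ih => exact ds_congr ((h a).union ih) fun x => by simp
  exact ds_congr (key Finset.univ) fun x => by simp

theorem ds_iInter {ι : Type*} [Finite ι] {S : ι → Set (α → ℝ)} (h : ∀ i, DS (S i)) :
    DS (⋂ i, S i) := by
  refine ds_congr (ds_iUnion fun i => (h i).compl).compl fun x => ?_
  simp

theorem ds_lt (p q : MvPolynomial α ℤ) : DS {x : α → ℝ | aeval x p < aeval x q} :=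
  ds_congr (DS.pos (q - p)) fun x => by simp

theorem ds_le (p q : MvPolynomial α ℤ) : DS {x : α → ℝ | aeval x p ≤ aeval x q} :=
  ds_congr (ds_lt q p).compl fun x => by simp

theorem ds_eq (p q : MvPolynomial α ℤ) : DS {x : α → ℝ | aeval x p = aeval x q} :=
  ds_congr (ds_inter (ds_le p q) (ds_le q p)) fun x => by
    simp only [Set.mem_ofPred_eq, Set.mem_inter_iff]
    exact le_antisymm_iff

/-- preimages under polynomial maps -/
theorem ds_preimage {S : Set (β → ℝ)} (hS : DS S) (q : β → MvPolynomial α ℤ) :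
    DS {x : α → ℝ | (fun b => aeval x (q b)) ∈ S} := by
  induction hS with
  | pos p =>
    refine ds_congr (DS.pos (bind₁ q p)) fun x => ?_
    simp only [Set.mem_ofPred_eq]
    rw [aeval_bind₁]
  | compl _ ih => exact ds_congr ih.compl fun x => by simp
  | union _ _ ih1 ih2 => exact ds_congr (ih1.union ih2) fun x => by simp

theorem ds_reindex {S : Set (β → ℝ)} (hS : DS S) (c : β → α) :
    DS {x : α → ℝ | (fun b => x (c b)) ∈ S} :=
  ds_congr (ds_preimage hS fun b => X (c b)) fun x => by simp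

/-! ## Polynomials and matrices -/

/-- from polynomials to lists -/
theorem exists_pl (p : MvPolynomial ℕ ℤ) : ∃ P : Pl, ∀ x : ℕ → ℝ, P.ev x = aeval x p := by
  induction p using MvPolynomial.induction_on with
  | C a =>
    refine ⟨Pl.cst (decide (0 ≤ a), a.natAbs), fun x => ?_⟩
    rw [Ops.ev_cst_int, aeval_C]
    by_cases h : 0 ≤ a
    · simp [h, abs_of_nonneg h]
    · push Not at h
      simp [not_le.2 h, abs_of_neg h]
  | add p q hp hq =>
    obtain ⟨P, hP⟩ := hp
    obtain ⟨Q, hQ⟩ := hq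
    exact ⟨P.add Q, fun x => by rw [Ops.ev_add, hP, hQ, map_add]⟩
  | mul_X p i hp =>
    obtain ⟨P, hP⟩ := hp
    exact ⟨P.mul (Pl.var i), fun x => by rw [Ops.ev_mul, Ops.ev_var, hP, map_mul, aeval_X]⟩

/-- from lists to polynomials -/
theorem exists_poly (P : Pl) : ∃ p : MvPolynomial ℕ ℤ, ∀ x : ℕ → ℝ, aeval x p = P.ev x := by
  refine ⟨(P.map fun c => (if c.1 then 1 else -1) * (c.2.map X).prod).sum, fun x => ?_⟩
  unfold Pl.ev
  rw [map_list_sum, List.map_map]
  congr 1
  refine List.map_congr_left fun c _ => ?_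
  rw [Function.comp_apply, map_mul, map_list_prod, List.map_map]
  congr 1
  · split_ifs <;> simp
  · congr 1
    refine List.map_congr_left fun v _ => ?_
    simp

theorem ds_sign (P : Pl) (s : SignType) : DS {x : ℕ → ℝ | SignType.sign (P.ev x) = s} := by
  obtain ⟨p, hp⟩ := exists_poly P
  rcases s with _ | _ | _
  · refine ds_congr (ds_eq p 0) fun x => ?_
    simp only [Set.mem_ofPred_eq, map_zero, hp]
    exact sign_eq_zero_iff
  · refine ds_congr (ds_lt p 0) fun x => ?_
    simp only [Set.mem_ofPred_eq, map_zero, hp]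
    exact sign_eq_neg_one_iff
  · refine ds_congr (ds_lt 0 p) fun x => ?_
    simp only [Set.mem_ofPred_eq, map_zero, hp]
    exact sign_eq_one_iff

theorem ds_asg (c : Asg) : DS {x : ℕ → ℝ | Asg.sat x c} := by
  induction c with
  | nil => exact ds_congr ds_univ fun x => by simp [Asg.sat]
  | cons a c ih =>
    refine ds_congr (ds_inter (ds_sign a.1 a.2) ih) fun x => ?_
    simp [Asg.sat]

theorem ds_mat (M : Mat) : DS {x : ℕ → ℝ | M.sat x} := by
  induction M with
  | nil => exact ds_congr ds_empty fun x => by simp [Mat.sat]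
  | cons c M ih =>
    refine ds_congr ((ds_asg c).union ih) fun x => ?_
    simp [Mat.sat]

/-- from definable sets to matrices -/
theorem exists_mat {S : Set (α → ℝ)} (hS : DS S) (c : α → ℕ) :
    ∃ M M' : Mat, ∀ a : ℕ → ℝ, (M.sat a ↔ (fun i => a (c i)) ∈ S) ∧
      (M'.sat a ↔ (fun i => a (c i)) ∉ S) := by
  induction hS with
  | pos p =>
    obtain ⟨P, hP⟩ := exists_pl (rename c p)
    refine ⟨[[(P, 1)]], [[(P, 0)], [(P, -1)]], fun a => ?_⟩
    have h1 : P.ev a = aeval (fun i => a (c i)) p := by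
      rw [hP, aeval_rename]
      rfl
    constructor
    · simp only [Mat.sat, Asg.sat, List.mem_singleton, exists_eq_left, forall_eq,
        Set.mem_ofPred_eq, h1]
      exact sign_eq_one_iff
    · simp only [Mat.sat, Asg.sat, List.mem_cons, List.not_mem_nil, or_false, exists_eq_or_imp,
        exists_eq_left, forall_eq, Set.mem_ofPred_eq, h1, not_lt]
      rw [sign_eq_zero_iff, sign_eq_neg_one_iff, or_comm]
      exact le_iff_lt_or_eq.symm
  | compl _ ih =>
    obtain ⟨M, M', h⟩ := ih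
    refine ⟨M', M, fun a => ⟨?_, ?_⟩⟩
    · rw [(h a).2, Set.mem_compl_iff]
    · rw [(h a).1, Set.mem_compl_iff, not_not]
  | union _ _ ih1 ih2 =>
    obtain ⟨M, M', h⟩ := ih1
    obtain ⟨N, N', h'⟩ := ih2
    refine ⟨M.or N, M'.and N', fun a => ⟨?_, ?_⟩⟩
    · rw [Set.mem_union, ← (h a).1, ← (h' a).1]
      simp only [Mat.or, Mat.sat, List.mem_append]
      constructor
      · rintro ⟨c, hc | hc, h1⟩
        · exact Or.inl ⟨c, hc, h1⟩
        · exact Or.inr ⟨c, hc, h1⟩
      · rintro (⟨c, hc, h1⟩ | ⟨c, hc, h1⟩)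
        · exact ⟨c, Or.inl hc, h1⟩
        · exact ⟨c, Or.inr hc, h1⟩
    · rw [Set.mem_union, not_or, ← (h a).2, ← (h' a).2]
      simp only [Mat.and, Mat.sat, List.mem_flatMap, List.mem_map]
      constructor
      · rintro ⟨_, ⟨c, hc, d, hd, rfl⟩, h1⟩
        exact ⟨⟨c, hc, fun b hb => h1 b (List.mem_append_left _ hb)⟩,
          ⟨d, hd, fun b hb => h1 b (List.mem_append_right _ hb)⟩⟩
      · rintro ⟨⟨c, hc, h1⟩, ⟨d, hd, h2⟩⟩
        refine ⟨c ++ d, ⟨c, hc, d, hd, rfl⟩, fun b hb => ?_⟩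
        rcases List.mem_append.1 hb with hb | hb
        · exact h1 b hb
        · exact h2 b hb

/-! ## Quantifier elimination -/

/-- the intermediate value theorem -/
theorem rcf : RCF ℝ where
  ivt p a b hab ha hb := by
    have h1 : ContinuousOn (fun x => p.eval x) (Set.Icc a b) := p.continuous.continuousOn
    obtain ⟨c, hc, h2⟩ := intermediate_value_Icc hab.le h1 ⟨ha.le, hb.le⟩
    have h3 : p.eval c = 0 := h2
    refine ⟨c, lt_of_le_of_ne hc.1 ?_, lt_of_le_of_ne hc.2 ?_, h3⟩
    · rintro rfl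
      exact ha.ne h3
    · rintro rfl
      exact hb.ne' h3

/-- elimination of one variable -/
theorem ds_ex1 [Finite α] {S : Set (Option α → ℝ)} (hS : DS S) :
    DS {v : α → ℝ | ∃ t : ℝ, (fun o : Option α => o.elim t v) ∈ S} := by
  classical
  have := Fintype.ofFinite α
  set n := Fintype.card α with hn
  set e := Fintype.equivFin α with he
  set c : Option α → ℕ := fun o => o.elim n fun a => (e a : ℕ) with hc
  obtain ⟨M, M', hM⟩ := exists_mat hS c
  have h1 := ds_preimage (α := α) (ds_mat (qe true n M))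
    fun m : ℕ => if h : m < n then X (e.symm ⟨m, h⟩) else 0
  refine ds_congr h1 fun v => ?_
  simp only [Set.mem_ofPred_eq]
  have := rcf
  rw [qe_iff, if_pos rfl]
  refine exists_congr fun t => ?_
  rw [(hM _).1]
  have h2 : (fun o : Option α => o.elim t v) = fun i => Function.update
      (fun b => aeval v (if h : b < n then X (e.symm ⟨b, h⟩) else 0 : MvPolynomial α ℤ)) n t
        (c i) := by
    funext o
    rcases o with _ | a
    · simp [hc]
    · have h3 : (e a : ℕ) < n := (e a).2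
      have h4 : c (some a) = (e a : ℕ) := rfl
      rw [h4, Function.update_of_ne h3.ne, dif_pos h3]
      simp
  rw [h2]

theorem ds_ex [Finite β] [Finite α] {S : Set (α ⊕ β → ℝ)} (hS : DS S) :
    DS {v : α → ℝ | ∃ w : β → ℝ, Sum.elim v w ∈ S} := by
  classical
  suffices key : ∀ (β : Type) [Finite β], ∀ (α : Type) [Finite α] (S : Set (α ⊕ β → ℝ)), DS S →
      DS {v : α → ℝ | ∃ w : β → ℝ, Sum.elim v w ∈ S} from key β α S hS
  clear hS S
  intro β hβ
  induction β using Finite.induction_empty_option with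
  | of_equiv e ih =>
    rename_i γ δ
    intro α _ S hS
    refine ds_congr (ih α _ (ds_reindex hS (Sum.map id e.symm))) fun v => ?_
    simp only [Set.mem_ofPred_eq]
    constructor
    · rintro ⟨w, hw⟩
      refine ⟨fun g => w (e g), ?_⟩
      convert hw using 1
      funext b
      rcases b with a | d
      · rfl
      · simp
    · rintro ⟨w, hw⟩
      refine ⟨fun d => w (e.symm d), ?_⟩
      convert hw using 1
      funext b
      rcases b with a | d
      · rfl
      · simp
  | h_empty =>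
    intro α _ S hS
    refine ds_congr (ds_reindex (β := α ⊕ PEmpty) (α := α) hS (Sum.elim id PEmpty.elim))
      fun v => ?_
    simp only [Set.mem_ofPred_eq]
    constructor
    · rintro ⟨w, hw⟩
      convert hw using 1
      funext b
      rcases b with a | d
      · rfl
      · exact d.elim
    · intro hw
      refine ⟨PEmpty.elim, ?_⟩
      convert hw using 1
      funext b
      rcases b with a | d
      · rfl
      · exact d.elim
  | h_option ih =>
    rename_i γ _
    intro α _ S hS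
    have h1 := ih (Option α) _ (ds_reindex (α := Option α ⊕ γ) hS
      (Sum.elim (fun a => Sum.inl (some a)) fun o : Option γ => o.elim (Sum.inl none) Sum.inr))
    refine ds_congr (ds_ex1 h1) fun v => ?_
    simp only [Set.mem_ofPred_eq]
    constructor
    · rintro ⟨w, hw⟩
      refine ⟨w none, fun g => w (some g), ?_⟩
      convert hw using 1
      funext b
      rcases b with a | _ | d <;> rfl
    · rintro ⟨t, w, hw⟩
      refine ⟨fun o => o.elim t w, ?_⟩
      convert hw using 1
      funext b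
      rcases b with a | _ | d <;> rfl

end Sets

/-! ## Definable predicates -/

variable {X Y Z : Type} [Sp X] [Sp Y] [Sp Z]

theorem dp_congr {P Q : X → Prop} (h : DP P) (e : ∀ x, Q x ↔ P x) : DP Q := by
  rw [show Q = P from funext fun x => propext (e x)]
  exact h

theorem and {P Q : X → Prop} (hP : DP P) (hQ : DP Q) : DP fun x => P x ∧ Q x :=
  ds_inter hP hQ

theorem or {P Q : X → Prop} (hP : DP P) (hQ : DP Q) : DP fun x => P x ∨ Q x :=
  DS.union hP hQ

theorem not {P : X → Prop} (hP : DP P) : DP fun x => ¬ P x :=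
  DS.compl hP

theorem imp {P Q : X → Prop} (hP : DP P) (hQ : DP Q) : DP fun x => P x → Q x :=
  dp_congr (or (not hP) hQ) fun _ => imp_iff_not_or

theorem iff {P Q : X → Prop} (hP : DP P) (hQ : DP Q) : DP fun x => (P x ↔ Q x) :=
  dp_congr (and (imp hP hQ) (imp hQ hP)) fun _ => iff_iff_implies_and_implies

theorem const (p : Prop) : DP fun _ : X => p := ds_prop p

/-- Quantifier elimination. -/
theorem ex {P : X → Y → Prop} (hP : DP fun p : X × Y => P p.1 p.2) :
    DP fun x => ∃ y, P x y := by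
  refine ds_congr (ds_ex (α := Sp.ι X) (β := Sp.ι Y) hP) fun v => ?_
  simp only [Set.mem_ofPred_eq]
  constructor
  · rintro ⟨y, hy⟩
    refine ⟨Sp.e y, ?_⟩
    change P (Sp.e.symm v) (Sp.e.symm (Sp.e y))
    rwa [Equiv.symm_apply_apply]
  · rintro ⟨w, hw⟩
    exact ⟨Sp.e.symm w, hw⟩

theorem all {P : X → Y → Prop} (hP : DP fun p : X × Y => P p.1 p.2) :
    DP fun x => ∀ y, P x y :=
  dp_congr (not (ex (P := fun x y => ¬ P x y) (not hP))) fun x => by simp

theorem exFinite {ι : Type*} [Finite ι] {P : ι → X → Prop} (hP : ∀ i, DP (P i)) :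
    DP fun x => ∃ i, P i x :=
  ds_congr (ds_iUnion hP) fun x => by simp

theorem allFinite {ι : Type*} [Finite ι] {P : ι → X → Prop} (hP : ∀ i, DP (P i)) :
    DP fun x => ∀ i, P i x :=
  ds_congr (ds_iInter hP) fun x => by simp

/-! ## Polynomial maps -/

/-- Polynomial maps. -/
def PM (f : X → Y) : Prop :=
  ∃ q : Sp.ι Y → MvPolynomial (Sp.ι X) ℤ, ∀ x j, Sp.e (f x) j = aeval (Sp.e x) (q j)

theorem comp_pm {P : Y → Prop} (hP : DP P) {f : X → Y} (hf : PM f) : DP fun x => P (f x) := by
  obtain ⟨q, hq⟩ := hf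
  refine ds_congr (ds_preimage hP q) fun v => ?_
  simp only [Set.mem_ofPred_eq]
  have h1 : (fun b => aeval v (q b)) = Sp.e (f (Sp.e.symm v)) := by
    funext b
    rw [hq, Equiv.apply_symm_apply]
  rw [h1, Equiv.symm_apply_apply]

theorem PM.comp {g : Y → Z} (hg : PM g) {f : X → Y} (hf : PM f) : PM fun x => g (f x) := by
  obtain ⟨q, hq⟩ := hf
  obtain ⟨r, hr⟩ := hg
  refine ⟨fun j => bind₁ q (r j), fun x j => ?_⟩
  rw [hr, aeval_bind₁]
  congr 2
  funext i
  exact hq x i

theorem PM.id : PM fun x : X => x := ⟨fun j => MvPolynomial.X j, fun x j => by simp⟩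

theorem PM.fst : PM fun p : X × Y => p.1 :=
  ⟨fun j => MvPolynomial.X (Sum.inl j), fun x j => by rw [aeval_X]; rfl⟩

theorem PM.snd : PM fun p : X × Y => p.2 :=
  ⟨fun j => MvPolynomial.X (Sum.inr j), fun x j => by rw [aeval_X]; rfl⟩

theorem PM.prod {f : X → Y} {g : X → Z} (hf : PM f) (hg : PM g) : PM fun x => (f x, g x) := by
  obtain ⟨q, hq⟩ := hf
  obtain ⟨r, hr⟩ := hg
  refine ⟨Sum.elim q r, fun x j => ?_⟩
  rcases j with j | j
  · exact hq x j
  · exact hr x j

theorem PM.app {α : Type} [Finite α] (i : α) : PM fun v : α → ℝ => v i :=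
  ⟨fun _ => MvPolynomial.X i, fun x j => by rw [aeval_X]; rfl⟩

/-- polynomial functions -/
theorem PM.real {f : X → ℝ} (p : MvPolynomial (Sp.ι X) ℤ) (h : ∀ x, f x = aeval (Sp.e x) p) :
    PM f := ⟨fun _ => p, fun x _ => h x⟩

theorem PM.pi {α : Type} [Finite α] {f : X → α → ℝ} (p : α → MvPolynomial (Sp.ι X) ℤ)
    (h : ∀ x i, f x i = aeval (Sp.e x) (p i)) : PM f := ⟨p, fun x i => h x i⟩

/-- two polynomial maps agree -/
theorem eq_pm {f g : X → Y} (hf : PM f) (hg : PM g) : DP fun x => f x = g x := by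
  obtain ⟨q, hq⟩ := hf
  obtain ⟨r, hr⟩ := hg
  have h1 : ∀ j, DP fun x : X => Sp.e (f x) j = Sp.e (g x) j := by
    intro j
    refine ds_congr (ds_eq (q j) (r j)) fun v => ?_
    simp only [Set.mem_ofPred_eq]
    rw [hq, hr, Equiv.apply_symm_apply]
  refine dp_congr (allFinite h1) fun x => ?_
  rw [← funext_iff, Sp.e.apply_eq_iff_eq]

theorem dfn_pm {f : X → Y} (hf : PM f) : DFn f :=
  eq_pm (X := X × Y) (hf.comp PM.fst) PM.snd

/-! ## Definable functions -/

theorem comp {P : Y → Prop} (hP : DP P) {f : X → Y} (hf : DFn f) : DP fun x => P (f x) := by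
  refine dp_congr (ex (P := fun x y => f x = y ∧ P y)
    (and hf (comp_pm hP (PM.snd (X := X) (Y := Y))))) fun x => ?_
  simp

theorem dfn_id : DFn fun x : X => x := dfn_pm PM.id

theorem dfn_fst : DFn fun p : X × Y => p.1 := dfn_pm PM.fst

theorem dfn_snd : DFn fun p : X × Y => p.2 := dfn_pm PM.snd

theorem dfn_prod {f : X → Y} {g : X → Z} (hf : DFn f) (hg : DFn g) :
    DFn fun x => (f x, g x) := by
  have h1 : DP fun p : X × (Y × Z) => f p.1 = p.2.1 :=
    comp_pm (Y := X × Y) (P := fun p => f p.1 = p.2) hf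
      (f := fun p : X × (Y × Z) => (p.1, p.2.1)) (PM.fst.prod (PM.fst.comp PM.snd))
  have h2 : DP fun p : X × (Y × Z) => g p.1 = p.2.2 :=
    comp_pm (Y := X × Z) (P := fun p => g p.1 = p.2) hg
      (f := fun p : X × (Y × Z) => (p.1, p.2.2)) (PM.fst.prod (PM.snd.comp PM.snd))
  exact dp_congr (and h1 h2) fun p => Prod.ext_iff

theorem dfn_comp {g : Y → Z} (hg : DFn g) {f : X → Y} (hf : DFn f) : DFn fun x => g (f x) := by
  have h1 : DP fun p : (X × Z) × Y => f p.1.1 = p.2 :=
    comp_pm (Y := X × Y) (P := fun p => f p.1 = p.2) hf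
      (f := fun p : (X × Z) × Y => (p.1.1, p.2)) ((PM.fst.comp PM.fst).prod PM.snd)
  have h2 : DP fun p : (X × Z) × Y => g p.2 = p.1.2 :=
    comp_pm (Y := Y × Z) (P := fun p => g p.1 = p.2) hg
      (f := fun p : (X × Z) × Y => (p.2, p.1.2)) (PM.snd.prod (PM.snd.comp PM.fst))
  refine dp_congr (ex (X := X × Z) (Y := Y)
    (P := fun p y => f p.1 = y ∧ g y = p.2) (and h1 h2)) fun p => ?_
  simp

theorem dfn_int (z : ℤ) : DFn fun _ : X => (z : ℝ) :=
  dfn_pm (PM.real (C z) fun x => by simp)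

private theorem pm_add : PM fun p : ℝ × ℝ => p.1 + p.2 :=
  PM.real (MvPolynomial.X (Sum.inl ()) + MvPolynomial.X (Sum.inr ())) fun x => by
    rw [map_add, aeval_X, aeval_X]
    rfl

private theorem pm_sub : PM fun p : ℝ × ℝ => p.1 - p.2 :=
  PM.real (MvPolynomial.X (Sum.inl ()) - MvPolynomial.X (Sum.inr ())) fun x => by
    rw [map_sub, aeval_X, aeval_X]
    rfl

private theorem pm_mul : PM fun p : ℝ × ℝ => p.1 * p.2 :=
  PM.real (MvPolynomial.X (Sum.inl ()) * MvPolynomial.X (Sum.inr ())) fun x => by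
    rw [map_mul, aeval_X, aeval_X]
    rfl

theorem dfn_add {f g : X → ℝ} (hf : DFn f) (hg : DFn g) : DFn fun x => f x + g x :=
  dfn_comp (dfn_pm pm_add) (dfn_prod hf hg)

theorem dfn_sub {f g : X → ℝ} (hf : DFn f) (hg : DFn g) : DFn fun x => f x - g x :=
  dfn_comp (dfn_pm pm_sub) (dfn_prod hf hg)

theorem dfn_mul {f g : X → ℝ} (hf : DFn f) (hg : DFn g) : DFn fun x => f x * g x :=
  dfn_comp (dfn_pm pm_mul) (dfn_prod hf hg)

theorem eq {f g : X → Y} (hf : DFn f) (hg : DFn g) : DP fun x => f x = g x :=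
  comp (eq_pm (X := Y × Y) PM.fst PM.snd) (dfn_prod hf hg)

theorem lt {f g : X → ℝ} (hf : DFn f) (hg : DFn g) : DP fun x => f x < g x := by
  have h1 : DP fun p : ℝ × ℝ => p.1 < p.2 := by
    refine ds_congr (ds_lt (MvPolynomial.X (Sum.inl ())) (MvPolynomial.X (Sum.inr ()))) fun v => ?_
    simp only [Set.mem_ofPred_eq, aeval_X]
    exact Iff.rfl
  exact comp h1 (dfn_prod hf hg)

theorem le {f g : X → ℝ} (hf : DFn f) (hg : DFn g) : DP fun x => f x ≤ g x :=
  dp_congr (not (lt hg hf)) fun _ => not_lt.symm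

theorem dfn_div {f g : X → ℝ} (hf : DFn f) (hg : DFn g) : DFn fun x => f x / g x := by
  have hf' : DFn fun p : X × ℝ => f p.1 := dfn_comp hf dfn_fst
  have hg' : DFn fun p : X × ℝ => g p.1 := dfn_comp hg dfn_fst
  have h0 : DFn fun _ : X × ℝ => (0 : ℝ) := by simpa using dfn_int (X := X × ℝ) 0
  have h1 : DP fun p : X × ℝ => g p.1 = 0 := eq hg' h0
  have h2 : DP fun p : X × ℝ => p.2 = 0 := eq dfn_snd h0
  have h3 : DP fun p : X × ℝ => f p.1 = p.2 * g p.1 := eq hf' (dfn_mul dfn_snd hg')
  refine dp_congr (or (and h1 h2) (and (not h1) h3)) fun p => ?_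
  by_cases h : g p.1 = 0
  · simp [h, eq_comm]
  · simp only [h, false_and, not_false_eq_true, true_and, false_or]
    exact div_eq_iff h

theorem dfn_app {α : Type} [Finite α] (i : α) {f : X → α → ℝ} (hf : DFn f) :
    DFn fun x => f x i := dfn_comp (dfn_pm (PM.app i)) hf

theorem dfn_pi {α : Type} [Finite α] {f : α → X → ℝ} (hf : ∀ i, DFn (f i)) :
    DFn fun x => fun i => f i x := by
  have h1 : ∀ i, DP fun p : X × (α → ℝ) => f i p.1 = p.2 i := fun i =>
    eq (dfn_comp (hf i) dfn_fst) (dfn_app i dfn_snd)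
  exact dp_congr (allFinite h1) fun p => funext_iff

open Classical in
theorem dfn_ite {P : X → Prop} (hP : DP P) {f g : X → Y} (hf : DFn f) (hg : DFn g) :
    DFn fun x => if P x then f x else g x := by
  have h1 : DP fun p : X × Y => P p.1 := comp hP dfn_fst
  refine dp_congr (or (and h1 hf) (and (not h1) hg)) fun p => ?_
  by_cases h : P p.1
  · simp [h]
  · simp [h]

/-- From predicates to matrices. -/
theorem exists_mat' {P : X → Prop} (hP : DP P) (c : Sp.ι X → ℕ) :
    ∃ M : Mat, ∀ (p : X) (a : ℕ → ℝ), (∀ i, a (c i) = Sp.e p i) → (M.sat a ↔ P p) := by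
  obtain ⟨M, M', hM⟩ := exists_mat hP c
  refine ⟨M, fun p a ha => ?_⟩
  rw [(hM a).1]
  have h1 : (fun i => a (c i)) = Sp.e p := funext ha
  rw [h1]
  change P (Sp.e.symm (Sp.e p)) ↔ _
  rw [Equiv.symm_apply_apply]

end Pool.Agent.QCT.Dp
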