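import Pool.Agent.QCT.Sem
import Pool.Agent.QCT.Ops

/-!
# Project QCT: semantics of the matrices of the certificates
-/

set_option linter.unusedSectionVars false

namespace Pool.Agent.QCT

namespace MatSem

section Basic

variable {R : Type*} [CommRing R] [LinearOrder R]

theorem asg_append (x : ℕ → R) (c d : Asg) : Asg.sat x (c ++ d) ↔ Asg.sat x c ∧ Asg.sat x d := by
  unfold Asg.sat
  simp only [List.mem_append]
  exact ⟨fun h => ⟨fun a ha => h a (Or.inl ha), fun a ha => h a (Or.inr ha)⟩,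
    fun h a ha => ha.elim (h.1 a) (h.2 a)⟩

theorem asg_cons (x : ℕ → R) (a : Pl × SignType) (c : Asg) :
    Asg.sat x (a :: c) ↔ SignType.sign (a.1.ev x) = a.2 ∧ Asg.sat x c := by
  unfold Asg.sat
  exact List.forall_mem_cons

theorem asg_nil (x : ℕ → R) : Asg.sat x ([] : Asg) := by
  unfold Asg.sat
  intro a ha
  exact absurd ha List.not_mem_nil

theorem sat_nil (x : ℕ → R) : ¬ Mat.sat x ([] : Mat) := by
  rintro ⟨c, hc, _⟩
  exact absurd hc List.not_mem_nil

theorem sat_cons (x : ℕ → R) (c : Asg) (M : Mat) :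
    Mat.sat x (c :: M) ↔ Asg.sat x c ∨ Mat.sat x M := by
  unfold Mat.sat
  simp only [List.mem_cons, exists_eq_or_imp]

/-- A single conjunction. -/
theorem sat_single (x : ℕ → R) (c : Asg) : Mat.sat x [c] ↔ Asg.sat x c := by
  rw [sat_cons]
  exact ⟨fun h => h.elim id fun h => absurd h (sat_nil x), Or.inl⟩

theorem sat_append (x : ℕ → R) (M M' : Mat) :
    Mat.sat x (M ++ M') ↔ Mat.sat x M ∨ Mat.sat x M' := by
  unfold Mat.sat
  simp only [List.mem_append, or_and_right, exists_or]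

theorem sat_or (x : ℕ → R) (M M' : Mat) : (Mat.or M M').sat x ↔ M.sat x ∨ M'.sat x :=
  sat_append x M M'

theorem sat_and (x : ℕ → R) (M M' : Mat) : (Mat.and M M').sat x ↔ M.sat x ∧ M'.sat x := by
  unfold Mat.and Mat.sat
  constructor
  · rintro ⟨c, hc, h⟩
    rw [List.mem_flatMap] at hc
    obtain ⟨a, ha, hc⟩ := hc
    rw [List.mem_map] at hc
    obtain ⟨b, hb, rfl⟩ := hc
    rw [asg_append] at h
    exact ⟨⟨a, ha, h.1⟩, ⟨b, hb, h.2⟩⟩
  · rintro ⟨⟨a, ha, h⟩, ⟨b, hb, h'⟩⟩
    exact ⟨a ++ b, List.mem_flatMap.2 ⟨a, ha, List.mem_map.2 ⟨b, hb, rfl⟩⟩,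
      (asg_append x a b).2 ⟨h, h'⟩⟩

theorem sat_at1 (x : ℕ → R) (p : Pl) (s : SignType) :
    (at1 p s).sat x ↔ SignType.sign (p.ev x) = s := by
  unfold at1
  rw [sat_single, asg_cons]
  exact ⟨fun h => h.1, fun h => ⟨h, asg_nil x⟩⟩

theorem mem_nts (s t : SignType) : t ∈ nts s ↔ t ≠ s := by
  unfold nts
  rw [List.mem_filter]
  simp only [decide_not, Bool.not_eq_eq_eq_not, Bool.not_true, decide_eq_false_iff_not,
    and_iff_right_iff_imp]
  intro _
  cases t <;> simp

/-- The negation of one conjunction. -/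
theorem sat_nconj (x : ℕ → R) (c : Asg) :
    Mat.sat x (c.flatMap fun a => (nts a.2).map fun s => [(a.1, s)]) ↔ ¬ Asg.sat x c := by
  unfold Mat.sat Asg.sat
  constructor
  · rintro ⟨d, hd, h⟩ h'
    rw [List.mem_flatMap] at hd
    obtain ⟨a, ha, hd⟩ := hd
    rw [List.mem_map] at hd
    obtain ⟨s, hs, rfl⟩ := hd
    have h1 := h (a.1, s) (List.mem_singleton.2 rfl)
    have h2 := h' a ha
    rw [mem_nts] at hs
    exact hs (h1.symm.trans h2)
  · intro h
    push Not at h
    obtain ⟨a, ha, h⟩ := h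
    refine ⟨[(a.1, SignType.sign (a.1.ev x))], List.mem_flatMap.2 ⟨a, ha, List.mem_map.2
      ⟨_, (mem_nts _ _).2 h, rfl⟩⟩, ?_⟩
    intro b hb
    rw [List.mem_singleton] at hb
    subst hb
    rfl

theorem sat_not (x : ℕ → R) (M : Mat) : (Mat.not M).sat x ↔ ¬ M.sat x := by
  induction M with
  | nil =>
    have h : Mat.not [] = [[]] := rfl
    rw [h, sat_single]
    exact ⟨fun _ => sat_nil x, fun _ => asg_nil x⟩
  | cons c M ih =>
    have h : Mat.not (c :: M) =
      Mat.and (c.flatMap fun a => (nts a.2).map fun s => [(a.1, s)]) (Mat.not M) := rfl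
    rw [h, sat_and, sat_nconj, ih, sat_cons, not_or]

theorem sat_imp (x : ℕ → R) (M M' : Mat) : (Mat.imp M M').sat x ↔ (M.sat x → M'.sat x) := by
  unfold Mat.imp
  rw [sat_or, sat_not, imp_iff_not_or]

theorem sat_iff (x : ℕ → R) (M M' : Mat) : (Mat.iff M M').sat x ↔ (M.sat x ↔ M'.sat x) := by
  unfold Mat.iff
  rw [sat_and, sat_imp, sat_imp]
  exact iff_def.symm

theorem sat_all (x : ℕ → R) (L : List Mat) : (Mat.all L).sat x ↔ ∀ M ∈ L, Mat.sat x M := by
  induction L with
  | nil =>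
    have h : Mat.all [] = [[]] := rfl
    rw [h, sat_single]
    exact ⟨fun _ M hM => absurd hM List.not_mem_nil, fun _ => asg_nil x⟩
  | cons M L ih =>
    have h : Mat.all (M :: L) = Mat.and M (Mat.all L) := rfl
    rw [h, sat_and, ih, List.forall_mem_cons]

theorem sat_any (x : ℕ → R) (L : List Mat) : (Mat.any L).sat x ↔ ∃ M ∈ L, Mat.sat x M := by
  induction L with
  | nil =>
    have h : Mat.any [] = [] := rfl
    rw [h]
    exact ⟨fun h => absurd h (sat_nil x), fun ⟨M, hM, _⟩ => absurd hM List.not_mem_nil⟩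
  | cons M L ih =>
    have h : Mat.any (M :: L) = Mat.or M (Mat.any L) := rfl
    rw [h, sat_or, ih]
    simp only [List.mem_cons, exists_eq_or_imp]

omit [LinearOrder R] in
theorem ev_ren (x : ℕ → R) (ρ : ℕ → ℕ) (p : Pl) : (p.ren ρ).ev x = p.ev (fun v => x (ρ v)) := by
  unfold Pl.ren Pl.ev
  rw [List.map_map]
  congr 1
  refine List.map_congr_left fun c _ => ?_
  simp only [Function.comp_apply, List.map_map]
  rfl

theorem sat_ren (x : ℕ → R) (ρ : ℕ → ℕ) (M : Mat) :
    (M.ren ρ).sat x ↔ M.sat (fun v => x (ρ v)) := by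
  unfold Mat.ren Mat.sat Asg.sat
  constructor
  · rintro ⟨c, hc, h⟩
    rw [List.mem_map] at hc
    obtain ⟨d, hd, rfl⟩ := hc
    refine ⟨d, hd, fun a ha => ?_⟩
    have := h (a.1.ren ρ, a.2) (List.mem_map.2 ⟨a, ha, rfl⟩)
    rwa [ev_ren] at this
  · rintro ⟨d, hd, h⟩
    refine ⟨_, List.mem_map.2 ⟨d, hd, rfl⟩, fun a ha => ?_⟩
    rw [List.mem_map] at ha
    obtain ⟨b, hb, rfl⟩ := ha
    simp only []
    rw [ev_ren]
    exact h b hb

/-- The truth of a matrix depends only on the values of the variables. -/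
theorem sat_congr {x y : ℕ → R} (h : ∀ v, x v = y v) (M : Mat) : M.sat x ↔ M.sat y := by
  rw [funext h]

end Basic

section Blocks

variable {R : Type*} [Field R] [LinearOrder R] {k : ℕ}

theorem exv_of_lt (y : Fin k → R) {i : ℕ} (h : i < k) : exv y i = y ⟨i, h⟩ := dif_pos h

theorem exv_of_le (y : Fin k → R) {i : ℕ} (h : k ≤ i) : exv y i = 0 := dif_neg (by omega)

theorem exv_zero (i : ℕ) : exv (0 : Fin k → R) i = 0 := by
  unfold exv
  split_ifs <;> rfl

/-- The input variables. -/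
theorem asn_lt {N : ℕ} (x : ℕ → R) (ys : List (Fin k → R)) {v : ℕ} (h : v < N) :
    asn N x ys v = x v := if_pos h

/-- The variables of the blocks. -/
theorem asn_bv (N : ℕ) (x : ℕ → R) (ys : List (Fin k → R)) (b : ℕ) {r : ℕ} (h : r < k) :
    asn N x ys (bv N k b r) = exv (ys.getD b 0) r := by
  unfold asn bv
  rw [if_neg (by omega)]
  have h1 : N + (b * k + r) - N = b * k + r := by omega
  have hk : 0 < k := by omega
  rw [h1, mul_comm b k, Nat.mul_add_div hk, Nat.mul_add_mod, Nat.div_eq_of_lt h, Nat.mod_eq_of_lt h,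
    add_zero]

/-- The first variable of a block, also for `k = 0`. -/
theorem asn_bv0 (N : ℕ) (x : ℕ → R) (ys : List (Fin k → R)) (b : ℕ) :
    asn N x ys (bv N k b 0) = exv (ys.getD b 0) 0 := by
  rcases Nat.eq_zero_or_pos k with hk | hk
  · subst hk
    rw [exv_of_le _ le_rfl]
    unfold asn bv
    rw [if_neg (by omega), exv_of_le _ (Nat.zero_le _)]
  · exact asn_bv N x ys b hk

/-- Renaming of the blocks. -/
theorem asn_rb {N : ℕ} (x : ℕ → R) (ys : List (Fin k → R)) (hys : ys.length ≤ 8) (bs : List ℕ)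
    (v : ℕ) : asn N x ys (rb N k bs v) = asn N x (bs.map fun b => ys.getD b 0) v := by
  unfold rb
  split_ifs with h
  · rw [asn_lt x ys h, asn_lt x _ h]
  · rcases Nat.eq_zero_or_pos k with hk | hk
    · subst hk
      unfold asn bv
      rw [if_neg (by omega), if_neg h, exv_of_le _ (Nat.zero_le _), exv_of_le _ (Nat.zero_le _)]
    · rw [asn_bv N x ys _ (Nat.mod_lt _ hk)]
      unfold asn
      rw [if_neg h]
      congr 1
      rcases lt_or_ge ((v - N) / k) bs.length with h1 | h1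
      · rw [List.getD_eq_getElem _ _ h1, List.getD_eq_getElem (List.map _ bs) _ (by simpa using h1),
          List.getElem_map]
      · rw [List.getD_eq_default _ _ h1, List.getD_eq_default ys _ hys,
          List.getD_eq_default _ _ (by simpa using h1)]

/-- A matrix with renamed blocks. -/
theorem sat_rb {N : ℕ} (x : ℕ → R) (ys : List (Fin k → R)) (hys : ys.length ≤ 8) (bs : List ℕ)
    (M : Mat) : (M.ren (rb N k bs)).sat (asn N x ys) ↔
      M.sat (asn N x (bs.map fun b => ys.getD b 0)) := by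
  rw [sat_ren]
  exact sat_congr (asn_rb x ys hys bs) M

theorem sat_cM {l : ℕ} (Cs : List Mat) (i a : ℕ) (x : ℕ → R) (ys : List (Fin k → R))
    (hys : ys.length ≤ 8) : (cM k l Cs i a).sat (asn (nn k l) x ys) ↔
      Csat (nn k l) Cs x i (ys.getD a 0) :=
  sat_rb x ys hys [a] _

theorem sat_gM {l : ℕ} (Gs : List Mat) (i a b c d : ℕ) (x : ℕ → R) (ys : List (Fin k → R))
    (hys : ys.length ≤ 8) : (gM k l Gs i a b c d).sat (asn (nn k l) x ys) ↔
      Gsat (nn k l) Gs x i (ys.getD a 0) (ys.getD b 0) (ys.getD c 0) (ys.getD d 0) :=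
  sat_rb x ys hys [a, b, c, d] _

theorem ev_d2P (N : ℕ) (x : ℕ → R) (ys : List (Fin k → R)) (b c : ℕ) :
    (d2P N k b c).ev (asn N x ys) = dist2 (ys.getD b 0) (ys.getD c 0) := by
  have key : ∀ m, m ≤ k → Pl.ev (asn N x ys) ((List.range m).flatMap fun r =>
      [(true, [bv N k b r, bv N k b r]), (false, [bv N k b r, bv N k c r]),
      (false, [bv N k b r, bv N k c r]), (true, [bv N k c r, bv N k c r])]) =
      ∑ r ∈ Finset.range m, (exv (ys.getD b 0) r - exv (ys.getD c 0) r) ^ 2 := by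
    intro m
    induction m with
    | zero =>
      intro _
      simp [Pl.ev]
    | succ m ih =>
      intro hm
      rw [List.range_succ, List.flatMap_append, Ops.ev_append, ih (by omega),
        Finset.sum_range_succ]
      congr 1
      simp only [List.flatMap_cons, List.flatMap_nil, List.append_nil, Pl.ev, List.map_cons,
        List.map_nil, List.sum_cons, List.sum_nil, List.prod_cons, List.prod_nil]
      rw [asn_bv N x ys b (by omega), asn_bv N x ys c (by omega)]
      simp only [Bool.false_eq_true, if_true, if_false]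
      ring
  unfold d2P
  rw [key k le_rfl]
  unfold dist2
  rw [Finset.sum_range]
  refine Finset.sum_congr rfl fun i _ => ?_
  rw [exv_of_lt _ i.2, exv_of_lt _ i.2]

theorem dist2_nonneg [IsStrictOrderedRing R] (y z : Fin k → R) : 0 ≤ dist2 y z :=
  Finset.sum_nonneg fun _ _ => sq_nonneg _

theorem dist2_eq_zero [IsStrictOrderedRing R] (y z : Fin k → R) : dist2 y z = 0 ↔ y = z := by
  unfold dist2
  rw [Finset.sum_eq_zero_iff_of_nonneg fun _ _ => sq_nonneg _]
  constructor
  · intro h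
    funext i
    have := h i (Finset.mem_univ i)
    exact sub_eq_zero.1 (pow_eq_zero_iff (two_ne_zero) |>.1 this)
  · rintro rfl i _
    simp

theorem sat_posB [IsStrictOrderedRing R] (N : ℕ) (x : ℕ → R) (ys : List (Fin k → R)) (e : ℕ) :
    (posB N k e).sat (asn N x ys) ↔ 0 < exv (ys.getD e 0) 0 := by
  unfold posB
  rw [sat_at1, Ops.ev_var, asn_bv0, sign_eq_one_iff]

theorem sat_ltD [IsStrictOrderedRing R] (N : ℕ) (x : ℕ → R) (ys : List (Fin k → R)) (b c e : ℕ) :
    (ltD N k b c e).sat (asn N x ys) ↔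
      dist2 (ys.getD b 0) (ys.getD c 0) < exv (ys.getD e 0) 0 := by
  unfold ltD
  rw [sat_at1, Ops.ev_add, Ops.ev_neg, Ops.ev_var, asn_bv0, ev_d2P, sign_eq_neg_one_iff,
    ← sub_eq_add_neg, sub_neg]

theorem sat_eqB [IsStrictOrderedRing R] (N : ℕ) (x : ℕ → R) (ys : List (Fin k → R)) (b c : ℕ) :
    (eqB N k b c).sat (asn N x ys) ↔ ys.getD b 0 = ys.getD c 0 := by
  unfold eqB
  rw [sat_at1, ev_d2P, sign_eq_zero_iff, dist2_eq_zero]

theorem ev_one (x : ℕ → R) : (Pl.cst (true, 1)).ev x = 1 := by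
  rw [Ops.ev_cst]
  simp

theorem sat_i01 [IsStrictOrderedRing R] (N : ℕ) (x : ℕ → R) (ys : List (Fin k → R)) (t : ℕ) :
    (i01 N k t).sat (asn N x ys) ↔ 0 ≤ exv (ys.getD t 0) 0 ∧ exv (ys.getD t 0) 0 ≤ 1 := by
  unfold i01
  rw [sat_and, sat_or, sat_or, sat_at1, sat_at1, sat_at1, sat_at1, Ops.ev_add, Ops.ev_neg,
    Ops.ev_var, asn_bv0, ev_one, sign_eq_zero_iff, sign_eq_zero_iff, sign_eq_one_iff,
    sign_eq_one_iff, ← sub_eq_add_neg, sub_eq_zero, sub_pos, eq_comm, ← le_iff_eq_or_lt,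
    eq_comm, ← le_iff_eq_or_lt]

theorem sat_is0 [IsStrictOrderedRing R] (N : ℕ) (x : ℕ → R) (ys : List (Fin k → R)) (t : ℕ) :
    (is0 N k t).sat (asn N x ys) ↔ exv (ys.getD t 0) 0 = 0 := by
  unfold is0
  rw [sat_at1, Ops.ev_var, asn_bv0, sign_eq_zero_iff]

theorem sat_is1 [IsStrictOrderedRing R] (N : ℕ) (x : ℕ → R) (ys : List (Fin k → R)) (t : ℕ) :
    (is1 N k t).sat (asn N x ys) ↔ exv (ys.getD t 0) 0 = 1 := by
  unfold is1
  rw [sat_at1, Ops.ev_add, Ops.ev_neg, Ops.ev_var, asn_bv0, ev_one, sign_eq_zero_iff,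
    ← sub_eq_add_neg, sub_eq_zero, eq_comm]

theorem sat_ltT [IsStrictOrderedRing R] (N : ℕ) (x : ℕ → R) (ys : List (Fin k → R))
    (t t' e : ℕ) : (ltT N k t t' e).sat (asn N x ys) ↔
      (exv (ys.getD t 0) 0 - exv (ys.getD t' 0) 0) ^ 2 < exv (ys.getD e 0) 0 := by
  unfold ltT
  rw [sat_at1, Ops.ev_add, Ops.ev_neg, Ops.ev_var, asn_bv0]
  have h : Pl.ev (asn N x ys) [(true, [bv N k t 0, bv N k t 0]), (false, [bv N k t 0, bv N k t' 0]),
      (false, [bv N k t 0, bv N k t' 0]), (true, [bv N k t' 0, bv N k t' 0])] =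
      (exv (ys.getD t 0) 0 - exv (ys.getD t' 0) 0) ^ 2 := by
    simp only [Pl.ev, List.map_cons, List.map_nil, List.sum_cons, List.sum_nil, List.prod_cons,
      List.prod_nil, asn_bv0, Bool.false_eq_true, if_true, if_false]
    ring
  rw [h, sign_eq_neg_one_iff, ← sub_eq_add_neg, sub_neg]

theorem ci_lt {l m i j : ℕ} (hm : m < l) (hi : i ≤ k) (hj : j ≤ k) : ci k m i j < nn k l := by
  unfold ci nn
  have h1 : i * (k + 1) + j < (k + 1) * (k + 1) := by nlinarith
  have h2 : (m + 1) * ((k + 1) * (k + 1)) ≤ l * ((k + 1) * (k + 1)) :=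
    Nat.mul_le_mul_right _ hm
  nlinarith

theorem yv_prod (N : ℕ) (x : ℕ → R) (ys : List (Fin k → R)) (b i : ℕ) :
    ((yv N k b i).map (asn N x ys)).prod = hom (ys.getD b 0) i := by
  unfold yv hom
  split_ifs with h
  · rw [List.map_cons, List.map_nil, List.prod_cons, List.prod_nil, mul_one, asn_bv N x ys b h,
      exv_of_lt _ h]
  · rfl

theorem ev_flatMap {α : Type*} (x : ℕ → R) (L : List α) (f : α → Pl) :
    Pl.ev x (L.flatMap f) = (L.map fun a => Pl.ev x (f a)).sum := by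
  induction L with
  | nil => simp [Pl.ev]
  | cons a L ih => rw [List.flatMap_cons, Ops.ev_append, ih, List.map_cons, List.sum_cons]

theorem ev_pmP {l m : ℕ} (hm : m < l) (x : ℕ → R) (ys : List (Fin k → R)) (b : ℕ) :
    (pmP (nn k l) k b m).ev (asn (nn k l) x ys) = pmv x m (ys.getD b 0) := by
  unfold pmP pmv
  rw [ev_flatMap, ← List.sum_toFinset _ List.nodup_range, List.toFinset_range]
  refine Finset.sum_congr rfl fun i hi => ?_
  unfold Pl.ev
  rw [List.map_map, ← List.sum_toFinset _ (List.nodup_range.filter _), List.toFinset_filter,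
    List.toFinset_range]
  simp only [decide_eq_true_eq]
  refine Finset.sum_congr rfl fun j hj => ?_
  rw [Finset.mem_filter, Finset.mem_range] at hj
  rw [Finset.mem_range] at hi
  simp only [Function.comp_apply, if_true, one_mul, List.map_cons, List.prod_cons, List.map_append,
    List.prod_append]
  rw [asn_lt _ _ (ci_lt hm (by omega) (by omega)), yv_prod, yv_prod]

theorem sat_sM [IsStrictOrderedRing R] (s : Bool) (l b : ℕ) (x : ℕ → R) (ys : List (Fin k → R)) :
    (sM s k l b).sat (asn (nn k l) x ys) ↔ ys.getD b 0 ∈ SS s k l x := by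
  unfold sM
  rw [sat_all]
  simp only [List.mem_map, List.mem_range, forall_exists_index, and_imp, forall_apply_eq_imp_iff₂]
  refine forall₂_congr fun m hm => ?_
  rw [sat_or, sat_at1, sat_at1, ev_pmP hm, sign_eq_zero_iff]
  cases s
  · simp only [Bool.false_eq_true, if_false, sign_eq_neg_one_iff]
    exact (le_iff_eq_or_lt).symm
  · simp only [if_true, sign_eq_one_iff]
    rw [eq_comm]
    exact (le_iff_eq_or_lt).symm

end Blocks

end MatSem

end Pool.Agent.QCT
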