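import Pool.Agent.QCT.StubA
import Pool.Agent.QCT.MatSem

/-!
# Project QCT, P6 and P7: semantics of the check
-/

namespace Pool.Agent.QCT.Chk

open Pool.Agent.QCT

set_option linter.unusedSectionVars false

/-! ## Quantifier blocks -/

section Blocks

variable {R : Type*} [Field R] [LinearOrder R]

/-- The assignment `x` with the variables `i, ..., i + n - 1` replaced by `y`. -/
def bl (x : ℕ → R) (i n : ℕ) (y : ℕ → R) (v : ℕ) : R :=
  if i ≤ v ∧ v < i + n then y (v - i) else x v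

theorem bl_zero (x : ℕ → R) (i : ℕ) (y : ℕ → R) : bl x i 0 y = x := by
  funext v
  unfold bl
  rw [if_neg (by omega)]

theorem bl_update (x : ℕ → R) (i n : ℕ) (a : R) (y : ℕ → R) :
    bl (Function.update x i a) (i + 1) n y = bl x i (n + 1) fun j => if j = 0 then a else y (j - 1) := by
  funext v
  unfold bl
  by_cases h1 : i + 1 ≤ v ∧ v < i + 1 + n
  · have h0 : v - i ≠ 0 := by omega
    rw [if_pos h1, if_pos (by omega)]
    simp only [if_neg h0]
    congr 1
  · rw [if_neg h1]
    by_cases h2 : v = i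
    · subst h2
      rw [Function.update_self, if_pos (by omega)]
      simp
    · rw [Function.update_of_ne h2, if_neg (by omega)]

theorem bl_update' (x : ℕ → R) (i n : ℕ) (y : ℕ → R) :
    bl (Function.update x i (y 0)) (i + 1) n (fun j => y (j + 1)) = bl x i (n + 1) y := by
  rw [bl_update]
  congr 1
  funext j
  by_cases h : j = 0
  · subst h
    rw [if_pos rfl]
  · rw [if_neg h]
    congr 1
    omega

theorem satQ_true (M : Mat) (qs : List Bool) (n : ℕ) : ∀ (i : ℕ) (x : ℕ → R),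
    SatQ M (List.replicate n true ++ qs) i x ↔ ∃ y : ℕ → R, SatQ M qs (i + n) (bl x i n y) := by
  induction n with
  | zero =>
    intro i x
    simp only [List.replicate_zero, List.nil_append, Nat.add_zero, bl_zero]
    exact ⟨fun h => ⟨fun _ => 0, h⟩, fun ⟨_, h⟩ => h⟩
  | succ n ih =>
    intro i x
    rw [List.replicate_succ, List.cons_append, SatQ]
    constructor
    · rintro ⟨a, h⟩
      obtain ⟨y, hy⟩ := (ih _ _).1 h
      rw [bl_update] at hy
      refine ⟨fun j => if j = 0 then a else y (j - 1), ?_⟩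
      rw [show i + (n + 1) = i + 1 + n by omega]
      exact hy
    · rintro ⟨y, hy⟩
      refine ⟨y 0, (ih _ _).2 ⟨fun j => y (j + 1), ?_⟩⟩
      rw [bl_update', show i + 1 + n = i + (n + 1) by omega]
      exact hy

theorem satQ_false (M : Mat) (qs : List Bool) (n : ℕ) : ∀ (i : ℕ) (x : ℕ → R),
    SatQ M (List.replicate n false ++ qs) i x ↔ ∀ y : ℕ → R, SatQ M qs (i + n) (bl x i n y) := by
  induction n with
  | zero =>
    intro i x
    simp only [List.replicate_zero, List.nil_append, Nat.add_zero, bl_zero]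
    exact ⟨fun h _ => h, fun h => h fun _ => 0⟩
  | succ n ih =>
    intro i x
    rw [List.replicate_succ, List.cons_append, SatQ]
    constructor
    · intro h y
      have := (ih _ _).1 (h (y 0)) fun j => y (j + 1)
      rw [bl_update', show i + 1 + n = i + (n + 1) by omega] at this
      exact this
    · intro h a
      refine (ih _ _).2 fun y => ?_
      rw [bl_update, show i + 1 + n = i + (n + 1) by omega]
      exact h _

variable {k : ℕ}

/-- Truth of a matrix with quantified blocks. -/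
def QB (N : ℕ) (M : Mat) (x : ℕ → R) : List Bool → List (Fin k → R) → Prop
  | [], ys => M.sat (asn N x ys)
  | true :: bs, ys => ∃ y, QB N M x bs (ys ++ [y])
  | false :: bs, ys => ∀ y, QB N M x bs (ys ++ [y])

theorem exv_zero (i : ℕ) : exv (0 : Fin k → R) i = 0 := by
  unfold exv
  split_ifs <;> rfl

theorem asn_append (hk : 1 ≤ k) (N : ℕ) (x : ℕ → R) (ys : List (Fin k → R)) (y : Fin k → R) :
    asn N x (ys ++ [y]) = bl (asn N x ys) (N + ys.length * k) k (exv y) := by
  funext v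
  unfold bl
  by_cases h1 : v < N
  · rw [if_neg (by omega)]
    unfold asn
    rw [if_pos h1, if_pos h1]
  obtain ⟨w, rfl⟩ : ∃ w, v = N + w := ⟨v - N, by omega⟩
  have hw : k * (w / k) + w % k = w := Nat.div_add_mod w k
  have hm : w % k < k := Nat.mod_lt _ (by omega)
  have hL : asn N x (ys ++ [y]) (N + w) = exv ((ys ++ [y]).getD (w / k) 0) (w % k) := by
    unfold asn
    rw [if_neg h1, Nat.add_sub_cancel_left]
  have hR : asn N x ys (N + w) = exv (ys.getD (w / k) 0) (w % k) := by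
    unfold asn
    rw [if_neg h1, Nat.add_sub_cancel_left]
  rw [hL, hR]
  rcases lt_trichotomy (w / k) ys.length with h2 | h2 | h2
  · have h3 : (w / k + 1) * k ≤ ys.length * k := Nat.mul_le_mul_right k h2
    rw [if_neg (by intro h; nlinarith [h.1]), List.getD_append _ _ _ _ h2]
  · have h3 : w / k * k = ys.length * k := by rw [h2]
    have h4 : w = ys.length * k + w % k := by
      conv_lhs => rw [← hw]
      rw [← h3, mul_comm]
    rw [if_pos (by omega), h2, List.getD_append_right _ _ _ _ le_rfl]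
    simp only [Nat.sub_self, List.getD_cons_zero]
    congr 1
    omega
  · have h3 : (ys.length + 1) * k ≤ w / k * k := Nat.mul_le_mul_right k h2
    rw [add_mul, one_mul, mul_comm (w / k) k] at h3
    rw [if_neg (by omega),
      List.getD_eq_default _ _ (by simp; omega), List.getD_eq_default _ _ (by omega)]

theorem asn_nil (N : ℕ) (x : ℕ → R) :
    asn N x ([] : List (Fin k → R)) = bl (fun _ => 0) 0 N x := by
  funext v
  unfold asn bl
  by_cases h : v < N
  · rw [if_pos h, if_pos (by omega), Nat.sub_zero]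
  · rw [if_neg h, if_neg (by omega), List.getD_nil, exv_zero]

/-- Blocks from functions on `ℕ`. -/
theorem exv_bl (x : ℕ → R) (i : ℕ) (y : ℕ → R) :
    bl x i k (exv fun j : Fin k => y j) = bl x i k y := by
  funext v
  unfold bl
  by_cases h : i ≤ v ∧ v < i + k
  · rw [if_pos h, if_pos h]
    unfold exv
    rw [dif_pos (by omega)]
  · rw [if_neg h, if_neg h]

theorem satQ_blocks (hk : 1 ≤ k) (N : ℕ) (M : Mat) (x : ℕ → R) (bs : List Bool) :
    ∀ ys : List (Fin k → R),
      SatQ M (bs.flatMap fun q => (List.range k).map fun _ => q) (N + ys.length * k)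
        (asn N x ys) ↔ QB N M x bs ys := by
  induction bs with
  | nil =>
    intro ys
    rfl
  | cons q bs ih =>
    intro ys
    have h0 : ∀ q : Bool, ((List.range k).map fun _ => q) = List.replicate k q := by
      intro q
      simp
    have h1 : ∀ y : ℕ → R, SatQ M (bs.flatMap fun q => (List.range k).map fun _ => q)
        (N + ys.length * k + k) (bl (asn N x ys) (N + ys.length * k) k y) ↔
          QB N M x bs (ys ++ [fun j : Fin k => y j]) := by
      intro y
      rw [← ih, asn_append hk, exv_bl, List.length_append, List.length_singleton, add_mul, one_mul,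
        add_assoc]
    rw [List.flatMap_cons, h0]
    cases q with
    | true =>
      rw [satQ_true, QB]
      constructor
      · rintro ⟨y, hy⟩
        exact ⟨_, (h1 y).1 hy⟩
      · rintro ⟨y, hy⟩
        refine ⟨exv y, (h1 _).2 ?_⟩
        have : (fun j : Fin k => exv y j) = y := by
          funext j
          unfold exv
          rw [dif_pos j.2]
        rw [this]
        exact hy
    | false =>
      rw [satQ_false, QB]
      constructor
      · intro h y
        have := (h1 _).1 (h (exv y))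
        have h2 : (fun j : Fin k => exv y j) = y := by
          funext j
          unfold exv
          rw [dif_pos j.2]
        rw [h2] at this
        exact this
      · intro h y
        exact (h1 y).2 (h _)

theorem satQ_qp (hk : 1 ≤ k) (N : ℕ) (M : Mat) (bs : List Bool) :
    SatQ (R := R) M (qp N k bs) 0 (fun _ => 0) ↔
      ∀ x : ℕ → R, QB N M x bs ([] : List (Fin k → R)) := by
  have h0 : ((List.range N).map fun _ => false) = List.replicate N false := by simp
  rw [qp, h0, satQ_false]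
  refine forall_congr' fun x => ?_
  rw [← satQ_blocks hk, asn_nil (k := k)]
  simp

end Blocks

/-! ## Renaming of blocks, input conditions -/

section Ren

open MatSem

variable {R : Type*} [Field R] [LinearOrder R] [IsStrictOrderedRing R] {k : ℕ}

theorem sat_pc {N : ℕ} {pc : Asg} (hpc : ∀ a ∈ pc, ∀ c ∈ a.1, ∀ v ∈ c.2, v < N) (x : ℕ → R)
    (ys : List (Fin k → R)) : Mat.sat (asn N x ys) [pc] ↔ Asg.sat x pc := by
  have h1 : Mat.sat (asn N x ys) [pc] ↔ Asg.sat (asn N x ys) pc := by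
    unfold Mat.sat
    simp
  rw [h1]
  unfold Asg.sat
  refine forall₂_congr fun a ha => ?_
  rw [Ops.ev_congr (x := asn N x ys) (y := x)]
  intro c hc v hv
  unfold asn
  rw [if_pos (hpc a ha c hc v hv)]

end Ren

/-! ## The checks -/

section Checks

open MatSem

variable {R : Type*} [Field R] [LinearOrder R] [IsStrictOrderedRing R] [RCF R] {s : Bool}
  {k l : ℕ} (hk : 1 ≤ k) {pc : Asg} (hpc : ∀ a ∈ pc, ∀ c ∈ a.1, ∀ v ∈ c.2, v < nn k l)
  {b : ℕ} {Cs Gs : List Mat}

include hk hpc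

theorem chk1_iff : chk1 s k l pc b Cs = true ↔ ∀ x : ℕ → R, Asg.sat x pc → ∀ y : Fin k → R,
    (y ∈ SS s k l x ↔ ∃ i < b, Csat (nn k l) Cs x i y) := by
  rw [chk1, decideQ_iff' (R := R), satQ_qp hk]
  simp only [QB, List.nil_append, sat_imp, sat_iff, sat_pc hpc, sat_sM, sat_any, List.mem_map,
    List.mem_range, exists_exists_and_eq_and, List.getD_cons_zero]
  refine forall_congr' fun x => ?_
  rw [forall_comm]
  refine forall_congr' fun _ => forall_congr' fun y => ?_
  refine iff_congr Iff.rfl (exists_congr fun i => and_congr Iff.rfl ?_)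
  rw [sat_cM _ _ _ _ _ (by simp)]
  rfl

theorem chk2_iff (i j : ℕ) : chk2 k l pc Cs i j = true ↔ ∀ x : ℕ → R, Asg.sat x pc →
    ∀ y : Fin k → R, ¬ (Csat (nn k l) Cs x i y ∧ Csat (nn k l) Cs x j y) := by
  rw [chk2, decideQ_iff' (R := R), satQ_qp hk]
  simp only [QB, List.nil_append, sat_imp, sat_not, sat_and, sat_pc hpc]
  refine forall_congr' fun x => ?_
  rw [forall_comm]
  refine forall_congr' fun _ => forall_congr' fun y => ?_
  rw [sat_cM _ _ _ _ _ (by simp), sat_cM _ _ _ _ _ (by simp)]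
  rfl

theorem chk3_iff (i : ℕ) : chk3 k l pc Cs i = true ↔ ∀ x : ℕ → R, Asg.sat x pc →
    ∃ y : Fin k → R, Csat (nn k l) Cs x i y := by
  rw [chk3, decideQ_iff' (R := R), satQ_qp hk]
  simp only [QB, List.nil_append, sat_imp, sat_pc hpc]
  refine forall_congr' fun x => ?_
  constructor
  · rintro ⟨y, hy⟩ hx
    refine ⟨y, ?_⟩
    have := hy hx
    rw [sat_cM _ _ _ _ _ (by simp)] at this
    exact this
  · intro h
    by_cases hx : Asg.sat x pc
    · obtain ⟨y, hy⟩ := h hx
      refine ⟨y, fun _ => ?_⟩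
      rw [sat_cM _ _ _ _ _ (by simp)]
      exact hy
    · exact ⟨0, fun h => absurd h hx⟩

theorem chk4_iff (i : ℕ) : chk4 s k l pc Cs i = true ↔ ∀ x : ℕ → R, Asg.sat x pc →
    ∀ y : Fin k → R, Csat (nn k l) Cs x i y → ∃ ε > 0, ∀ y' : Fin k → R,
      dist2 y y' < ε → y' ∈ SS s k l x → Csat (nn k l) Cs x i y' := by
  rw [chk4, decideQ_iff' (R := R), satQ_qp hk]
  simp only [QB, List.nil_append, List.cons_append, sat_imp, sat_and, sat_pc hpc, sat_posB,
    sat_ltD, sat_sM]
  refine forall_congr' fun x => ?_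
  have hC : ∀ y e z : Fin k → R, (cM k l Cs i 0).sat (asn (nn k l) x [y, e, z]) ↔
      Csat (nn k l) Cs x i y := fun y e z => sat_cM _ _ _ _ _ (by simp)
  have hC' : ∀ y e z : Fin k → R, (cM k l Cs i 2).sat (asn (nn k l) x [y, e, z]) ↔
      Csat (nn k l) Cs x i z := fun y e z => sat_cM _ _ _ _ _ (by simp)
  simp only [hC, hC']
  constructor
  · intro h hx y hy
    obtain ⟨e, he⟩ := h y
    refine ⟨exv e 0, (he 0 ⟨hx, hy⟩).1, fun z h1 h2 => (he z ⟨hx, hy⟩).2 ⟨h1, h2⟩⟩
  · intro h y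
    by_cases hxy : Asg.sat x pc ∧ Csat (nn k l) Cs x i y
    · obtain ⟨ε, hε, h1⟩ := h hxy.1 y hxy.2
      refine ⟨fun _ => ε, fun z _ => ?_⟩
      have h2 : exv (fun _ : Fin k => ε) 0 = ε := by
        unfold exv
        rw [dif_pos (by omega)]
      simp only [List.getD_cons_succ, List.getD_cons_zero, h2]
      exact ⟨hε, fun h3 => h1 z h3.1 h3.2⟩
    · exact ⟨0, fun z h1 => absurd h1 hxy⟩

theorem chk5_iff (i : ℕ) : chk5 k l pc Cs Gs i = true ↔ ∀ x : ℕ → R, Asg.sat x pc →
    ∀ y y' : Fin k → R, Csat (nn k l) Cs x i y → Csat (nn k l) Cs x i y' →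
      ∀ t : Fin k → R, 0 ≤ exv t 0 → exv t 0 ≤ 1 → ∃ z, Gsat (nn k l) Gs x i y y' t z ∧
        Csat (nn k l) Cs x i z := by
  rw [chk5, decideQ_iff' (R := R), satQ_qp hk]
  have hC : ∀ (x : ℕ → R) (y y' t z : Fin k → R), (cM k l Cs i 0).sat (asn (nn k l) x [y, y', t, z])
      ↔ Csat (nn k l) Cs x i y := fun x y y' t z => sat_cM _ _ _ _ _ (by simp)
  have hC' : ∀ (x : ℕ → R) (y y' t z : Fin k → R), (cM k l Cs i 1).sat (asn (nn k l) x [y, y', t, z])
      ↔ Csat (nn k l) Cs x i y' := fun x y y' t z => sat_cM _ _ _ _ _ (by simp)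
  have hC2 : ∀ (x : ℕ → R) (y y' t z : Fin k → R), (cM k l Cs i 3).sat (asn (nn k l) x [y, y', t, z])
      ↔ Csat (nn k l) Cs x i z := fun x y y' t z => sat_cM _ _ _ _ _ (by simp)
  have hG : ∀ (x : ℕ → R) (y y' t z : Fin k → R),
      (gM k l Gs i 0 1 2 3).sat (asn (nn k l) x [y, y', t, z])
      ↔ Gsat (nn k l) Gs x i y y' t z := fun x y y' t z => sat_gM _ _ _ _ _ _ _ _ (by simp)
  simp only [QB, List.nil_append, List.cons_append, sat_imp, sat_and, sat_all, List.forall_mem_cons,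
    sat_pc hpc, sat_i01, hC, hC', hC2, hG, List.getD_cons_succ, List.getD_cons_zero,
    List.not_mem_nil, false_imp_iff, implies_true, and_true]
  refine forall_congr' fun x => ?_
  constructor
  · intro h hx y y' hy hy' t ht0 ht1
    obtain ⟨z, hz⟩ := h y y' t
    exact ⟨z, hz ⟨hx, hy, hy', ht0, ht1⟩⟩
  · intro h y y' t
    by_cases hh : Asg.sat x pc ∧ Csat (nn k l) Cs x i y ∧ Csat (nn k l) Cs x i y' ∧
        0 ≤ exv t 0 ∧ exv t 0 ≤ 1
    · obtain ⟨z, hz⟩ := h hh.1 y y' hh.2.1 hh.2.2.1 t hh.2.2.2.1 hh.2.2.2.2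
      exact ⟨z, fun _ => hz⟩
    · exact ⟨0, fun h1 => absurd h1 hh⟩

theorem chk6_iff (i : ℕ) : chk6 k l pc Cs Gs i = true ↔ ∀ x : ℕ → R, Asg.sat x pc →
    ∀ y y' : Fin k → R, Csat (nn k l) Cs x i y → Csat (nn k l) Cs x i y' →
    ∀ t z : Fin k → R, 0 ≤ exv t 0 → exv t 0 ≤ 1 → Gsat (nn k l) Gs x i y y' t z → ∀ ε > 0,
      ∃ δ > 0, ∀ t' z' : Fin k → R, 0 ≤ exv t' 0 → exv t' 0 ≤ 1 →
        Gsat (nn k l) Gs x i y y' t' z' → (exv t 0 - exv t' 0) ^ 2 < δ → dist2 z z' < ε := by
  rw [chk6, decideQ_iff' (R := R), satQ_qp hk]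
  have hC : ∀ (x : ℕ → R) (y y' t z e d t' z' : Fin k → R),
      (cM k l Cs i 0).sat (asn (nn k l) x [y, y', t, z, e, d, t', z'])
      ↔ Csat (nn k l) Cs x i y := fun x y y' t z e d t' z' => sat_cM _ _ _ _ _ (by simp)
  have hC' : ∀ (x : ℕ → R) (y y' t z e d t' z' : Fin k → R),
      (cM k l Cs i 1).sat (asn (nn k l) x [y, y', t, z, e, d, t', z'])
      ↔ Csat (nn k l) Cs x i y' := fun x y y' t z e d t' z' => sat_cM _ _ _ _ _ (by simp)
  have hG : ∀ (x : ℕ → R) (y y' t z e d t' z' : Fin k → R),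
      (gM k l Gs i 0 1 2 3).sat (asn (nn k l) x [y, y', t, z, e, d, t', z'])
      ↔ Gsat (nn k l) Gs x i y y' t z :=
    fun x y y' t z e d t' z' => sat_gM _ _ _ _ _ _ _ _ (by simp)
  have hG' : ∀ (x : ℕ → R) (y y' t z e d t' z' : Fin k → R),
      (gM k l Gs i 0 1 6 7).sat (asn (nn k l) x [y, y', t, z, e, d, t', z'])
      ↔ Gsat (nn k l) Gs x i y y' t' z' :=
    fun x y y' t z e d t' z' => sat_gM _ _ _ _ _ _ _ _ (by simp)
  simp only [QB, List.nil_append, List.cons_append, sat_imp, sat_and, sat_all, List.forall_mem_cons,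
    sat_pc hpc, sat_i01, sat_posB, sat_ltT, sat_ltD, hC, hC', hG, hG',
    List.getD_cons_succ, List.getD_cons_zero,
    List.not_mem_nil, false_imp_iff, implies_true, and_true]
  refine forall_congr' fun x => ?_
  have h2 : ∀ ε : R, exv (fun _ : Fin k => ε) 0 = ε := by
    intro ε
    unfold exv
    rw [dif_pos (by omega)]
  constructor
  · intro h hx y y' hy hy' t z ht0 ht1 hz ε hε
    obtain ⟨d, hd⟩ := h y y' t z (fun _ => ε)
    rw [h2] at hd
    have h3 := fun t' z' => hd t' z' ⟨hx, hy, hy', ⟨ht0, ht1⟩, hz, hε⟩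
    exact ⟨exv d 0, (h3 0 0).1, fun t' z' h4 h5 h6 h7 => (h3 t' z').2 ⟨⟨h4, h5⟩, h6, h7⟩⟩
  · intro h y y' t z e
    by_cases hh : Asg.sat x pc ∧ Csat (nn k l) Cs x i y ∧ Csat (nn k l) Cs x i y' ∧
        (0 ≤ exv t 0 ∧ exv t 0 ≤ 1) ∧ Gsat (nn k l) Gs x i y y' t z ∧ 0 < exv e 0
    · obtain ⟨δ, hδ, h3⟩ := h hh.1 y y' hh.2.1 hh.2.2.1 t z hh.2.2.2.1.1 hh.2.2.2.1.2
        hh.2.2.2.2.1 (exv e 0) hh.2.2.2.2.2
      refine ⟨fun _ => δ, fun t' z' _ => ?_⟩
      rw [h2]
      exact ⟨hδ, fun h4 => h3 t' z' h4.1.1 h4.1.2 h4.2.1 h4.2.2⟩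
    · exact ⟨0, fun t' z' h1 => absurd h1 hh⟩

theorem chk7_iff (i : ℕ) : chk7 k l pc Cs Gs i = true ↔ ∀ x : ℕ → R, Asg.sat x pc →
    ∀ y y' : Fin k → R, Csat (nn k l) Cs x i y → Csat (nn k l) Cs x i y' →
    ∀ t z : Fin k → R, Gsat (nn k l) Gs x i y y' t z →
      (exv t 0 = 0 → z = y) ∧ (exv t 0 = 1 → z = y') := by
  rw [chk7, decideQ_iff' (R := R), satQ_qp hk]
  have hC : ∀ (x : ℕ → R) (y y' t z : Fin k → R), (cM k l Cs i 0).sat (asn (nn k l) x [y, y', t, z])
      ↔ Csat (nn k l) Cs x i y := fun x y y' t z => sat_cM _ _ _ _ _ (by simp)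
  have hC' : ∀ (x : ℕ → R) (y y' t z : Fin k → R), (cM k l Cs i 1).sat (asn (nn k l) x [y, y', t, z])
      ↔ Csat (nn k l) Cs x i y' := fun x y y' t z => sat_cM _ _ _ _ _ (by simp)
  have hG : ∀ (x : ℕ → R) (y y' t z : Fin k → R),
      (gM k l Gs i 0 1 2 3).sat (asn (nn k l) x [y, y', t, z])
      ↔ Gsat (nn k l) Gs x i y y' t z := fun x y y' t z => sat_gM _ _ _ _ _ _ _ _ (by simp)
  simp only [QB, List.nil_append, List.cons_append, sat_imp, sat_and, sat_all, List.forall_mem_cons,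
    sat_pc hpc, sat_is0, sat_is1, sat_eqB, hC, hC', hG, List.getD_cons_succ,
    List.getD_cons_zero, List.not_mem_nil, false_imp_iff, implies_true, and_true]
  refine forall_congr' fun x => ?_
  constructor
  · intro h hx y y' hy hy' t z hz
    exact h y y' t z ⟨hx, hy, hy', hz⟩
  · intro h y y' t z hh
    exact h hh.1 y y' hh.2.1 hh.2.2.1 t z hh.2.2.2

theorem chk_iff (ce : List Mat × List Mat) : chk s k l pc b ce = true ↔
    ∀ x : ℕ → R, Asg.sat x pc → CertOK s k l b ce.1 ce.2 x := by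
  rw [chk]
  simp only [Bool.and_eq_true, List.all_eq_true, List.mem_range, Bool.or_eq_true,
    decide_eq_true_eq, chk1_iff (R := R) hk hpc, chk2_iff (R := R) hk hpc,
    chk3_iff (R := R) hk hpc, chk4_iff (R := R) hk hpc, chk5_iff (R := R) hk hpc,
    chk6_iff (R := R) hk hpc, chk7_iff (R := R) hk hpc]
  constructor
  · rintro ⟨h1, h2⟩ x hx
    refine ⟨h1 x hx, fun i j hij hj => ?_, fun i hi => (h2 i hi).2.1 x hx,
      fun i hi => (h2 i hi).2.2.1 x hx, fun i hi => (h2 i hi).2.2.2.1 x hx,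
      fun i hi => (h2 i hi).2.2.2.2.1 x hx, fun i hi => (h2 i hi).2.2.2.2.2 x hx⟩
    rcases (h2 i (by omega)).1 j hj with h3 | h3
    · omega
    · exact h3 x hx
  · intro h
    refine ⟨fun x hx => (h x hx).cover, fun i hi => ⟨fun j hj => ?_, fun x hx => (h x hx).ne i hi,
      fun x hx => (h x hx).opn i hi, fun x hx => (h x hx).ex i hi,
      fun x hx => (h x hx).cont i hi, fun x hx => (h x hx).ends i hi⟩⟩
    by_cases hij : j ≤ i
    · exact Or.inl hij
    · exact Or.inr fun x hx => (h x hx).disj i j (by omega) hj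

end Checks

end Pool.Agent.QCT.Chk
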