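import Pool.Agent.QCT.Defs

/-!
# Project QCT, definitions: certificates for the number of components, finite strategies

Everything here (outside the section on semantics) is to be shown primitive recursive.
-/

namespace Pool.Agent.QCT

/-! ## Matrices: Boolean operations -/

/-- Conjunction. -/
def Mat.and (M M' : Mat) : Mat := M.flatMap fun c => M'.map fun d => c ++ d

/-- Disjunction. -/
def Mat.or (M M' : Mat) : Mat := M ++ M'

/-- The other signs. -/
def nts (s : SignType) : List SignType := [-1, 0, 1].filter fun t => t ≠ s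

/-- Negation. -/
def Mat.not (M : Mat) : Mat :=
  M.foldr (fun c acc => Mat.and (c.flatMap fun a => (nts a.2).map fun s => [(a.1, s)]) acc) [[]]

/-- Implication. -/
def Mat.imp (M M' : Mat) : Mat := Mat.or (Mat.not M) M'

/-- Equivalence. -/
def Mat.iff (M M' : Mat) : Mat := Mat.and (Mat.imp M M') (Mat.imp M' M)

/-- Conjunction of a list. -/
def Mat.all (L : List Mat) : Mat := L.foldr Mat.and [[]]

/-- Disjunction of a list. -/
def Mat.any (L : List Mat) : Mat := L.foldr Mat.or []

/-- Renaming of variables. -/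
def Mat.ren (ρ : ℕ → ℕ) (M : Mat) : Mat := M.map fun c => c.map fun a => (a.1.ren ρ, a.2)

/-- A single sign condition. -/
def at1 (p : Pl) (s : SignType) : Mat := [[(p, s)]]

/-! ## Variables: the first `N` variables are the input; then blocks of `k` variables -/

/-- Number of input variables. -/
def nn (k l : ℕ) : ℕ := l * ((k + 1) * (k + 1))

/-- Number of the coefficient of `X_i X_j` in `P_m`, where `X_k` is `1`. -/
def ci (k m i j : ℕ) : ℕ := m * ((k + 1) * (k + 1)) + (i * (k + 1) + j)

/-- Variable `r` of block `b`. -/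
def bv (N k b r : ℕ) : ℕ := N + (b * k + r)

/-- Renaming of blocks. Block `8` is not bound by any quantifier below: its value is zero. -/
def rb (N k : ℕ) (bs : List ℕ) (v : ℕ) : ℕ :=
  if v < N then v else bv N k (bs.getD ((v - N) / k) 8) ((v - N) % k)

/-- `X_i` at block `b`; `X_k` is `1`. -/
def yv (N k b i : ℕ) : List ℕ := if i < k then [bv N k b i] else []

/-- The polynomial `P_m` at block `b`. -/
def pmP (N k b m : ℕ) : Pl :=
  (List.range (k + 1)).flatMap fun i => ((List.range (k + 1)).filter fun j => i ≤ j).map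
    fun j => (true, ci k m i j :: (yv N k b i ++ yv N k b j))

/-- The set defined by the input, at block `b`: all `P_m ≥ 0` if `s`, all `P_m ≤ 0` otherwise. -/
def sM (s : Bool) (k l b : ℕ) : Mat :=
  Mat.all ((List.range l).map fun m =>
    Mat.or (at1 (pmP (nn k l) k b m) 0) (at1 (pmP (nn k l) k b m) (if s then 1 else -1)))

/-- Squared distance of the blocks `b` and `c`. -/
def d2P (N k b c : ℕ) : Pl :=
  (List.range k).flatMap fun r =>
    [(true, [bv N k b r, bv N k b r]), (false, [bv N k b r, bv N k c r]),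
      (false, [bv N k b r, bv N k c r]), (true, [bv N k c r, bv N k c r])]

/-- The squared distance of the blocks `b`, `c` is less than the first variable of block `e`. -/
def ltD (N k b c e : ℕ) : Mat := at1 (Pl.add (d2P N k b c) (Pl.neg (Pl.var (bv N k e 0)))) (-1)

/-- The blocks `b` and `c` are equal. -/
def eqB (N k b c : ℕ) : Mat := at1 (d2P N k b c) 0

/-- The first variable of block `e` is positive. -/
def posB (N k e : ℕ) : Mat := at1 (Pl.var (bv N k e 0)) 1

/-- The first variable of block `t` lies in `[0, 1]`. -/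
def i01 (N k t : ℕ) : Mat :=
  Mat.and (Mat.or (at1 (Pl.var (bv N k t 0)) 0) (at1 (Pl.var (bv N k t 0)) 1))
    (Mat.or (at1 (Pl.add (Pl.cst (true, 1)) (Pl.neg (Pl.var (bv N k t 0)))) 0)
      (at1 (Pl.add (Pl.cst (true, 1)) (Pl.neg (Pl.var (bv N k t 0)))) 1))

/-- The first variable of block `t` is `0`. -/
def is0 (N k t : ℕ) : Mat := at1 (Pl.var (bv N k t 0)) 0

/-- The first variable of block `t` is `1`. -/
def is1 (N k t : ℕ) : Mat := at1 (Pl.add (Pl.cst (true, 1)) (Pl.neg (Pl.var (bv N k t 0)))) 0

/-- `(t - t') ^ 2 < e` for the first variables of three blocks. -/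
def ltT (N k t t' e : ℕ) : Mat :=
  at1 (Pl.add [(true, [bv N k t 0, bv N k t 0]), (false, [bv N k t 0, bv N k t' 0]),
    (false, [bv N k t 0, bv N k t' 0]), (true, [bv N k t' 0, bv N k t' 0])]
    (Pl.neg (Pl.var (bv N k e 0)))) (-1)

/-- Quantifiers: all input variables, then blocks. -/
def qp (N k : ℕ) (bs : List Bool) : List Bool :=
  ((List.range N).map fun _ => false) ++ bs.flatMap fun q => (List.range k).map fun _ => q

/-! ## The check of a certificate

A certificate for `b` components: two lists of `b` matrices. `C i` (variables: input, one block)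
is the `i`-th component; `G i` (variables: input, blocks `y, y', t, z`) is the graph of a path in
the component from `y` to `y'`. -/

/-- `C i` at block `a`. -/
def cM (k l : ℕ) (Cs : List Mat) (i a : ℕ) : Mat := (Cs.getD i []).ren (rb (nn k l) k [a])

/-- `G i` at blocks `a, b, c, d`. -/
def gM (k l : ℕ) (Gs : List Mat) (i a b c d : ℕ) : Mat :=
  (Gs.getD i []).ren (rb (nn k l) k [a, b, c, d])

/-- The components cover the set. -/
def chk1 (s : Bool) (k l : ℕ) (pc : Asg) (b : ℕ) (Cs : List Mat) : Bool :=
  decideQ (qp (nn k l) k [false]) (Mat.imp [pc]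
    (Mat.iff (sM s k l 0) (Mat.any ((List.range b).map fun i => cM k l Cs i 0))))

/-- The components are disjoint. -/
def chk2 (k l : ℕ) (pc : Asg) (Cs : List Mat) (i j : ℕ) : Bool :=
  decideQ (qp (nn k l) k [false]) (Mat.imp [pc] (Mat.not (Mat.and (cM k l Cs i 0) (cM k l Cs j 0))))

/-- The components are nonempty. -/
def chk3 (k l : ℕ) (pc : Asg) (Cs : List Mat) (i : ℕ) : Bool :=
  decideQ (qp (nn k l) k [true]) (Mat.imp [pc] (cM k l Cs i 0))

/-- The components are open. -/
def chk4 (s : Bool) (k l : ℕ) (pc : Asg) (Cs : List Mat) (i : ℕ) : Bool :=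
  decideQ (qp (nn k l) k [false, true, false]) (Mat.imp (Mat.and [pc] (cM k l Cs i 0))
    (Mat.and (posB (nn k l) k 1)
      (Mat.imp (Mat.and (ltD (nn k l) k 0 2 1) (sM s k l 2)) (cM k l Cs i 2))))

/-- Paths: existence. -/
def chk5 (k l : ℕ) (pc : Asg) (Cs Gs : List Mat) (i : ℕ) : Bool :=
  decideQ (qp (nn k l) k [false, false, false, true])
    (Mat.imp (Mat.all [[pc], cM k l Cs i 0, cM k l Cs i 1, i01 (nn k l) k 2])
      (Mat.and (gM k l Gs i 0 1 2 3) (cM k l Cs i 3)))

/-- Paths: continuity. -/
def chk6 (k l : ℕ) (pc : Asg) (Cs Gs : List Mat) (i : ℕ) : Bool :=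
  decideQ (qp (nn k l) k [false, false, false, false, false, true, false, false])
    (Mat.imp (Mat.all [[pc], cM k l Cs i 0, cM k l Cs i 1, i01 (nn k l) k 2, gM k l Gs i 0 1 2 3,
        posB (nn k l) k 4])
      (Mat.and (posB (nn k l) k 5)
        (Mat.imp (Mat.all [i01 (nn k l) k 6, gM k l Gs i 0 1 6 7, ltT (nn k l) k 2 6 5])
          (ltD (nn k l) k 3 7 4))))

/-- Paths: the ends. -/
def chk7 (k l : ℕ) (pc : Asg) (Cs Gs : List Mat) (i : ℕ) : Bool :=
  decideQ (qp (nn k l) k [false, false, false, false])
    (Mat.imp (Mat.all [[pc], cM k l Cs i 0, cM k l Cs i 1, gM k l Gs i 0 1 2 3])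
      (Mat.and (Mat.imp (is0 (nn k l) k 2) (eqB (nn k l) k 3 0))
        (Mat.imp (is1 (nn k l) k 2) (eqB (nn k l) k 3 1))))

/-- The check of a certificate. -/
def chk (s : Bool) (k l : ℕ) (pc : Asg) (b : ℕ) (ce : List Mat × List Mat) : Bool :=
  chk1 s k l pc b ce.1 &&
  ((List.range b).all fun i =>
    ((List.range b).all fun j => decide (j ≤ i) || chk2 k l pc ce.1 i j) &&
    (chk3 k l pc ce.1 i && (chk4 s k l pc ce.1 i && (chk5 k l pc ce.1 ce.2 i &&
      (chk6 k l pc ce.1 ce.2 i && chk7 k l pc ce.1 ce.2 i)))))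

/-! ## Instructions and finite strategies -/

/-- Operands: registers and integer constants. -/
abbrev Opd := ℕ ⊕ ℤ

/-- Instructions: `Sum.inl b` is `stop with output b`; `Sum.inr (o, u, v)` is `u + v`, `u - v`,
`u * v` (the result is stored in a new register) for `o = 0, 1, 2`, and the test of the sign of
`u` for `o = 3`. -/
abbrev Ins := ℕ ⊕ (Fin 4 × Opd × Opd)

/-- Finite strategies. -/
abbrev Tb := List (List ℤ × Ins)

/-- The instruction after a history. -/
def Tb.ins (T : Tb) (h : List ℤ) : Ins := (T.lookup h).getD (Sum.inl 0)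

/-- Symbolic states: registers, history, conditions. -/
abbrev Sst := List Pl × List ℤ × Asg

/-- Integer constants. -/
def cstZ (z : ℤ) : Pl := Pl.cst (decide (0 ≤ z), z.natAbs)

/-- The polynomial of an operand. -/
def opP (r : List Pl) : Opd → Pl := Sum.elim (fun i => r.getD i []) cstZ

/-- The polynomial of a result. -/
def resP (r : List Pl) (o : Fin 4) (u v : Opd) : Pl :=
  if o = 0 then Pl.add (opP r u) (opP r v) else
    if o = 1 then Pl.add (opP r u) (Pl.neg (opP r v)) else Pl.mul (opP r u) (opP r v)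

/-- A sign as an integer. -/
def zs (s : SignType) : ℤ := s

/-- The next symbolic states. -/
def nxt (T : Tb) (st : Sst) : List Sst :=
  match T.ins st.2.1 with
  | Sum.inl _ => [st]
  | Sum.inr (o, u, v) =>
    if o = 3 then ([-1, 0, 1] : List SignType).map fun s =>
      (st.1, st.2.1 ++ [zs s], st.2.2 ++ [(opP st.1 u, s)])
    else [(st.1 ++ [resP st.1 o u v], st.2.1 ++ [0], st.2.2)]

/-- The symbolic states after `D` steps. -/
def fin (T : Tb) (D N : ℕ) : List Sst :=
  (fun L : List Sst => L.flatMap (nxt T))^[D] [((List.range N).map Pl.var, [], [])]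

/-- The check of a finite strategy with certificates. -/
def VV (C : ℕ) (s : Bool) (k l : ℕ) (T : Tb) (ce : List (List Mat × List Mat)) : Bool :=
  (fin T (k ^ (C * l)) (nn k l)).all fun st =>
    match T.ins st.2.1 with
    | Sum.inl b => chk s k l st.2.2 b (ce.getD b ([], []))
    | Sum.inr _ => false

end Pool.Agent.QCT
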