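import Pool.Agent.QCT.StubD

/-!
# Project QCT, P9e: the pairs of points in the same component
-/

namespace Pool.Agent.QCT.Same

open Set

/-! ## Definability -/

section Def

variable {X : Type} [Sp X] {k : ℕ}

theorem dfn_zero : DFn fun _ : X => (0 : ℝ) := by simpa using DFn.int (X := X) 0

theorem dfn_one : DFn fun _ : X => (1 : ℝ) := by simpa using DFn.int (X := X) 1

/-- All coordinates closer than `e`. -/
def Near (y z : Fin k → ℝ) (e : ℝ) : Prop := ∀ i, y i - z i < e ∧ z i - y i < e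

theorem near_iff {y z : Fin k → ℝ} {e : ℝ} (he : 0 < e) : Near y z e ↔ dist y z < e := by
  rw [dist_pi_lt_iff he]
  refine forall_congr' fun i => ?_
  rw [Real.dist_eq, abs_lt]
  constructor <;> rintro ⟨h1, h2⟩ <;> constructor <;> linarith

theorem dp_near {f g : X → Fin k → ℝ} {e : X → ℝ} (hf : DFn f) (hg : DFn g) (he : DFn e) :
    DP fun x => Near (f x) (g x) (e x) :=
  DP.allFin fun i => DP.and (DP.lt (DFn.sub (DFn.app i hf) (DFn.app i hg)) he)
    (DP.lt (DFn.sub (DFn.app i hg) (DFn.app i hf)) he)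

theorem dp_closure {D : X × (Fin k → ℝ) → Prop} (hD : DP D) :
    DP fun p : X × (Fin k → ℝ) => p.2 ∈ closure {z | D (p.1, z)} := by
  have h : DP fun p : X × (Fin k → ℝ) =>
      ∀ e : ℝ, 0 < e → ∃ q : Fin k → ℝ, D (p.1, q) ∧ Near p.2 q e := by
    refine DP.all (DP.imp (DP.lt dfn_zero DFn.snd) (DP.ex (DP.and ?_ ?_)))
    · exact DP.comp hD (DFn.prod (DFn.fst.comp (DFn.fst.comp DFn.fst)) DFn.snd)
    · exact dp_near (DFn.snd.comp (DFn.fst.comp DFn.fst)) DFn.snd (DFn.snd.comp DFn.fst)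
  convert h using 2 with p
  rw [Metric.mem_closure_iff]
  refine forall_congr' fun e => forall_congr' fun he => ?_
  refine exists_congr fun q => and_congr Iff.rfl ?_
  rw [near_iff he]

theorem dp_continuousAt {f : X × ℝ → (Fin k → ℝ)} (hf : DFn f) :
    DP fun p : X × ℝ => ContinuousAt (fun t => f (p.1, t)) p.2 := by
  have h : DP fun p : X × ℝ => ∀ e : ℝ, 0 < e → ∃ d : ℝ, 0 < d ∧
      ∀ s : ℝ, s - p.2 < d ∧ p.2 - s < d → Near (f (p.1, s)) (f (p.1, p.2)) e := by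
    refine DP.all (DP.imp (DP.lt dfn_zero DFn.snd) (DP.ex (DP.and (DP.lt dfn_zero DFn.snd)
      (DP.all (DP.imp (DP.and ?_ ?_) ?_)))))
    · exact DP.lt (DFn.sub DFn.snd (DFn.snd.comp (DFn.fst.comp (DFn.fst.comp DFn.fst))))
        (DFn.snd.comp DFn.fst)
    · exact DP.lt (DFn.sub (DFn.snd.comp (DFn.fst.comp (DFn.fst.comp DFn.fst))) DFn.snd)
        (DFn.snd.comp DFn.fst)
    · refine dp_near (hf.comp (DFn.prod (DFn.fst.comp (DFn.fst.comp (DFn.fst.comp DFn.fst)))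
        DFn.snd)) (hf.comp (DFn.fst.comp (DFn.fst.comp DFn.fst)))
        (DFn.snd.comp (DFn.fst.comp DFn.fst))
  convert h using 2 with p
  rw [Metric.continuousAt_iff]
  refine forall_congr' fun e => forall_congr' fun he => ?_
  refine exists_congr fun d => and_congr Iff.rfl ?_
  refine forall_congr' fun s => ?_
  rw [near_iff he, Real.dist_eq, abs_lt]
  refine imp_congr ?_ Iff.rfl
  constructor <;> rintro ⟨h1, h2⟩ <;> constructor <;> linarith

end Def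

/-! ## Operations on `PR` -/

section PRops

variable {X : Type} [Sp X] {k : ℕ} {S T : X × (Fin k → ℝ) → Prop}
  {E F : X × (Fin k → ℝ) × (Fin k → ℝ) → Prop}

theorem pr_mono (h : PR S E) (hS : ∀ p, S p → T p) (hE : ∀ p, F p → E p) : PR T F := by
  obtain ⟨g, hg, hgP⟩ := h
  refine ⟨g, hg, fun x y y' hF => ?_⟩
  have h1 := hgP x y y' (hE _ hF)
  exact ⟨h1.cont, h1.zero, h1.one, fun t ht => hS _ (h1.mem t ht)⟩

theorem pr_false : PR S fun _ => False :=
  ⟨fun _ _ => 0, DFn.pi fun _ => dfn_zero, fun _ _ _ h => h.elim⟩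

open Classical in
theorem pr_or (hE : DP E) (h : PR S E) (h' : PR S F) : PR S fun p => E p ∨ F p := by
  obtain ⟨g, hg, hgP⟩ := h
  obtain ⟨g', hg', hgP'⟩ := h'
  refine ⟨fun q => if E (q.1, q.2.1, q.2.2.1) then g q else g' q, DFn.ite ?_ hg hg',
    fun x y y' h => ?_⟩
  · exact DP.comp hE (DFn.prod DFn.fst (DFn.prod (DFn.fst.comp DFn.snd)
      (DFn.fst.comp (DFn.snd.comp DFn.snd))))
  · by_cases h1 : E (x, y, y')
    · simp only [h1, if_true]
      exact hgP x y y' h1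
    · simp only [h1, if_false]
      exact hgP' x y y' (h.resolve_left h1)

theorem pr_exFin {n : ℕ} {E : Fin n → X × (Fin k → ℝ) × (Fin k → ℝ) → Prop}
    (hE : ∀ i, DP (E i)) (h : ∀ i, PR S (E i)) : PR S fun p => ∃ i, E i p := by
  induction n with
  | zero => exact pr_mono pr_false (fun _ h => h) fun p ⟨i, _⟩ => i.elim0
  | succ n ih =>
    refine pr_mono (pr_or (hE 0) (h 0) (ih (E := fun i => E i.succ) (fun i => hE _)
      fun i => h _)) (fun _ h => h) fun p ⟨i, hi⟩ => ?_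
    cases i using Fin.cases with
    | zero => exact Or.inl hi
    | succ i => exact Or.inr ⟨i, hi⟩

theorem pr_exFinite {ι : Type*} [Finite ι] {E : ι → X × (Fin k → ℝ) × (Fin k → ℝ) → Prop}
    (hE : ∀ i, DP (E i)) (h : ∀ i, PR S (E i)) : PR S fun p => ∃ i, E i p := by
  obtain ⟨n, ⟨e⟩⟩ := Finite.exists_equiv_fin ι
  refine pr_mono (pr_exFin (E := fun i => E (e.symm i)) (fun i => hE _) fun i => h _)
    (fun _ h => h) fun p ⟨i, hi⟩ => ⟨e i, ?_⟩
  rwa [e.symm_apply_apply]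

theorem pr_symm (h : PR S E) : PR S fun p => E (p.1, p.2.2, p.2.1) := by
  obtain ⟨g, hg, hgP⟩ := h
  refine ⟨fun q => g (q.1, q.2.2.1, q.2.1, 1 - q.2.2.2), ?_, fun x y y' h => ?_⟩
  · exact hg.comp (DFn.prod DFn.fst (DFn.prod (DFn.fst.comp (DFn.snd.comp DFn.snd))
      (DFn.prod (DFn.fst.comp DFn.snd)
        (DFn.sub dfn_one (DFn.snd.comp (DFn.snd.comp DFn.snd))))))
  · have h1 := hgP x y' y h
    refine ⟨?_, ?_, ?_, ?_⟩
    · refine h1.cont.comp (f := fun t : ℝ => 1 - t) (by fun_prop) ?_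
      rintro t ⟨h2, h3⟩
      constructor <;> linarith
    · simpa using h1.one
    · simpa using h1.zero
    · rintro t ⟨h2, h3⟩
      refine h1.mem (1 - t) ⟨by linarith, by linarith⟩

theorem pathIn_trans {A : Set (Fin k → ℝ)} {y z y' : Fin k → ℝ} {g g' : ℝ → Fin k → ℝ}
    (h : PathIn A y z g) (h' : PathIn A z y' g') :
    PathIn A y y' fun t => if t + t ≤ 1 then g (t + t) else g' (t + t - 1) := by
  refine ⟨?_, ?_, ?_, ?_⟩
  · have h1 : Icc (0 : ℝ) 1 = Icc 0 (1 / 2) ∪ Icc (1 / 2) 1 := by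
      rw [Icc_union_Icc_eq_Icc] <;> norm_num
    rw [h1]
    refine ContinuousOn.union_of_isClosed ?_ ?_ isClosed_Icc isClosed_Icc
    · refine ContinuousOn.congr (f := fun t => g (t + t)) (h.cont.comp (f := fun t : ℝ => t + t)
        (by fun_prop) ?_) ?_
      · rintro t ⟨h2, h3⟩
        constructor <;> linarith
      · rintro t ⟨h2, h3⟩
        simp only
        rw [if_pos (by linarith)]
    · refine ContinuousOn.congr (f := fun t => g' (t + t - 1))
        (h'.cont.comp (f := fun t : ℝ => t + t - 1) (by fun_prop) ?_) ?_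
      · rintro t ⟨h2, h3⟩
        constructor <;> linarith
      · rintro t ⟨h2, h3⟩
        simp only
        by_cases h4 : t + t ≤ 1
        · have h5 : t + t = 1 := by linarith
          rw [if_pos h4, h5, h.one, sub_self, h'.zero]
        · rw [if_neg h4]
  · rw [if_pos (by norm_num), add_zero, h.zero]
  · rw [if_neg (by norm_num)]
    have : (1 : ℝ) + 1 - 1 = 1 := by norm_num
    rw [this, h'.one]
  · rintro t ⟨h2, h3⟩
    split_ifs with h4
    · exact h.mem _ ⟨by linarith, h4⟩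
    · exact h'.mem _ ⟨by linarith, by linarith⟩

theorem exists_pos_of_finite {A : Set ℝ} (hA : A.Finite) :
    ∃ d : ℝ, 0 < d ∧ ∀ t ∈ A, 0 < t → d < t := by
  induction A, hA using Set.Finite.induction_on with
  | empty => exact ⟨1, one_pos, by simp⟩
  | @insert a A _ _ ih =>
    obtain ⟨d, hd, h⟩ := ih
    by_cases ha : 0 < a
    · refine ⟨min d (a / 2), lt_min hd (by positivity), ?_⟩
      rintro t (rfl | ht) h0
      · exact (min_le_right _ _).trans_lt (by linarith)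
      · exact (min_le_left _ _).trans_lt (h t ht h0)
    · refine ⟨d, hd, ?_⟩
      rintro t (rfl | ht) h0
      · exact absurd h0 ha
      · exact h t ht h0

open Classical in
theorem pr_comp (hE : DP E) (hF : DP F) (h : PR S E) (h' : PR S F) :
    PR S fun p => ∃ z, E (p.1, p.2.1, z) ∧ F (p.1, z, p.2.2) := by
  obtain ⟨g, hg, hgP⟩ := h
  obtain ⟨g', hg', hgP'⟩ := h'
  obtain ⟨c, hc, hcP⟩ := exists_choice
    (P := fun (p : X × (Fin k → ℝ) × (Fin k → ℝ)) (z : Fin k → ℝ) =>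
      E (p.1, p.2.1, z) ∧ F (p.1, z, p.2.2)) (DP.and
      (DP.comp hE (DFn.prod (DFn.fst.comp DFn.fst) (DFn.prod
        (DFn.fst.comp (DFn.snd.comp DFn.fst)) DFn.snd)))
      (DP.comp hF (DFn.prod (DFn.fst.comp DFn.fst) (DFn.prod DFn.snd
        (DFn.snd.comp (DFn.snd.comp DFn.fst))))))
  have hc' : DFn fun q : X × (Fin k → ℝ) × (Fin k → ℝ) × ℝ => c (q.1, q.2.1, q.2.2.1) :=
    hc.comp (DFn.prod DFn.fst (DFn.prod (DFn.fst.comp DFn.snd)
      (DFn.fst.comp (DFn.snd.comp DFn.snd))))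
  have ht : DFn fun q : X × (Fin k → ℝ) × (Fin k → ℝ) × ℝ => q.2.2.2 :=
    DFn.snd.comp (DFn.snd.comp DFn.snd)
  have ht2 : DFn fun q : X × (Fin k → ℝ) × (Fin k → ℝ) × ℝ => q.2.2.2 + q.2.2.2 :=
    DFn.add ht ht
  refine ⟨fun q => if q.2.2.2 + q.2.2.2 ≤ 1 then
      g (q.1, q.2.1, c (q.1, q.2.1, q.2.2.1), q.2.2.2 + q.2.2.2)
    else g' (q.1, c (q.1, q.2.1, q.2.2.1), q.2.2.1, q.2.2.2 + q.2.2.2 - 1),
    DFn.ite (DP.le ht2 dfn_one) ?_ ?_, fun x y y' h => ?_⟩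
  · exact hg.comp (DFn.prod DFn.fst (DFn.prod (DFn.fst.comp DFn.snd) (DFn.prod hc' ht2)))
  · exact hg'.comp (DFn.prod DFn.fst (DFn.prod hc' (DFn.prod
      (DFn.fst.comp (DFn.snd.comp DFn.snd)) (DFn.sub ht2 dfn_one))))
  · obtain ⟨h1, h2⟩ := hcP (x, y, y') h
    have h3 := hgP x y _ h1
    have h4 := hgP' x _ y' h2
    exact pathIn_trans h3 h4

end PRops

/-! ## Curve selection -/

section Curve

variable {X : Type} [Sp X] {k : ℕ}

open Classical in
/-- Points of the closure of `D` are joined to points of `D` by paths in `D` and the point. -/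
theorem exists_curve {D : X × (Fin k → ℝ) → Prop} (hD : DP D) :
    ∃ c : X × (Fin k → ℝ) → (Fin k → ℝ), DFn c ∧
      (∀ x p, p ∈ closure {z | D (x, z)} → D (x, c (x, p))) ∧
      ∀ S : X × (Fin k → ℝ) → Prop, (∀ p, D p → S p) →
        PR S fun q => (S (q.1, q.2.1) ∧ q.2.1 ∈ closure {z | D (q.1, z)}) ∧
          q.2.2 = c (q.1, q.2.1) := by
  obtain ⟨f, hf, hfP⟩ := exists_choice
    (P := fun (p : (X × (Fin k → ℝ)) × ℝ) (q : Fin k → ℝ) =>
      D (p.1.1, q) ∧ Near p.1.2 q p.2) (DP.and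
      (DP.comp hD (DFn.prod (DFn.fst.comp (DFn.fst.comp DFn.fst)) DFn.snd))
      (dp_near (DFn.snd.comp (DFn.fst.comp DFn.fst)) DFn.snd (DFn.snd.comp DFn.fst)))
  obtain ⟨N, hN⟩ := exists_discont (f := fun (p : X × (Fin k → ℝ)) (t : ℝ) => f (p, t)) hf
  obtain ⟨e, he, heP⟩ := exists_choice
    (P := fun (p : X × (Fin k → ℝ)) (e : Fin 1 → ℝ) => 0 < e 0 ∧
      ∀ t : ℝ, (0 < t ∧ t ≤ e 0) → ContinuousAt (fun t => f (p, t)) t) (DP.and
      (DP.lt dfn_zero (DFn.app 0 DFn.snd))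
      (DP.all (DP.imp (DP.and (DP.lt dfn_zero DFn.snd)
        (DP.le DFn.snd (DFn.app 0 (DFn.snd.comp DFn.fst))))
        (DP.comp (dp_continuousAt hf) (DFn.prod (DFn.fst.comp DFn.fst) DFn.snd)))))
  have he1 : ∀ p, 0 < e p 0 ∧
      ∀ t : ℝ, (0 < t ∧ t ≤ e p 0) → ContinuousAt (fun t => f (p, t)) t := by
    intro p
    apply heP p
    obtain ⟨d, hd, hdP⟩ := exists_pos_of_finite (hN p).1
    refine ⟨fun _ => d, hd, fun t ht => ?_⟩
    by_contra hcon
    exact absurd (hdP t hcon ht.1) (not_lt.mpr ht.2)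
  have hf1 : ∀ x p, p ∈ closure {z | D (x, z)} → ∀ t : ℝ, 0 < t →
      D (x, f ((x, p), t)) ∧ dist p (f ((x, p), t)) < t := by
    intro x p hp t ht
    obtain ⟨q, hq, hpq⟩ := Metric.mem_closure_iff.mp hp t ht
    have h1 := hfP ((x, p), t) ⟨q, hq, (near_iff ht).mpr hpq⟩
    exact ⟨h1.1, (near_iff ht).mp h1.2⟩
  have hec : DFn fun p : X × (Fin k → ℝ) => e p 0 := DFn.app 0 he
  refine ⟨fun p => f (p, e p 0), hf.comp (DFn.prod DFn.id hec),
    fun x p hp => (hf1 x p hp _ (he1 _).1).1, fun S hS => ?_⟩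
  have hp : DFn fun q : X × (Fin k → ℝ) × (Fin k → ℝ) × ℝ => (q.1, q.2.1) :=
    DFn.prod DFn.fst (DFn.fst.comp DFn.snd)
  have ht : DFn fun q : X × (Fin k → ℝ) × (Fin k → ℝ) × ℝ => q.2.2.2 :=
    DFn.snd.comp (DFn.snd.comp DFn.snd)
  refine ⟨fun q => if q.2.2.2 ≤ 0 then q.2.1 else f ((q.1, q.2.1), e (q.1, q.2.1) 0 * q.2.2.2),
    DFn.ite (DP.le ht dfn_zero) (DFn.fst.comp DFn.snd)
      (hf.comp (DFn.prod hp (DFn.mul (hec.comp hp) ht))), ?_⟩
  rintro x y y' ⟨⟨hy, hyc⟩, hy'⟩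
  simp only at hy hyc hy' ⊢
  subst hy'
  obtain ⟨he0, hec0⟩ := he1 (x, y)
  refine ⟨?_, ?_, ?_, ?_⟩
  · intro t ht
    rcases ht.1.eq_or_lt with h0 | h0
    · subst h0
      rw [ContinuousWithinAt, if_pos le_rfl, tendsto_iff_dist_tendsto_zero]
      have h2 : Filter.Tendsto (fun t : ℝ => e (x, y) 0 * t) (nhdsWithin 0 (Icc 0 1)) (nhds 0) := by
        have : ContinuousWithinAt (fun t : ℝ => e (x, y) 0 * t) (Icc 0 1) 0 := by fun_prop
        simpa [ContinuousWithinAt] using this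
      refine squeeze_zero' (Filter.Eventually.of_forall fun _ => dist_nonneg) ?_ h2
      filter_upwards [self_mem_nhdsWithin] with s hs
      by_cases h3 : s ≤ 0
      · rw [if_pos h3, dist_self]
        exact mul_nonneg he0.le hs.1
      · rw [if_neg h3, dist_comm]
        exact (hf1 x y hyc _ (mul_pos he0 (not_le.mp h3))).2.le
    · have h2 : ContinuousAt (fun s => f ((x, y), e (x, y) 0 * s)) t := by
        refine ContinuousAt.comp (g := fun s => f ((x, y), s)) (f := fun s => e (x, y) 0 * s) ?_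
          (by fun_prop)
        exact hec0 _ ⟨mul_pos he0 h0, by nlinarith [ht.2]⟩
      refine (h2.congr ?_).continuousWithinAt
      filter_upwards [lt_mem_nhds h0] with s hs
      rw [if_neg (not_le.mpr hs)]
  · rw [if_pos le_rfl]
  · rw [if_neg (by norm_num), mul_one]
  · intro t ht
    by_cases h3 : t ≤ 0
    · rw [if_pos h3]
      exact hy
    · rw [if_neg h3]
      exact hS _ (hf1 x y hyc _ (mul_pos he0 (not_le.mp h3))).1

end Curve

/-! ## The relation -/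

section Main

variable {X : Type} [Sp X] {k : ℕ}

/-- Adjacent pieces. -/
def Adj {L : ℕ} (D : Fin L → X × (Fin k → ℝ) → Prop) (x : X) (i j : Fin L) : Prop :=
  ∃ p : Fin k → ℝ, D i (x, p) ∧ p ∈ closure {z | D j (x, z)}

theorem dp_adj {L : ℕ} {D : Fin L → X × (Fin k → ℝ) → Prop} (hD : ∀ i, DP (D i)) (i j : Fin L) :
    DP fun x => Adj D x i j :=
  DP.ex (DP.and (hD i) (dp_closure (hD j)))

/-- The pairs of points in the pieces `i`, `j`. -/
def B {L : ℕ} (D : Fin L → X × (Fin k → ℝ) → Prop) (i j : Fin L)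
    (q : X × (Fin k → ℝ) × (Fin k → ℝ)) : Prop :=
  D i (q.1, q.2.1) ∧ D j (q.1, q.2.2)

theorem dp_B {L : ℕ} {D : Fin L → X × (Fin k → ℝ) → Prop} (hD : ∀ i, DP (D i)) (i j : Fin L) :
    DP (B D i j) :=
  DP.and (DP.comp (hD i) (DFn.prod DFn.fst (DFn.fst.comp DFn.snd)))
    (DP.comp (hD j) (DFn.prod DFn.fst (DFn.snd.comp DFn.snd)))

theorem pr_adj {L : ℕ} {D : Fin L → X × (Fin k → ℝ) → Prop} (hD : ∀ i, DP (D i))
    {S : X × (Fin k → ℝ) → Prop} (hS : ∀ i p, D i p → S p) (hB : ∀ i, PR S (B D i i))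
    (i j : Fin L) : PR S fun q => B D i j q ∧ Adj D q.1 i j := by
  obtain ⟨c, hc, hcD, hcP⟩ := exists_curve (hD j)
  have h1 := hcP S (hS j)
  have hE : DP fun q : X × (Fin k → ℝ) × (Fin k → ℝ) =>
      (D i (q.1, q.2.1) ∧ q.2.1 ∈ closure {z | D j (q.1, z)}) ∧ q.2.2 = c (q.1, q.2.1) := by
    have h2 : DFn fun q : X × (Fin k → ℝ) × (Fin k → ℝ) => (q.1, q.2.1) :=
      DFn.prod DFn.fst (DFn.fst.comp DFn.snd)
    exact DP.and (DP.and (DP.comp (hD i) h2) (DP.comp (dp_closure (hD j)) h2))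
      (DP.eq (DFn.snd.comp DFn.snd) (hc.comp h2))
  have h2 := pr_comp (dp_B hD i i) hE (hB i) (pr_mono h1 (fun _ h => h) (fun q h =>
    ⟨⟨hS i _ h.1.1, h.1.2⟩, h.2⟩))
  have h3 : DP fun p : X × (Fin k → ℝ) × (Fin k → ℝ) => ∃ z, B D i i (p.1, p.2.1, z) ∧
      (D i (p.1, z) ∧ z ∈ closure {w | D j (p.1, w)}) ∧ p.2.2 = c (p.1, z) := by
    refine DP.ex (DP.and (DP.comp (dp_B hD i i) (DFn.prod (DFn.fst.comp DFn.fst) (DFn.prod
      (DFn.fst.comp (DFn.snd.comp DFn.fst)) DFn.snd))) ?_)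
    exact DP.comp hE (DFn.prod (DFn.fst.comp DFn.fst) (DFn.prod DFn.snd
      (DFn.snd.comp (DFn.snd.comp DFn.fst))))
  refine pr_mono (pr_comp h3 (dp_B hD j j) h2 (hB j)) (fun _ h => h) ?_
  rintro ⟨x, y, y'⟩ ⟨⟨hy, hy'⟩, p, hp, hpc⟩
  exact ⟨c (x, p), ⟨p, ⟨hy, hp⟩, ⟨hp, hpc⟩, rfl⟩, hcD x p hpc, hy'⟩

/-- Adjacent in one of the two orders. -/
def Adj2 {L : ℕ} (D : Fin L → X × (Fin k → ℝ) → Prop) (x : X) (i j : Fin L) : Prop :=
  Adj D x i j ∨ Adj D x j i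

theorem pr_adj2 {L : ℕ} {D : Fin L → X × (Fin k → ℝ) → Prop} (hD : ∀ i, DP (D i))
    {S : X × (Fin k → ℝ) → Prop} (hS : ∀ i p, D i p → S p) (hB : ∀ i, PR S (B D i i))
    (i j : Fin L) : PR S fun q => B D i j q ∧ Adj2 D q.1 i j := by
  refine pr_mono (pr_or (DP.and (dp_B hD i j) (DP.comp (dp_adj hD i j) DFn.fst))
    (pr_adj hD hS hB i j) (pr_symm (pr_adj hD hS hB j i))) (fun _ h => h) ?_
  rintro ⟨x, y, y'⟩ ⟨⟨hy, hy'⟩, h | h⟩
  · exact Or.inl ⟨⟨hy, hy'⟩, h⟩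
  · exact Or.inr ⟨⟨hy', hy⟩, h⟩

theorem dp_rel {L : ℕ} {D : Fin L → X × (Fin k → ℝ) → Prop} (hD : ∀ i, DP (D i))
    (ρ : Fin L → Fin L → Prop) (i j : Fin L) : DP fun q : X × (Fin k → ℝ) × (Fin k → ℝ) =>
      B D i j q ∧ ∀ a b, (Adj2 D q.1 a b ↔ ρ a b) :=
  DP.and (dp_B hD i j) (DP.allFin fun a => DP.allFin fun b => DP.iff
    (DP.or (DP.comp (dp_adj hD a b) DFn.fst) (DP.comp (dp_adj hD b a) DFn.fst)) (DP.const _))

theorem pr_rel {L : ℕ} {D : Fin L → X × (Fin k → ℝ) → Prop} (hD : ∀ i, DP (D i))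
    {S : X × (Fin k → ℝ) → Prop} (hS : ∀ i p, D i p → S p) (hB : ∀ i, PR S (B D i i))
    (ρ : Fin L → Fin L → Prop) (i j : Fin L) (h : Relation.ReflTransGen ρ i j) :
    PR S fun q => B D i j q ∧ ∀ a b, (Adj2 D q.1 a b ↔ ρ a b) := by
  induction h with
  | refl => exact pr_mono (hB i) (fun _ h => h) fun q h => h.1
  | @tail b c _ hbc ih =>
    have h1 : DP fun q : X × (Fin k → ℝ) × (Fin k → ℝ) => B D b c q ∧ Adj2 D q.1 b c :=
      DP.and (dp_B hD b c)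
        (DP.or (DP.comp (dp_adj hD b c) DFn.fst) (DP.comp (dp_adj hD c b) DFn.fst))
    refine pr_mono (pr_comp (dp_rel hD ρ i b) h1 ih (pr_adj2 hD hS hB b c)) (fun _ h => h) ?_
    rintro ⟨x, y, y'⟩ ⟨⟨hy, hy'⟩, hρ⟩
    have h2 : Adj2 D x b c := (hρ b c).mpr hbc
    obtain ⟨z, hz⟩ : ∃ z, D b (x, z) := by
      rcases h2 with ⟨p, hp, _⟩ | ⟨p, _, hp⟩
      · exact ⟨p, hp⟩
      · obtain ⟨z, hz⟩ := closure_nonempty_iff.mp ⟨p, hp⟩
        exact ⟨z, hz⟩
    exact ⟨z, ⟨⟨hy, hz⟩, hρ⟩, ⟨hz, hy'⟩, h2⟩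

theorem dp_exFinite {Y : Type} [Sp Y] {ι : Type*} [Finite ι] {P : ι → Y → Prop}
    (hP : ∀ i, DP (P i)) : DP fun x => ∃ i, P i x := by
  obtain ⟨n, ⟨e⟩⟩ := Finite.exists_equiv_fin ι
  have h := DP.exFin (P := fun i => P (e.symm i)) fun i => hP _
  convert h using 2 with x
  exact ⟨fun ⟨i, hi⟩ => ⟨e i, by rwa [e.symm_apply_apply]⟩, fun ⟨i, hi⟩ => ⟨_, hi⟩⟩

omit [Sp X] in
/-- The component of a point is the union of the pieces connected to the piece of the point. -/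
theorem component {L : ℕ} {D : Fin L → X × (Fin k → ℝ) → Prop} {S : X × (Fin k → ℝ) → Prop}
    (hS : ∀ p, S p ↔ ∃ i, D i p) {x : X} {y y' : Fin k → ℝ} (hy : S (x, y))
    (hy' : y' ∈ connectedComponentIn {z | S (x, z)} y) :
    ∃ i j, D i (x, y) ∧ D j (x, y') ∧ Relation.ReflTransGen (Adj2 D x) i j := by
  obtain ⟨i, hi⟩ := (hS _).mp hy
  have hc : IsPreconnected (connectedComponentIn {z | S (x, z)} y) :=
    isPreconnected_connectedComponentIn
  rw [isPreconnected_closed_iff] at hc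
  have hsub : connectedComponentIn {z | S (x, z)} y ⊆ {z | S (x, z)} :=
    connectedComponentIn_subset _ _
  have hyc : y ∈ connectedComponentIn {z | S (x, z)} y := mem_connectedComponentIn hy
  obtain ⟨j, hj⟩ := (hS _).mp (hsub hy')
  by_contra hcon
  have hj' : ¬ Relation.ReflTransGen (Adj2 D x) i j := fun h => hcon ⟨i, j, hi, hj, h⟩
  have hcl : ∀ J : Set (Fin L), IsClosed (⋃ m ∈ J, closure {z | D m (x, z)}) := fun J =>
    (Set.toFinite J).isClosed_biUnion fun _ _ => isClosed_closure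
  obtain ⟨p, hp, hp1, hp2⟩ := hc (⋃ m ∈ {m | Relation.ReflTransGen (Adj2 D x) i m},
      closure {z | D m (x, z)})
    (⋃ m ∈ {m | ¬ Relation.ReflTransGen (Adj2 D x) i m}, closure {z | D m (x, z)})
    (hcl _) (hcl _) (by
      intro z hz
      obtain ⟨m, hm⟩ := (hS _).mp (hsub hz)
      by_cases h : Relation.ReflTransGen (Adj2 D x) i m
      · exact Or.inl (mem_biUnion (show m ∈ {m | _} from h) (subset_closure hm))
      · exact Or.inr (mem_biUnion (show m ∈ {m | _} from h) (subset_closure hm)))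
    ⟨y, hyc, mem_biUnion (show i ∈ {m | _} from Relation.ReflTransGen.refl) (subset_closure hi)⟩
    ⟨y', hy', mem_biUnion (show j ∈ {m | _} from hj') (subset_closure hj)⟩
  obtain ⟨m, hm⟩ := (hS _).mp (hsub hp)
  rw [mem_iUnion₂] at hp1 hp2
  obtain ⟨a, ha, hpa⟩ := hp1
  obtain ⟨b, hb, hpb⟩ := hp2
  exact hb ((ha.tail (Or.inr ⟨p, hm, hpa⟩)).tail (Or.inl ⟨p, hm, hpb⟩))

theorem exists_same {S : X × (Fin k → ℝ) → Prop} (hS : DP S) :
    ∃ E : X × (Fin k → ℝ) × (Fin k → ℝ) → Prop, DP E ∧ PR S E ∧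
      ∀ x y y', E (x, y, y') ↔ S (x, y) ∧ y' ∈ connectedComponentIn {z | S (x, z)} y := by
  obtain ⟨L, D, hD, hSD, hDP⟩ := exists_pieces hS
  have hS' : ∀ i p, D i p → S p := fun i p h => (hSD p).mpr ⟨i, h⟩
  have hB : ∀ i, PR S (B D i i) := fun i => pr_mono (hDP i) (hS' i) fun _ h => h
  have hfin : Finite {t : (Fin L → Fin L → Prop) × Fin L × Fin L //
      Relation.ReflTransGen t.1 t.2.1 t.2.2} := inferInstance
  have hPR : PR S fun q => ∃ t : {t : (Fin L → Fin L → Prop) × Fin L × Fin L //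
      Relation.ReflTransGen t.1 t.2.1 t.2.2}, B D t.1.2.1 t.1.2.2 q ∧
        ∀ a b, (Adj2 D q.1 a b ↔ t.1.1 a b) :=
    pr_exFinite (fun t => dp_rel hD _ _ _) fun t => pr_rel hD hS' hB _ _ _ t.2
  refine ⟨_, dp_exFinite fun t => dp_rel hD _ _ _, hPR, fun x y y' => ⟨fun h => ?_, ?_⟩⟩
  · obtain ⟨g, _, hg⟩ := hPR
    have h1 := hg x y y' h
    obtain ⟨t, ⟨h2, _⟩, _⟩ := h
    refine ⟨hS' _ _ h2, ?_⟩
    have h3 : IsPreconnected ((fun t => g (x, y, y', t)) '' Icc 0 1) :=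
      isPreconnected_Icc.image _ h1.cont
    have h4 : (fun t => g (x, y, y', t)) '' Icc 0 1 ⊆ {z | S (x, z)} := by
      rintro _ ⟨s, hs, rfl⟩
      exact h1.mem s hs
    exact h3.subset_connectedComponentIn ⟨0, ⟨le_rfl, zero_le_one⟩, h1.zero⟩ h4
      ⟨1, ⟨zero_le_one, le_rfl⟩, h1.one⟩
  · rintro ⟨h1, h2⟩
    obtain ⟨i, j, hi, hj, h3⟩ := component hSD h1 h2
    exact ⟨⟨(Adj2 D x, i, j), h3⟩, ⟨hi, hj⟩, fun _ _ => Iff.rfl⟩

end Main

end Pool.Agent.QCT.Same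

namespace Pool.Agent.QCT

/-- The pairs of points in the same component are definable and joined by definable paths. -/
theorem exists_same {X : Type} [Sp X] {k : ℕ} {S : X × (Fin k → ℝ) → Prop} (hS : DP S) :
    ∃ E : X × (Fin k → ℝ) × (Fin k → ℝ) → Prop, DP E ∧ PR S E ∧
      ∀ x y y', E (x, y, y') ↔ S (x, y) ∧ y' ∈ connectedComponentIn {z | S (x, z)} y :=
  Same.exists_same hS

end Pool.Agent.QCT
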