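import Pool.Agent.QCT.StubD
import Pool.Agent.QCT.Same

/-!
# Project QCT, P9f: existence of certificates over the reals
-/

namespace Pool.Agent.QCT.Cert9

open Set

/-! ## Topology: representatives of the components -/

section Top

variable {k : ℕ} {T : Set (Fin k → ℝ)}

theorem mem_cc_iff {y y' : Fin k → ℝ} (hy : y ∈ T) (hy' : y' ∈ T) :
    y' ∈ connectedComponentIn T y ↔
      ((⟨y', hy'⟩ : T) : ConnectedComponents T) = ((⟨y, hy⟩ : T) : ConnectedComponents T) := by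
  rw [connectedComponentIn_eq_image hy, ConnectedComponents.coe_eq_coe']
  constructor
  · rintro ⟨z, hz, rfl⟩
    exact hz
  · intro h
    exact ⟨⟨y', hy'⟩, h, rfl⟩

variable {b : ℕ} {c : ℕ → Fin k → ℝ}

theorem reps_mem [Finite (ConnectedComponents T)] (hcard : Nat.card (ConnectedComponents T) = b)
    (hc : ∀ i < b, (∃ y, y ∈ T ∧ ∀ j < i, ¬ (c j ∈ T ∧ y ∈ connectedComponentIn T (c j))) →
      c i ∈ T ∧ ∀ j < i, ¬ (c j ∈ T ∧ c i ∈ connectedComponentIn T (c j))) :
    ∀ i < b, c i ∈ T ∧ ∀ j < i, c i ∉ connectedComponentIn T (c j) := by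
  intro i
  induction i using Nat.strong_induction_on with
  | _ i ih =>
    intro hi
    have h1 : ∃ y, y ∈ T ∧ ∀ j < i, ¬ (c j ∈ T ∧ y ∈ connectedComponentIn T (c j)) := by
      by_contra hcon
      push Not at hcon
      have hs : Function.Surjective (fun j : Fin i =>
          ((⟨c j, (ih j j.2 (j.2.trans hi)).1⟩ : T) : ConnectedComponents T)) := by
        intro q
        obtain ⟨⟨y, hy⟩, rfl⟩ := ConnectedComponents.surjective_coe q
        obtain ⟨j, hj, hjT, hjy⟩ := hcon y hy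
        refine ⟨⟨j, hj⟩, ?_⟩
        exact ((mem_cc_iff hjT hy).mp hjy).symm
      have := Nat.card_le_card_of_surjective _ hs
      rw [hcard, Nat.card_eq_fintype_card, Fintype.card_fin] at this
      omega
    obtain ⟨h2, h3⟩ := hc i hi h1
    exact ⟨h2, fun j hj h => h3 j hj ⟨(ih j hj (hj.trans hi)).1, h⟩⟩

theorem reps_bij [Finite (ConnectedComponents T)] (hcard : Nat.card (ConnectedComponents T) = b)
    (h : ∀ i < b, c i ∈ T ∧ ∀ j < i, c i ∉ connectedComponentIn T (c j)) :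
    Function.Bijective (fun j : Fin b =>
      ((⟨c j, (h j j.2).1⟩ : T) : ConnectedComponents T)) := by
  rw [Nat.bijective_iff_injective_and_card]
  refine ⟨?_, by rw [hcard, Nat.card_eq_fintype_card, Fintype.card_fin]⟩
  intro i j hij
  simp only at hij
  rcases lt_trichotomy i j with hlt | heq | hlt
  · exact absurd ((mem_cc_iff (h i i.2).1 (h j j.2).1).mpr hij.symm) ((h j j.2).2 i hlt)
  · exact heq
  · exact absurd ((mem_cc_iff (h j j.2).1 (h i i.2).1).mpr hij) ((h i i.2).2 j hlt)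

theorem reps_cover [Finite (ConnectedComponents T)]
    (hcard : Nat.card (ConnectedComponents T) = b)
    (h : ∀ i < b, c i ∈ T ∧ ∀ j < i, c i ∉ connectedComponentIn T (c j)) (y : Fin k → ℝ) :
    y ∈ T ↔ ∃ i < b, c i ∈ T ∧ y ∈ connectedComponentIn T (c i) := by
  constructor
  · intro hy
    obtain ⟨i, hi⟩ := (reps_bij hcard h).2 ((⟨y, hy⟩ : T) : ConnectedComponents T)
    exact ⟨i, i.2, (h i i.2).1, (mem_cc_iff (h i i.2).1 hy).mpr hi.symm⟩
  · rintro ⟨i, -, -, hy⟩
    exact connectedComponentIn_subset _ _ hy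

theorem reps_disj (h : ∀ i < b, c i ∈ T ∧ ∀ j < i, c i ∉ connectedComponentIn T (c j)) {i j : ℕ}
    (hij : i < j) (hj : j < b) {y : Fin k → ℝ} (hi' : y ∈ connectedComponentIn T (c i))
    (hj' : y ∈ connectedComponentIn T (c j)) : False := by
  have hy : y ∈ T := connectedComponentIn_subset _ _ hi'
  have h1 := (mem_cc_iff (h i (hij.trans hj)).1 hy).mp hi'
  have h2 := (mem_cc_iff (h j hj).1 hy).mp hj'
  exact (h j hj).2 i hij ((mem_cc_iff (h i (hij.trans hj)).1 (h j hj).1).mpr (h2.symm.trans h1))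

theorem lt_of_dist2 {y z : Fin k → ℝ} {r : ℝ} (hr : 0 < r) (h : dist2 y z < r ^ 2) :
    dist z y < r := by
  rw [dist_pi_lt_iff hr]
  intro i
  rw [Real.dist_eq]
  refine abs_lt_of_sq_lt_sq ?_ hr.le
  have h1 : (y i - z i) ^ 2 ≤ dist2 y z :=
    Finset.single_le_sum (f := fun i => (y i - z i) ^ 2) (fun _ _ => sq_nonneg _)
      (Finset.mem_univ i)
  calc (z i - y i) ^ 2 = (y i - z i) ^ 2 := by ring
    _ ≤ dist2 y z := h1
    _ < r ^ 2 := h

theorem reps_open [Finite (ConnectedComponents T)] {p y : Fin k → ℝ} (hp : p ∈ T)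
    (hy : y ∈ connectedComponentIn T p) :
    ∃ ε > 0, ∀ y', dist2 y y' < ε → y' ∈ T → y' ∈ connectedComponentIn T p := by
  have hyT : y ∈ T := connectedComponentIn_subset _ _ hy
  have hU : IsOpen ((fun z : T => (z : ConnectedComponents T)) ⁻¹'
      {((⟨p, hp⟩ : T) : ConnectedComponents T)}) :=
    (isOpen_discrete _).preimage ConnectedComponents.continuous_coe
  obtain ⟨r, hr, hball⟩ := Metric.isOpen_iff.mp hU ⟨y, hyT⟩ ((mem_cc_iff hp hyT).mp hy)
  refine ⟨r ^ 2, by positivity, fun y' hd hy' => ?_⟩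
  rw [mem_cc_iff hp hy']
  exact hball (show dist (⟨y', hy'⟩ : T) ⟨y, hyT⟩ < r from lt_of_dist2 hr hd)

theorem path_mem {y y' : Fin k → ℝ} {g : ℝ → Fin k → ℝ} (h : PathIn T y y' g) {t : ℝ}
    (ht : t ∈ Icc (0 : ℝ) 1) : g t ∈ connectedComponentIn T y := by
  have h1 : IsPreconnected (g '' Icc 0 1) := isPreconnected_Icc.image g h.cont
  have h2 : g '' Icc 0 1 ⊆ T := by
    rintro _ ⟨s, hs, rfl⟩
    exact h.mem s hs
  exact h1.subset_connectedComponentIn ⟨0, ⟨le_rfl, zero_le_one⟩, h.zero⟩ h2 ⟨t, ht, rfl⟩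

theorem path_cont {y y' : Fin k → ℝ} {g : ℝ → Fin k → ℝ} (h : PathIn T y y' g) {t : ℝ}
    (ht : t ∈ Icc (0 : ℝ) 1) {ε : ℝ} (hε : 0 < ε) :
    ∃ δ > 0, ∀ t', t' ∈ Icc (0 : ℝ) 1 → (t - t') ^ 2 < δ → dist2 (g t) (g t') < ε := by
  have h1 : ContinuousWithinAt (fun t' => dist2 (g t) (g t')) (Icc 0 1) t := by
    unfold dist2
    have h2 := h.cont t ht
    refine tendsto_finsetSum _ fun i _ => ?_
    exact (((tendsto_const_nhds.sub ((tendsto_pi_nhds.mp h2) i))).pow 2)
  have h2 : dist2 (g t) (g t) < ε := by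
    simpa [dist2] using hε
  have h3 := h1.eventually (gt_mem_nhds h2)
  rw [eventually_nhdsWithin_iff, Metric.eventually_nhds_iff] at h3
  obtain ⟨δ, hδ, h4⟩ := h3
  refine ⟨δ ^ 2, by positivity, fun t' ht' hd => h4 ?_ ht'⟩
  rw [Real.dist_eq]
  refine abs_lt_of_sq_lt_sq ?_ hδ.le
  calc (t' - t) ^ 2 = (t - t') ^ 2 := by ring
    _ < δ ^ 2 := hd

end Top

/-! ## Definability -/

section Def

variable {X : Type} [Sp X]

theorem dfn_sum {ι : Type*} (s : Finset ι) {f : ι → X → ℝ} (hf : ∀ i, DFn (f i)) :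
    DFn fun x => ∑ i ∈ s, f i x := by
  classical
  induction s using Finset.induction_on with
  | empty => simpa using DFn.int (X := X) 0
  | insert a s ha ih =>
    simp only [Finset.sum_insert ha]
    exact (hf a).add ih

theorem dfn_zero : DFn fun _ : X => (0 : ℝ) := by simpa using DFn.int (X := X) 0

theorem dfn_one : DFn fun _ : X => (1 : ℝ) := by simpa using DFn.int (X := X) 1

/-- The points `c i` in the components. -/
theorem exists_pts {k : ℕ} {S : X × (Fin k → ℝ) → Prop} (hS : DP S)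
    {E : X × (Fin k → ℝ) × (Fin k → ℝ) → Prop} (hE : DP E) (b : ℕ) :
    ∃ c : ℕ → X → (Fin k → ℝ), (∀ i, DFn (c i)) ∧
      ∀ i < b, ∀ x, (∃ y, S (x, y) ∧ ∀ j < i, ¬ E (x, c j x, y)) →
        S (x, c i x) ∧ ∀ j < i, ¬ E (x, c j x, c i x) := by
  induction b with
  | zero => exact ⟨fun _ _ => fun _ => 0, fun _ => DFn.pi fun _ => dfn_zero, by simp⟩
  | succ b ih =>
    obtain ⟨c, hc, h⟩ := ih
    have hP : DP fun p : X × (Fin k → ℝ) => S (p.1, p.2) ∧ ∀ j : Fin b, ¬ E (p.1, c j p.1, p.2) := by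
      refine DP.and hS (DP.allFin fun j => DP.not ?_)
      exact DP.comp hE (DFn.prod DFn.fst (DFn.prod ((hc j).comp DFn.fst) DFn.snd))
    obtain ⟨f, hf, hfP⟩ := exists_choice
      (P := fun x y => S (x, y) ∧ ∀ j : Fin b, ¬ E (x, c j x, y)) hP
    refine ⟨Function.update c b f, fun i => ?_, fun i hi x hx => ?_⟩
    · by_cases hib : i = b
      · subst hib
        rw [Function.update_self]
        exact hf
      · rw [Function.update_of_ne hib]
        exact hc i
    · have hj : ∀ j < i, Function.update c b f j = c j := fun j hj =>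
        Function.update_of_ne (by omega) _ _
      by_cases hib : i = b
      · subst hib
        rw [Function.update_self]
        obtain ⟨y, hy1, hy2⟩ := hx
        obtain ⟨h1, h2⟩ := hfP x ⟨y, hy1, fun j => by
          have := hy2 j j.2
          rwa [hj j j.2] at this⟩
        refine ⟨h1, fun j hji => ?_⟩
        rw [hj j hji]
        exact h2 ⟨j, hji⟩
      · rw [Function.update_of_ne hib]
        obtain ⟨y, hy1, hy2⟩ := hx
        obtain ⟨h1, h2⟩ := h i (by omega) x ⟨y, hy1, fun j hji => by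
          have := hy2 j hji
          rwa [hj j hji] at this⟩
        refine ⟨h1, fun j hji => ?_⟩
        rw [hj j hji]
        exact h2 j hji

end Def

/-! ## The set of an input -/

section Input

variable {k : ℕ}

/-- Extension by zero. -/
noncomputable def xt {N : ℕ} (x : Fin N → ℝ) (v : ℕ) : ℝ := if h : v < N then x ⟨v, h⟩ else 0

/-- Restriction. -/
def rs (N : ℕ) (x : ℕ → ℝ) : Fin N → ℝ := fun v => x v

theorem ci_lt {k l m i j : ℕ} (hm : m < l) (hi : i < k + 1) (hj : j < k + 1) :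
    ci k m i j < nn k l := by
  have h1 : i * (k + 1) + j < (k + 1) * (k + 1) := by nlinarith
  have h2 : (m + 1) * ((k + 1) * (k + 1)) ≤ l * ((k + 1) * (k + 1)) :=
    Nat.mul_le_mul_right _ hm
  unfold ci nn
  nlinarith

theorem SS_xt (s : Bool) (k l : ℕ) (x : ℕ → ℝ) :
    SS s k l (xt (rs (nn k l) x)) = SS s k l x := by
  have h1 : ∀ m < l, ∀ y : Fin k → ℝ, pmv (xt (rs (nn k l) x)) m y = pmv x m y := by
    intro m hm y
    unfold pmv
    refine Finset.sum_congr rfl fun i hi => Finset.sum_congr rfl fun j hj => ?_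
    have h2 := ci_lt hm (Finset.mem_range.mp hi)
      (Finset.mem_range.mp (Finset.mem_filter.mp hj).1)
    rw [xt, dif_pos h2]
    rfl
  ext y
  unfold SS
  simp only [mem_ofPred_eq]
  refine forall_congr' fun m => forall_congr' fun hm => ?_
  rw [h1 m hm]

theorem dfn_xt {X : Type} [Sp X] {N : ℕ} {f : X → Fin N → ℝ} (hf : DFn f) (v : ℕ) :
    DFn fun p => xt (f p) v := by
  unfold xt
  by_cases h : v < N
  · simp only [h, dif_pos]
    exact DFn.app _ hf
  · simp only [h, dif_neg, not_false_iff]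
    exact dfn_zero

theorem dfn_hom {X : Type} [Sp X] {f : X → Fin k → ℝ} (hf : DFn f) (i : ℕ) :
    DFn fun p => hom (f p) i := by
  unfold hom
  by_cases h : i < k
  · simp only [h, dif_pos]
    exact DFn.app _ hf
  · simp only [h, dif_neg, not_false_iff]
    exact dfn_one

theorem dp_SS (s : Bool) (k l : ℕ) :
    DP fun p : (Fin (nn k l) → ℝ) × (Fin k → ℝ) => p.2 ∈ SS s k l (xt p.1) := by
  have h1 : ∀ m : ℕ, DFn fun p : (Fin (nn k l) → ℝ) × (Fin k → ℝ) => pmv (xt p.1) m p.2 := by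
    intro m
    unfold pmv
    exact dfn_sum _ fun i => dfn_sum _ fun j =>
      DFn.mul (dfn_xt DFn.fst _) (DFn.mul (dfn_hom DFn.snd _) (dfn_hom DFn.snd _))
  have h2 : DP fun p : (Fin (nn k l) → ℝ) × (Fin k → ℝ) => ∀ m : Fin l,
      if s then 0 ≤ pmv (xt p.1) m p.2 else pmv (xt p.1) m p.2 ≤ 0 := by
    refine DP.allFin fun m => ?_
    cases s
    · simp only [Bool.false_eq_true, if_false]
      exact DP.le (h1 m) dfn_zero
    · simp only [if_true]
      exact DP.le dfn_zero (h1 m)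
  convert h2 using 2 with p
  unfold SS
  simp only [mem_ofPred_eq]
  exact ⟨fun h m => h m m.2, fun h m hm => h ⟨m, hm⟩⟩

end Input

/-! ## Matrices -/

theorem asn_lt (N : ℕ) {k : ℕ} (x : ℕ → ℝ) (ys : List (Fin k → ℝ)) (v : Fin N) :
    asn N x ys v = rs N x v := by
  rw [asn, if_pos v.2]
  rfl

theorem asn_bv (N : ℕ) {k : ℕ} (x : ℕ → ℝ) (ys : List (Fin k → ℝ)) (j : ℕ) (r : Fin k) :
    asn N x ys (bv N k j r) = (ys.getD j 0) r := by
  have hk : 0 < k := r.pos
  have h1 : ¬ bv N k j r < N := by unfold bv; omega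
  have h2 : bv N k j r - N = j * k + r := by unfold bv; omega
  rw [asn, if_neg h1, h2]
  have h3 : (j * k + (r : ℕ)) / k = j := by
    rw [mul_comm, Nat.mul_add_div hk, Nat.div_eq_of_lt r.2, add_zero]
  have h4 : (j * k + (r : ℕ)) % k = r := by
    rw [mul_comm, Nat.mul_add_mod, Nat.mod_eq_of_lt r.2]
  rw [h3, h4, exv, dif_pos r.2]

theorem exists_C {N k : ℕ} {P : (Fin N → ℝ) × (Fin k → ℝ) → Prop} (hP : DP P) :
    ∃ M : Mat, ∀ (x : ℕ → ℝ) (y : Fin k → ℝ), M.sat (asn N x [y]) ↔ P (rs N x, y) := by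
  obtain ⟨M, hM⟩ := DP.exists_mat hP
    (Sum.elim (fun v : Fin N => (v : ℕ)) (fun r : Fin k => bv N k 0 r))
  refine ⟨M, fun x y => hM _ _ ?_⟩
  rintro (v | r)
  · exact asn_lt N x [y] v
  · exact asn_bv N x [y] 0 r

theorem exists_G {N k : ℕ}
    {P : (Fin N → ℝ) × (Fin k → ℝ) × (Fin k → ℝ) × (Fin k → ℝ) × (Fin k → ℝ) → Prop}
    (hP : DP P) :
    ∃ M : Mat, ∀ (x : ℕ → ℝ) (y y' t z : Fin k → ℝ),
      M.sat (asn N x [y, y', t, z]) ↔ P (rs N x, y, y', t, z) := by
  obtain ⟨M, hM⟩ := DP.exists_mat hP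
    (Sum.elim (fun v : Fin N => (v : ℕ)) (Sum.elim (fun r : Fin k => bv N k 0 r)
      (Sum.elim (fun r : Fin k => bv N k 1 r) (Sum.elim (fun r : Fin k => bv N k 2 r)
        (fun r : Fin k => bv N k 3 r)))))
  refine ⟨M, fun x y y' t z => hM _ _ ?_⟩
  rintro (v | r | r | r | r)
  · exact asn_lt N x [y, y', t, z] v
  · exact asn_bv N x [y, y', t, z] 0 r
  · exact asn_bv N x [y, y', t, z] 1 r
  · exact asn_bv N x [y, y', t, z] 2 r
  · exact asn_bv N x [y, y', t, z] 3 r

theorem getD_map {α : Type*} {b i : ℕ} (hi : i < b) (f : ℕ → α) (d : α) :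
    ((List.range b).map f).getD i d = f i := by
  rw [List.getD_eq_getElem?_getD, List.getElem?_map, List.getElem?_range hi]
  rfl

/-- Certificates exist. -/
theorem exists_cert (s : Bool) (k l : ℕ) (hk : 1 ≤ k) (b : ℕ) :
    ∃ Cs Gs : List Mat, ∀ x : ℕ → ℝ, Finite (ConnectedComponents ↥(SS s k l x)) →
      Nat.card (ConnectedComponents ↥(SS s k l x)) = b → CertOK s k l b Cs Gs x := by
  obtain ⟨E, hE, ⟨g, hg, hgP⟩, hEiff⟩ := exists_same (dp_SS s k l)
  obtain ⟨c, hc, hcP⟩ := exists_pts (dp_SS s k l) hE b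
  have hCm : ∀ i, ∃ M : Mat, ∀ (x : ℕ → ℝ) (y : Fin k → ℝ), M.sat (asn (nn k l) x [y]) ↔
      E (rs (nn k l) x, c i (rs (nn k l) x), y) := fun i =>
    exists_C (P := fun p => E (p.1, c i p.1, p.2))
      (DP.comp hE (DFn.prod DFn.fst (DFn.prod ((hc i).comp DFn.fst) DFn.snd)))
  have hexv : ∀ t : Fin k → ℝ, exv t 0 = t ⟨0, hk⟩ := fun t => by rw [exv, dif_pos]
  obtain ⟨GM, hGM⟩ : ∃ M : Mat, ∀ (x : ℕ → ℝ) (y y' t z : Fin k → ℝ),
      M.sat (asn (nn k l) x [y, y', t, z]) ↔ g (rs (nn k l) x, y, y', t ⟨0, hk⟩) = z :=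
    exists_G (P := fun p => g (p.1, p.2.1, p.2.2.1, p.2.2.2.1 ⟨0, hk⟩) = p.2.2.2.2)
      (DP.eq (hg.comp (DFn.prod DFn.fst (DFn.prod (DFn.fst.comp DFn.snd)
        (DFn.prod (DFn.fst.comp (DFn.snd.comp DFn.snd))
          (DFn.app _ (DFn.fst.comp (DFn.snd.comp (DFn.snd.comp DFn.snd))))))))
        (DFn.snd.comp (DFn.snd.comp (DFn.snd.comp DFn.snd))))
  choose CM hCM using hCm
  refine ⟨(List.range b).map CM, (List.range b).map fun _ => GM, fun x hfin hcard => ?_⟩
  have hT : {z | (fun p : (Fin (nn k l) → ℝ) × (Fin k → ℝ) => p.2 ∈ SS s k l (xt p.1))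
      (rs (nn k l) x, z)} = SS s k l x := SS_xt s k l x
  have hEx : ∀ y y', E (rs (nn k l) x, y, y') ↔
      y ∈ SS s k l x ∧ y' ∈ connectedComponentIn (SS s k l x) y := by
    intro y y'
    rw [hEiff, hT]
    simp only [SS_xt]
  have hpath : ∀ y y', y' ∈ connectedComponentIn (SS s k l x) y → y ∈ SS s k l x →
      PathIn (SS s k l x) y y' fun t => g (rs (nn k l) x, y, y', t) := by
    intro y y' h1 h2
    have h3 := hgP (rs (nn k l) x) y y' ((hEx y y').mpr ⟨h2, h1⟩)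
    rwa [hT] at h3
  have hC : ∀ i < b, ∀ y, Csat (nn k l) ((List.range b).map CM) x i y ↔
      c i (rs (nn k l) x) ∈ SS s k l x ∧
        y ∈ connectedComponentIn (SS s k l x) (c i (rs (nn k l) x)) := by
    intro i hi y
    rw [Csat, getD_map hi, hCM, hEx]
  have hG : ∀ i < b, ∀ y y' t z, Gsat (nn k l) ((List.range b).map fun _ => GM) x i y y' t z ↔
      g (rs (nn k l) x, y, y', exv t 0) = z := by
    intro i hi y y' t z
    rw [Gsat, getD_map hi, hGM, hexv]
  have hreps : ∀ i < b, c i (rs (nn k l) x) ∈ SS s k l x ∧ ∀ j < i,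
      c i (rs (nn k l) x) ∉ connectedComponentIn (SS s k l x) (c j (rs (nn k l) x)) := by
    refine reps_mem (c := fun i => c i (rs (nn k l) x)) hcard fun i hi hy => ?_
    have h1 := hcP i hi (rs (nn k l) x)
    simp only [hEx, SS_xt] at h1
    exact h1 hy
  -- two points of a class
  have hsame : ∀ i < b, ∀ y y', Csat (nn k l) ((List.range b).map CM) x i y →
      Csat (nn k l) ((List.range b).map CM) x i y' →
      y ∈ SS s k l x ∧ y' ∈ connectedComponentIn (SS s k l x) y := by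
    intro i hi y y' h1 h2
    have h3 := ((hC i hi y).mp h1).2
    refine ⟨connectedComponentIn_subset _ _ h3, ?_⟩
    rw [← connectedComponentIn_eq h3]
    exact ((hC i hi y').mp h2).2
  refine ⟨?_, ?_, ?_, ?_, ?_, ?_, ?_⟩
  · intro y
    rw [reps_cover (c := fun i => c i (rs (nn k l) x)) hcard hreps y]
    exact exists_congr fun i => and_congr_right fun hi => (hC i hi y).symm
  · intro i j hij hj y hy
    exact reps_disj (c := fun i => c i (rs (nn k l) x)) hreps hij hj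
      ((hC i (hij.trans hj) y).mp hy.1).2 ((hC j hj y).mp hy.2).2
  · intro i hi
    exact ⟨_, (hC i hi _).mpr ⟨(hreps i hi).1, mem_connectedComponentIn (hreps i hi).1⟩⟩
  · intro i hi y hy
    obtain ⟨h1, h2⟩ := (hC i hi y).mp hy
    obtain ⟨ε, hε, h3⟩ := reps_open h1 h2
    exact ⟨ε, hε, fun y' hd hy' => (hC i hi y').mpr ⟨h1, h3 y' hd hy'⟩⟩
  · intro i hi y y' hy hy' t ht0 ht1
    obtain ⟨h1, h2⟩ := hsame i hi y y' hy hy'
    refine ⟨_, (hG i hi y y' t _).mpr rfl, (hC i hi _).mpr ⟨((hC i hi y).mp hy).1, ?_⟩⟩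
    rw [connectedComponentIn_eq ((hC i hi y).mp hy).2]
    exact path_mem (hpath y y' h2 h1) ⟨ht0, ht1⟩
  · intro i hi y y' hy hy' t z ht0 ht1 hz ε hε
    obtain ⟨h1, h2⟩ := hsame i hi y y' hy hy'
    obtain ⟨δ, hδ, h3⟩ := path_cont (hpath y y' h2 h1) ⟨ht0, ht1⟩ hε
    refine ⟨δ, hδ, fun t' z' ht0' ht1' hz' hd => ?_⟩
    rw [← (hG i hi y y' t z).mp hz, ← (hG i hi y y' t' z').mp hz']
    exact h3 _ ⟨ht0', ht1'⟩ hd
  · intro i hi y y' hy hy' t z hz
    obtain ⟨h1, h2⟩ := hsame i hi y y' hy hy'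
    have h3 := hpath y y' h2 h1
    rw [← (hG i hi y y' t z).mp hz]
    exact ⟨fun h => by rw [h]; exact h3.zero, fun h => by rw [h]; exact h3.one⟩

end Pool.Agent.QCT.Cert9
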