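import Pool.Agent.QCT.OneVar
import Pool.Agent.QCT.Dp

/-!
# Project QCT: definable choice (P9b)
-/

set_option autoImplicit false

namespace Pool.Agent.QCT.Cho

open Set

variable {X : Type} [Sp X]

/-- The candidates. -/
def Cand (A : Set ℝ) (c : ℝ) : Prop :=
  c = 0 ∨ ∃ t ∈ frontier A, ∃ u ∈ frontier A, c = t ∨ c = t - 1 ∨ c = t + 1 ∨ c + c = t + u

theorem mem_of_seg {A : Set ℝ} {a c : ℝ} (ha : a ∈ A) (h : ∀ t ∈ uIcc a c, t ∉ frontier A) :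
    c ∈ A := by
  by_contra hc
  have hcov : uIcc a c ⊆ interior A ∪ (closure A)ᶜ := fun t ht => by
    by_cases h1 : t ∈ closure A
    · left
      by_contra h2
      exact h t ht ⟨h1, h2⟩
    · exact Or.inr h1
  have h1 : a ∈ interior A := by
    rcases hcov left_mem_uIcc with h1 | h1
    · exact h1
    · exact absurd (subset_closure ha) h1
  have h2 : c ∈ (closure A)ᶜ := by
    rcases hcov right_mem_uIcc with h2 | h2
    · exact absurd (interior_subset h2) hc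
    · exact h2
  obtain ⟨t, -, h3, h4⟩ := isPreconnected_uIcc (a := a) (b := c) _ _ isOpen_interior
    isClosed_closure.isOpen_compl hcov ⟨a, left_mem_uIcc, h1⟩ ⟨c, right_mem_uIcc, h2⟩
  exact h4 (subset_closure (interior_subset h3))

theorem exists_cand {A : Set ℝ} (hf : (frontier A).Finite) {a : ℝ} (ha : a ∈ A) :
    ∃ c, Cand A c ∧ c ∈ A := by
  by_cases hfa : a ∈ frontier A
  · exact ⟨a, Or.inr ⟨a, hfa, a, hfa, Or.inl rfl⟩, ha⟩
  have hL : (frontier A ∩ {t | t < a}).Finite := hf.inter_of_left _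
  have hU : (frontier A ∩ {t | a < t}).Finite := hf.inter_of_left _
  have key : ∀ t ∈ frontier A, t < a ∨ a < t := fun t ht => by
    rcases lt_trichotomy t a with h | h | h
    · exact Or.inl h
    · exact absurd (h ▸ ht) hfa
    · exact Or.inr h
  rcases (frontier A ∩ {t | t < a}).eq_empty_or_nonempty with hL0 | hL0
  · rcases (frontier A ∩ {t | a < t}).eq_empty_or_nonempty with hU0 | hU0
    · refine ⟨0, Or.inl rfl, mem_of_seg ha fun t _ ht => ?_⟩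
      rcases key t ht with h | h
      · exact (hL0 ▸ (⟨ht, h⟩ : t ∈ frontier A ∩ {t | t < a}) : t ∈ (∅ : Set ℝ))
      · exact (hU0 ▸ (⟨ht, h⟩ : t ∈ frontier A ∩ {t | a < t}) : t ∈ (∅ : Set ℝ))
    · obtain ⟨u, ⟨hu1, hu2⟩, hu3⟩ := exists_min_image _ id hU hU0
      simp only [id, mem_ofPred_eq] at hu2 hu3
      refine ⟨u - 1, Or.inr ⟨u, hu1, u, hu1, Or.inr (Or.inl rfl)⟩, mem_of_seg ha fun t h1 ht => ?_⟩
      rcases key t ht with h | h
      · exact (hL0 ▸ (⟨ht, h⟩ : t ∈ frontier A ∩ {t | t < a}) : t ∈ (∅ : Set ℝ))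
      · have h2 := hu3 t ⟨ht, h⟩
        rw [mem_uIcc] at h1
        rcases h1 with h1 | h1 <;> linarith [h1.1, h1.2]
  · obtain ⟨l, ⟨hl1, hl2⟩, hl3⟩ := exists_max_image _ id hL hL0
    simp only [id, mem_ofPred_eq] at hl2 hl3
    rcases (frontier A ∩ {t | a < t}).eq_empty_or_nonempty with hU0 | hU0
    · refine ⟨l + 1, Or.inr ⟨l, hl1, l, hl1, Or.inr (Or.inr (Or.inl rfl))⟩,
        mem_of_seg ha fun t h1 ht => ?_⟩
      rcases key t ht with h | h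
      · have h2 := hl3 t ⟨ht, h⟩
        rw [mem_uIcc] at h1
        rcases h1 with h1 | h1 <;> linarith [h1.1, h1.2]
      · exact (hU0 ▸ (⟨ht, h⟩ : t ∈ frontier A ∩ {t | a < t}) : t ∈ (∅ : Set ℝ))
    · obtain ⟨u, ⟨hu1, hu2⟩, hu3⟩ := exists_min_image _ id hU hU0
      simp only [id, mem_ofPred_eq] at hu2 hu3
      refine ⟨(l + u) / 2, Or.inr ⟨l, hl1, u, hu1, Or.inr (Or.inr (Or.inr (by ring)))⟩,
        mem_of_seg ha fun t h1 ht => ?_⟩
      rcases key t ht with h | h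
      · have h2 := hl3 t ⟨ht, h⟩
        rw [mem_uIcc] at h1
        rcases h1 with h1 | h1 <;> linarith [h1.1, h1.2]
      · have h2 := hu3 t ⟨ht, h⟩
        rw [mem_uIcc] at h1
        rcases h1 with h1 | h1 <;> linarith [h1.1, h1.2]

theorem cand_finite {A : Set ℝ} (hf : (frontier A).Finite) : {c | Cand A c}.Finite := by
  have h : {c | Cand A c} ⊆ {0} ∪ ((fun p : ℝ × ℝ => p.1) '' (frontier A ×ˢ frontier A) ∪
      ((fun p : ℝ × ℝ => p.1 - 1) '' (frontier A ×ˢ frontier A) ∪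
      ((fun p : ℝ × ℝ => p.1 + 1) '' (frontier A ×ˢ frontier A) ∪
      (fun p : ℝ × ℝ => (p.1 + p.2) / 2) '' (frontier A ×ˢ frontier A)))) := by
    rintro c (h | ⟨t, ht, u, hu, h | h | h | h⟩)
    · exact Or.inl h
    · exact Or.inr (Or.inl ⟨(t, u), ⟨ht, hu⟩, h.symm⟩)
    · exact Or.inr (Or.inr (Or.inl ⟨(t, u), ⟨ht, hu⟩, h.symm⟩))
    · exact Or.inr (Or.inr (Or.inr (Or.inl ⟨(t, u), ⟨ht, hu⟩, h.symm⟩)))
    · refine Or.inr (Or.inr (Or.inr (Or.inr ⟨(t, u), ⟨ht, hu⟩, ?_⟩)))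
      show (t + u) / 2 = c
      rw [← h]; ring
  have h2 := hf.prod hf
  exact ((finite_singleton _).union ((h2.image _).union ((h2.image _).union
    ((h2.image _).union (h2.image _))))).subset h

theorem mem_frontier_iff_lt {A : Set ℝ} {t : ℝ} : t ∈ frontier A ↔
    ∀ e : ℝ, 0 < e → (∃ s, (t - e < s ∧ s < t + e) ∧ s ∈ A) ∧
      ∃ s, (t - e < s ∧ s < t + e) ∧ s ∉ A := by
  rw [frontier_eq_closure_inter_closure, mem_inter_iff, Metric.mem_closure_iff,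
    Metric.mem_closure_iff]
  have h : ∀ e s : ℝ, dist t s < e ↔ t - e < s ∧ s < t + e := fun e s => by
    rw [Real.dist_eq, abs_lt]
    constructor <;> rintro ⟨h1, h2⟩ <;> constructor <;> linarith
  simp only [h]
  constructor
  · rintro ⟨h1, h2⟩ e he
    obtain ⟨s, hs, hs'⟩ := h1 e he
    obtain ⟨r, hr, hr'⟩ := h2 e he
    exact ⟨⟨s, hs', hs⟩, r, hr', hr⟩
  · intro h
    refine ⟨fun e he => ?_, fun e he => ?_⟩
    · obtain ⟨⟨s, hs, hs'⟩, -⟩ := h e he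
      exact ⟨s, hs', hs⟩
    · obtain ⟨-, s, hs, hs'⟩ := h e he
      exact ⟨s, hs', hs⟩

theorem dp_sub {Y Z : Type} [Sp Y] [Sp Z] {P : X → Y → Prop}
    (hP : DP fun p : X × Y => P p.1 p.2) {u : Z → X} {v : Z → Y} (hu : DFn u) (hv : DFn v) :
    DP fun z => P (u z) (v z) :=
  Dp.comp hP (Dp.dfn_prod hu hv)

theorem zero : DFn fun _ : X => (0 : ℝ) := by
  have := Dp.dfn_int (X := X) 0
  simpa using this

theorem one : DFn fun _ : X => (1 : ℝ) := by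
  have := Dp.dfn_int (X := X) 1
  simpa using this

theorem dp_frontier {P : X → ℝ → Prop} (hP : DP fun p : X × ℝ => P p.1 p.2) :
    DP fun p : X × ℝ => p.2 ∈ frontier {t | P p.1 t} := by
  simp_rw [mem_frontier_iff_lt]
  have h1 : DFn fun z : ((X × ℝ) × ℝ) × ℝ => z.1.1.1 :=
    Dp.dfn_comp Dp.dfn_fst (Dp.dfn_comp Dp.dfn_fst Dp.dfn_fst)
  have h2 : DFn fun z : ((X × ℝ) × ℝ) × ℝ => z.1.1.2 :=
    Dp.dfn_comp Dp.dfn_snd (Dp.dfn_comp Dp.dfn_fst Dp.dfn_fst)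
  have h3 : DFn fun z : ((X × ℝ) × ℝ) × ℝ => z.1.2 := Dp.dfn_comp Dp.dfn_snd Dp.dfn_fst
  have h4 : DFn fun z : ((X × ℝ) × ℝ) × ℝ => z.2 := Dp.dfn_snd
  have h5 : DP fun z : ((X × ℝ) × ℝ) × ℝ => P z.1.1.1 z.2 := dp_sub hP h1 h4
  refine Dp.all (Dp.imp (Dp.lt zero Dp.dfn_snd) (Dp.and (Dp.ex (Dp.and (Dp.and ?_ ?_) ?_))
    (Dp.ex (Dp.and (Dp.and ?_ ?_) ?_))))
  · exact Dp.lt (Dp.dfn_sub h2 h3) h4
  · exact Dp.lt h4 (Dp.dfn_add h2 h3)
  · exact h5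
  · exact Dp.lt (Dp.dfn_sub h2 h3) h4
  · exact Dp.lt h4 (Dp.dfn_add h2 h3)
  · exact Dp.not h5

theorem dp_cand {P : X → ℝ → Prop} (hP : DP fun p : X × ℝ => P p.1 p.2) :
    DP fun p : X × ℝ => Cand {t | P p.1 t} p.2 := by
  unfold Cand
  have hF := dp_frontier hP
  have h1 : DFn fun z : ((X × ℝ) × ℝ) × ℝ => z.1.1.1 :=
    Dp.dfn_comp Dp.dfn_fst (Dp.dfn_comp Dp.dfn_fst Dp.dfn_fst)
  have h2 : DFn fun z : ((X × ℝ) × ℝ) × ℝ => z.1.1.2 :=
    Dp.dfn_comp Dp.dfn_snd (Dp.dfn_comp Dp.dfn_fst Dp.dfn_fst)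
  have h3 : DFn fun z : ((X × ℝ) × ℝ) × ℝ => z.1.2 := Dp.dfn_comp Dp.dfn_snd Dp.dfn_fst
  have h4 : DFn fun z : ((X × ℝ) × ℝ) × ℝ => z.2 := Dp.dfn_snd
  refine Dp.or (Dp.eq Dp.dfn_snd zero) (Dp.ex (Dp.and ?_ (Dp.ex (Dp.and ?_ (Dp.or ?_
    (Dp.or ?_ (Dp.or ?_ ?_)))))))
  · exact Dp.comp hF (Dp.dfn_prod (Dp.dfn_comp Dp.dfn_fst Dp.dfn_fst) Dp.dfn_snd)
  · exact Dp.comp hF (Dp.dfn_prod h1 h4)
  · exact Dp.eq h2 h3
  · exact Dp.eq h2 (Dp.dfn_sub h3 one)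
  · exact Dp.eq h2 (Dp.dfn_add h3 one)
  · exact Dp.eq (Dp.dfn_add h2 h2) (Dp.dfn_add h3 h4)

/-- Choice for one variable. -/
theorem choice_one {P : X → ℝ → Prop} (hP : DP fun p : X × ℝ => P p.1 p.2) :
    ∃ f : X → ℝ, DFn f ∧ ∀ x, (∃ y, P x y) → P x (f x) := by
  classical
  obtain ⟨N, hN⟩ := OneVar.exists_frontier' hP
  have hmin : ∀ x, (∃ y, P x y) → ∃ c, (Cand {t | P x t} c ∧ P x c) ∧
      ∀ d, (Cand {t | P x t} d ∧ P x d) → c ≤ d := by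
    rintro x ⟨y, hy⟩
    have hfin : {c | Cand {t | P x t} c ∧ P x c}.Finite :=
      (cand_finite (hN x).1).subset fun c hc => hc.1
    obtain ⟨c, hc⟩ := exists_cand (hN x).1 (a := y) hy
    obtain ⟨m, hm, hm'⟩ := exists_min_image _ id hfin ⟨c, hc⟩
    exact ⟨m, hm, hm'⟩
  have hC : DP fun p : X × ℝ => Cand {t | P p.1 t} p.2 ∧ P p.1 p.2 := Dp.and (dp_cand hP) hP
  refine ⟨fun x => if h : ∃ y, P x y then (hmin x h).choose else 0, ?_, fun x hx => ?_⟩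
  · unfold DFn
    have h1 : DP fun p : X × ℝ => ((∃ y, P p.1 y) ∧ (Cand {t | P p.1 t} p.2 ∧ P p.1 p.2) ∧
        ∀ d, (Cand {t | P p.1 t} d ∧ P p.1 d) → p.2 ≤ d) ∨ (¬ (∃ y, P p.1 y) ∧ p.2 = 0) := by
      have h2 : DP fun p : X × ℝ => ∃ y, P p.1 y :=
        Dp.ex (dp_sub hP (Dp.dfn_comp Dp.dfn_fst Dp.dfn_fst) Dp.dfn_snd)
      refine Dp.or (Dp.and h2 (Dp.and hC (Dp.all (Dp.imp ?_ ?_))))
        (Dp.and (Dp.not h2) (Dp.eq Dp.dfn_snd zero))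
      · exact Dp.comp hC (Dp.dfn_prod (Dp.dfn_comp Dp.dfn_fst Dp.dfn_fst) Dp.dfn_snd)
      · exact Dp.le (Dp.dfn_comp Dp.dfn_snd Dp.dfn_fst) Dp.dfn_snd
    refine Dp.dp_congr h1 fun p => ?_
    beta_reduce
    by_cases h : ∃ y, P p.1 y
    · rw [dif_pos h]
      have hs := (hmin p.1 h).choose_spec
      constructor
      · intro e
        rw [← e]
        exact Or.inl ⟨h, hs⟩
      · rintro (⟨-, h2, h3⟩ | ⟨h2, -⟩)
        · exact le_antisymm (hs.2 _ h2) (h3 _ hs.1)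
        · exact absurd h h2
    · rw [dif_neg h]
      constructor
      · intro e
        exact Or.inr ⟨h, e.symm⟩
      · rintro (⟨h2, -⟩ | ⟨-, h2⟩)
        · exact absurd h2 h
        · exact h2.symm
  · have h : (fun x => if h : ∃ y, P x y then (hmin x h).choose else (0 : ℝ)) x =
        (hmin x hx).choose := dif_pos hx
    rw [h]
    exact (hmin x hx).choose_spec.1.2

theorem dfn_cons {k : ℕ} {Z : Type} [Sp Z] {u : Z → ℝ} {v : Z → Fin k → ℝ} (hu : DFn u)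
    (hv : DFn v) : DFn fun z => (Fin.cons (u z) (v z) : Fin (k + 1) → ℝ) := by
  have h : DFn fun z => fun i : Fin (k + 1) =>
      (Fin.cons (u z) (v z) : Fin (k + 1) → ℝ) i := by
    refine Dp.dfn_pi fun i => ?_
    induction i using Fin.cases with
    | zero => simpa using hu
    | succ i => simpa using Dp.dfn_app i hv
  exact h

theorem exists_choice' {k : ℕ} {P : X → (Fin k → ℝ) → Prop}
    (hP : DP fun p : X × (Fin k → ℝ) => P p.1 p.2) :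
    ∃ f : X → (Fin k → ℝ), DFn f ∧ ∀ x, (∃ y, P x y) → P x (f x) := by
  induction k with
  | zero =>
    refine ⟨fun x i => i.elim0, Dp.dfn_pi fun i => i.elim0, fun x ⟨y, hy⟩ => ?_⟩
    have : y = fun i => i.elim0 := Subsingleton.elim _ _
    exact this ▸ hy
  | succ k ih =>
    have hQ : DP fun p : X × ℝ => ∃ z : Fin k → ℝ, P p.1 (Fin.cons p.2 z) := by
      refine Dp.ex (dp_sub hP (Dp.dfn_comp Dp.dfn_fst Dp.dfn_fst) ?_)
      exact dfn_cons (Dp.dfn_comp Dp.dfn_snd Dp.dfn_fst) Dp.dfn_snd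
    obtain ⟨f, hf, hf'⟩ := choice_one (P := fun x t => ∃ z : Fin k → ℝ, P x (Fin.cons t z)) hQ
    have hR : DP fun p : X × (Fin k → ℝ) => P p.1 (Fin.cons (f p.1) p.2) :=
      dp_sub hP Dp.dfn_fst (dfn_cons (Dp.dfn_comp hf Dp.dfn_fst) Dp.dfn_snd)
    obtain ⟨g, hg, hg'⟩ := ih (P := fun x z => P x (Fin.cons (f x) z)) hR
    refine ⟨fun x => Fin.cons (f x) (g x), dfn_cons hf hg, fun x ⟨y, hy⟩ => ?_⟩
    refine hg' x (hf' x ⟨y 0, Fin.tail y, ?_⟩)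
    rw [Fin.cons_self_tail]
    exact hy

end Pool.Agent.QCT.Cho
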