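import Pool.Agent.QCT.StubD2

/-!
# Project QCT, P9e: curve selection
-/

namespace Pool.Agent.QCT.CurveSel

variable {X : Type} [Sp X] {k : ℕ}

/-- Closeness in all coordinates. -/
def Near (a b : Fin k → ℝ) (t : ℝ) : Prop := ∀ i, a i - b i < t ∧ b i - a i < t

theorem near_iff {a b : Fin k → ℝ} {t : ℝ} (ht : 0 < t) : Near a b t ↔ dist a b < t := by
  rw [dist_pi_lt_iff ht]
  refine forall_congr' fun i => ?_
  rw [Real.dist_eq, abs_lt]
  constructor
  · rintro ⟨h1, h2⟩
    exact ⟨by linarith, h1⟩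
  · rintro ⟨h1, h2⟩
    exact ⟨h2, by linarith⟩

theorem dp_near {f g : X → Fin k → ℝ} {h : X → ℝ} (hf : DFn f) (hg : DFn g) (hh : DFn h) :
    DP fun x => Near (f x) (g x) (h x) := by
  unfold Near
  refine DP.allFin fun i => DP.and ?_ ?_
  · exact DP.lt (DFn.sub (DFn.app i hf) (DFn.app i hg)) hh
  · exact DP.lt (DFn.sub (DFn.app i hg) (DFn.app i hf)) hh

theorem dp_pos {h : X → ℝ} (hh : DFn h) : DP fun x => 0 < h x := by
  have h0 : DFn fun _ : X => (0 : ℝ) := by simpa using DFn.int (X := X) 0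
  exact DP.lt h0 hh

/-- Closure, as a definable predicate. -/
theorem mem_closure_iff' {D : Set (Fin k → ℝ)} {p : Fin k → ℝ} :
    p ∈ closure D ↔ ∀ t, 0 < t → ∃ z, z ∈ D ∧ Near z p t := by
  rw [Metric.mem_closure_iff]
  refine forall_congr' fun t => forall_congr' fun ht => exists_congr fun z => ?_
  rw [near_iff ht, dist_comm]

theorem dp_closure {D : X × (Fin k → ℝ) → Prop} (hD : DP D) :
    DP fun q : X × (Fin k → ℝ) => q.2 ∈ closure {z | D (q.1, z)} := by
  have h : (fun q : X × (Fin k → ℝ) => q.2 ∈ closure {z | D (q.1, z)}) =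
      fun q => ∀ t : ℝ, 0 < t → ∃ z : Fin k → ℝ, D (q.1, z) ∧ Near z q.2 t := by
    funext q
    exact propext mem_closure_iff'
  rw [h]
  refine DP.all (DP.imp (dp_pos DFn.snd) (DP.ex (DP.and ?_ (dp_near ?_ ?_ ?_))))
  · exact hD.comp (DFn.prod (DFn.fst.comp (DFn.fst.comp DFn.fst)) DFn.snd)
  · exact DFn.snd
  · exact DFn.snd.comp (DFn.fst.comp DFn.fst)
  · exact DFn.snd.comp DFn.fst

/-- Continuity at a point, as a definable predicate. -/
theorem continuousAt_iff' {f : ℝ → Fin k → ℝ} {t : ℝ} :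
    ContinuousAt f t ↔ ∀ ε : ℝ, 0 < ε → ∃ δ : ℝ, 0 < δ ∧ ∀ s : ℝ, (s - t < δ ∧ t - s < δ) →
      Near (f s) (f t) ε := by
  rw [Metric.continuousAt_iff]
  refine forall_congr' fun ε => forall_congr' fun hε => exists_congr fun δ => and_congr_right
    fun hδ => forall_congr' fun s => ?_
  rw [near_iff hε, Real.dist_eq, abs_lt]
  constructor
  · intro h h1
    exact h ⟨by linarith [h1.2], h1.1⟩
  · intro h h1
    exact h ⟨h1.2, by linarith [h1.1]⟩

theorem dp_continuousAt {f : X → ℝ → Fin k → ℝ} (hf : DFn fun p : X × ℝ => f p.1 p.2) :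
    DP fun p : X × ℝ => ContinuousAt (f p.1) p.2 := by
  have h : (fun p : X × ℝ => ContinuousAt (f p.1) p.2) =
      fun p => ∀ ε : ℝ, 0 < ε → ∃ δ : ℝ, 0 < δ ∧ ∀ s : ℝ, (s - p.2 < δ ∧ p.2 - s < δ) →
      Near (f p.1 s) (f p.1 p.2) ε := by
    funext p
    exact propext continuousAt_iff'
  rw [h]
  refine DP.all (DP.imp (dp_pos DFn.snd) (DP.ex (DP.and (dp_pos DFn.snd)
    (DP.all (DP.imp (DP.and (DP.lt (DFn.sub ?_ ?_) ?_) (DP.lt (DFn.sub ?_ ?_) ?_))
      (dp_near ?_ ?_ ?_))))))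
  · exact DFn.snd
  · exact DFn.snd.comp (DFn.fst.comp (DFn.fst.comp DFn.fst))
  · exact DFn.snd.comp DFn.fst
  · exact DFn.snd.comp (DFn.fst.comp (DFn.fst.comp DFn.fst))
  · exact DFn.snd
  · exact DFn.snd.comp DFn.fst
  · exact hf.comp (DFn.prod (DFn.fst.comp (DFn.fst.comp (DFn.fst.comp DFn.fst))) DFn.snd)
  · exact hf.comp (DFn.fst.comp (DFn.fst.comp DFn.fst))
  · exact DFn.snd.comp (DFn.fst.comp DFn.fst)

/-- Choice of a positive number for a definable property valid for small numbers. -/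
theorem exists_small {P : X → ℝ → Prop} (hP : DP fun p : X × ℝ => P p.1 p.2) :
    ∃ f : X → ℝ, DFn f ∧ ∀ x, (∃ t, P x t) → P x (f x) := by
  obtain ⟨f, hf, h⟩ := exists_choice (X := X) (k := 1) (P := fun x y => P x (y 0))
    (hP.comp (DFn.prod DFn.fst (DFn.app 0 DFn.snd)))
  refine ⟨fun x => f x 0, DFn.app 0 hf, fun x hx => h x ?_⟩
  obtain ⟨t, ht⟩ := hx
  exact ⟨fun _ => t, ht⟩

/-- A positive number below all positive elements of a finite set. -/
theorem exists_lt_of_finite {A : Set ℝ} (hA : A.Finite) :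
    ∃ t : ℝ, 0 < t ∧ ∀ s ∈ A, 0 < s → t < s := by
  induction A, hA using Set.Finite.induction_on with
  | empty => exact ⟨1, one_pos, by simp⟩
  | @insert a A _ _ ih =>
    obtain ⟨t, ht, h⟩ := ih
    by_cases ha : 0 < a
    · refine ⟨min t (a / 2), lt_min ht (half_pos ha), fun s hs hs0 => ?_⟩
      rcases hs with rfl | hs
      · exact (min_le_right _ _).trans_lt (half_lt_self ha)
      · exact (min_le_left _ _).trans_lt (h s hs hs0)
    · refine ⟨t, ht, fun s hs hs0 => ?_⟩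
      rcases hs with rfl | hs
      · exact absurd hs0 ha
      · exact h s hs hs0

/-- Curve selection: a point `p` in the closure of `D` is joined to a chosen point of `D` by a
definable path in `D ∪ {p}`. -/
theorem curve_sel {S D : X × (Fin k → ℝ) → Prop} (hD : DP D) (hDS : ∀ q, D q → S q) :
    ∃ c : X × (Fin k → ℝ) → (Fin k → ℝ), DFn c ∧
      (∀ x p, p ∈ closure {z | D (x, z)} → D (x, c (x, p))) ∧
      PR S (fun q : X × (Fin k → ℝ) × (Fin k → ℝ) => S (q.1, q.2.1) ∧
        q.2.1 ∈ closure {z | D (q.1, z)} ∧ q.2.2 = c (q.1, q.2.1)) := by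
  classical
  -- points of `D` close to `p`
  obtain ⟨f, hf, hfP⟩ := exists_choice (X := (X × (Fin k → ℝ)) × ℝ) (k := k)
    (P := fun q z => D (q.1.1, z) ∧ Near z q.1.2 q.2) (by
      refine DP.and ?_ (dp_near ?_ ?_ ?_)
      · exact hD.comp (DFn.prod (DFn.fst.comp (DFn.fst.comp DFn.fst)) DFn.snd)
      · exact DFn.snd
      · exact DFn.snd.comp (DFn.fst.comp DFn.fst)
      · exact DFn.snd.comp DFn.fst)
  have hfP' : ∀ x p, p ∈ closure {z | D (x, z)} → ∀ t, 0 < t →
      D (x, f ((x, p), t)) ∧ dist (f ((x, p), t)) p < t := by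
    intro x p hp t ht
    have h := hfP ((x, p), t) (mem_closure_iff'.1 hp t ht)
    exact ⟨h.1, (near_iff ht).1 h.2⟩
  -- continuity on a small interval
  have hf' : DFn fun p : (X × (Fin k → ℝ)) × ℝ => (fun q t => f (q, t)) p.1 p.2 := hf
  obtain ⟨N, hN⟩ := exists_discont (f := fun (q : X × (Fin k → ℝ)) (t : ℝ) => f (q, t)) hf'
  obtain ⟨τ, hτ, hτP⟩ := exists_small (X := X × (Fin k → ℝ))
    (P := fun q t => 0 < t ∧ ∀ s : ℝ, 0 < s → s ≤ t → ContinuousAt (fun t => f (q, t)) s) (by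
      refine DP.and (dp_pos DFn.snd) (DP.all (DP.imp (dp_pos DFn.snd) (DP.imp (DP.le ?_ ?_) ?_)))
      · exact DFn.snd
      · exact DFn.snd.comp DFn.fst
      · exact (dp_continuousAt (f := fun (q : X × (Fin k → ℝ)) (t : ℝ) => f (q, t)) hf').comp
          (DFn.prod (DFn.fst.comp DFn.fst) DFn.snd))
  have hτ' : ∀ q, 0 < τ q ∧ ∀ s : ℝ, 0 < s → s ≤ τ q → ContinuousAt (fun t => f (q, t)) s := by
    intro q
    refine hτP q ?_
    have hfin := (hN q).1
    obtain ⟨t, ht0, ht⟩ := exists_lt_of_finite hfin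
    refine ⟨t, ht0, fun s hs0 hst => ?_⟩
    by_contra hcon
    exact absurd (ht s hcon hs0) (not_lt.2 hst)
  have h0 : DFn fun _ : X × (Fin k → ℝ) × (Fin k → ℝ) × ℝ => (0 : ℝ) := by
    simpa using DFn.int (X := X × (Fin k → ℝ) × (Fin k → ℝ) × ℝ) 0
  refine ⟨fun q => f (q, τ q), hf.comp (DFn.prod DFn.id hτ), fun x p hp =>
    (hfP' x p hp _ (hτ' (x, p)).1).1,
    fun q => if q.2.2.2 ≤ 0 then q.2.1 else f ((q.1, q.2.1), q.2.2.2 * τ (q.1, q.2.1)), ?_, ?_⟩
  · refine DFn.ite (DP.le (DFn.snd.comp (DFn.snd.comp DFn.snd)) h0) (DFn.fst.comp DFn.snd)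
      (hf.comp (DFn.prod (DFn.prod DFn.fst (DFn.fst.comp DFn.snd)) (DFn.mul
        (DFn.snd.comp (DFn.snd.comp DFn.snd)) (hτ.comp (DFn.prod DFn.fst
          (DFn.fst.comp DFn.snd))))))
  · rintro x p z ⟨hpS, hp, hz⟩
    simp only at hpS hp hz ⊢
    obtain ⟨hτ0, hτc⟩ := hτ' (x, p)
    refine ⟨?_, ?_, ?_, ?_⟩
    · intro t ht
      rcases eq_or_lt_of_le ht.1 with h | h
      · -- at `0`
        subst h
        rw [Metric.continuousWithinAt_iff]
        intro ε hε
        refine ⟨ε / τ (x, p), div_pos hε hτ0, fun s hs hsd => ?_⟩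
        simp only [le_refl, if_true]
        rcases le_or_gt s 0 with hs0 | hs0
        · rw [if_pos hs0, dist_self]
          exact hε
        · rw [if_neg (not_le.2 hs0)]
          have h1 : 0 < s * τ (x, p) := mul_pos hs0 hτ0
          refine (hfP' x p hp _ h1).2.trans ?_
          rw [Real.dist_eq, sub_zero, abs_of_pos hs0] at hsd
          exact (lt_div_iff₀ hτ0).1 hsd
      · -- positive times
        have hc : ContinuousAt (fun s : ℝ => f ((x, p), s * τ (x, p))) t := by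
          have h1 := hτc (t * τ (x, p)) (mul_pos h hτ0) (by
            have := mul_le_mul_of_nonneg_right ht.2 hτ0.le
            linarith)
          exact ContinuousAt.comp (f := fun s : ℝ => s * τ (x, p))
            (g := fun s => f ((x, p), s)) h1 (continuous_id.mul continuous_const).continuousAt
        refine (hc.congr ?_).continuousWithinAt
        filter_upwards [lt_mem_nhds h] with s hs
        rw [if_neg (not_le.2 hs)]
    · simp
    · simp only [one_mul]
      rw [if_neg (by norm_num), hz]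
    · intro t ht
      simp only [Set.mem_ofPred_eq]
      rcases eq_or_lt_of_le ht.1 with h | h
      · rw [if_pos h.symm.le]
        exact hpS
      · rw [if_neg (not_le.2 h)]
        exact hDS _ (hfP' x p hp _ (mul_pos h hτ0)).1

end Pool.Agent.QCT.CurveSel
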