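import Mathlib

/-!
# Project QCT, definitions: list polynomials, quantifier elimination, certificates

Everything here is an explicit function on lists, to be shown primitive recursive.
-/

namespace Pool.Agent.QCT

/-! ## Polynomials -/

/-- Polynomials in the variables `x 0, x 1, ...`: lists of signed monomials (`true` is `+`,
`false` is `-`); a monomial is the list of its variables. -/
abbrev Pl := List (Bool × List ℕ)

/-- Sum of two polynomials. -/
def Pl.add (p q : Pl) : Pl := p ++ q

/-- Negative. -/
def Pl.neg (p : Pl) : Pl := p.map fun c => (!c.1, c.2)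

/-- Product. -/
def Pl.mul (p q : Pl) : Pl := p.flatMap fun a => q.map fun b => (a.1 == b.1, a.2 ++ b.2)

/-- Natural multiple. -/
def Pl.nsc (j : ℕ) (p : Pl) : Pl := (List.range j).flatMap fun _ => p

/-- A variable. -/
def Pl.var (i : ℕ) : Pl := [(true, [i])]

/-- An integer constant: `(true, m)` is `m`, `(false, m)` is `-m`. -/
def Pl.cst (z : Bool × ℕ) : Pl := (List.range z.2).map fun _ => (z.1, [])

/-- Renaming of variables. -/
def Pl.ren (ρ : ℕ → ℕ) (p : Pl) : Pl := p.map fun c => (c.1, c.2.map ρ)

/-- Number of occurrences. -/
def cnt (i : ℕ) (m : List ℕ) : ℕ := (m.filter fun a => a = i).length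

/-- Degree in the variable `i`. -/
def Pl.dg (i : ℕ) (p : Pl) : ℕ := (p.map fun c => cnt i c.2).foldr max 0

/-- Coefficient of the `j`-th power of the variable `i`. -/
def Pl.cf (i j : ℕ) (p : Pl) : Pl :=
  (p.filter fun c => cnt i c.2 = j).map fun c => (c.1, c.2.filter fun a => a ≠ i)

/-! ## Univariate polynomials with coefficients in `Pl`, lowest coefficient first -/

/-- Univariate polynomials. -/
abbrev UP := List Pl

/-- A polynomial as a polynomial in the variable `i`. -/
def toU (i : ℕ) (p : Pl) : UP := (List.range (p.dg i + 1)).map fun j => p.cf i j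

/-- Leading coefficient. -/
def UP.lc (p : UP) : Pl := p.getD (p.length - 1) []

/-- Truncation. -/
def UP.tr (p : UP) : UP := p.take (p.length - 1)

/-- Derivative. -/
def UP.dv (p : UP) : UP :=
  (List.range (p.length - 1)).map fun j => (p.getD (j + 1) []).nsc (j + 1)

/-- One step of the division: `lc q ^ 2 * p - lc q * lc p * y ^ s * q`, without the leading
coefficient (which is zero). -/
def UP.rs (p q : UP) : UP :=
  (List.range (p.length - 1)).map fun j =>
    Pl.add ((q.lc.mul q.lc).mul (p.getD j []))
      (Pl.neg ((q.lc.mul p.lc).mul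
        (if p.length - q.length ≤ j then q.getD (j - (p.length - q.length)) [] else [])))

/-- Pseudo-remainder. -/
def UP.prem (p q : UP) : UP :=
  if 2 ≤ q.length ∧ q.length ≤ p.length then
    (fun r : UP => if q.length ≤ r.length then r.rs q else r)^[p.length] p else []

/-- Closure step. -/
def ops (F : List UP) : List UP :=
  F ++ (F.map UP.tr ++ (F.map UP.dv ++ F.flatMap fun p => F.map fun q => p.prem q))

/-- Largest length. -/
def mxl (F : List UP) : ℕ := (F.map List.length).foldr max 0

/-- Closure. -/
def clos (F : List UP) : List UP := ops^[mxl F] F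

/-- The list sorted by length. -/
def srt (G : List UP) : List UP :=
  (List.range (mxl G + 1)).flatMap fun d => G.filter fun p => p.length = d

/-! ## Sign tables -/

/-- Columns: signs of univariate polynomials at a point or on an interval. -/
abbrev Col := List (UP × SignType)

/-- Sign assignments to coefficients. -/
abbrev Asg := List (Pl × SignType)

/-- Value of an association list. -/
def lk {α : Type} [DecidableEq α] (a : List (α × SignType)) (k : α) : SignType :=
  (a.lookup k).getD 0

/-- Sign of a polynomial without roots in play: constants, and polynomials whose leading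
coefficient vanishes. -/
def sgT (p : UP) (σ : Asg) (c : Col) : SignType :=
  if lk σ p.lc = 0 then (if 2 ≤ p.length then lk c p.tr else 0) else lk σ p.lc

/-- Sign of `p` at a root of an earlier polynomial. -/
def sgA (p : UP) (σ : Asg) (c : Col) : SignType :=
  match (c.filter fun e => 2 ≤ e.1.length ∧ lk σ e.1.lc ≠ 0 ∧ e.2 = 0).head? with
  | some e => lk c (p.prem e.1)
  | none => 0

/-- Splitting of an interval with signs `sl`, `sr` at the ends. -/
def spl (p : UP) (I : Col) (sl sr : SignType) : Col × List (Col × Col) :=
  if sl * sr = -1 then ((p, sl) :: I, [((p, 0) :: I, (p, sr) :: I)])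
  else ((p, if sl = 0 then sr else sl) :: I, [])

/-- The table: the first interval; then pairs of a point and the interval on the right. -/
abbrev Tab := Col × List (Col × Col)

/-- Processing of one polynomial. -/
def addP (σ : Asg) (T : Tab) (p : UP) : Tab :=
  if 2 ≤ p.length ∧ lk σ p.lc ≠ 0 then
    let r := T.2.foldr (fun e (acc : SignType × List (Col × Col)) =>
      let s := sgA p σ e.1
      let t := spl p e.2 s acc.1
      (s, ((p, s) :: e.1, t.1) :: (t.2 ++ acc.2))) (lk σ p.lc, [])
    let t := spl p T.1 (lk σ p.lc * (-1) ^ (p.length - 1)) r.1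
    (t.1, t.2 ++ r.2)
  else ((p, sgT p σ T.1) :: T.1, T.2.map fun e => ((p, sgT p σ e.1) :: e.1, (p, sgT p σ e.2) :: e.2))

/-- The table of a list of polynomials. -/
def tabl (σ : Asg) (G : List UP) : Tab := (srt G).foldl (addP σ) ([], [])

/-- All columns. -/
def cols (σ : Asg) (G : List UP) : List Col :=
  (tabl σ G).1 :: (tabl σ G).2.flatMap fun e => [e.1, e.2]

/-! ## Quantifier elimination -/

/-- Matrices: disjunctions of conjunctions of sign conditions. -/
abbrev Mat := List Asg

/-- All assignments. -/
def asg (K : List Pl) : List Asg :=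
  K.foldr (fun p acc => acc.flatMap fun a => [(p, -1) :: a, (p, 0) :: a, (p, 1) :: a]) [[]]

/-- The polynomials of a matrix. -/
def Mat.pls (M : Mat) : List Pl := M.flatMap fun c => c.map Prod.fst

/-- Value of a matrix in a column. -/
def Mat.evC (M : Mat) (i : ℕ) (c : Col) : Bool :=
  M.any fun cl => cl.all fun a => lk c (toU i a.1) = a.2

/-- Elimination of the variable `i`; `true` is the existential quantifier. -/
def qe (b : Bool) (i : ℕ) (M : Mat) : Mat :=
  let G := clos (M.pls.map (toU i))
  (asg G.flatten).filter fun σ =>
    if b then (cols σ G).any (M.evC i) else (cols σ G).all (M.evC i)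

/-- Sign of the value of a polynomial at `0`. -/
def Pl.sg0 (p : Pl) : SignType :=
  let a := (p.filter fun c => c.2 = [] ∧ c.1 = true).length
  let b := (p.filter fun c => c.2 = [] ∧ c.1 = false).length
  if a < b then -1 else if a = b then 0 else 1

/-- Value of a matrix at `0`. -/
def Mat.ev0 (M : Mat) : Bool := M.any fun cl => cl.all fun a => a.1.sg0 = a.2

/-- Decision: the quantifier `qs i` binds the variable `i`. -/
def decideQ (qs : List Bool) (M : Mat) : Bool :=
  Mat.ev0 ((qs.zip (List.range qs.length)).foldr (fun e M => qe e.1 e.2 M) M)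

/-! ## Semantics -/

section Sem

variable {R : Type*} [CommRing R]

/-- Value of a polynomial. -/
def Pl.ev (x : ℕ → R) (p : Pl) : R :=
  (p.map fun c => (if c.1 then 1 else -1) * (c.2.map x).prod).sum

variable [LinearOrder R]

/-- Truth of a conjunction. -/
def Asg.sat (x : ℕ → R) (c : Asg) : Prop := ∀ a ∈ c, SignType.sign (a.1.ev x) = a.2

/-- Truth of a matrix. -/
def Mat.sat (x : ℕ → R) (M : Mat) : Prop := ∃ c ∈ M, Asg.sat x c

/-- Truth of a prenex formula: the quantifiers `qs` bind the variables `i, i + 1, ...`. -/
def SatQ (M : Mat) : List Bool → ℕ → (ℕ → R) → Prop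
  | [], _, x => M.sat x
  | true :: qs, i, x => ∃ a, SatQ M qs (i + 1) (Function.update x i a)
  | false :: qs, i, x => ∀ a, SatQ M qs (i + 1) (Function.update x i a)

end Sem

/-- The intermediate value property for polynomials: real closed fields. -/
class RCF (R : Type*) [Field R] [LinearOrder R] [IsStrictOrderedRing R] : Prop where
  ivt : ∀ (p : Polynomial R) (a b : R), a < b → p.eval a < 0 → 0 < p.eval b →
    ∃ c, a < c ∧ c < b ∧ p.eval c = 0

end Pool.Agent.QCT
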