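import Mathlib

/-!
# Project QCT: definable predicates and functions over the reals, definitions
-/

namespace Pool.Agent.QCT

/-- Spaces with finitely many real coordinates. -/
class Sp (X : Type) where
  /-- index type of the coordinates -/
  ι : Type
  fin : Finite ι
  /-- the coordinates -/
  e : X ≃ (ι → ℝ)

instance (X : Type) [Sp X] : Finite (Sp.ι X) := Sp.fin

noncomputable instance : Sp ℝ where
  ι := Unit
  fin := inferInstance
  e := (Equiv.funUnique Unit ℝ).symm

noncomputable instance : Sp Unit where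
  ι := Empty
  fin := inferInstance
  e := Equiv.ofUnique Unit (Empty → ℝ)

noncomputable instance (α : Type) [Finite α] : Sp (α → ℝ) where
  ι := α
  fin := inferInstance
  e := Equiv.refl _

noncomputable instance (X Y : Type) [Sp X] [Sp Y] : Sp (X × Y) where
  ι := Sp.ι X ⊕ Sp.ι Y
  fin := inferInstance
  e := (Equiv.prodCongr Sp.e Sp.e).trans (Equiv.sumArrowEquivProdArrow _ _ _).symm

/-- Sets defined by sign conditions on polynomials with integer coefficients. -/
inductive DS {α : Type} : Set (α → ℝ) → Prop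
  | pos (p : MvPolynomial α ℤ) : DS {x | 0 < MvPolynomial.aeval x p}
  | compl {S : Set (α → ℝ)} : DS S → DS Sᶜ
  | union {S T : Set (α → ℝ)} : DS S → DS T → DS (S ∪ T)

/-- Definable predicates. -/
def DP {X : Type} [Sp X] (P : X → Prop) : Prop := DS {v : Sp.ι X → ℝ | P (Sp.e.symm v)}

/-- Definable functions. -/
def DFn {X Y : Type} [Sp X] [Sp Y] (f : X → Y) : Prop := DP fun p : X × Y => f p.1 = p.2

/-- `g` is a path in `S` from `y` to `y'`. -/
structure PathIn {k : ℕ} (S : Set (Fin k → ℝ)) (y y' : Fin k → ℝ) (g : ℝ → Fin k → ℝ) :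
    Prop where
  cont : ContinuousOn g (Set.Icc 0 1)
  zero : g 0 = y
  one : g 1 = y'
  mem : ∀ t ∈ Set.Icc (0 : ℝ) 1, g t ∈ S

/-- The pairs in `E` are joined by definable paths in `S`. -/
def PR {X : Type} [Sp X] {k : ℕ} (S : X × (Fin k → ℝ) → Prop)
    (E : X × (Fin k → ℝ) × (Fin k → ℝ) → Prop) : Prop :=
  ∃ g : X × (Fin k → ℝ) × (Fin k → ℝ) × ℝ → (Fin k → ℝ), DFn g ∧
    ∀ x y y', E (x, y, y') → PathIn {z | S (x, z)} y y' fun t => g (x, y, y', t)

end Pool.Agent.QCT
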