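import Pool.Agent.QCT.Sem
import Pool.Agent.QCT.Ops

/-!
# Project QCT: execution and symbolic execution (P10)
-/

namespace Pool.Agent.QCT

namespace Exec

theorem fin_zero (T : Tb) (N : ℕ) : fin T 0 N = [((List.range N).map Pl.var, [], [])] := rfl

theorem fin_succ (T : Tb) (D N : ℕ) : fin T (D + 1) N = (fin T D N).flatMap (nxt T) := by
  rw [fin, Function.iterate_succ_apply']
  rfl

theorem nxt_inl {T : Tb} {st : Sst} {b : ℕ} (h : T.ins st.2.1 = Sum.inl b) : nxt T st = [st] := by
  rw [nxt, h]

theorem nxt_inr {T : Tb} {st : Sst} {o : Fin 4} {u v : Opd}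
    (h : T.ins st.2.1 = Sum.inr (o, u, v)) : nxt T st =
      if o = 3 then ([-1, 0, 1] : List SignType).map fun s =>
        (st.1, st.2.1 ++ [zs s], st.2.2 ++ [(opP st.1 u, s)])
      else [(st.1 ++ [resP st.1 o u v], st.2.1 ++ [0], st.2.2)] := by
  rw [nxt, h]

/-! ### Variables -/

/-- The variables of a polynomial are less than `N`. -/
def PVl (N : ℕ) (p : Pl) : Prop := ∀ c ∈ p, ∀ v ∈ c.2, v < N

theorem PVl.nil (N : ℕ) : PVl N [] := by
  intro c hc
  simp at hc

theorem PVl.add {N : ℕ} {p q : Pl} (hp : PVl N p) (hq : PVl N q) : PVl N (p.add q) := by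
  intro c hc
  rcases List.mem_append.1 hc with h | h
  · exact hp c h
  · exact hq c h

theorem PVl.neg {N : ℕ} {p : Pl} (hp : PVl N p) : PVl N p.neg := by
  intro c hc
  obtain ⟨d, hd, rfl⟩ := List.mem_map.1 hc
  exact hp d hd

theorem PVl.mul {N : ℕ} {p q : Pl} (hp : PVl N p) (hq : PVl N q) : PVl N (p.mul q) := by
  intro c hc
  obtain ⟨d, hd, h⟩ := List.mem_flatMap.1 hc
  obtain ⟨e, he, rfl⟩ := List.mem_map.1 h
  intro v hv
  rcases List.mem_append.1 hv with h1 | h1
  · exact hp d hd v h1
  · exact hq e he v h1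

theorem PVl.cst (N : ℕ) (z : Bool × ℕ) : PVl N (Pl.cst z) := by
  intro c hc
  obtain ⟨d, hd, rfl⟩ := List.mem_map.1 hc
  intro v hv
  simp at hv

theorem PVl.getD {N : ℕ} {r : List Pl} (hr : ∀ p ∈ r, PVl N p) (i : ℕ) : PVl N (r.getD i []) := by
  rw [List.getD_eq_getElem?_getD]
  rcases h : r[i]? with _ | p
  · exact PVl.nil N
  · exact hr p (List.mem_of_getElem? h)

theorem PVl.opP {N : ℕ} {r : List Pl} (hr : ∀ p ∈ r, PVl N p) (u : Opd) : PVl N (opP r u) := by
  rcases u with i | z
  · exact PVl.getD hr i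
  · exact PVl.cst N _

theorem PVl.resP {N : ℕ} {r : List Pl} (hr : ∀ p ∈ r, PVl N p) (o : Fin 4) (u v : Opd) :
    PVl N (resP r o u v) := by
  unfold QCT.resP
  split_ifs
  · exact (PVl.opP hr u).add (PVl.opP hr v)
  · exact (PVl.opP hr u).add (PVl.opP hr v).neg
  · exact (PVl.opP hr u).mul (PVl.opP hr v)

theorem fin_pv' (T : Tb) (D N : ℕ) : ∀ st ∈ fin T D N,
    (∀ p ∈ st.1, PVl N p) ∧ ∀ a ∈ st.2.2, PVl N a.1 := by
  induction D with
  | zero =>
    intro st hst
    rw [fin_zero, List.mem_singleton] at hst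
    subst hst
    refine ⟨fun p hp => ?_, fun a ha => ?_⟩
    · obtain ⟨i, hi, rfl⟩ := List.mem_map.1 hp
      intro c hc v hv
      rw [Pl.var, List.mem_singleton] at hc
      subst hc
      rw [List.mem_singleton] at hv
      subst hv
      exact List.mem_range.1 hi
    · simp at ha
  | succ D ih =>
    intro st' hst'
    rw [fin_succ] at hst'
    obtain ⟨st, hst, h⟩ := List.mem_flatMap.1 hst'
    obtain ⟨h1, h2⟩ := ih st hst
    rcases h3 : T.ins st.2.1 with b | ⟨o, u, v⟩
    · rw [nxt_inl h3, List.mem_singleton] at h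
      subst h
      exact ⟨h1, h2⟩
    · rw [nxt_inr h3] at h
      split_ifs at h with ho
      · obtain ⟨s, -, rfl⟩ := List.mem_map.1 h
        refine ⟨h1, fun a ha => ?_⟩
        rcases List.mem_append.1 ha with h4 | h4
        · exact h2 a h4
        · rw [List.mem_singleton] at h4
          subst h4
          exact PVl.opP h1 u
      · rw [List.mem_singleton] at h
        subst h
        refine ⟨fun p hp => ?_, h2⟩
        rcases List.mem_append.1 hp with h4 | h4
        · exact h1 p h4
        · rw [List.mem_singleton] at h4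
          subst h4
          exact PVl.resP h1 o u v

theorem fin_pv (T : Tb) (D N : ℕ) : ∀ st ∈ fin T D N,
    ∀ a ∈ st.2.2, ∀ c ∈ a.1, ∀ v ∈ c.2, v < N :=
  fun st hst => (fin_pv' T D N st hst).2

/-! ### Values -/

section Val

variable {R : Type*} [Field R] [LinearOrder R] [IsStrictOrderedRing R]

theorem ev_cstZ (x : ℕ → R) (z : ℤ) : (cstZ z).ev x = (z : R) := by
  rw [cstZ, Ops.ev_cst_int]
  congr 1
  by_cases h : 0 ≤ z
  · simp [h]
  · simp only [h, decide_false, Bool.false_eq_true, if_false]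
    omega

theorem ev_getD (x : ℕ → R) (r : List Pl) (i : ℕ) :
    (r.getD i []).ev x = (r.map fun p => p.ev x).getD i 0 := by
  rw [List.getD_eq_getElem?_getD, List.getD_eq_getElem?_getD, List.getElem?_map]
  rcases h : r[i]? with _ | p
  · simp [Pl.ev]
  · simp

theorem ev_opP (x : ℕ → R) (r : List Pl) (u : Opd) :
    (opP r u).ev x = opv (r.map fun p => p.ev x) u := by
  rcases u with i | z
  · exact ev_getD x r i
  · exact ev_cstZ x z

theorem ev_resP (x : ℕ → R) (r : List Pl) (o : Fin 4) (u v : Opd) :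
    (resP r o u v).ev x = res (r.map fun p => p.ev x) o u v := by
  unfold resP res
  split_ifs
  · rw [Ops.ev_add, ev_opP, ev_opP]
  · rw [Ops.ev_add, Ops.ev_neg, ev_opP, ev_opP, sub_eq_add_neg]
  · rw [Ops.ev_mul, ev_opP, ev_opP]

theorem exec_inl {A : List ℤ → Ins} {h : List ℤ} {b : ℕ} (hb : A h = Sum.inl b) (t : ℕ)
    (r : List R) : exec A t r h = some b := by
  cases t <;> (unfold exec; rw [hb])

theorem exec_inr {A : List ℤ → Ins} {h : List ℤ} {o : Fin 4} {u v : Opd}
    (hb : A h = Sum.inr (o, u, v)) (t : ℕ) (r : List R) : exec A (t + 1) r h =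
      if o = 3 then exec A t r (h ++ [zs (SignType.sign (opv r u))])
      else exec A t (r ++ [res r o u v]) (h ++ [0]) := by
  conv_lhs => unfold exec
  rw [hb]

theorem run {T : Tb} {N : ℕ} (x : ℕ → R) (D : ℕ) : ∀ st ∈ fin T D N, Asg.sat x st.2.2 →
    ∀ t, exec T.ins (D + t) ((List.range N).map x) [] =
      exec T.ins t (st.1.map fun p => p.ev x) st.2.1 := by
  induction D with
  | zero =>
    intro st hst _ t
    rw [fin_zero, List.mem_singleton] at hst
    subst hst
    rw [Nat.zero_add]
    congr 1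
    rw [List.map_map]
    refine List.map_congr_left fun i _ => ?_
    exact (Ops.ev_var x i).symm
  | succ D ih =>
    intro st' hst' hx t
    rw [fin_succ] at hst'
    obtain ⟨st, hst, h⟩ := List.mem_flatMap.1 hst'
    have hD : D + 1 + t = D + (t + 1) := by omega
    rw [hD]
    rcases h3 : T.ins st.2.1 with b | ⟨o, u, v⟩
    · rw [nxt_inl h3, List.mem_singleton] at h
      subst h
      rw [ih st' hst hx (t + 1), exec_inl h3, exec_inl h3]
    · rw [nxt_inr h3] at h
      split_ifs at h with ho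
      · obtain ⟨s, -, rfl⟩ := List.mem_map.1 h
        have hx1 : Asg.sat x st.2.2 := fun a ha => hx a (List.mem_append_left _ ha)
        have hx2 : SignType.sign ((opP st.1 u).ev x) = s :=
          hx (opP st.1 u, s) (List.mem_append_right _ (List.mem_singleton.2 rfl))
        rw [ih st hst hx1 (t + 1), exec_inr h3, if_pos ho, ← ev_opP, hx2]
      · rw [List.mem_singleton] at h
        subst h
        rw [ih st hst hx (t + 1), exec_inr h3, if_neg ho, ← ev_resP, List.map_append]
        rfl

omit [IsStrictOrderedRing R] in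
theorem exists_sat (T : Tb) (D N : ℕ) (x : ℕ → R) : ∃ st ∈ fin T D N, Asg.sat x st.2.2 := by
  induction D with
  | zero =>
    refine ⟨_, List.mem_singleton.2 rfl, ?_⟩
    intro a ha
    simp at ha
  | succ D ih =>
    obtain ⟨st, hst, hx⟩ := ih
    rcases h3 : T.ins st.2.1 with b | ⟨o, u, v⟩
    · refine ⟨st, ?_, hx⟩
      rw [fin_succ]
      refine List.mem_flatMap.2 ⟨st, hst, ?_⟩
      rw [nxt_inl h3]
      exact List.mem_singleton.2 rfl
    · by_cases ho : o = 3
      · refine ⟨(st.1, st.2.1 ++ [zs (SignType.sign ((opP st.1 u).ev x))],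
          st.2.2 ++ [(opP st.1 u, SignType.sign ((opP st.1 u).ev x))]), ?_, ?_⟩
        · rw [fin_succ]
          refine List.mem_flatMap.2 ⟨st, hst, ?_⟩
          rw [nxt_inr h3, if_pos ho]
          refine List.mem_map.2 ⟨SignType.sign ((opP st.1 u).ev x), ?_, rfl⟩
          cases SignType.sign ((opP st.1 u).ev x) <;> decide
        · intro a ha
          rcases List.mem_append.1 ha with h4 | h4
          · exact hx a h4
          · rw [List.mem_singleton] at h4
            subst h4
            rfl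
      · refine ⟨(st.1 ++ [resP st.1 o u v], st.2.1 ++ [0], st.2.2), ?_, hx⟩
        rw [fin_succ]
        refine List.mem_flatMap.2 ⟨st, hst, ?_⟩
        rw [nxt_inr h3, if_neg ho]
        exact List.mem_singleton.2 rfl

/-- The output at a symbolic state whose conditions hold. -/
theorem fin_exec (T : Tb) (D N : ℕ) (x : ℕ → R) {st : Sst} (hst : st ∈ fin T D N)
    (hx : Asg.sat x st.2.2) {b : ℕ} (hb : T.ins st.2.1 = Sum.inl b) :
    exec T.ins D ((List.range N).map x) [] = some b := by
  have h := run x D st hst hx 0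
  rw [Nat.add_zero] at h
  rw [h, exec_inl hb]

/-- Every input follows some symbolic state. -/
theorem exec_fin (T : Tb) (D N : ℕ) (x : ℕ → R) :
    ∃ st ∈ fin T D N, Asg.sat x st.2.2 ∧
      ∀ b, T.ins st.2.1 = Sum.inl b → exec T.ins D ((List.range N).map x) [] = some b := by
  obtain ⟨st, hst, hx⟩ := exists_sat T D N x
  exact ⟨st, hst, hx, fun b hb => fin_exec T D N x hst hx hb⟩

end Val

end Exec

end Pool.Agent.QCT
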