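import Pool.Agent.QCT.Sem

/-!
# Project QCT, P13: the inputs
-/

namespace Pool.Agent.QCT.Inp13

set_option linter.unusedSectionVars false

variable {R : Type*} [Field R] [LinearOrder R] {k l : ℕ}

private theorem range_flatMap {α : Type*} (a b : ℕ) (hb : 0 < b) (g : ℕ → ℕ → α) :
    (List.range a).flatMap (fun i => (List.range b).map (g i)) =
      (List.range (a * b)).map fun n => g (n / b) (n % b) := by
  induction a with
  | zero => simp
  | succ a ih =>
    rw [List.range_succ, List.flatMap_append, ih, Nat.succ_mul, List.range_add, List.map_append,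
      List.map_map]
    congr 1
    simp only [List.flatMap_cons, List.flatMap_nil, List.append_nil]
    refine List.map_congr_left fun j hj => ?_
    have hj' := List.mem_range.1 hj
    simp only [Function.comp_apply]
    rw [mul_comm a b, Nat.mul_add_div hb, Nat.mul_add_mod, Nat.div_eq_of_lt hj',
      Nat.mod_eq_of_lt hj', add_zero]

/-- the input as a function -/
noncomputable def inp (P : Fin l → MvPolynomial (Fin k) R) (n : ℕ) : R :=
  if h : n / ((k + 1) * (k + 1)) < l then
    (P ⟨n / ((k + 1) * (k + 1)), h⟩).coeff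
      (expo k (n % ((k + 1) * (k + 1)) / (k + 1)) + expo k (n % ((k + 1) * (k + 1)) % (k + 1)))
  else 0

private theorem inputs_list (P : Fin l → MvPolynomial (Fin k) R) :
    inputs P = (List.range (nn k l)).map (inp P) := by
  have hK : 0 < k + 1 := Nat.succ_pos k
  have hKK : 0 < (k + 1) * (k + 1) := Nat.mul_pos hK hK
  unfold inputs nn
  have h1 : ∀ m : Fin l, ((List.range (k + 1)).flatMap fun i =>
      (List.range (k + 1)).map fun j => (P m).coeff (expo k i + expo k j)) =
      (List.range ((k + 1) * (k + 1))).map fun n =>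
        (P m).coeff (expo k (n / (k + 1)) + expo k (n % (k + 1))) := fun m =>
    range_flatMap (k + 1) (k + 1) hK fun i j => (P m).coeff (expo k i + expo k j)
  simp only [h1]
  have h2 := range_flatMap l ((k + 1) * (k + 1)) hKK fun m n =>
    if h : m < l then (P ⟨m, h⟩).coeff (expo k (n / (k + 1)) + expo k (n % (k + 1))) else (0 : R)
  change _ = (List.range (l * ((k + 1) * (k + 1)))).map (fun n => inp P n)
  unfold inp
  rw [← h2, ← List.map_coe_finRange_eq_range (n := l), List.flatMap_map]
  refine List.flatMap_congr fun m _ => ?_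
  refine List.map_congr_left fun n _ => ?_
  rw [dif_pos m.2]

private theorem expo_apply (i : ℕ) (a : Fin k) : expo k i a = if (a : ℕ) = i then 1 else 0 := by
  unfold expo
  by_cases h : i < k
  · rw [dif_pos h, Finsupp.single_apply]
    by_cases h1 : (a : ℕ) = i
    · rw [if_pos h1, if_pos (Fin.ext h1.symm)]
    · rw [if_neg h1, if_neg fun h2 => h1 (by rw [← h2])]
  · rw [dif_neg h, if_neg (by have := a.2; omega)]
    rfl

private theorem expo_top (i : ℕ) (h : k ≤ i) : expo k i = 0 := by
  unfold expo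
  rw [dif_neg (by omega)]

private theorem expo_inj {i j i' j' : ℕ} (hij : i ≤ j) (hj : j ≤ k) (hij' : i' ≤ j')
    (hj' : j' ≤ k) (h : expo k i + expo k j = expo k i' + expo k j') : i = i' ∧ j = j' := by
  have key : ∀ a < k, (if a = i then 1 else 0) + (if a = j then 1 else 0) =
      (if a = i' then 1 else 0) + (if a = j' then 1 else 0) := by
    intro a ha
    have h1 := DFunLike.congr_fun h (⟨a, ha⟩ : Fin k)
    rw [Finsupp.add_apply, Finsupp.add_apply, expo_apply, expo_apply, expo_apply, expo_apply] at h1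
    exact h1
  have hii : i = i' := by
    by_contra hne
    rcases Nat.lt_or_gt_of_ne hne with h1 | h1
    · have h2 := key i (by omega)
      rw [if_pos rfl, if_neg hne, if_neg (show ¬ i = j' by omega)] at h2
      omega
    · have h2 := key i' (by omega)
      rw [if_pos rfl, if_neg (Ne.symm hne), if_neg (show ¬ i' = j by omega)] at h2
      omega
  subst hii
  refine ⟨rfl, ?_⟩
  by_contra hne
  rcases Nat.lt_or_gt_of_ne hne with h1 | h1
  · have h2 := key j (by omega)
    rw [if_pos (rfl : j = j), if_neg hne] at h2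
    omega
  · have h2 := key j' (by omega)
    rw [if_pos (rfl : j' = j'), if_neg (Ne.symm hne)] at h2
    omega

private theorem expo_fin (a : Fin k) : expo k a = Finsupp.single a 1 := by
  unfold expo
  rw [dif_pos a.2]

private theorem expo_surj {d : Fin k →₀ ℕ} (h : (d.sum fun _ e => e) ≤ 2) :
    ∃ i j, i ≤ j ∧ j ≤ k ∧ d = expo k i + expo k j := by
  have hc : (Finsupp.toMultiset d).card ≤ 2 := by
    rw [Finsupp.card_toMultiset]
    exact h
  have hd : d = Multiset.toFinsupp (Finsupp.toMultiset d) :=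
    (Finsupp.toMultiset_toFinsupp d).symm
  rcases Nat.lt_or_ge (Finsupp.toMultiset d).card 1 with h0 | h0
  · refine ⟨k, k, le_rfl, le_rfl, ?_⟩
    have h1 : Finsupp.toMultiset d = 0 := Multiset.card_eq_zero.1 (by omega)
    rw [hd, h1, expo_top k le_rfl, add_zero]
    simp
  rcases Nat.lt_or_ge (Finsupp.toMultiset d).card 2 with h1 | h1
  · obtain ⟨a, ha⟩ := Multiset.card_eq_one.1 (show (Finsupp.toMultiset d).card = 1 by omega)
    refine ⟨a, k, a.2.le, le_rfl, ?_⟩
    rw [hd, ha, expo_top k le_rfl, add_zero, expo_fin, Multiset.toFinsupp_singleton]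
  · obtain ⟨a, b, hab⟩ := Multiset.card_eq_two.1 (show (Finsupp.toMultiset d).card = 2 by omega)
    have h2 : d = expo k a + expo k b := by
      rw [hd, hab, expo_fin, expo_fin, ← Multiset.toFinsupp_singleton,
        ← Multiset.toFinsupp_singleton, ← map_add]
      rfl
    rcases le_total (a : ℕ) b with h3 | h3
    · exact ⟨a, b, h3, b.2.le, h2⟩
    · exact ⟨b, a, h3, a.2.le, by rw [h2, add_comm]⟩

private theorem prod_expo (y : Fin k → R) (i : ℕ) : ∏ a, y a ^ expo k i a = hom y i := by
  unfold hom
  by_cases h : i < k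
  · rw [dif_pos h, Finset.prod_eq_single ⟨i, h⟩]
    · rw [expo_apply, if_pos rfl, pow_one]
    · intro a _ ha
      rw [expo_apply, if_neg fun h1 => ha (Fin.ext h1), pow_zero]
    · intro h1
      exact absurd (Finset.mem_univ _) h1
  · rw [dif_neg h, expo_top i (by omega)]
    simp

private theorem pmv_inp (P : Fin l → MvPolynomial (Fin k) R)
    (hP : ∀ i, (P i).totalDegree ≤ 2) (m : Fin l) (y : Fin k → R) :
    pmv (inp P) m y = MvPolynomial.eval y (P m) := by
  have hK : 0 < k + 1 := Nat.succ_pos k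
  have hx : ∀ i ≤ k, ∀ j ≤ k, inp P (ci k m i j) = (P m).coeff (expo k i + expo k j) := by
    intro i hi j hj
    have h1 : i * (k + 1) + j < (k + 1) * (k + 1) := by
      calc i * (k + 1) + j < i * (k + 1) + (k + 1) := by omega
        _ = (i + 1) * (k + 1) := by ring
        _ ≤ (k + 1) * (k + 1) := Nat.mul_le_mul_right _ (by omega)
    have h2 : ci k m i j / ((k + 1) * (k + 1)) = m := by
      unfold ci
      rw [mul_comm (m : ℕ), Nat.mul_add_div (Nat.mul_pos hK hK), Nat.div_eq_of_lt h1, add_zero]
    have h3 : ci k m i j % ((k + 1) * (k + 1)) = i * (k + 1) + j := by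
      unfold ci
      rw [mul_comm (m : ℕ), Nat.mul_add_mod, Nat.mod_eq_of_lt h1]
    have h4 : (i * (k + 1) + j) / (k + 1) = i := by
      rw [mul_comm i, Nat.mul_add_div hK, Nat.div_eq_of_lt (by omega), add_zero]
    have h5 : (i * (k + 1) + j) % (k + 1) = j := by
      rw [mul_comm i, Nat.mul_add_mod, Nat.mod_eq_of_lt (by omega)]
    have h6 : ci k m i j / ((k + 1) * (k + 1)) < l := by
      rw [h2]
      exact m.2
    unfold inp
    rw [dif_pos h6, h3, h4, h5]
    congr 2
    exact Fin.ext h2
  unfold pmv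
  rw [Finset.sum_sigma' (Finset.range (k + 1))
    (fun i => (Finset.range (k + 1)).filter fun j => i ≤ j)
    (fun i j => inp P (ci k m i j) * (hom y i * hom y j)), MvPolynomial.eval_eq']
  set S := (Finset.range (k + 1)).sigma (fun i => (Finset.range (k + 1)).filter fun j => i ≤ j)
    with hS
  have hmem : ∀ p : (_ : ℕ) × ℕ, p ∈ S ↔ p.1 ≤ p.2 ∧ p.2 ≤ k := by
    intro p
    rw [hS, Finset.mem_sigma, Finset.mem_filter, Finset.mem_range, Finset.mem_range]
    omega
  have h1 : ∑ p ∈ S, inp P (ci k m p.1 p.2) * (hom y p.1 * hom y p.2) =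
      ∑ d ∈ S.image (fun p => expo k p.1 + expo k p.2),
        (P m).coeff d * ∏ a, y a ^ d a := by
    rw [Finset.sum_image]
    · refine Finset.sum_congr rfl fun p hp => ?_
      have h2 := (hmem p).1 hp
      rw [hx p.1 (by omega) p.2 h2.2, ← prod_expo, ← prod_expo, ← Finset.prod_mul_distrib]
      congr 1
      refine Finset.prod_congr rfl fun a _ => ?_
      rw [Finsupp.add_apply, pow_add]
    · rintro ⟨i, j⟩ hp ⟨i', j'⟩ hp' h
      have h2 := (hmem _).1 hp
      have h3 := (hmem _).1 hp'
      obtain ⟨rfl, rfl⟩ := expo_inj h2.1 h2.2 h3.1 h3.2 h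
      rfl
  rw [h1]
  symm
  refine Finset.sum_subset ?_ ?_
  · intro d hd
    obtain ⟨i, j, hij, hj, rfl⟩ := expo_surj ((MvPolynomial.le_totalDegree hd).trans (hP m))
    exact Finset.mem_image.2 ⟨⟨i, j⟩, (hmem _).2 ⟨hij, hj⟩, rfl⟩
  · intro d _ hd
    rw [MvPolynomial.notMem_support_iff.1 hd, zero_mul]

/-- P13 -/
theorem inputs_eq (P : Fin l → MvPolynomial (Fin k) R) (hP : ∀ i, (P i).totalDegree ≤ 2) :
    ∃ x : ℕ → R, inputs P = (List.range (nn k l)).map x ∧ ∀ s : Bool,
      SS s k l x = {y | ∀ i, if s then 0 ≤ MvPolynomial.eval y (P i)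
        else MvPolynomial.eval y (P i) ≤ 0} := by
  refine ⟨inp P, inputs_list P, fun s => ?_⟩
  ext y
  unfold SS
  simp only [Set.mem_ofPred_eq]
  constructor
  · intro h i
    have h1 := h i i.2
    rwa [pmv_inp P hP i y] at h1
  · intro h m hm
    have h1 := h ⟨m, hm⟩
    rwa [← pmv_inp P hP ⟨m, hm⟩ y] at h1

end Pool.Agent.QCT.Inp13
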