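import Pool.Agent.QCT.Cert

/-!
# Project QCT: computability, the instance for `SignType`
-/

namespace Pool.Agent.QCT

/-- Signs are encoded as `Fin 3`. -/
instance : Primcodable SignType := Primcodable.ofEquiv (Fin 3) SignType.fin3Equiv.toEquiv

end Pool.Agent.QCT
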