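import Pool.Agent.QCT.Prim0

/-!
# Project QCT: computability of the check of certificates (P12c)

All statements have the form: if the arguments depend primitive recursively on a parameter then
so does the value.
-/

set_option autoImplicit false

namespace Pool.Agent.QCT.PrimC

open Primrec

section Gen

variable {α β γ : Type} [Primcodable α] [Primcodable β] [Primcodable γ]

/-- Filtering with a parameter. -/
theorem filter' {f : α → List β} {p : α → β → Bool} (hf : Primrec f) (hp : Primrec₂ p) :
    Primrec fun a => (f a).filter fun b => p a b := by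
  have h : Primrec fun a => (f a).flatMap fun b => if p a b = true then [b] else [] := by
    refine list_flatMap hf (Primrec₂.mk (Primrec.ite ?_ ?_ (const [])))
    · exact (Primrec.eq.comp hp (const true))
    · exact list_cons.comp snd (const [])
  refine h.of_eq fun a => ?_
  induction f a with
  | nil => rfl
  | cons b l ih =>
    rw [List.flatMap_cons, ih, List.filter_cons]
    split_ifs <;> rfl

/-- Universal quantification over a list with a parameter. -/
theorem all' {f : α → List β} {p : α → β → Bool} (hf : Primrec f) (hp : Primrec₂ p) :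
    Primrec fun a => (f a).all fun b => p a b := by
  have h : Primrec fun a => (f a).foldr (fun b s => p a b && s) true := by
    refine list_foldr (h := fun a (q : β × Bool) => p a q.1 && q.2) hf (const true) ?_
    exact Primrec₂.mk (Primrec.and.comp (hp.comp fst (fst.comp snd)) (snd.comp snd))
  refine h.of_eq fun a => ?_
  induction f a with
  | nil => rfl
  | cons b l ih => rw [List.foldr_cons, ih, List.all_cons]

/-- Lists with one element. -/
theorem sing {f : α → β} (hf : Primrec f) : Primrec fun a => [f a] :=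
  list_cons.comp hf (const [])

theorem cns {f : α → β} {g : α → List β} (hf : Primrec f) (hg : Primrec g) :
    Primrec fun a => f a :: g a :=
  list_cons.comp hf hg

theorem app {f g : α → List β} (hf : Primrec f) (hg : Primrec g) : Primrec fun a => f a ++ g a :=
  list_append.comp hf hg

end Gen

variable {α : Type} [Primcodable α]

/-! ### Polynomials -/

theorem padd {f g : α → Pl} (hf : Primrec f) (hg : Primrec g) :
    Primrec fun a => Pl.add (f a) (g a) :=
  list_append.comp hf hg

theorem pneg {f : α → Pl} (hf : Primrec f) : Primrec fun a => Pl.neg (f a) :=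
  list_map hf (Primrec₂.mk (pair (Primrec.not.comp (fst.comp snd)) (snd.comp snd)))

theorem pvar {f : α → ℕ} (hf : Primrec f) : Primrec fun a => Pl.var (f a) :=
  sing (pair (const true) (sing hf))

theorem pren {ρ : α → ℕ → ℕ} {f : α → Pl} (hρ : Primrec₂ ρ) (hf : Primrec f) :
    Primrec fun a => Pl.ren (ρ a) (f a) := by
  refine list_map hf (Primrec₂.mk (pair (fst.comp snd) ?_))
  exact list_map (snd.comp snd) (Primrec₂.mk (hρ.comp (fst.comp fst) snd))

/-! ### Matrices -/

theorem mand {f g : α → Mat} (hf : Primrec f) (hg : Primrec g) :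
    Primrec fun a => Mat.and (f a) (g a) := by
  unfold Mat.and
  refine list_flatMap hf (Primrec₂.mk ?_)
  exact list_map (hg.comp fst) (Primrec₂.mk (app (snd.comp fst) snd))

theorem mor {f g : α → Mat} (hf : Primrec f) (hg : Primrec g) :
    Primrec fun a => Mat.or (f a) (g a) :=
  list_append.comp hf hg

theorem pnts {f : α → SignType} (hf : Primrec f) : Primrec fun a => nts (f a) :=
  (Primrec.dom_finite nts).comp hf

theorem mnot {f : α → Mat} (hf : Primrec f) : Primrec fun a => Mat.not (f a) := by
  unfold Mat.not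
  refine list_foldr (h := fun _ (q : Asg × Mat) => Mat.and (q.1.flatMap fun a =>
    (nts a.2).map fun s => [(a.1, s)]) q.2) hf (const [[]]) (Primrec₂.mk ?_)
  refine mand ?_ (snd.comp snd)
  refine list_flatMap (fst.comp snd) (Primrec₂.mk ?_)
  refine list_map (pnts (snd.comp snd)) (Primrec₂.mk ?_)
  exact sing (pair (fst.comp (snd.comp fst)) snd)

theorem mimp {f g : α → Mat} (hf : Primrec f) (hg : Primrec g) :
    Primrec fun a => Mat.imp (f a) (g a) :=
  mor (mnot hf) hg

theorem miff {f g : α → Mat} (hf : Primrec f) (hg : Primrec g) :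
    Primrec fun a => Mat.iff (f a) (g a) :=
  mand (mimp hf hg) (mimp hg hf)

theorem mall {f : α → List Mat} (hf : Primrec f) : Primrec fun a => Mat.all (f a) := by
  unfold Mat.all
  exact list_foldr (h := fun _ (q : Mat × Mat) => Mat.and q.1 q.2) hf (const [[]])
    (Primrec₂.mk (mand (fst.comp snd) (snd.comp snd)))

theorem many {f : α → List Mat} (hf : Primrec f) : Primrec fun a => Mat.any (f a) := by
  unfold Mat.any
  exact list_foldr (h := fun _ (q : Mat × Mat) => Mat.or q.1 q.2) hf (const [])
    (Primrec₂.mk (mor (fst.comp snd) (snd.comp snd)))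

theorem mren {ρ : α → ℕ → ℕ} {f : α → Mat} (hρ : Primrec₂ ρ) (hf : Primrec f) :
    Primrec fun a => Mat.ren (ρ a) (f a) := by
  refine list_map hf (Primrec₂.mk ?_)
  refine list_map snd (Primrec₂.mk (pair ?_ (snd.comp snd)))
  exact pren (ρ := fun x : (α × Asg) × (Pl × SignType) => ρ x.1.1)
    (hρ.comp (fst.comp (fst.comp fst)) snd) (fst.comp snd)

theorem pat1 {f : α → Pl} {s : α → SignType} (hf : Primrec f) (hs : Primrec s) :
    Primrec fun a => at1 (f a) (s a) :=
  sing (sing (pair hf hs))

/-! ### Variables -/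

section Vars

variable {N k l b c e i j m r t t' v : α → ℕ} {bs : α → List ℕ}

theorem add' (h1 : Primrec i) (h2 : Primrec j) : Primrec fun a => i a + j a := nat_add.comp h1 h2

theorem mul' (h1 : Primrec i) (h2 : Primrec j) : Primrec fun a => i a * j a := nat_mul.comp h1 h2

theorem nn' (hk : Primrec k) (hl : Primrec l) : Primrec fun a => nn (k a) (l a) :=
  mul' hl (mul' (add' hk (const 1)) (add' hk (const 1)))

theorem ci' (hk : Primrec k) (hm : Primrec m) (hi : Primrec i) (hj : Primrec j) :
    Primrec fun a => ci (k a) (m a) (i a) (j a) :=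
  add' (mul' hm (mul' (add' hk (const 1)) (add' hk (const 1)))) (add' (mul' hi (add' hk (const 1))) hj)

theorem bv' (hN : Primrec N) (hk : Primrec k) (hb : Primrec b) (hr : Primrec r) :
    Primrec fun a => bv (N a) (k a) (b a) (r a) :=
  add' hN (add' (mul' hb hk) hr)

theorem rb' (hN : Primrec N) (hk : Primrec k) (hbs : Primrec bs) :
    Primrec₂ fun a v => rb (N a) (k a) (bs a) v := by
  refine Primrec₂.mk (Primrec.ite (nat_lt.comp snd (hN.comp fst)) snd ?_)
  have h1 : Primrec fun p : α × ℕ => p.2 - N p.1 := nat_sub.comp snd (hN.comp fst)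
  refine bv' (hN.comp fst) (hk.comp fst) ?_ (nat_mod.comp h1 (hk.comp fst))
  exact (list_getD 8).comp (hbs.comp fst) (nat_div.comp h1 (hk.comp fst))

theorem yv' (hN : Primrec N) (hk : Primrec k) (hb : Primrec b) (hi : Primrec i) :
    Primrec fun a => yv (N a) (k a) (b a) (i a) :=
  Primrec.ite (nat_lt.comp hi hk) (sing (bv' hN hk hb hi)) (const [])

theorem pmP' (hN : Primrec N) (hk : Primrec k) (hb : Primrec b) (hm : Primrec m) :
    Primrec fun a => pmP (N a) (k a) (b a) (m a) := by
  unfold pmP
  refine list_flatMap (list_range.comp (add' hk (const 1))) (Primrec₂.mk ?_)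
  refine list_map ?_ (Primrec₂.mk (pair (const true) ?_))
  · refine filter' (list_range.comp (add' (hk.comp fst) (const 1))) ?_
    exact Primrec₂.mk (nat_le.comp (snd.comp fst) snd).decide
  · refine cns (ci' (hk.comp (fst.comp fst)) (hm.comp (fst.comp fst)) (snd.comp fst) snd) ?_
    exact app (yv' (hN.comp (fst.comp fst)) (hk.comp (fst.comp fst)) (hb.comp (fst.comp fst))
      (snd.comp fst)) (yv' (hN.comp (fst.comp fst)) (hk.comp (fst.comp fst))
      (hb.comp (fst.comp fst)) snd)

theorem sM' {s : α → Bool} (hs : Primrec s) (hk : Primrec k) (hl : Primrec l) (hb : Primrec b) :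
    Primrec fun a => sM (s a) (k a) (l a) (b a) := by
  unfold sM
  refine mall (list_map (list_range.comp hl) (Primrec₂.mk ?_))
  have h1 := pmP' (nn' (hk.comp fst) (hl.comp fst)) (hk.comp fst) (hb.comp fst)
    (snd : Primrec (Prod.snd : α × ℕ → ℕ))
  refine mor (pat1 h1 (const 0)) (pat1 h1 ?_)
  exact (Primrec.dom_bool fun s => if s then (1 : SignType) else -1).comp (hs.comp fst)

theorem d2P' (hN : Primrec N) (hk : Primrec k) (hb : Primrec b) (hc : Primrec c) :
    Primrec fun a => d2P (N a) (k a) (b a) (c a) := by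
  unfold d2P
  refine list_flatMap (list_range.comp hk) (Primrec₂.mk ?_)
  have h1 := bv' (hN.comp fst) (hk.comp fst) (hb.comp fst) (snd : Primrec (Prod.snd : α × ℕ → ℕ))
  have h2 := bv' (hN.comp fst) (hk.comp fst) (hc.comp fst) (snd : Primrec (Prod.snd : α × ℕ → ℕ))
  exact cns (pair (const true) (cns h1 (sing h1))) (cns (pair (const false) (cns h1 (sing h2)))
    (cns (pair (const false) (cns h1 (sing h2))) (sing (pair (const true) (cns h2 (sing h2))))))

theorem ltD' (hN : Primrec N) (hk : Primrec k) (hb : Primrec b) (hc : Primrec c)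
    (he : Primrec e) : Primrec fun a => ltD (N a) (k a) (b a) (c a) (e a) :=
  pat1 (padd (d2P' hN hk hb hc) (pneg (pvar (bv' hN hk he (const 0))))) (const (-1))

theorem eqB' (hN : Primrec N) (hk : Primrec k) (hb : Primrec b) (hc : Primrec c) :
    Primrec fun a => eqB (N a) (k a) (b a) (c a) :=
  pat1 (d2P' hN hk hb hc) (const 0)

theorem posB' (hN : Primrec N) (hk : Primrec k) (he : Primrec e) :
    Primrec fun a => posB (N a) (k a) (e a) :=
  pat1 (pvar (bv' hN hk he (const 0))) (const 1)

theorem i01' (hN : Primrec N) (hk : Primrec k) (ht : Primrec t) :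
    Primrec fun a => i01 (N a) (k a) (t a) := by
  have h1 := pvar (bv' hN hk ht (const 0))
  have h2 := padd (const (Pl.cst (true, 1))) (pneg h1)
  exact mand (mor (pat1 h1 (const 0)) (pat1 h1 (const 1)))
    (mor (pat1 h2 (const 0)) (pat1 h2 (const 1)))

theorem is0' (hN : Primrec N) (hk : Primrec k) (ht : Primrec t) :
    Primrec fun a => is0 (N a) (k a) (t a) :=
  pat1 (pvar (bv' hN hk ht (const 0))) (const 0)

theorem is1' (hN : Primrec N) (hk : Primrec k) (ht : Primrec t) :
    Primrec fun a => is1 (N a) (k a) (t a) :=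
  pat1 (padd (const (Pl.cst (true, 1))) (pneg (pvar (bv' hN hk ht (const 0))))) (const 0)

theorem ltT' (hN : Primrec N) (hk : Primrec k) (ht : Primrec t) (ht' : Primrec t')
    (he : Primrec e) : Primrec fun a => ltT (N a) (k a) (t a) (t' a) (e a) := by
  have h1 := bv' hN hk ht (const 0)
  have h2 := bv' hN hk ht' (const 0)
  exact pat1 (padd (cns (pair (const true) (cns h1 (sing h1))) (cns (pair (const false)
    (cns h1 (sing h2))) (cns (pair (const false) (cns h1 (sing h2)))
    (sing (pair (const true) (cns h2 (sing h2)))))))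
    (pneg (pvar (bv' hN hk he (const 0))))) (const (-1))

theorem qp' {qs : α → List Bool} (hN : Primrec N) (hk : Primrec k) (hq : Primrec qs) :
    Primrec fun a => qp (N a) (k a) (qs a) := by
  unfold qp
  refine app (list_map (list_range.comp hN) (Primrec₂.mk (const false))) ?_
  refine list_flatMap hq (Primrec₂.mk ?_)
  exact list_map (list_range.comp (hk.comp fst)) (Primrec₂.mk (snd.comp fst))

/-! ### The check -/

variable {Cs Gs : α → List Mat} {pc : α → Asg} {s : α → Bool}

theorem cM' (hk : Primrec k) (hl : Primrec l) (hC : Primrec Cs) (hi : Primrec i)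
    (hb : Primrec b) : Primrec fun a => cM (k a) (l a) (Cs a) (i a) (b a) :=
  mren (rb' (nn' hk hl) hk (sing hb)) ((list_getD []).comp hC hi)

theorem gM' {d : α → ℕ} (hk : Primrec k) (hl : Primrec l) (hG : Primrec Gs) (hi : Primrec i)
    (hb : Primrec b) (hc : Primrec c) (he : Primrec e) (hd : Primrec d) :
    Primrec fun a => gM (k a) (l a) (Gs a) (i a) (b a) (c a) (e a) (d a) :=
  mren (rb' (nn' hk hl) hk (cns hb (cns hc (cns he (sing hd))))) ((list_getD []).comp hG hi)

variable (hdec : Primrec₂ decideQ)

include hdec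

theorem chk1' (hs : Primrec s) (hk : Primrec k) (hl : Primrec l) (hp : Primrec pc)
    (hb : Primrec b) (hC : Primrec Cs) :
    Primrec fun a => chk1 (s a) (k a) (l a) (pc a) (b a) (Cs a) := by
  refine hdec.comp (qp' (nn' hk hl) hk (const _)) (mimp (sing hp) (miff (sM' hs hk hl (const 0))
    (many (list_map (list_range.comp hb) (Primrec₂.mk ?_)))))
  exact cM' (hk.comp fst) (hl.comp fst) (hC.comp fst) snd (const 0)

theorem chk2' (hk : Primrec k) (hl : Primrec l) (hp : Primrec pc) (hC : Primrec Cs)
    (hi : Primrec i) (hj : Primrec j) :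
    Primrec fun a => chk2 (k a) (l a) (pc a) (Cs a) (i a) (j a) :=
  hdec.comp (qp' (nn' hk hl) hk (const _)) (mimp (sing hp) (mnot (mand
    (cM' hk hl hC hi (const 0)) (cM' hk hl hC hj (const 0)))))

theorem chk3' (hk : Primrec k) (hl : Primrec l) (hp : Primrec pc) (hC : Primrec Cs)
    (hi : Primrec i) : Primrec fun a => chk3 (k a) (l a) (pc a) (Cs a) (i a) :=
  hdec.comp (qp' (nn' hk hl) hk (const _)) (mimp (sing hp) (cM' hk hl hC hi (const 0)))

theorem chk4' (hs : Primrec s) (hk : Primrec k) (hl : Primrec l) (hp : Primrec pc)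
    (hC : Primrec Cs) (hi : Primrec i) :
    Primrec fun a => chk4 (s a) (k a) (l a) (pc a) (Cs a) (i a) := by
  have hN := nn' hk hl
  exact hdec.comp (qp' hN hk (const _)) (mimp (mand (sing hp) (cM' hk hl hC hi (const 0)))
    (mand (posB' hN hk (const 1)) (mimp (mand (ltD' hN hk (const 0) (const 2) (const 1))
      (sM' hs hk hl (const 2))) (cM' hk hl hC hi (const 2)))))

theorem chk5' (hk : Primrec k) (hl : Primrec l) (hp : Primrec pc)
    (hC : Primrec Cs) (hG : Primrec Gs) (hi : Primrec i) :
    Primrec fun a => chk5 (k a) (l a) (pc a) (Cs a) (Gs a) (i a) := by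
  have hN := nn' hk hl
  exact hdec.comp (qp' hN hk (const _)) (mimp (mall (cns (sing hp) (cns
    (cM' hk hl hC hi (const 0)) (cns (cM' hk hl hC hi (const 1)) (sing (i01' hN hk (const 2)))))))
    (mand (gM' hk hl hG hi (const 0) (const 1) (const 2) (const 3)) (cM' hk hl hC hi (const 3))))

theorem chk6' (hk : Primrec k) (hl : Primrec l) (hp : Primrec pc)
    (hC : Primrec Cs) (hG : Primrec Gs) (hi : Primrec i) :
    Primrec fun a => chk6 (k a) (l a) (pc a) (Cs a) (Gs a) (i a) := by
  have hN := nn' hk hl
  exact hdec.comp (qp' hN hk (const _)) (mimp (mall (cns (sing hp) (cns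
    (cM' hk hl hC hi (const 0)) (cns (cM' hk hl hC hi (const 1)) (cns (i01' hN hk (const 2))
      (cns (gM' hk hl hG hi (const 0) (const 1) (const 2) (const 3))
        (sing (posB' hN hk (const 4)))))))))
    (mand (posB' hN hk (const 5)) (mimp (mall (cns (i01' hN hk (const 6)) (cns
      (gM' hk hl hG hi (const 0) (const 1) (const 6) (const 7))
      (sing (ltT' hN hk (const 2) (const 6) (const 5))))))
      (ltD' hN hk (const 3) (const 7) (const 4)))))

theorem chk7' (hk : Primrec k) (hl : Primrec l) (hp : Primrec pc)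
    (hC : Primrec Cs) (hG : Primrec Gs) (hi : Primrec i) :
    Primrec fun a => chk7 (k a) (l a) (pc a) (Cs a) (Gs a) (i a) := by
  have hN := nn' hk hl
  exact hdec.comp (qp' hN hk (const _)) (mimp (mall (cns (sing hp) (cns
    (cM' hk hl hC hi (const 0)) (cns (cM' hk hl hC hi (const 1))
      (sing (gM' hk hl hG hi (const 0) (const 1) (const 2) (const 3)))))))
    (mand (mimp (is0' hN hk (const 2)) (eqB' hN hk (const 3) (const 0)))
      (mimp (is1' hN hk (const 2)) (eqB' hN hk (const 3) (const 1)))))

/-- The check is primitive recursive, if `decideQ` is. -/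
theorem chk' {ce : α → List Mat × List Mat} (hs : Primrec s) (hk : Primrec k) (hl : Primrec l)
    (hp : Primrec pc) (hb : Primrec b) (hce : Primrec ce) :
    Primrec fun a => chk (s a) (k a) (l a) (pc a) (b a) (ce a) := by
  unfold chk
  have hC := fst.comp hce
  have hG := snd.comp hce
  refine Primrec.and.comp (chk1' hdec hs hk hl hp hb hC) (all' (list_range.comp hb)
    (Primrec₂.mk ?_))
  have hs1 : Primrec fun x : α × ℕ => s x.1 := hs.comp fst
  have hk1 : Primrec fun x : α × ℕ => k x.1 := hk.comp fst
  have hl1 : Primrec fun x : α × ℕ => l x.1 := hl.comp fst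
  have hp1 : Primrec fun x : α × ℕ => pc x.1 := hp.comp fst
  have hC1 : Primrec fun x : α × ℕ => (ce x.1).1 := hC.comp fst
  have hG1 : Primrec fun x : α × ℕ => (ce x.1).2 := hG.comp fst
  have hi1 : Primrec fun x : α × ℕ => x.2 := snd
  refine Primrec.and.comp (all' (list_range.comp (hb.comp fst)) (Primrec₂.mk ?_))
    (Primrec.and.comp (chk3' hdec hk1 hl1 hp1 hC1 hi1)
      (Primrec.and.comp (chk4' hdec hs1 hk1 hl1 hp1 hC1 hi1)
        (Primrec.and.comp (chk5' hdec hk1 hl1 hp1 hC1 hG1 hi1)
          (Primrec.and.comp (chk6' hdec hk1 hl1 hp1 hC1 hG1 hi1)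
            (chk7' hdec hk1 hl1 hp1 hC1 hG1 hi1)))))
  refine Primrec.or.comp (nat_le.comp snd (snd.comp fst)).decide ?_
  exact chk2' hdec (hk1.comp fst) (hl1.comp fst) (hp1.comp fst) (hC1.comp fst) (hi1.comp fst) snd

end Vars

end Pool.Agent.QCT.PrimC
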