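import Pool.Agent.QCT.PrimB
import Pool.Agent.QCT.PrimC

/-!
# Project QCT: computability of the instructions, of the symbolic execution, of the check of
strategies, and of the search (P12d)
-/

set_option autoImplicit false

namespace Pool.Agent.QCT.PrimD

open Primrec

/-! ### The search -/

theorem computable_search {α β : Type} [Primcodable α] [Primcodable β] [Inhabited β]
    (V : α → β → Bool) (hV : Primrec₂ V) (D : α → Bool) (hD : Primrec D)
    (hex : ∀ a, D a = true → ∃ b, V a b = true) :
    ∃ f : α → β, Computable f ∧ ∀ a, D a = true → V a (f a) = true := by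
  let F : α → ℕ → Option β := fun a n => bif D a then
    (Encodable.decode (α := β) n).bind (fun b => bif V a b then some b else none) else some default
  have hF : Primrec₂ F := by
    refine Primrec₂.mk (Primrec.cond (hD.comp fst) ?_ (const (some default)))
    refine option_bind (Primrec.decode.comp snd) (Primrec₂.mk ?_)
    exact Primrec.cond (hV.comp (fst.comp fst) snd) (option_some.comp snd) (const none)
  have hP : Partrec fun a => Nat.rfindOpt (F a) := Partrec.rfindOpt hF.to_comp
  have hdom : ∀ a, (Nat.rfindOpt (F a)).Dom := by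
    intro a
    rw [Nat.rfindOpt_dom]
    rcases h : D a with _ | _
    · refine ⟨0, default, ?_⟩
      change F a 0 = some default
      simp only [F, h, cond_false]
    · obtain ⟨b, hb⟩ := hex a h
      refine ⟨Encodable.encode b, b, ?_⟩
      change F a _ = some b
      simp only [F, h, cond_true, Encodable.encodek, Option.bind_some, hb]
  refine ⟨fun a => (Nat.rfindOpt (F a)).get (hdom a), ?_, ?_⟩
  · exact hP.of_eq fun a => (Part.some_get (hdom a)).symm
  · intro a ha
    obtain ⟨n, hn⟩ := Nat.rfindOpt_spec (Part.get_mem (hdom a))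
    change V a ((Nat.rfindOpt (F a)).get (hdom a)) = true
    generalize (Nat.rfindOpt (F a)).get (hdom a) = w at hn ⊢
    have h1 : (bif D a then (Encodable.decode (α := β) n).bind
      (fun b => bif V a b then some b else none) else some default) = some w := hn
    rw [ha, cond_true, Option.bind_eq_some_iff] at h1
    obtain ⟨b, -, hb⟩ := h1
    rcases hv : V a b with _ | _
    · rw [hv] at hb
      simp at hb
    · rw [hv, cond_true, Option.some.injEq] at hb
      rw [← hb]
      exact hv

/-! ### Integers -/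

theorem encode_int (z : ℤ) : Encodable.encode z = Equiv.intEquivNat z := rfl

theorem primrec_natAbs : Primrec Int.natAbs := by
  have h : Primrec fun z : ℤ => (Encodable.encode z + 1) / 2 :=
    nat_div2.comp (nat_add.comp Primrec.encode (const 1)) |>.of_eq fun z => by
      rw [Nat.div2_val]
  refine h.of_eq fun z => ?_
  rw [encode_int]
  cases z with
  | ofNat n => change (2 * n + 1) / 2 = n; omega
  | negSucc n => change (2 * n + 1 + 1) / 2 = n + 1; omega

theorem primrec_nonneg : Primrec fun z : ℤ => decide (0 ≤ z) := by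
  have h : Primrec fun z : ℤ => !(Nat.bodd (Encodable.encode z)) :=
    Primrec.not.comp (nat_bodd.comp Primrec.encode)
  refine h.of_eq fun z => ?_
  rw [encode_int]
  cases z with
  | ofNat n =>
    change (!(Nat.bodd (2 * n))) = decide (0 ≤ Int.ofNat n)
    simp
  | negSucc n =>
    change (!(Nat.bodd (2 * n + 1))) = decide (0 ≤ Int.negSucc n)
    simp

/-! ### Instructions -/

theorem primrec_ins : Primrec₂ Tb.ins := by
  have h : Primrec fun p : Tb × List ℤ => (@List.lookup _ _ instBEqOfDecidableEq p.2 p.1).getD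
      (Sum.inl 0) :=
    option_getD.comp (Primrec.listLookup.comp snd fst) (const (Sum.inl 0))
  refine Primrec₂.mk (h.of_eq fun p => ?_)
  unfold Tb.ins
  rw [lawful_beq_subsingleton (instBEqOfDecidableEq : BEq (List ℤ)) List.instBEq]

variable {α : Type} [Primcodable α]

theorem ins_p {T : α → Tb} {h : α → List ℤ} (hT : Primrec T) (hh : Primrec h) :
    Primrec fun a => (T a).ins (h a) := primrec_ins.comp hT hh

theorem cst_p {z : α → Bool × ℕ} (hz : Primrec z) : Primrec fun a => Pl.cst (z a) := by
  unfold Pl.cst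
  exact list_map (list_range.comp (snd.comp hz)) (Primrec₂.mk (pair (fst.comp (hz.comp fst))
    (const [])))

theorem mul_p {f g : α → Pl} (hf : Primrec f) (hg : Primrec g) :
    Primrec fun a => Pl.mul (f a) (g a) := by
  unfold Pl.mul
  refine list_flatMap hf (Primrec₂.mk ?_)
  refine list_map (hg.comp fst) (Primrec₂.mk (pair ?_ ?_))
  · exact Primrec.beq.comp (fst.comp (snd.comp fst)) (fst.comp snd)
  · exact list_append.comp (snd.comp (snd.comp fst)) (snd.comp snd)

theorem cstZ_p {z : α → ℤ} (hz : Primrec z) : Primrec fun a => cstZ (z a) :=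
  cst_p (pair (primrec_nonneg.comp hz) (primrec_natAbs.comp hz))

theorem opP_p {r : α → List Pl} {u : α → Opd} (hr : Primrec r) (hu : Primrec u) :
    Primrec fun a => opP (r a) (u a) := by
  have h : Primrec fun a => (Sum.casesOn (u a) (fun i => (r a).getD i []) (fun z => cstZ z) : Pl) :=
    sumCasesOn hu (Primrec₂.mk ((list_getD []).comp (hr.comp fst) snd))
      (Primrec₂.mk (cstZ_p snd))
  refine h.of_eq fun a => ?_
  unfold opP
  cases u a <;> rfl

theorem resP_p {r : α → List Pl} {o : α → Fin 4} {u v : α → Opd} (hr : Primrec r)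
    (ho : Primrec o) (hu : Primrec u) (hv : Primrec v) :
    Primrec fun a => resP (r a) (o a) (u a) (v a) := by
  unfold resP
  have h1 := opP_p hr hu
  have h2 := opP_p hr hv
  exact Primrec.ite (Primrec.eq.comp ho (const 0)) (PrimC.padd h1 h2)
    (Primrec.ite (Primrec.eq.comp ho (const 1)) (PrimC.padd h1 (PrimC.pneg h2)) (mul_p h1 h2))

/-- The last part of `nxt`. -/
def nxa (st : Sst) (c : Fin 4 × Opd × Opd) : List Sst :=
  if c.1 = 3 then ([-1, 0, 1] : List SignType).map fun s =>
      (st.1, st.2.1 ++ [zs s], st.2.2 ++ [(opP st.1 c.2.1, s)])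
    else [(st.1 ++ [resP st.1 c.1 c.2.1 c.2.2], st.2.1 ++ [0], st.2.2)]

theorem nxa_p : Primrec₂ nxa := by
  unfold nxa
  refine Primrec₂.mk (Primrec.ite (Primrec.eq.comp (fst.comp snd) (const 3)) ?_ ?_)
  · refine list_map (const _) (Primrec₂.mk ?_)
    have h1 : Primrec fun x : (Sst × (Fin 4 × Opd × Opd)) × SignType => x.1.1 := fst.comp fst
    refine pair (fst.comp h1) (pair ?_ ?_)
    · refine list_append.comp (fst.comp (snd.comp h1)) (PrimC.sing ?_)
      exact (Primrec.dom_finite zs).comp snd
    · refine list_append.comp (snd.comp (snd.comp h1)) (PrimC.sing (pair ?_ snd))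
      exact opP_p (fst.comp h1) (fst.comp (snd.comp (snd.comp fst)))
  · have h1 : Primrec fun x : Sst × (Fin 4 × Opd × Opd) => x.1 := fst
    have h2 : Primrec fun x : Sst × (Fin 4 × Opd × Opd) => x.2 := snd
    refine PrimC.sing (pair ?_ (pair ?_ (snd.comp (snd.comp h1))))
    · exact list_append.comp (fst.comp h1) (PrimC.sing (resP_p (fst.comp h1) (fst.comp h2)
        (fst.comp (snd.comp h2)) (snd.comp (snd.comp h2))))
    · exact list_append.comp (fst.comp (snd.comp h1)) (const [0])

theorem nxt_p {T : α → Tb} {st : α → Sst} (hT : Primrec T) (hst : Primrec st) :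
    Primrec fun a => nxt (T a) (st a) := by
  have h : Primrec fun a => (Sum.casesOn ((T a).ins (st a).2.1) (fun _ => [st a])
      (fun c => nxa (st a) c) : List Sst) :=
    sumCasesOn (ins_p hT (fst.comp (snd.comp hst))) (Primrec₂.mk (PrimC.sing (hst.comp fst)))
      (Primrec₂.mk (nxa_p.comp (hst.comp fst) snd))
  refine h.of_eq fun a => ?_
  unfold nxt nxa
  rcases (T a).ins (st a).2.1 with b | ⟨o, u, v⟩ <;> rfl

theorem fin_p {T : α → Tb} {D N : α → ℕ} (hT : Primrec T) (hD : Primrec D) (hN : Primrec N) :
    Primrec fun a => fin (T a) (D a) (N a) := by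
  unfold fin
  refine nat_iterate (h := fun a (L : List Sst) => L.flatMap (nxt (T a))) hD ?_ (Primrec₂.mk ?_)
  · exact PrimC.sing (pair (list_map (list_range.comp hN) (Primrec₂.mk (PrimC.pvar snd)))
      (const ([], [])))
  · exact list_flatMap snd (Primrec₂.mk (nxt_p (hT.comp (fst.comp fst)) snd))

theorem pow_p : Primrec₂ fun m n : ℕ => m ^ n := by
  have h : Primrec fun p : ℕ × ℕ => (fun t => t * p.1)^[p.2] 1 :=
    nat_iterate (h := fun (p : ℕ × ℕ) (t : ℕ) => t * p.1) snd (const 1)
      (Primrec₂.mk (nat_mul.comp snd (fst.comp fst)))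
  refine Primrec₂.mk (h.of_eq fun p => ?_)
  rcases p with ⟨m, n⟩
  induction n with
  | zero => rfl
  | succ n ih =>
    simp only at ih ⊢
    rw [Function.iterate_succ_apply', ih, pow_succ]

theorem primrec_VV (C : ℕ) : Primrec₂ fun (a : Bool × ℕ × ℕ)
    (c : Tb × List (List Mat × List Mat)) => VV C a.1 a.2.1 a.2.2 c.1 c.2 := by
  have hdec : Primrec₂ decideQ := Primrec₂.mk (PrimB.decideQ_p fst snd)
  refine Primrec₂.mk ?_
  unfold VV
  have hs : Primrec fun x : (Bool × ℕ × ℕ) × Tb × List (List Mat × List Mat) => x.1.1 :=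
    fst.comp fst
  have hk : Primrec fun x : (Bool × ℕ × ℕ) × Tb × List (List Mat × List Mat) => x.1.2.1 :=
    fst.comp (snd.comp fst)
  have hl : Primrec fun x : (Bool × ℕ × ℕ) × Tb × List (List Mat × List Mat) => x.1.2.2 :=
    snd.comp (snd.comp fst)
  have hT : Primrec fun x : (Bool × ℕ × ℕ) × Tb × List (List Mat × List Mat) => x.2.1 :=
    fst.comp snd
  have hc : Primrec fun x : (Bool × ℕ × ℕ) × Tb × List (List Mat × List Mat) => x.2.2 :=
    snd.comp snd
  have hf := fin_p hT (pow_p.comp hk (nat_mul.comp (const C) hl)) (PrimC.nn' hk hl)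
  refine PrimC.all' hf (Primrec₂.mk ?_)
  have h : Primrec fun x : ((Bool × ℕ × ℕ) × Tb × List (List Mat × List Mat)) × Sst =>
      (Sum.casesOn (x.1.2.1.ins x.2.2.1)
        (fun b => chk x.1.1.1 x.1.1.2.1 x.1.1.2.2 x.2.2.2 b (x.1.2.2.getD b ([], [])))
        (fun _ => false) : Bool) := by
    refine sumCasesOn (ins_p (hT.comp fst) (fst.comp (snd.comp snd))) (Primrec₂.mk ?_)
      (Primrec₂.mk (const false))
    have h1 : Primrec fun y : (((Bool × ℕ × ℕ) × Tb × List (List Mat × List Mat)) × Sst) × ℕ =>
      y.1.1 := fst.comp fst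
    exact PrimC.chk' hdec (hs.comp h1) (hk.comp h1) (hl.comp h1)
      (snd.comp (snd.comp (snd.comp fst))) snd ((list_getD ([], [])).comp (hc.comp h1) snd)
  refine h.of_eq fun x => ?_
  rcases x.1.2.1.ins x.2.2.1 with b | c <;> rfl

end Pool.Agent.QCT.PrimD
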