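import Pool.Agent.QCT.StubA

/-!
# Project QCT, P8a: soundness of certificates over real closed fields
-/

namespace Pool.Agent.QCT.Sound

open Polynomial

universe u

/-! ## Matrices -/

section Alg

variable {A B : Type*} [CommRing A] [CommRing B]

theorem map_ev (φ : A →+* B) (x : ℕ → A) (p : Pl) : φ (p.ev x) = p.ev fun v => φ (x v) := by
  unfold Pl.ev
  rw [map_list_sum, List.map_map]
  congr 1
  apply List.map_congr_left
  intro c _
  simp only [Function.comp]
  rw [map_mul, map_list_prod, List.map_map]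
  congr 1
  split_ifs <;> simp

end Alg

section Sem

variable {R : Type*} [CommRing R] [LinearOrder R]

theorem asat_append (x : ℕ → R) (c d : Asg) :
    Asg.sat x (c ++ d) ↔ Asg.sat x c ∧ Asg.sat x d := by
  simp [Asg.sat, or_imp, forall_and]

theorem asat_nil (x : ℕ → R) : Asg.sat x [] := by simp [Asg.sat]

theorem asat_cons (x : ℕ → R) (a : Pl × SignType) (c : Asg) :
    Asg.sat x (a :: c) ↔ SignType.sign (a.1.ev x) = a.2 ∧ Asg.sat x c := by
  simp [Asg.sat]

theorem sat_nil (x : ℕ → R) : ¬ Mat.sat x [] := by simp [Mat.sat]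

theorem sat_cons (x : ℕ → R) (c : Asg) (M : Mat) :
    Mat.sat x (c :: M) ↔ Asg.sat x c ∨ Mat.sat x M := by
  simp [Mat.sat]

theorem sat_and (x : ℕ → R) (M M' : Mat) : (M.and M').sat x ↔ M.sat x ∧ M'.sat x := by
  constructor
  · rintro ⟨e, he, h⟩
    obtain ⟨c, hc, h1⟩ := List.mem_flatMap.1 he
    obtain ⟨d, hd, rfl⟩ := List.mem_map.1 h1
    rw [asat_append] at h
    exact ⟨⟨c, hc, h.1⟩, ⟨d, hd, h.2⟩⟩
  · rintro ⟨⟨c, hc, h⟩, ⟨d, hd, h'⟩⟩
    exact ⟨c ++ d, List.mem_flatMap.2 ⟨c, hc, List.mem_map.2 ⟨d, hd, rfl⟩⟩,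
      (asat_append x c d).2 ⟨h, h'⟩⟩

theorem sat_or (x : ℕ → R) (M M' : Mat) : (M.or M').sat x ↔ M.sat x ∨ M'.sat x := by
  simp [Mat.or, Mat.sat, or_and_right, exists_or]

theorem mem_nts (s t : SignType) : t ∈ nts s ↔ t ≠ s := by
  unfold nts
  rw [List.mem_filter]
  rcases t with _ | _ | _ <;> simp

theorem sat_not (x : ℕ → R) (M : Mat) : M.not.sat x ↔ ¬ M.sat x := by
  induction M with
  | nil =>
    refine iff_of_true ⟨[], by simp [Mat.not], asat_nil x⟩ (sat_nil x)
  | cons c M ih =>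
    have h : Mat.not (c :: M) =
        Mat.and (c.flatMap fun a => (nts a.2).map fun s => [(a.1, s)]) (Mat.not M) := rfl
    rw [h, sat_and, ih, sat_cons, not_or]
    refine and_congr_left fun _ => ?_
    constructor
    · rintro ⟨e, he, h1⟩ h2
      obtain ⟨a, ha, h3⟩ := List.mem_flatMap.1 he
      obtain ⟨s, hs, rfl⟩ := List.mem_map.1 h3
      rw [mem_nts] at hs
      exact hs ((((asat_cons x _ _).1 h1).1).symm.trans (h2 a ha))
    · intro h1
      unfold Asg.sat at h1
      push Not at h1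
      obtain ⟨a, ha, h2⟩ := h1
      refine ⟨[(a.1, SignType.sign (a.1.ev x))], List.mem_flatMap.2 ⟨a, ha, List.mem_map.2
        ⟨_, (mem_nts _ _).2 h2, rfl⟩⟩, ?_⟩
      rw [asat_cons]
      exact ⟨rfl, asat_nil x⟩

theorem sat_ren (x : ℕ → R) (ρ : ℕ → ℕ) (M : Mat) :
    (M.ren ρ).sat x ↔ M.sat fun v => x (ρ v) := by
  simp only [Mat.ren, Mat.sat, Asg.sat, List.mem_map, exists_exists_and_eq_and,
    forall_exists_index, and_imp, forall_apply_eq_imp_iff₂, Ops.ev_ren]

end Sem

/-! ## Definable predicates with parameters -/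

/-- Assignments: constants and coordinates. -/
def ass {R : Type u} {ι : Type*} (f : ℕ → R ⊕ ι) (y : ι → R) (v : ℕ) : R := Sum.elim id y (f v)

/-- Merging of two families of parameters. -/
def mrg {α : Type*} (f g : ℕ → α) (v : ℕ) : α := if v % 2 = 0 then f (v / 2) else g (v / 2)

theorem mrg_even {α : Type*} (f g : ℕ → α) (v : ℕ) : mrg f g (2 * v) = f v := by
  simp [mrg]

theorem mrg_odd {α : Type*} (f g : ℕ → α) (v : ℕ) : mrg f g (2 * v + 1) = g v := by
  have h : (2 * v + 1) / 2 = v := by omega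
  simp [mrg, h]

theorem ass_even {R : Type u} {ι : Type*} (f g : ℕ → R ⊕ ι) (y : ι → R) :
    (fun v => ass (mrg f g) y (2 * v)) = ass f y := by
  funext v
  simp only [ass, mrg_even]

theorem ass_odd {R : Type u} {ι : Type*} (f g : ℕ → R ⊕ ι) (y : ι → R) :
    (fun v => ass (mrg f g) y (2 * v + 1)) = ass g y := by
  funext v
  simp only [ass, mrg_odd]

/-- Polynomial functions. -/
def PF {R : Type u} [CommRing R] {ι : Type*} (g : (ι → R) → R) : Prop :=
  ∃ (p : Pl) (f : ℕ → R ⊕ ι), ∀ y, g y = p.ev (ass f y)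

/-- Predicates defined by matrices with parameters. -/
def Dfb {R : Type u} [CommRing R] [LinearOrder R] {ι : Type*} (Q : (ι → R) → Prop) : Prop :=
  ∃ (M : Mat) (f : ℕ → R ⊕ ι), ∀ y, Q y ↔ M.sat (ass f y)

section PF

variable {R : Type u} [CommRing R] {ι : Type*}

theorem PF.add {g g' : (ι → R) → R} (h : PF g) (h' : PF g') : PF fun y => g y + g' y := by
  obtain ⟨p, f, h⟩ := h
  obtain ⟨p', f', h'⟩ := h'
  refine ⟨(p.ren (2 * ·)).add (p'.ren (2 * · + 1)), mrg f f', fun y => ?_⟩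
  simp only
  rw [Ops.ev_add, Ops.ev_ren, Ops.ev_ren, ass_even, ass_odd, h, h']

theorem PF.mul {g g' : (ι → R) → R} (h : PF g) (h' : PF g') : PF fun y => g y * g' y := by
  obtain ⟨p, f, h⟩ := h
  obtain ⟨p', f', h'⟩ := h'
  refine ⟨(p.ren (2 * ·)).mul (p'.ren (2 * · + 1)), mrg f f', fun y => ?_⟩
  simp only
  rw [Ops.ev_mul, Ops.ev_ren, Ops.ev_ren, ass_even, ass_odd, h, h']

theorem PF.const (c : R) : PF fun _ : ι → R => c :=
  ⟨Pl.var 0, fun _ => Sum.inl c, fun y => by rw [Ops.ev_var]; rfl⟩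

theorem PF.coord (i : ι) : PF fun y : ι → R => y i :=
  ⟨Pl.var 0, fun _ => Sum.inr i, fun y => by rw [Ops.ev_var]; rfl⟩

theorem PF.mv {κ : Type*} (g : κ → ι) (p : MvPolynomial κ R) :
    PF fun y : ι → R => MvPolynomial.eval (fun i => y (g i)) p := by
  induction p using MvPolynomial.induction_on with
  | C a => simpa using PF.const a
  | add p q hp hq => simpa using hp.add hq
  | mul_X p i hp => simpa using hp.mul (PF.coord (g i))

end PF

section Dfb0

variable {R : Type u} [CommRing R] [LinearOrder R] {ι : Type*}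

theorem Dfb.and {P Q : (ι → R) → Prop} (hP : Dfb P) (hQ : Dfb Q) :
    Dfb fun y => P y ∧ Q y := by
  obtain ⟨M, f, hM⟩ := hP
  obtain ⟨M', g, hM'⟩ := hQ
  refine ⟨(M.ren (2 * ·)).and (M'.ren (2 * · + 1)), mrg f g, fun y => ?_⟩
  simp only
  rw [sat_and, sat_ren, sat_ren, ass_even, ass_odd, hM, hM']

theorem Dfb.or {P Q : (ι → R) → Prop} (hP : Dfb P) (hQ : Dfb Q) :
    Dfb fun y => P y ∨ Q y := by
  obtain ⟨M, f, hM⟩ := hP
  obtain ⟨M', g, hM'⟩ := hQ
  refine ⟨(M.ren (2 * ·)).or (M'.ren (2 * · + 1)), mrg f g, fun y => ?_⟩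
  simp only
  rw [sat_or, sat_ren, sat_ren, ass_even, ass_odd, hM, hM']

theorem Dfb.not {P : (ι → R) → Prop} (hP : Dfb P) : Dfb fun y => ¬ P y := by
  obtain ⟨M, f, hM⟩ := hP
  exact ⟨M.not, f, fun y => by simp only; rw [sat_not, hM]⟩

theorem PF.pos {g : (ι → R) → R} (h : PF g) : Dfb fun y => 0 < g y := by
  obtain ⟨p, f, h⟩ := h
  refine ⟨at1 p 1, f, fun y => ?_⟩
  simp only
  rw [h, at1, sat_cons, or_iff_left (sat_nil _), asat_cons, and_iff_left (asat_nil _)]
  exact sign_eq_one_iff.symm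

end Dfb0

section Dfb1

variable {R : Type u} [Field R] [LinearOrder R] {ι : Type*}

theorem Dfb.sa {k : ℕ} (g : Fin k → ι) {U : Set (Fin k → R)} (hU : SA U) :
    Dfb fun y : ι → R => (fun i => y (g i)) ∈ U := by
  induction hU with
  | pos p => exact (PF.mv g p).pos
  | compl _ ih => exact ih.not
  | union _ _ ih ih' => exact ih.or ih'

end Dfb1

variable {R : Type u} [Field R] [LinearOrder R] [IsStrictOrderedRing R]

section Dfb

variable {ι : Type*}

theorem Dfb.ex [RCF R] [DecidableEq ι] {Q : (ι → R) → Prop} (h : Dfb Q) (j : ι) :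
    Dfb fun y => ∃ a, Q (Function.update y j a) := by
  classical
  obtain ⟨M, f, hM⟩ := h
  refine ⟨qe true 0 (M.ren fun v => if f v = Sum.inr j then 0 else v + 1),
    fun v => if v = 0 then Sum.inl 0 else f (v - 1), fun y => ?_⟩
  rw [qe_iff, if_pos rfl]
  refine exists_congr fun a => ?_
  rw [hM, sat_ren]
  refine iff_of_eq (congrArg (fun z => Mat.sat z M) ?_)
  funext v
  by_cases hv : f v = Sum.inr j
  · simp [ass, hv]
  · rw [if_neg hv, Function.update_of_ne (Nat.succ_ne_zero v)]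
    have h0 : (if v + 1 = 0 then (Sum.inl 0 : R ⊕ ι) else f (v + 1 - 1)) = f v := by simp
    unfold ass
    simp only
    rw [h0]
    rcases h : f v with c | i
    · rfl
    · have hij : i ≠ j := by
        rintro rfl
        exact hv h
      simp [Function.update_of_ne hij]

theorem Dfb.exs [RCF R] [DecidableEq ι] {Q : (ι → R) → Prop} (h : Dfb Q) (s : Finset ι) :
    Dfb fun y => ∃ z, (∀ j ∉ s, z j = y j) ∧ Q z := by
  induction s using Finset.induction_on with
  | empty =>
    obtain ⟨M, f, hM⟩ := h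
    refine ⟨M, f, fun y => ?_⟩
    rw [← hM]
    constructor
    · rintro ⟨z, hz, h⟩
      have : z = y := funext fun j => hz j (Finset.notMem_empty j)
      rwa [← this]
    · exact fun h => ⟨y, fun _ _ => rfl, h⟩
  | insert j s hj ih =>
    obtain ⟨M, f, hM⟩ := ih.ex j
    refine ⟨M, f, fun y => ?_⟩
    rw [← hM]
    constructor
    · rintro ⟨z, hz, h⟩
      refine ⟨z j, z, fun i hi => ?_, h⟩
      by_cases hij : i = j
      · rw [hij, Function.update_self]
      · rw [Function.update_of_ne hij]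
        exact hz i (by simp [hij, hi])
    · rintro ⟨a, z, hz, h⟩
      refine ⟨z, fun i hi => ?_, h⟩
      rw [Finset.mem_insert, not_or] at hi
      rw [hz i hi.2, Function.update_of_ne hi.1]

/-- A definable predicate of one variable is constant off a finite set. -/
theorem Dfb.one [RCF R] {Q : (ι → R) → Prop} (h : Dfb Q) :
    ∃ Z : Finset R, ∀ a b, (∀ c, a < c → c < b → c ∉ Z) →
      ∀ c d, a < c → c < b → a < d → d < b → (Q (fun _ => c) ↔ Q fun _ => d) := by
  classical
  obtain ⟨M, f, hM⟩ := h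
  let q : Pl → R[X] := fun p => p.ev fun v => Sum.elim C (fun _ => X) (f v)
  have hq : ∀ (p : Pl) (a : R), (q p).eval a = p.ev (ass f fun _ => a) := by
    intro p a
    have := map_ev (evalRingHom a) (fun v => Sum.elim C (fun _ => X) (f v)) p
    rw [coe_evalRingHom] at this
    refine this.trans (congrArg (fun z => Pl.ev z p) ?_)
    funext v
    simp only [ass]
    rcases f v with c | i <;> simp
  refine ⟨(Mat.pls M).toFinset.biUnion fun p => (q p).roots.toFinset, ?_⟩
  intro a b hZ c d hc hc' hd hd'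
  have key : ∀ p ∈ M.pls, SignType.sign (p.ev (ass f fun _ => c)) =
      SignType.sign (p.ev (ass f fun _ => d)) := by
    intro p hp
    rw [← hq, ← hq]
    by_cases h0 : q p = 0
    · rw [h0]
      simp
    · refine RCF.sign_eq (Set.ordConnected_Ioo (a := a) (b := b)) ?_ ⟨hc, hc'⟩ ⟨hd, hd'⟩
      intro e he h1
      refine hZ e he.1 he.2 ?_
      rw [Finset.mem_biUnion]
      exact ⟨p, List.mem_toFinset.2 hp, by
        rw [Multiset.mem_toFinset, mem_roots h0]
        exact h1⟩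
  rw [hM, hM]
  unfold Mat.sat Asg.sat
  refine exists_congr fun cl => and_congr_right fun hcl => ?_
  refine forall₂_congr fun e he => ?_
  rw [key e.1 (List.mem_flatMap.2 ⟨cl, hcl, List.mem_map.2 ⟨e, he, rfl⟩⟩)]

end Dfb

/-- A locally constant predicate on `[0, 1]` which is constant off a finite set is constant. -/
theorem const_of_loc {χ : R → Prop} (Z : Finset R)
    (hZ : ∀ a b, (∀ c, a < c → c < b → c ∉ Z) →
      ∀ c d, a < c → c < b → a < d → d < b → (χ c ↔ χ d))
    (hl : ∀ a, 0 ≤ a → a ≤ 1 → ∃ ε > 0, ∀ c, 0 ≤ c → c ≤ 1 → |c - a| < ε → (χ c ↔ χ a)) :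
    χ 0 ↔ χ 1 := by
  have step : ∀ a b, 0 ≤ a → a < b → b ≤ 1 → (∀ c, a < c → c < b → c ∉ Z) → (χ a ↔ χ b) := by
    intro a b ha hab hb hc
    obtain ⟨ε, hε, h1⟩ := hl a ha (hab.le.trans hb)
    obtain ⟨δ, hδ, h2⟩ := hl b (ha.trans hab.le) hb
    have e1 : 0 < min (ε / 2) ((b - a) / 2) := lt_min (by linarith) (by linarith)
    have e2 := min_le_left (ε / 2) ((b - a) / 2)
    have e3 := min_le_right (ε / 2) ((b - a) / 2)
    have d1 : 0 < min (δ / 2) ((b - a) / 2) := lt_min (by linarith) (by linarith)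
    have d2 := min_le_left (δ / 2) ((b - a) / 2)
    have d3 := min_le_right (δ / 2) ((b - a) / 2)
    set e := min (ε / 2) ((b - a) / 2)
    set d := min (δ / 2) ((b - a) / 2)
    have h3 := h1 (a + e) (by linarith) (by linarith)
      (by rw [add_sub_cancel_left, abs_of_pos e1]; linarith)
    have h4 := h2 (b - d) (by linarith) (by linarith) (by
      have : b - d - b = -d := by ring
      rw [this, abs_neg, abs_of_pos d1]
      linarith)
    exact h3.symm.trans ((hZ a b hc (a + e) (b - d) (by linarith) (by linarith) (by linarith)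
      (by linarith)).trans h4)
  have main : ∀ n : ℕ, ∀ b, 0 ≤ b → b ≤ 1 → (Z.filter fun z => 0 < z ∧ z < b).card ≤ n →
      (χ 0 ↔ χ b) := by
    intro n
    induction n with
    | zero =>
      intro b hb hb1 hn
      rcases hb.eq_or_lt with rfl | hb
      · rfl
      have h0 : (Z.filter fun z => 0 < z ∧ z < b) = ∅ := Finset.card_eq_zero.1 (by omega)
      refine step 0 b le_rfl hb hb1 fun c hc hc' hcZ => ?_
      have : c ∈ (Z.filter fun z => 0 < z ∧ z < b) := Finset.mem_filter.2 ⟨hcZ, hc, hc'⟩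
      rw [h0] at this
      exact Finset.notMem_empty _ this
    | succ n ih =>
      intro b hb hb1 hn
      rcases hb.eq_or_lt with rfl | hb
      · rfl
      rcases (Z.filter fun z => 0 < z ∧ z < b).eq_empty_or_nonempty with h0 | h0
      · refine step 0 b le_rfl hb hb1 fun c hc hc' hcZ => ?_
        have : c ∈ (Z.filter fun z => 0 < z ∧ z < b) := Finset.mem_filter.2 ⟨hcZ, hc, hc'⟩
        rw [h0] at this
        exact Finset.notMem_empty _ this
      · obtain ⟨z, hz, hmax⟩ := Finset.exists_max_image _ id h0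
        have hz' := (Finset.mem_filter.1 hz).2
        refine (ih z hz'.1.le (hz'.2.le.trans hb1) ?_).trans
          (step z b hz'.1.le hz'.2 hb1 fun c hc hc' hcZ => ?_)
        · have hlt : (Z.filter fun w => 0 < w ∧ w < z).card <
              (Z.filter fun w => 0 < w ∧ w < b).card := by
            refine Finset.card_lt_card ⟨fun w hw => ?_, fun hs => ?_⟩
            · rw [Finset.mem_filter] at hw ⊢
              exact ⟨hw.1, hw.2.1, hw.2.2.trans hz'.2⟩
            · have := hs hz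
              rw [Finset.mem_filter] at this
              exact lt_irrefl _ this.2.2
          omega
        · have := hmax c (Finset.mem_filter.2 ⟨hcZ, hz'.1.trans hc, hc'⟩)
          exact absurd hc (not_lt.2 this)
  exact main _ 1 zero_le_one le_rfl le_rfl

/-! ## Semialgebraic sets -/

section SA

variable {k : ℕ}

omit [IsStrictOrderedRing R] in
theorem sa_empty : SA (∅ : Set (Fin k → R)) := by
  have h : {y : Fin k → R | 0 < MvPolynomial.eval y (0 : MvPolynomial (Fin k) R)} = ∅ := by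
    ext y
    simp
  rw [← h]
  exact SA.pos 0

omit [IsStrictOrderedRing R] in
theorem sa_univ : SA (Set.univ : Set (Fin k → R)) := by
  rw [← Set.compl_empty]
  exact sa_empty.compl

omit [IsStrictOrderedRing R] in
theorem sa_inter {S T : Set (Fin k → R)} (hS : SA S) (hT : SA T) : SA (S ∩ T) := by
  rw [← compl_compl (S ∩ T), Set.compl_inter]
  exact (hS.compl.union hT.compl).compl

theorem sa_sign (p : MvPolynomial (Fin k) R) (s : SignType) :
    SA {y : Fin k → R | SignType.sign (MvPolynomial.eval y p) = s} := by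
  have h1 : {y : Fin k → R | SignType.sign (MvPolynomial.eval y p) = 1} =
      {y | 0 < MvPolynomial.eval y p} := by
    ext y
    exact sign_eq_one_iff
  have h2 : {y : Fin k → R | SignType.sign (MvPolynomial.eval y p) = -1} =
      {y | 0 < MvPolynomial.eval y (-p)} := by
    ext y
    rw [Set.mem_ofPred_eq, Set.mem_ofPred_eq, sign_eq_neg_one_iff, map_neg, neg_pos]
  rcases s with _ | _ | _
  · have h3 : {y : Fin k → R | SignType.sign (MvPolynomial.eval y p) = SignType.zero} =
        ({y | 0 < MvPolynomial.eval y p} ∪ {y | 0 < MvPolynomial.eval y (-p)})ᶜ := by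
      ext y
      rw [Set.mem_ofPred_eq, Set.mem_compl_iff, Set.mem_union, not_or, Set.mem_ofPred_eq,
        Set.mem_ofPred_eq, map_neg, neg_pos, not_lt, not_lt]
      exact sign_eq_zero_iff.trans le_antisymm_iff
    rw [h3]
    exact ((SA.pos p).union (SA.pos (-p))).compl
  · change SA {y : Fin k → R | SignType.sign (MvPolynomial.eval y p) = -1}
    rw [h2]
    exact SA.pos _
  · change SA {y : Fin k → R | SignType.sign (MvPolynomial.eval y p) = 1}
    rw [h1]
    exact SA.pos _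

/-- The polynomial of a variable, for one block. -/
noncomputable def vp (N : ℕ) (x : ℕ → R) (v : ℕ) : MvPolynomial (Fin k) R :=
  if v < N then MvPolynomial.C (x v) else
    if (v - N) / k = 0 then
      (if h : (v - N) % k < k then MvPolynomial.X ⟨(v - N) % k, h⟩ else 0) else 0

omit [LinearOrder R] [IsStrictOrderedRing R] in
theorem eval_vp (N : ℕ) (x : ℕ → R) (v : ℕ) (y : Fin k → R) :
    MvPolynomial.eval y (vp N x v) = asn N x [y] v := by
  unfold vp asn exv
  split_ifs with h1 h2 h3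
  · simp
  · simp [h2]
  · simp
  · obtain ⟨n, hn⟩ := Nat.exists_eq_succ_of_ne_zero h2
    simp [hn]
  · simp

theorem sa_mat (N : ℕ) (x : ℕ → R) (M : Mat) : SA {y : Fin k → R | M.sat (asn N x [y])} := by
  have hp : ∀ (p : Pl) (y : Fin k → R),
      MvPolynomial.eval y (p.ev (vp N x)) = p.ev (asn N x [y]) := by
    intro p y
    rw [map_ev]
    refine congrArg (fun z => Pl.ev z p) ?_
    funext v
    exact eval_vp N x v y
  have hc : ∀ c : Asg, SA {y : Fin k → R | Asg.sat (asn N x [y]) c} := by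
    intro c
    induction c with
    | nil =>
      have : {y : Fin k → R | Asg.sat (asn N x [y]) []} = Set.univ := by
        ext y
        simp [asat_nil]
      rw [this]
      exact sa_univ
    | cons a c ih =>
      have : {y : Fin k → R | Asg.sat (asn N x [y]) (a :: c)} =
          {y | SignType.sign (MvPolynomial.eval y (a.1.ev (vp N x))) = a.2} ∩
            {y : Fin k → R | Asg.sat (asn N x [y]) c} := by
        ext y
        rw [Set.mem_ofPred_eq, asat_cons, Set.mem_inter_iff, Set.mem_ofPred_eq, hp]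
        rfl
      rw [this]
      exact sa_inter (sa_sign _ _) ih
  induction M with
  | nil =>
    have : {y : Fin k → R | Mat.sat (asn N x [y]) []} = ∅ := by
      ext y
      simp [sat_nil]
    rw [this]
    exact sa_empty
  | cons c M ih =>
    have : {y : Fin k → R | Mat.sat (asn N x [y]) (c :: M)} =
        {y : Fin k → R | Asg.sat (asn N x [y]) c} ∪ {y : Fin k → R | Mat.sat (asn N x [y]) M} := by
      ext y
      rw [Set.mem_ofPred_eq, sat_cons]
      rfl
    rw [this]
    exact (hc c).union ih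

theorem dist2_lt {y z : Fin k → R} {ε δ : R} (hδ1 : δ ≤ 1) (hδ : (k + 1) * δ ≤ ε)
    (hδ0 : 0 < δ) (h : ∀ i, |z i - y i| < δ) : dist2 y z < ε := by
  have h1 : ∀ i ∈ Finset.univ, (y i - z i) ^ 2 ≤ δ := by
    intro i _
    have h2 := h i
    rw [abs_sub_comm] at h2
    have h3 : (y i - z i) ^ 2 = |y i - z i| * |y i - z i| := by rw [← sq, sq_abs]
    rw [h3]
    have h4 := abs_nonneg (y i - z i)
    nlinarith
  calc dist2 y z ≤ ∑ _i : Fin k, δ := Finset.sum_le_sum h1
    _ = k * δ := by simp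
    _ < (k + 1) * δ := by linarith
    _ ≤ ε := hδ

theorem openIn_of {S C : Set (Fin k → R)}
    (h : ∀ y ∈ C, ∃ ε > 0, ∀ y' : Fin k → R, dist2 y y' < ε → y' ∈ S → y' ∈ C) :
    OpenIn S C := by
  intro y hy
  obtain ⟨ε, hε, h1⟩ := h y hy
  have hk : (0 : R) < (k : R) + 1 := by positivity
  refine ⟨min 1 (ε / (k + 1)), lt_min one_pos (div_pos hε hk), fun z hz hyz => ?_⟩
  refine h1 z (dist2_lt (min_le_left _ _) ?_ (lt_min one_pos (div_pos hε hk)) hyz) hz
  calc ((k : R) + 1) * min 1 (ε / (k + 1)) ≤ (k + 1) * (ε / (k + 1)) :=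
        mul_le_mul_of_nonneg_left (min_le_right _ _) hk.le
    _ = ε := by field_simp

theorem abs_lt_of_dist2 {y z : Fin k → R} {ε : R} (hε : 0 < ε) (h : dist2 y z < ε ^ 2)
    (i : Fin k) : |z i - y i| < ε := by
  have h1 : (y i - z i) ^ 2 ≤ dist2 y z :=
    Finset.single_le_sum (f := fun i => (y i - z i) ^ 2) (fun j _ => sq_nonneg _)
      (Finset.mem_univ i)
  refine abs_lt_of_sq_lt_sq ?_ hε.le
  have h2 : (z i - y i) ^ 2 = (y i - z i) ^ 2 := by ring
  rw [h2]
  exact h1.trans_lt h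

theorem eq_of_dist2 {y z : Fin k → R} (h : ∀ ε > 0, dist2 y z < ε) : y = z := by
  by_contra hne
  obtain ⟨i, hi⟩ := Function.ne_iff.1 hne
  have h1 : 0 < |y i - z i| := abs_pos.2 (sub_ne_zero.2 hi)
  have h2 := abs_lt_of_dist2 h1 (h _ (pow_pos h1 2)) i
  rw [abs_sub_comm] at h2
  exact lt_irrefl _ h2

end SA

/-! ## Paths -/

section Path

variable {k : ℕ}

/-- The block of a parameter. -/
def tv (k : ℕ) (a : R) : Fin k → R := fun j => if (j : ℕ) = 0 then a else 0

omit [LinearOrder R] [IsStrictOrderedRing R] in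
theorem exv_tv (hk : 1 ≤ k) (a : R) : exv (tv k a) 0 = a := by
  unfold exv tv
  rw [dif_pos (by omega)]
  simp

/-- The variables of a graph between two fixed points. -/
def gf (N : ℕ) (x : ℕ → R) (u v : Fin k → R) (w : ℕ) : R ⊕ Option (Fin k) :=
  if w < N then Sum.inl (x w) else
    match (w - N) / k with
    | 0 => Sum.inl (exv u ((w - N) % k))
    | 1 => Sum.inl (exv v ((w - N) % k))
    | 2 => if (w - N) % k = 0 then Sum.inr none else Sum.inl 0
    | 3 => if h : (w - N) % k < k then Sum.inr (some ⟨(w - N) % k, h⟩) else Sum.inl 0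
    | _ => Sum.inl 0

omit [LinearOrder R] [IsStrictOrderedRing R] in
theorem ass_gf (hk : 1 ≤ k) (N : ℕ) (x : ℕ → R) (u v : Fin k → R) (y : Option (Fin k) → R)
    (w : ℕ) : asn N x [u, v, tv k (y none), fun r => y (some r)] w = ass (gf N x u v) y w := by
  unfold asn ass gf
  by_cases h1 : w < N
  · rw [if_pos h1, if_pos h1]
    rfl
  rw [if_neg h1, if_neg h1]
  have hmod : (w - N) % k < k := Nat.mod_lt _ hk
  generalize (w - N) % k = r at hmod
  generalize (w - N) / k = q
  match q with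
  | 0 => rfl
  | 1 => rfl
  | 2 =>
    by_cases hr : r = 0
    · simp [exv, tv, hr]
      omega
    · simp [exv, tv, hr]
  | 3 => simp [exv, hmod]
  | n + 4 => simp [exv]

omit [IsStrictOrderedRing R] in
/-- The predicate of a graph is definable. -/
theorem dfb_graph (hk : 1 ≤ k) (N : ℕ) (Gs : List Mat) (x : ℕ → R) (i : ℕ) (u v : Fin k → R) :
    Dfb fun y : Option (Fin k) → R =>
      Gsat N Gs x i u v (tv k (y none)) fun r => y (some r) := by
  refine ⟨Gs.getD i [], gf N x u v, fun y => ?_⟩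
  refine iff_of_eq (congrArg (fun z => Mat.sat z (Gs.getD i [])) ?_)
  funext w
  exact ass_gf hk N x u v y w

theorem saconn [RCF R] {s : Bool} {l b : ℕ} (hk : 1 ≤ k) {Cs Gs : List Mat} {x : ℕ → R}
    (h : CertOK s k l b Cs Gs x) {i : ℕ} (hi : i < b) :
    SAConn {y : Fin k → R | Csat (nn k l) Cs x i y} := by
  intro U V hU hV hUV hdis hoU hoV
  by_contra hne
  rw [not_or, ← Ne, ← Ne, ← Set.nonempty_iff_ne_empty, ← Set.nonempty_iff_ne_empty] at hne
  obtain ⟨⟨u, hu⟩, ⟨v, hv⟩⟩ := hne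
  have hCu : Csat (nn k l) Cs x i u := by
    have : u ∈ U ∪ V := Or.inl hu
    rwa [hUV] at this
  have hCv : Csat (nn k l) Cs x i v := by
    have : v ∈ U ∪ V := Or.inr hv
    rwa [hUV] at this
  have hex := h.ex i hi u v hCu hCv
  have hcont := h.cont i hi u v hCu hCv
  have hends := h.ends i hi u v hCu hCv
  -- the path at `a`
  have hex' : ∀ a : R, 0 ≤ a → a ≤ 1 → ∃ z, Gsat (nn k l) Gs x i u v (tv k a) z ∧ z ∈ U ∪ V := by
    intro a ha ha'
    obtain ⟨z, h1, h2⟩ := hex (tv k a) (by rwa [exv_tv hk]) (by rwa [exv_tv hk])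
    exact ⟨z, h1, by rw [hUV]; exact h2⟩
  have hcont' : ∀ a : R, 0 ≤ a → a ≤ 1 → ∀ z, Gsat (nn k l) Gs x i u v (tv k a) z → ∀ ε > 0,
      ∃ δ > 0, ∀ (a' : R) (z' : Fin k → R), 0 ≤ a' → a' ≤ 1 →
        Gsat (nn k l) Gs x i u v (tv k a') z' → |a' - a| < δ → dist2 z z' < ε := by
    intro a ha ha' z hz ε hε
    obtain ⟨δ, hδ, h1⟩ := hcont (tv k a) z (by rwa [exv_tv hk]) (by rwa [exv_tv hk]) hz ε hε
    refine ⟨min 1 δ, lt_min one_pos hδ, fun a' z' h2 h3 h4 h5 => ?_⟩
    refine h1 (tv k a') z' (by rwa [exv_tv hk]) (by rwa [exv_tv hk]) h4 ?_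
    rw [exv_tv hk, exv_tv hk]
    have h6 := h5.trans_le (min_le_left _ _)
    have h7 := h5.trans_le (min_le_right _ _)
    rw [abs_sub_comm] at h6 h7
    have h8 := abs_nonneg (a - a')
    have h9 : (a - a') ^ 2 = |a - a'| * |a - a'| := by rw [← sq, sq_abs]
    rw [h9]
    nlinarith
  -- near a point of the path in an open part everything is in that part
  have hnear : ∀ W : Set (Fin k → R), OpenIn {y : Fin k → R | Csat (nn k l) Cs x i y} W →
      ∀ a : R, 0 ≤ a → a ≤ 1 → ∀ z ∈ W, Gsat (nn k l) Gs x i u v (tv k a) z → ∃ δ > 0,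
        ∀ a' : R, 0 ≤ a' → a' ≤ 1 → |a' - a| < δ → ∀ z' ∈ U ∪ V,
          Gsat (nn k l) Gs x i u v (tv k a') z' → z' ∈ W := by
    intro W hW a ha ha' z hz hG
    obtain ⟨ε, hε, h1⟩ := hW z hz
    obtain ⟨δ, hδ, h2⟩ := hcont' a ha ha' z hG (ε ^ 2) (pow_pos hε 2)
    refine ⟨δ, hδ, fun a' h3 h4 h5 z' hz' h6 => ?_⟩
    rw [hUV] at hz'
    exact h1 z' hz' (abs_lt_of_dist2 hε (h2 a' z' h3 h4 h6 h5))
  set χ : R → Prop := fun a => ∃ z, Gsat (nn k l) Gs x i u v (tv k a) z ∧ z ∈ U with hχ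
  have hdf : Dfb fun y : Option (Fin k) → R =>
      ∃ z : Option (Fin k) → R, (∀ j ∉ Finset.univ.erase none, z j = y j) ∧
        (Gsat (nn k l) Gs x i u v (tv k (z none)) (fun r => z (some r)) ∧
          (fun r => z (some r)) ∈ U) :=
    ((dfb_graph hk _ Gs x i u v).and (Dfb.sa some hU)).exs _
  have hχ' : ∀ a, χ a ↔ ∃ z : Option (Fin k) → R,
      (∀ j ∉ Finset.univ.erase none, z j = (fun _ => a) j) ∧
        (Gsat (nn k l) Gs x i u v (tv k (z none)) (fun r => z (some r)) ∧
          (fun r => z (some r)) ∈ U) := by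
    intro a
    constructor
    · rintro ⟨z, h1, h2⟩
      refine ⟨fun j => j.elim a z, fun j hj => ?_, h1, h2⟩
      have : j = none := by simpa using hj
      subst this
      rfl
    · rintro ⟨z, h1, h2, h3⟩
      refine ⟨fun r => z (some r), ?_, h3⟩
      have h4 : z none = a := h1 none (by simp)
      rwa [h4] at h2
  obtain ⟨Z, hZ⟩ := hdf.one
  have hconst := const_of_loc (χ := χ) Z (fun a b hab c d h1 h2 h3 h4 => by
    rw [hχ', hχ']
    exact hZ a b hab c d h1 h2 h3 h4) (fun a ha ha' => by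
    obtain ⟨z, hz, hzUV⟩ := hex' a ha ha'
    rcases hzUV with hzU | hzV
    · obtain ⟨δ, hδ, h1⟩ := hnear U hoU a ha ha' z hzU hz
      refine ⟨δ, hδ, fun c hc hc' hca => iff_of_true ?_ ⟨z, hz, hzU⟩⟩
      obtain ⟨z', h2, h3⟩ := hex' c hc hc'
      exact ⟨z', h2, h1 c hc hc' hca z' h3 h2⟩
    · obtain ⟨δ, hδ, h1⟩ := hnear V hoV a ha ha' z hzV hz
      have h2 : ∀ c, 0 ≤ c → c ≤ 1 → |c - a| < δ → ¬ χ c := by
        rintro c hc hc' hca ⟨z', h3, h4⟩
        exact Set.disjoint_left.1 hdis h4 (h1 c hc hc' hca z' (Or.inl h4) h3)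
      exact ⟨δ, hδ, fun c hc hc' hca => iff_of_false (h2 c hc hc' hca)
        (h2 a ha ha' (by simpa using hδ))⟩)
  have h0 : χ 0 := by
    obtain ⟨z, hz, _⟩ := hex' 0 le_rfl zero_le_one
    have h1 := (hends (tv k 0) z hz).1 (exv_tv hk 0)
    exact ⟨z, hz, by rw [h1]; exact hu⟩
  obtain ⟨z, hz, hzU⟩ := hconst.1 h0
  have h1 := (hends (tv k 1) z hz).2 (exv_tv hk 1)
  rw [h1] at hzU
  exact Set.disjoint_left.1 hdis hzU hv

end Path

theorem hasComps {R : Type u} [Field R] [LinearOrder R] [IsStrictOrderedRing R] [RCF R]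
    {s : Bool} {k l b : ℕ} (hk : 1 ≤ k) {Cs Gs : List Mat} {x : ℕ → R}
    (h : CertOK s k l b Cs Gs x) : HasComps (SS s k l x) b := by
  refine ⟨fun i => {y | Csat (nn k l) Cs x i y}, fun i => ⟨?_, ?_, ?_, ?_⟩, ?_, ?_⟩
  · exact sa_mat (nn k l) x (Cs.getD i [])
  · exact h.ne i i.2
  · exact saconn hk h i.2
  · exact openIn_of fun y hy => h.opn i i.2 y hy
  · intro i j hij
    rw [Set.disjoint_left]
    intro y hy hy'
    rcases lt_or_gt_of_ne hij with h1 | h1
    · exact h.disj i j h1 j.2 y ⟨hy, hy'⟩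
    · exact h.disj j i h1 i.2 y ⟨hy', hy⟩
  · ext y
    rw [Set.mem_iUnion, h.cover y]
    exact ⟨fun ⟨i, hi⟩ => ⟨i, i.2, hi⟩, fun ⟨i, hi, h1⟩ => ⟨⟨i, hi⟩, h1⟩⟩

end Pool.Agent.QCT.Sound
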