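import Pool.Agent.QCT.Sem

/-!
# Project QCT, P8b: certificates over the real numbers count the connected components
-/

namespace Pool.Agent.QCT.SoundR

open Pool.Agent.QCT

variable {k : ℕ}

theorem exv_const (hk : 1 ≤ k) (t : ℝ) : exv (fun _ : Fin k => t) 0 = t := by
  rw [exv, dif_pos (by omega)]

theorem abs_le_of_dist2 {y z : Fin k → ℝ} {ε : ℝ} (hε : 0 < ε) (h : dist2 y z < ε ^ 2) (i : Fin k) :
    |y i - z i| < ε := by
  have h1 : (y i - z i) ^ 2 ≤ dist2 y z :=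
    Finset.single_le_sum (f := fun i => (y i - z i) ^ 2) (fun j _ => sq_nonneg _)
      (Finset.mem_univ i)
  exact abs_lt_of_sq_lt_sq (lt_of_le_of_lt h1 h) hε.le

theorem dist_lt_of_dist2 {y z : Fin k → ℝ} {ε : ℝ} (hε : 0 < ε) (h : dist2 y z < ε ^ 2) :
    dist y z < ε := by
  rw [dist_pi_lt_iff hε]
  intro i
  rw [Real.dist_eq]
  exact abs_le_of_dist2 hε h i

theorem dist2_lt_of_dist {ε : ℝ} (hε : 0 < ε) : ∃ δ > 0, ∀ y z : Fin k → ℝ, dist y z < δ →
    dist2 y z < ε := by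
  refine ⟨Real.sqrt (ε / (k + 1)), Real.sqrt_pos.2 (by positivity), fun y z h => ?_⟩
  have h1 : ∀ i, (y i - z i) ^ 2 ≤ ε / (k + 1) := by
    intro i
    have h2 : |y i - z i| < Real.sqrt (ε / (k + 1)) := by
      have := dist_le_pi_dist y z i
      rw [Real.dist_eq] at this
      exact lt_of_le_of_lt this h
    have h3 := Real.sq_sqrt (show 0 ≤ ε / ((k : ℝ) + 1) by positivity)
    rw [← h3, ← sq_abs]
    exact pow_le_pow_left₀ (abs_nonneg _) h2.le 2
  have h4 : dist2 y z ≤ k * (ε / (k + 1)) := by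
    rw [dist2]
    refine (Finset.sum_le_card_nsmul _ _ _ fun i _ => h1 i).trans ?_
    simp
  refine lt_of_le_of_lt h4 ?_
  rw [← mul_div_assoc, div_lt_iff₀ (by positivity)]
  nlinarith

variable {s : Bool} {l b : ℕ} {Cs Gs : List Mat} {x : ℕ → ℝ}

/-- The component. -/
def D (k l : ℕ) (Cs : List Mat) (x : ℕ → ℝ) (i : ℕ) : Set (Fin k → ℝ) :=
  {y | Csat (nn k l) Cs x i y}

theorem joinedIn (hk : 1 ≤ k) (h : CertOK s k l b Cs Gs x) {i : ℕ} (hi : i < b)
    {y y' : Fin k → ℝ} (hy : y ∈ D k l Cs x i) (hy' : y' ∈ D k l Cs x i) :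
    JoinedIn (D k l Cs x i) y y' := by
  have hex : ∀ t : unitInterval, ∃ z, Gsat (nn k l) Gs x i y y' (fun _ => (t : ℝ)) z ∧
      Csat (nn k l) Cs x i z := by
    intro t
    refine h.ex i hi y y' hy hy' _ ?_ ?_
    · rw [exv_const hk]
      exact t.2.1
    · rw [exv_const hk]
      exact t.2.2
  choose z hz hz' using hex
  have hcont : Continuous z := by
    rw [Metric.continuous_iff]
    intro t ε hε
    obtain ⟨δ, hδ, h1⟩ := h.cont i hi y y' hy hy' (fun _ => (t : ℝ)) (z t)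
      (by rw [exv_const hk]; exact t.2.1) (by rw [exv_const hk]; exact t.2.2) (hz t) (ε ^ 2)
      (by positivity)
    refine ⟨Real.sqrt δ, Real.sqrt_pos.2 hδ, fun t' ht' => ?_⟩
    rw [dist_comm]
    refine dist_lt_of_dist2 hε (h1 (fun _ => (t' : ℝ)) (z t') (by rw [exv_const hk]; exact t'.2.1)
      (by rw [exv_const hk]; exact t'.2.2) (hz t') ?_)
    rw [exv_const hk, exv_const hk]
    have h2 : |(t : ℝ) - t'| < Real.sqrt δ := by
      rw [dist_comm, Subtype.dist_eq, Real.dist_eq] at ht'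
      exact ht'
    have h3 := Real.sq_sqrt hδ.le
    rw [← h3, ← sq_abs]
    exact pow_lt_pow_left₀ h2 (abs_nonneg _) (by norm_num)
  refine ⟨⟨⟨z, hcont⟩, ?_, ?_⟩, fun t => hz' t⟩
  · exact (h.ends i hi y y' hy hy' _ _ (hz 0)).1 (by rw [exv_const hk]; rfl)
  · exact (h.ends i hi y y' hy hy' _ _ (hz 1)).2 (by rw [exv_const hk]; rfl)

theorem D_sub (h : CertOK s k l b Cs Gs x) {i : ℕ} (hi : i < b) : D k l Cs x i ⊆ SS s k l x :=
  fun y hy => (h.cover y).2 ⟨i, hi, hy⟩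

/-- Points joined in a subset lie in the same component. -/
theorem mem_comp {E : Type*} [TopologicalSpace E] {S A : Set E} (hA : A ⊆ S) {y z : E}
    (hz : z ∈ S) (hy : y ∈ S) (h : JoinedIn A y z) :
    (⟨z, hz⟩ : S) ∈ connectedComponent (⟨y, hy⟩ : S) := by
  obtain ⟨γ, hγ⟩ := h
  let g : unitInterval → S := fun t => ⟨γ t, hA (hγ t)⟩
  have hg : Continuous g := γ.continuous.subtype_mk _
  have h0 : g 0 = ⟨y, hy⟩ := Subtype.ext γ.source
  have h1 : g 1 = ⟨z, hz⟩ := Subtype.ext γ.target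
  rw [← h0, ← h1]
  exact (isPreconnected_range hg).subset_connectedComponent ⟨0, rfl⟩ ⟨1, rfl⟩

theorem card (hk : 1 ≤ k) (h : CertOK s k l b Cs Gs x) :
    Finite (ConnectedComponents ↥(SS s k l x)) ∧
      Nat.card (ConnectedComponents ↥(SS s k l x)) = b := by
  have hdis : ∀ i < b, ∀ j < b, ∀ y, y ∈ D k l Cs x i → y ∈ D k l Cs x j → i = j := by
    intro i hi j hj y hy hy'
    rcases lt_trichotomy i j with h1 | h1 | h1
    · exact absurd ⟨hy, hy'⟩ (h.disj i j h1 hj y)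
    · exact h1
    · exact absurd ⟨hy', hy⟩ (h.disj j i h1 hi y)
  have hopen : ∀ i < b, IsOpen ((↑) ⁻¹' D k l Cs x i : Set ↥(SS s k l x)) := by
    intro i hi
    rw [Metric.isOpen_iff]
    intro y hy
    obtain ⟨ε, hε, h1⟩ := h.opn i hi y hy
    obtain ⟨δ, hδ, h2⟩ := dist2_lt_of_dist (k := k) hε
    refine ⟨δ, hδ, fun y' hy' => ?_⟩
    refine h1 _ (h2 _ _ ?_) y'.2
    rw [Metric.mem_ball, dist_comm] at hy'
    exact hy'
  have hclopen : ∀ i < b, IsClopen ((↑) ⁻¹' D k l Cs x i : Set ↥(SS s k l x)) := by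
    intro i hi
    refine ⟨⟨?_⟩, hopen i hi⟩
    have h1 : ((↑) ⁻¹' D k l Cs x i : Set ↥(SS s k l x))ᶜ =
        ⋃ j : {j : ℕ // j < b ∧ j ≠ i}, ((↑) ⁻¹' D k l Cs x j : Set ↥(SS s k l x)) := by
      ext y
      simp only [Set.mem_compl_iff, Set.mem_preimage, Set.mem_iUnion, Subtype.exists]
      constructor
      · intro hy
        obtain ⟨j, hj, hj'⟩ := (h.cover y).1 y.2
        refine ⟨j, ⟨hj, ?_⟩, hj'⟩
        rintro rfl
        exact hy hj'
      · rintro ⟨j, ⟨hj, hji⟩, hj'⟩ hy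
        exact hji (hdis j hj i hi _ hj' hy)
    rw [h1]
    exact isOpen_iUnion fun j => hopen j j.2.1
  choose! p hp using h.ne
  have hpD : ∀ i : Fin b, p i ∈ D k l Cs x i := fun i => hp i i.2
  have hpS : ∀ i : Fin b, p i ∈ SS s k l x := fun i => D_sub h i.2 (hpD i)
  let f : Fin b → ConnectedComponents ↥(SS s k l x) := fun i => ConnectedComponents.mk ⟨p i, hpS i⟩
  have hf : Function.Bijective f := by
    constructor
    · intro i j hij
      have h1 := ConnectedComponents.coe_eq_coe'.1 hij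
      have h3 : (⟨p j, hpS j⟩ : ↥(SS s k l x)) ∈
          ((↑) ⁻¹' D k l Cs x j : Set ↥(SS s k l x)) := Set.mem_preimage.2 (hpD j)
      have h2 := (hclopen j j.2).connectedComponent_subset h3 h1
      exact Fin.ext (hdis i i.2 j j.2 (p i) (hpD i) h2)
    · intro c
      obtain ⟨y, rfl⟩ := ConnectedComponents.surjective_coe c
      obtain ⟨i, hi, hy⟩ := (h.cover y).1 y.2
      refine ⟨⟨i, hi⟩, ?_⟩
      apply ConnectedComponents.coe_eq_coe'.2
      exact mem_comp (D_sub h hi) (hpS ⟨i, hi⟩) y.2 (joinedIn hk h hi hy (hpD ⟨i, hi⟩))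
  have hfin : Finite (ConnectedComponents ↥(SS s k l x)) := Finite.of_surjective f hf.2
  refine ⟨hfin, ?_⟩
  rw [← Nat.card_congr (Equiv.ofBijective f hf), Nat.card_eq_fintype_card, Fintype.card_fin]

end Pool.Agent.QCT.SoundR
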