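import Pool.Agent.QCT.Sem
import Pool.Agent.QC.Final

/-!
# Project QCT, P11: the finite strategies over the reals

From the trees of `Pool.Agent.QC.final` to finite strategies.
-/

namespace Pool.Agent.QCT.Tb11

open Pool.Agent.QC (Tree)

/-! ## The instruction of a tree after a history -/

/-- Renaming of operands. -/
def opr {n : ℕ} (ρ : Fin n → ℕ) : Fin n ⊕ ℤ → Opd := Sum.map ρ id

/-- The instruction after a history. -/
def ia : {n : ℕ} → Tree ℕ n → (Fin n → ℕ) → ℕ → List ℤ → Ins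
  | _, .out b, _, _, _ => Sum.inl b
  | _, .add u v _, ρ, _, [] => Sum.inr (0, opr ρ u, opr ρ v)
  | _, .add _ _ T, ρ, c, _ :: h => ia T (Fin.snoc ρ c) (c + 1) h
  | _, .sub u v _, ρ, _, [] => Sum.inr (1, opr ρ u, opr ρ v)
  | _, .sub _ _ T, ρ, c, _ :: h => ia T (Fin.snoc ρ c) (c + 1) h
  | _, .mul u v _, ρ, _, [] => Sum.inr (2, opr ρ u, opr ρ v)
  | _, .mul _ _ T, ρ, c, _ :: h => ia T (Fin.snoc ρ c) (c + 1) h
  | _, .sgn u _ _ _, ρ, _, [] => Sum.inr (3, opr ρ u, Sum.inr 0)
  | _, .sgn _ T₁ T₂ T₃, ρ, c, s :: h =>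
      if s < 0 then ia T₁ ρ c h else if s = 0 then ia T₂ ρ c h else ia T₃ ρ c h

/-- The remaining depth after a history. -/
def rd : {n : ℕ} → Tree ℕ n → List ℤ → ℕ
  | _, .out _, _ => 0
  | _, .add _ _ T, [] => T.depth + 1
  | _, .add _ _ T, _ :: h => rd T h
  | _, .sub _ _ T, [] => T.depth + 1
  | _, .sub _ _ T, _ :: h => rd T h
  | _, .mul _ _ T, [] => T.depth + 1
  | _, .mul _ _ T, _ :: h => rd T h
  | _, .sgn _ T₁ T₂ T₃, [] => max T₁.depth (max T₂.depth T₃.depth) + 1
  | _, .sgn _ T₁ T₂ T₃, s :: h =>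
      if s < 0 then rd T₁ h else if s = 0 then rd T₂ h else rd T₃ h

lemma rd_nil {n : ℕ} (T : Tree ℕ n) : rd T [] = T.depth := by
  cases T <;> rfl

lemma ia_of_rd {n : ℕ} (T : Tree ℕ n) : ∀ (ρ : Fin n → ℕ) (c : ℕ) (h : List ℤ), rd T h = 0 →
    ∃ b, ia T ρ c h = Sum.inl b := by
  induction T with
  | out b => exact fun _ _ _ _ => ⟨b, rfl⟩
  | add u v T ih =>
    rintro ρ c (_ | ⟨s, h⟩) h0
    · simp [rd] at h0
    · exact ih _ _ h h0
  | sub u v T ih =>
    rintro ρ c (_ | ⟨s, h⟩) h0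
    · simp [rd] at h0
    · exact ih _ _ h h0
  | mul u v T ih =>
    rintro ρ c (_ | ⟨s, h⟩) h0
    · simp [rd] at h0
    · exact ih _ _ h h0
  | sgn u T₁ T₂ T₃ ih₁ ih₂ ih₃ =>
    rintro ρ c (_ | ⟨s, h⟩) h0
    · simp [rd] at h0
    · simp only [rd] at h0
      simp only [ia]
      split_ifs at h0 ⊢
      · exact ih₁ _ _ h h0
      · exact ih₂ _ _ h h0
      · exact ih₃ _ _ h h0

lemma rd_succ {n : ℕ} (T : Tree ℕ n) : ∀ (ρ : Fin n → ℕ) (c : ℕ) (h : List ℤ) (a) (s : ℤ),
    ia T ρ c h = Sum.inr a → rd T (h ++ [s]) + 1 ≤ rd T h := by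
  induction T with
  | out b => intro _ _ _ a _ h; simp [ia] at h
  | add u v T ih =>
    rintro ρ c (_ | ⟨s', h⟩) a s h0
    · simp [rd, rd_nil]
    · exact ih _ _ h a s h0
  | sub u v T ih =>
    rintro ρ c (_ | ⟨s', h⟩) a s h0
    · simp [rd, rd_nil]
    · exact ih _ _ h a s h0
  | mul u v T ih =>
    rintro ρ c (_ | ⟨s', h⟩) a s h0
    · simp [rd, rd_nil]
    · exact ih _ _ h a s h0
  | sgn u T₁ T₂ T₃ ih₁ ih₂ ih₃ =>
    rintro ρ c (_ | ⟨s', h⟩) a s h0
    · simp only [List.nil_append, rd]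
      split_ifs <;> simp [rd_nil]
    · simp only [ia] at h0
      simp only [List.cons_append, rd]
      split_ifs at h0 ⊢
      · exact ih₁ _ _ h a s h0
      · exact ih₂ _ _ h a s h0
      · exact ih₃ _ _ h a s h0

/-! ## All histories -/

/-- All histories of length at most `d`. -/
def hs : ℕ → List (List ℤ)
  | 0 => [[]]
  | d + 1 => [] :: (hs d).flatMap fun h => [-1 :: h, 0 :: h, 1 :: h]

/-- Histories. -/
def Hi (h : List ℤ) : Prop := ∀ a ∈ h, a = -1 ∨ a = 0 ∨ a = 1

lemma mem_hs : ∀ (d : ℕ) (h : List ℤ), h.length ≤ d → Hi h → h ∈ hs d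
  | 0, h, h1, _ => by
    rw [List.length_eq_zero_iff.1 (Nat.le_zero.1 h1)]
    simp [hs]
  | d + 1, [], _, _ => by simp [hs]
  | d + 1, a :: h, h1, h2 => by
    rw [hs, List.mem_cons]
    right
    rw [List.mem_flatMap]
    refine ⟨h, mem_hs d h (by simpa using h1) fun b hb => h2 b (List.mem_cons_of_mem _ hb), ?_⟩
    rcases h2 a List.mem_cons_self with rfl | rfl | rfl <;> simp

lemma Hi.append {h h' : List ℤ} (h1 : Hi h) (h2 : Hi h') : Hi (h ++ h') := fun a ha =>
  (List.mem_append.1 ha).elim (h1 a) (h2 a)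

lemma hi_zero : Hi [0] := by simp [Hi]

lemma hi_zs (s : SignType) : Hi [zs s] := by cases s <;> simp [Hi, zs]

/-- The finite strategy of a function. -/
def tbl (A : List ℤ → Ins) (d : ℕ) : Tb := (hs d).map fun h => (h, A h)

lemma lookup_map {A : List ℤ → Ins} {h : List ℤ} : ∀ {L : List (List ℤ)}, h ∈ L →
    (L.map fun h => (h, A h)).lookup h = some (A h)
  | [], h1 => by simp at h1
  | a :: L, h1 => by
    rw [List.map_cons]
    by_cases h2 : h = a
    · subst h2
      simp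
    · rw [List.lookup_cons]
      have h3 : (h == a) = false := by simpa using h2
      rw [h3]
      exact lookup_map ((List.mem_cons.1 h1).resolve_left h2)

lemma ins_tbl {A : List ℤ → Ins} {d : ℕ} {h : List ℤ} (h1 : h.length ≤ d) (h2 : Hi h) :
    (tbl A d).ins h = A h := by
  rw [Tb.ins, tbl, lookup_map (mem_hs d h h1 h2)]
  rfl

/-! ## Symbolic execution ends -/

lemma fin_inv {n : ℕ} (T : Tree ℕ n) (ρ : Fin n → ℕ) (c : ℕ) {D : ℕ}
    (N : ℕ) : ∀ t ≤ D, ∀ st ∈ fin (tbl (ia T ρ c) D) t N, Hi st.2.1 ∧ st.2.1.length ≤ t ∧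
      ((∃ b, ia T ρ c st.2.1 = Sum.inl b) ∨ rd T st.2.1 + t ≤ T.depth) := by
  intro t
  induction t with
  | zero =>
    intro _ st hst
    simp only [fin, Function.iterate_zero, id_eq, List.mem_singleton] at hst
    subst hst
    refine ⟨by simp [Hi], by simp, Or.inr ?_⟩
    simp [rd_nil]
  | succ t ih =>
    intro ht st hst
    rw [fin, Function.iterate_succ_apply', List.mem_flatMap] at hst
    obtain ⟨st', h1, h2⟩ := hst
    obtain ⟨h3, h4, h5⟩ := ih (by omega) st' h1
    rw [nxt, ins_tbl (by omega) h3] at h2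
    rcases h6 : ia T ρ c st'.2.1 with b | ⟨o, u, v⟩
    · rw [h6] at h2
      simp only [List.mem_singleton] at h2
      subst h2
      exact ⟨h3, by omega, Or.inl ⟨b, h6⟩⟩
    · rw [h6] at h2
      simp only at h2
      have h7 : rd T st'.2.1 + t ≤ T.depth := by
        rcases h5 with ⟨b, h5⟩ | h5
        · rw [h6] at h5; cases h5
        · exact h5
      split_ifs at h2 with h8
      · rw [List.mem_map] at h2
        obtain ⟨s, -, rfl⟩ := h2
        refine ⟨h3.append (hi_zs s), by simp; omega, Or.inr ?_⟩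
        have := rd_succ T ρ c st'.2.1 _ (zs s) h6
        simp only
        omega
      · simp only [List.mem_singleton] at h2
        subst h2
        refine ⟨h3.append hi_zero, by simp; omega, Or.inr ?_⟩
        have := rd_succ T ρ c st'.2.1 _ 0 h6
        simp only
        omega

lemma fin_end {n : ℕ} (T : Tree ℕ n) (ρ : Fin n → ℕ) (c : ℕ) {D : ℕ} (hD : T.depth ≤ D)
    (N : ℕ) : ∀ st ∈ fin (tbl (ia T ρ c) D) D N,
      ∃ b, (tbl (ia T ρ c) D).ins st.2.1 = Sum.inl b := by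
  intro st hst
  obtain ⟨h1, h2, h3⟩ := fin_inv T ρ c N D le_rfl st hst
  rw [ins_tbl h2 h1]
  rcases h3 with h3 | h3
  · exact h3
  · exact ia_of_rd T ρ c _ (by omega)

/-! ## Execution -/

lemma opv_opr {n : ℕ} {ρ : Fin n → ℕ} {r : List ℝ} {y : Fin n → ℝ}
    (hr : ∀ i, r.getD (ρ i) 0 = y i) (u : Fin n ⊕ ℤ) : opv r (opr ρ u) = Pool.Agent.QC.val y u := by
  rcases u with i | z
  · exact hr i
  · rfl

lemma getD_snoc {n : ℕ} {ρ : Fin n → ℕ} {r : List ℝ} {y : Fin n → ℝ}
    (hr : ∀ i, r.getD (ρ i) 0 = y i) (hρ : ∀ i, ρ i < r.length) (a : ℝ) (i : Fin (n + 1)) :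
    (r ++ [a]).getD ((Fin.snoc ρ r.length : Fin (n + 1) → ℕ) i) 0 =
      (Fin.snoc y a : Fin (n + 1) → ℝ) i := by
  refine Fin.lastCases ?_ (fun j => ?_) i
  · simp
  · rw [Fin.snoc_castSucc, Fin.snoc_castSucc, ← hr j, List.getD_append _ _ _ _ (hρ j)]

lemma snoc_lt {n : ℕ} {ρ : Fin n → ℕ} {r : List ℝ}
    (hρ : ∀ i, ρ i < r.length) (a : ℝ) (i : Fin (n + 1)) :
    (Fin.snoc ρ r.length : Fin (n + 1) → ℕ) i < (r ++ [a]).length := by
  refine Fin.lastCases ?_ (fun j => ?_) i
  · simp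
  · rw [Fin.snoc_castSucc, List.length_append]
    exact (hρ j).trans_le (Nat.le_add_right _ _)

lemma exec_eq {n : ℕ} (T : Tree ℕ n) : ∀ (ρ : Fin n → ℕ) (r : List ℝ) (y : Fin n → ℝ)
    (A : List ℤ → Ins) (t : ℕ) (h : List ℤ), T.depth ≤ t → (∀ i, r.getD (ρ i) 0 = y i) →
    (∀ i, ρ i < r.length) →
    (∀ h' : List ℤ, Hi h' → h'.length ≤ t → A (h ++ h') = ia T ρ r.length h') →
    exec A t r h = some (T.run y) := by
  induction T with
  | out b =>
    intro ρ r y A t h _ _ _ hA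
    have h1 : A h = Sum.inl b := by simpa [ia] using hA [] (by simp [Hi]) (by simp)
    unfold exec
    rw [h1]
    rfl
  | add u v T ih =>
    intro ρ r y A t h ht hr hρ hA
    obtain ⟨t, rfl⟩ : ∃ t', t = t' + 1 := ⟨t - 1, by simp only [Tree.depth] at ht; omega⟩
    have h1 : A h = Sum.inr (0, opr ρ u, opr ρ v) := by
      simpa [ia] using hA [] (by simp [Hi]) (by simp)
    unfold exec
    rw [h1]
    simp only
    rw [if_neg (by decide)]
    rw [ih (Fin.snoc ρ r.length) _ (Fin.snoc y (Pool.Agent.QC.val y u + Pool.Agent.QC.val y v)) A t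
      (h ++ [0]) (by simp only [Tree.depth] at ht; omega) ?_ ?_ ?_]
    · rfl
    · intro i
      rw [res, if_pos rfl, opv_opr hr, opv_opr hr]
      exact getD_snoc hr hρ _ i
    · exact snoc_lt hρ _
    · intro h' h2 h3
      have := hA (0 :: h') (by simpa [Hi] using h2) (by simpa using h3)
      rw [List.append_assoc, List.singleton_append, this, List.length_append]
      rfl
  | sub u v T ih =>
    intro ρ r y A t h ht hr hρ hA
    obtain ⟨t, rfl⟩ : ∃ t', t = t' + 1 := ⟨t - 1, by simp only [Tree.depth] at ht; omega⟩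
    have h1 : A h = Sum.inr (1, opr ρ u, opr ρ v) := by
      simpa [ia] using hA [] (by simp [Hi]) (by simp)
    unfold exec
    rw [h1]
    simp only
    rw [if_neg (by decide)]
    rw [ih (Fin.snoc ρ r.length) _ (Fin.snoc y (Pool.Agent.QC.val y u - Pool.Agent.QC.val y v)) A t
      (h ++ [0]) (by simp only [Tree.depth] at ht; omega) ?_ ?_ ?_]
    · rfl
    · intro i
      rw [res, if_neg (by decide), if_pos rfl, opv_opr hr, opv_opr hr]
      exact getD_snoc hr hρ _ i
    · exact snoc_lt hρ _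
    · intro h' h2 h3
      have := hA (0 :: h') (by simpa [Hi] using h2) (by simpa using h3)
      rw [List.append_assoc, List.singleton_append, this, List.length_append]
      rfl
  | mul u v T ih =>
    intro ρ r y A t h ht hr hρ hA
    obtain ⟨t, rfl⟩ : ∃ t', t = t' + 1 := ⟨t - 1, by simp only [Tree.depth] at ht; omega⟩
    have h1 : A h = Sum.inr (2, opr ρ u, opr ρ v) := by
      simpa [ia] using hA [] (by simp [Hi]) (by simp)
    unfold exec
    rw [h1]
    simp only
    rw [if_neg (by decide)]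
    rw [ih (Fin.snoc ρ r.length) _ (Fin.snoc y (Pool.Agent.QC.val y u * Pool.Agent.QC.val y v)) A t
      (h ++ [0]) (by simp only [Tree.depth] at ht; omega) ?_ ?_ ?_]
    · rfl
    · intro i
      rw [res, if_neg (by decide), if_neg (by decide), opv_opr hr, opv_opr hr]
      exact getD_snoc hr hρ _ i
    · exact snoc_lt hρ _
    · intro h' h2 h3
      have := hA (0 :: h') (by simpa [Hi] using h2) (by simpa using h3)
      rw [List.append_assoc, List.singleton_append, this, List.length_append]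
      rfl
  | sgn u T₁ T₂ T₃ ih₁ ih₂ ih₃ =>
    intro ρ r y A t h ht hr hρ hA
    obtain ⟨t, rfl⟩ : ∃ t', t = t' + 1 := ⟨t - 1, by simp only [Tree.depth] at ht; omega⟩
    have h1 : A h = Sum.inr (3, opr ρ u, Sum.inr 0) := by
      simpa [ia] using hA [] (by simp [Hi]) (by simp)
    unfold exec
    rw [h1]
    simp only
    rw [if_pos trivial, opv_opr hr]
    have hA' : ∀ (s : SignType) (h' : List ℤ), Hi h' → h'.length ≤ t →
        A ((h ++ [zs s]) ++ h') = ia (Tree.sgn u T₁ T₂ T₃) ρ r.length (zs s :: h') := by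
      intro s h' h2 h3
      have := hA (zs s :: h') (by
        have := (hi_zs s).append h2
        simpa using this) (by simpa using h3)
      rw [List.append_assoc, List.singleton_append, this]
    simp only [Tree.depth] at ht
    rw [Tree.run]
    rcases lt_trichotomy (Pool.Agent.QC.val y u) 0 with h4 | h4 | h4
    · rw [if_pos h4, sign_neg h4]
      refine ih₁ ρ r y A t _ (by omega) hr hρ fun h' h2 h3 => ?_
      rw [hA' (-1) h' h2 h3]
      simp [ia, zs]
    · rw [if_neg (by rw [h4]; exact lt_irrefl _), if_pos h4, h4, sign_zero]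
      refine ih₂ ρ r y A t _ (by omega) hr hρ fun h' h2 h3 => ?_
      rw [hA' 0 h' h2 h3]
      simp [ia, zs]
    · rw [if_neg h4.le.not_gt, if_neg h4.ne', sign_pos h4]
      refine ih₃ ρ r y A t _ (by omega) hr hρ fun h' h2 h3 => ?_
      rw [hA' 1 h' h2 h3]
      simp [ia, zs]

/-! ## The coefficients -/

open MvPolynomial

/-- Exponents. -/
noncomputable def ex2 (k i j : ℕ) : Fin k →₀ ℕ := expo k i + expo k j

lemma degree_expo (k i : ℕ) : (expo k i).degree = if i < k then 1 else 0 := by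
  unfold expo
  split_ifs <;> simp

lemma degree_ex2 (k i j : ℕ) :
    (ex2 k i j).degree = (if i < k then 1 else 0) + (if j < k then 1 else 0) := by
  rw [ex2, map_add, degree_expo, degree_expo]

lemma ex2_inj {k i j i' j' : ℕ} (h1 : i ≤ j) (h2 : j ≤ k) (h1' : i' ≤ j') (h2' : j' ≤ k)
    (h : ex2 k i j = ex2 k i' j') : i = i' ∧ j = j' := by
  have hd := congrArg Finsupp.degree h
  rw [degree_ex2, degree_ex2] at hd
  by_cases hj : j < k
  · have hi : i < k := by omega
    have hj' : j' < k := by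
      by_contra hcon
      rw [if_pos hi, if_pos hj, if_neg hcon] at hd
      split_ifs at hd <;> omega
    have hi' : i' < k := by omega
    unfold ex2 expo at h
    rw [dif_pos hi, dif_pos hj, dif_pos hi', dif_pos hj'] at h
    have := Pool.Agent.QC.e2_inj (j := ⟨i, hi⟩) (k := ⟨j, hj⟩) (j' := ⟨i', hi'⟩) (k' := ⟨j', hj'⟩)
      h1 h1' h
    simp only [Fin.mk.injEq] at this
    exact this
  · by_cases hi : i < k
    · rw [if_pos hi, if_neg hj] at hd
      have hj' : ¬ j' < k := by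
        intro hcon
        rw [if_pos hcon, if_pos (by omega : i' < k)] at hd
        omega
      have hi' : i' < k := by
        by_contra hcon
        rw [if_neg hcon, if_neg hj'] at hd
        omega
      unfold ex2 expo at h
      rw [dif_pos hi, dif_neg hj, dif_pos hi', dif_neg hj', add_zero, add_zero] at h
      have := Finsupp.single_left_injective one_ne_zero h
      simp only [Fin.mk.injEq] at this
      exact ⟨this, by omega⟩
    · rw [if_neg hi, if_neg hj] at hd
      have hi' : ¬ i' < k := by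
        intro hcon
        rw [if_pos hcon] at hd
        omega
      omega

lemma exists_ex2 {k : ℕ} {m : Fin k →₀ ℕ} (hm : m.degree ≤ 2) :
    ∃ ij : ℕ × ℕ, ij.1 ≤ ij.2 ∧ ij.2 ≤ k ∧ ex2 k ij.1 ij.2 = m := by
  have h : m.degree = 0 ∨ m.degree = 1 ∨ m.degree = 2 := by omega
  rcases h with h | h | h
  · rw [Finsupp.degree_eq_zero_iff] at h
    subst h
    exact ⟨(k, k), le_rfl, le_rfl, by simp [ex2, expo]⟩
  · obtain ⟨j, rfl⟩ := Pool.Agent.QC.exists_single_of_degree_one h
    exact ⟨(j, k), j.2.le, le_rfl, by simp [ex2, expo]⟩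
  · obtain ⟨i, j, hij, rfl⟩ := Pool.Agent.QC.exists_e2_of_degree_two h
    exact ⟨(i, j), hij, j.2.le, by simp [ex2, expo, Pool.Agent.QC.e2]⟩

/-- The polynomials with coefficients `x`. -/
noncomputable def PP (k : ℕ) (x : ℕ → ℝ) (m : ℕ) : MvPolynomial (Fin k) ℝ :=
  ∑ i ∈ Finset.range (k + 1), ∑ j ∈ (Finset.range (k + 1)).filter fun j => i ≤ j,
    monomial (ex2 k i j) (x (ci k m i j))

lemma eval_expo {k : ℕ} (y : Fin k → ℝ) (i : ℕ) :
    ((expo k i).prod fun n e => y n ^ e) = hom y i := by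
  unfold expo hom
  split_ifs with h <;> simp

lemma eval_PP {k : ℕ} (x : ℕ → ℝ) (m : ℕ) (y : Fin k → ℝ) : eval y (PP k x m) = pmv x m y := by
  rw [PP, pmv, map_sum]
  refine Finset.sum_congr rfl fun i _ => ?_
  rw [map_sum]
  refine Finset.sum_congr rfl fun j _ => ?_
  rw [eval_monomial, ex2, Finsupp.prod_add_index' (by simp) (by intros; rw [pow_add]), eval_expo,
    eval_expo]

lemma totalDegree_PP (k : ℕ) (x : ℕ → ℝ) (m : ℕ) : (PP k x m).totalDegree ≤ 2 := by
  refine totalDegree_finsetSum_le fun i _ => totalDegree_finsetSum_le fun j _ => ?_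
  refine (totalDegree_monomial_le _ _).trans ?_
  show (ex2 k i j).degree ≤ 2
  rw [degree_ex2]
  split_ifs <;> omega

lemma coeff_PP {k : ℕ} (x : ℕ → ℝ) (m : ℕ) {i j : ℕ} (h1 : i ≤ j) (h2 : j ≤ k) :
    coeff (ex2 k i j) (PP k x m) = x (ci k m i j) := by
  rw [PP, coeff_sum, Finset.sum_eq_single i, coeff_sum, Finset.sum_eq_single j]
  · rw [coeff_monomial, if_pos rfl]
  · intro j' hj' hne
    rw [Finset.mem_filter, Finset.mem_range] at hj'
    rw [coeff_monomial, if_neg]
    intro h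
    exact hne (ex2_inj hj'.2 (by omega) h1 h2 h).2
  · intro hcon
    exact absurd (Finset.mem_filter.2 ⟨Finset.mem_range.2 (by omega), h1⟩) hcon
  · intro i' hi' hne
    rw [coeff_sum]
    refine Finset.sum_eq_zero fun j' hj' => ?_
    rw [Finset.mem_filter, Finset.mem_range] at hj'
    rw [coeff_monomial, if_neg]
    intro h
    exact hne (ex2_inj hj'.2 (by omega) h1 h2 h).1
  · intro hcon
    exact absurd (Finset.mem_range.2 (by omega)) hcon

lemma ci_lt {k l m i j : ℕ} (hm : m < l) (hi : i ≤ k) (hj : j ≤ k) : ci k m i j < nn k l := by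
  unfold ci nn
  have h1 : i * (k + 1) + j < (k + 1) * (k + 1) := by nlinarith
  calc m * ((k + 1) * (k + 1)) + (i * (k + 1) + j)
      < m * ((k + 1) * (k + 1)) + (k + 1) * (k + 1) := Nat.add_lt_add_left h1 _
    _ = (m + 1) * ((k + 1) * (k + 1)) := by ring
    _ ≤ l * ((k + 1) * (k + 1)) := Nat.mul_le_mul_right _ hm

lemma SS_eq (s : Bool) (k l : ℕ) (x : ℕ → ℝ) : SS s k l x =
    {y | ∀ m : Fin l, if s then 0 ≤ eval y (PP k x m) else eval y (PP k x m) ≤ 0} := by
  ext y
  simp only [SS, Set.mem_ofPred_eq, eval_PP]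
  exact ⟨fun h m => h m m.2, fun h m hm => h ⟨m, hm⟩⟩

lemma exists_tb_aux {s : Bool} {k l D N : ℕ} (e : Fin N ≃ Fin l × {m : Fin k →₀ ℕ // m.degree ≤ 2})
    (T : Tree ℕ N) (hT : T.depth ≤ D)
    (hrun : ∀ P : Fin l → MvPolynomial (Fin k) ℝ, (∀ i, (P i).totalDegree ≤ 2) →
      Finite (ConnectedComponents ↥{y : Fin k → ℝ | ∀ m : Fin l,
        if s then 0 ≤ eval y (P m) else eval y (P m) ≤ 0}) ∧
      T.run (fun j => coeff (e j).2.1 (P (e j).1)) = Nat.card (ConnectedComponents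
        ↥{y : Fin k → ℝ | ∀ m : Fin l, if s then 0 ≤ eval y (P m) else eval y (P m) ≤ 0})) :
    ∃ T : Tb, (∀ st ∈ fin T D (nn k l), ∃ b, T.ins st.2.1 = Sum.inl b) ∧
      ∀ x : ℕ → ℝ, ∃ b, exec T.ins D ((List.range (nn k l)).map x) [] = some b ∧
        Finite (ConnectedComponents ↥(SS s k l x)) ∧
        Nat.card (ConnectedComponents ↥(SS s k l x)) = b := by
  choose ij h1 h2 h3 using fun m : {m : Fin k →₀ ℕ // m.degree ≤ 2} => exists_ex2 m.2
  let ρ : Fin N → ℕ := fun j => ci k (e j).1 (ij (e j).2).1 (ij (e j).2).2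
  refine ⟨tbl (ia T ρ (nn k l)) D, fin_end T ρ _ hT _, fun x => ?_⟩
  obtain ⟨h4, h5⟩ := hrun (fun m => PP k x m) fun m => totalDegree_PP k x m
  rw [← SS_eq s k l x] at h4 h5
  have hlt : ∀ j, ρ j < nn k l := fun j =>
    ci_lt (e j).1.2 ((h1 _).trans (h2 _)) (h2 _)
  refine ⟨_, exec_eq T ρ _ (fun j => coeff (e j).2.1 (PP k x (e j).1)) _ D [] hT ?_ ?_ ?_, h4,
    h5.symm⟩
  · intro j
    have h6 := coeff_PP x (e j).1 (h1 (e j).2) (h2 (e j).2)
    rw [h3] at h6
    rw [h6, List.getD_eq_getElem?_getD, List.getElem?_map, List.getElem?_range (hlt j)]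
    rfl
  · intro j
    rw [List.length_map, List.length_range]
    exact hlt j
  · intro h' h6 h7
    rw [List.nil_append, ins_tbl h7 h6, List.length_map, List.length_range]

/-- The finite strategies over the reals. -/
theorem exists_tb : ∃ C : ℕ, ∀ (s : Bool) (k l : ℕ), 2 ≤ k → 1 ≤ l → ∃ T : Tb,
    (∀ st ∈ fin T (k ^ (C * l)) (nn k l), ∃ b, T.ins st.2.1 = Sum.inl b) ∧
    ∀ x : ℕ → ℝ, ∃ b, exec T.ins (k ^ (C * l)) ((List.range (nn k l)).map x) [] = some b ∧
      Finite (ConnectedComponents ↥(SS s k l x)) ∧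
      Nat.card (ConnectedComponents ↥(SS s k l x)) = b := by
  obtain ⟨C, hC⟩ := Pool.Agent.QC.final
  refine ⟨C, fun s k l hk hl => ?_⟩
  have hfin : Finite (Fin l × {m : Fin k →₀ ℕ // m.degree ≤ 2}) := by
    have : Finite {m : Fin k →₀ ℕ // m.degree ≤ 2} := by
      refine Finite.of_surjective (fun p : Fin (k + 1) × Fin (k + 1) =>
        (⟨ex2 k p.1 p.2, by rw [degree_ex2]; split_ifs <;> omega⟩ :
          {m : Fin k →₀ ℕ // m.degree ≤ 2})) ?_
      rintro ⟨m, hm⟩
      obtain ⟨ij, h1, h2, h3⟩ := exists_ex2 hm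
      exact ⟨(⟨ij.1, by omega⟩, ⟨ij.2, by omega⟩), Subtype.ext h3⟩
    infer_instance
  have := Fintype.ofFinite (Fin l × {m : Fin k →₀ ℕ // m.degree ≤ 2})
  let e := (Fintype.equivFin (Fin l × {m : Fin k →₀ ℕ // m.degree ≤ 2})).symm
  obtain ⟨⟨T₁, h1, h2⟩, ⟨T₂, h3, h4⟩⟩ := hC k l hk hl _ e
  cases s with
  | true =>
    refine exists_tb_aux e T₁ h1 fun P hP => ?_
    simpa using h2 P hP
  | false =>
    refine exists_tb_aux e T₂ h3 fun P hP => ?_
    simpa using h4 P hP

end Pool.Agent.QCT.Tb11
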