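import Pool.Agent.QCT.Sem
import Pool.Agent.QCT.Ivt
import Pool.Agent.QCT.Prim0
import Pool.Agent.QCT.Cert9
import Pool.Agent.QCT.SoundR
import Pool.Agent.QCT.Chk
import Pool.Agent.QCT.PrimD
import Pool.Agent.QCT.Tb11
import Pool.Agent.QCT.Inp13
import Pool.Agent.QCT.Sound
import Pool.Agent.QCT.Exec

/-!
# Project QCT: the main statements and the final assembly
-/

namespace Pool.Agent.QCT

universe u

/-! ## Real closed fields (P1) -/

theorem rcf_of_isRealClosed (R : Type u) [Field R] [LinearOrder R] [IsStrictOrderedRing R]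
    [IsRealClosed R] : RCF R := RCF.of_isRealClosed R

instance rcf_real : RCF ℝ where
  ivt p a b hab ha hb := by
    obtain ⟨c, hc, hc0⟩ := intermediate_value_Ioo hab.le (p.continuous.continuousOn) ⟨ha, hb⟩
    exact ⟨c, hc.1, hc.2, hc0⟩

/-! ## Quantifier elimination (P2 - P5) -/

theorem decideQ_iff (R : Type u) [Field R] [LinearOrder R] [IsStrictOrderedRing R] [RCF R]
    (qs : List Bool) (M : Mat) :
    decideQ qs M = true ↔ SatQ (R := R) M qs 0 (fun _ => 0) :=
  decideQ_iff' qs M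

/-! ## The check (P6, P7) -/

/-- The variables of the conditions are input variables. -/
def PV (N : ℕ) (pc : Asg) : Prop := ∀ a ∈ pc, ∀ c ∈ a.1, ∀ v ∈ c.2, v < N

theorem chk_iff (R : Type u) [Field R] [LinearOrder R] [IsStrictOrderedRing R] [RCF R]
    (s : Bool) {k l : ℕ} (hk : 1 ≤ k) {pc : Asg} (hpc : PV (nn k l) pc) (b : ℕ)
    (ce : List Mat × List Mat) :
    chk s k l pc b ce = true ↔
      ∀ x : ℕ → R, Asg.sat x pc → CertOK s k l b ce.1 ce.2 x :=
  Chk.chk_iff hk hpc ce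

/-! ## Soundness of certificates (P8) -/

theorem CertOK.hasComps {R : Type u} [Field R] [LinearOrder R] [IsStrictOrderedRing R] [RCF R]
    {s : Bool} {k l b : ℕ} (hk : 1 ≤ k) {Cs Gs : List Mat} {x : ℕ → R}
    (h : CertOK s k l b Cs Gs x) : HasComps (SS s k l x) b :=
  Sound.hasComps hk h

theorem CertOK.card {s : Bool} {k l b : ℕ} (hk : 1 ≤ k) {Cs Gs : List Mat} {x : ℕ → ℝ}
    (h : CertOK s k l b Cs Gs x) : Finite (ConnectedComponents ↥(SS s k l x)) ∧
      Nat.card (ConnectedComponents ↥(SS s k l x)) = b :=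
  SoundR.card hk h

/-! ## Existence of certificates (P9) -/

theorem exists_cert (s : Bool) (k l : ℕ) (hk : 1 ≤ k) (b : ℕ) :
    ∃ Cs Gs : List Mat, ∀ x : ℕ → ℝ, Finite (ConnectedComponents ↥(SS s k l x)) →
      Nat.card (ConnectedComponents ↥(SS s k l x)) = b → CertOK s k l b Cs Gs x :=
  Cert9.exists_cert s k l hk b

/-! ## Execution and symbolic execution (P10) -/

theorem fin_pv (T : Tb) (D N : ℕ) : ∀ st ∈ fin T D N, PV N st.2.2 :=
  Exec.fin_pv T D N

/-- Every input follows some symbolic state. -/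
theorem exec_fin {R : Type u} [Field R] [LinearOrder R] [IsStrictOrderedRing R] (T : Tb)
    (D N : ℕ) (_hT : ∀ st ∈ fin T D N, ∃ b, T.ins st.2.1 = Sum.inl b) (x : ℕ → R) :
    ∃ st ∈ fin T D N, Asg.sat x st.2.2 ∧
      ∀ b, T.ins st.2.1 = Sum.inl b → exec T.ins D ((List.range N).map x) [] = some b :=
  Exec.exec_fin T D N x

/-- The output at a symbolic state whose conditions hold. -/
theorem fin_exec {R : Type u} [Field R] [LinearOrder R] [IsStrictOrderedRing R] (T : Tb)
    (D N : ℕ) (x : ℕ → R) {st : Sst} (hst : st ∈ fin T D N) (hx : Asg.sat x st.2.2) {b : ℕ}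
    (hb : T.ins st.2.1 = Sum.inl b) : exec T.ins D ((List.range N).map x) [] = some b :=
  Exec.fin_exec T D N x hst hx hb

/-! ## The finite strategies over the reals (P11) -/

theorem exists_tb : ∃ C : ℕ, ∀ (s : Bool) (k l : ℕ), 2 ≤ k → 1 ≤ l → ∃ T : Tb,
    (∀ st ∈ fin T (k ^ (C * l)) (nn k l), ∃ b, T.ins st.2.1 = Sum.inl b) ∧
    ∀ x : ℕ → ℝ, ∃ b, exec T.ins (k ^ (C * l)) ((List.range (nn k l)).map x) [] = some b ∧
      Finite (ConnectedComponents ↥(SS s k l x)) ∧
      Nat.card (ConnectedComponents ↥(SS s k l x)) = b :=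
  Tb11.exists_tb

/-! ## Computability (P12) -/

theorem primrec_VV (C : ℕ) : Primrec₂ fun (a : Bool × ℕ × ℕ)
    (c : Tb × List (List Mat × List Mat)) => VV C a.1 a.2.1 a.2.2 c.1 c.2 :=
  PrimD.primrec_VV C

theorem computable_search {α β : Type} [Primcodable α] [Primcodable β] [Inhabited β]
    (V : α → β → Bool) (hV : Primrec₂ V) (D : α → Bool) (hD : Primrec D)
    (hex : ∀ a, D a = true → ∃ b, V a b = true) :
    ∃ f : α → β, Computable f ∧ ∀ a, D a = true → V a (f a) = true :=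
  PrimD.computable_search V hV D hD hex

theorem primrec_ins : Primrec₂ Tb.ins :=
  PrimD.primrec_ins

/-! ## Inputs (P13) -/

theorem inputs_eq {R : Type u} [Field R] [LinearOrder R] [IsStrictOrderedRing R] {k l : ℕ}
    (P : Fin l → MvPolynomial (Fin k) R) (hP : ∀ i, (P i).totalDegree ≤ 2) :
    ∃ x : ℕ → R, inputs P = (List.range (nn k l)).map x ∧ ∀ s : Bool,
      SS s k l x = {y | ∀ i, if s then 0 ≤ MvPolynomial.eval y (P i)
        else MvPolynomial.eval y (P i) ≤ 0} :=
  Inp13.inputs_eq P hP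

/-! ## The final theorem -/

theorem exists_cert' {C : ℕ} {s : Bool} {k l : ℕ} (hk : 1 ≤ k) {T : Tb}
    (h1 : ∀ st ∈ fin T (k ^ (C * l)) (nn k l), ∃ b, T.ins st.2.1 = Sum.inl b)
    (h2 : ∀ x : ℕ → ℝ, ∃ b, exec T.ins (k ^ (C * l)) ((List.range (nn k l)).map x) [] = some b ∧
      Finite (ConnectedComponents ↥(SS s k l x)) ∧
      Nat.card (ConnectedComponents ↥(SS s k l x)) = b) :
    ∃ ce : List (List Mat × List Mat), VV C s k l T ce = true := by
  choose Cs Gs hce using fun b => exists_cert s k l hk b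
  obtain ⟨B, hB⟩ : ∃ B, ∀ st ∈ fin T (k ^ (C * l)) (nn k l), ∀ b,
      T.ins st.2.1 = Sum.inl b → b < B := by
    refine ⟨((fin T (k ^ (C * l)) (nn k l)).map fun st =>
      Sum.elim (fun b => b + 1) (fun _ => 0) (T.ins st.2.1)).sum, fun st hst b hb => ?_⟩
    have := List.single_le_sum (l := (fin T (k ^ (C * l)) (nn k l)).map fun st =>
      Sum.elim (fun b => b + 1) (fun _ => 0) (T.ins st.2.1)) (by simp) _
      (List.mem_map_of_mem hst)
    rw [hb] at this
    simp only [Sum.elim_inl] at this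
    omega
  refine ⟨(List.range B).map fun b => (Cs b, Gs b), ?_⟩
  rw [VV, List.all_eq_true]
  intro st hst
  obtain ⟨b, hb⟩ := h1 st hst
  have hbB := hB st hst b hb
  rw [hb]
  simp only
  rw [chk_iff ℝ s hk (fin_pv T _ _ st hst)]
  intro x hx
  have h3 : ((List.range B).map fun b => (Cs b, Gs b)).getD b ([], []) = (Cs b, Gs b) := by
    rw [List.getD_eq_getElem?_getD, List.getElem?_map, List.getElem?_range hbB]
    rfl
  rw [h3]
  obtain ⟨b', h4, h5, h6⟩ := h2 x
  rw [fin_exec T _ _ x hst hx hb] at h4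
  cases h4
  exact hce b x h5 h6

/-- The final theorem. -/
theorem main : ∃ (C : ℕ) (A : Bool × ℕ × ℕ × List ℤ → Ins), Computable A ∧
    ∀ (s : Bool) (k l : ℕ), 2 ≤ k → 1 ≤ l →
      (∀ (R : Type u) [Field R] [LinearOrder R] [IsStrictOrderedRing R] [IsRealClosed R]
        (P : Fin l → MvPolynomial (Fin k) R), (∀ i, (P i).totalDegree ≤ 2) →
        ∃ b, exec (fun h => A (s, k, l, h)) (k ^ (C * l)) (inputs P) [] = some b ∧
          HasComps {y | ∀ i, if s then 0 ≤ MvPolynomial.eval y (P i)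
            else MvPolynomial.eval y (P i) ≤ 0} b) ∧
      (∀ P : Fin l → MvPolynomial (Fin k) ℝ, (∀ i, (P i).totalDegree ≤ 2) →
        ∃ b, exec (fun h => A (s, k, l, h)) (k ^ (C * l)) (inputs P) [] = some b ∧
          Finite (ConnectedComponents ↥{y : Fin k → ℝ | ∀ i, if s then
            0 ≤ MvPolynomial.eval y (P i) else MvPolynomial.eval y (P i) ≤ 0}) ∧
          Nat.card (ConnectedComponents ↥{y : Fin k → ℝ | ∀ i, if s then
            0 ≤ MvPolynomial.eval y (P i) else MvPolynomial.eval y (P i) ≤ 0}) = b) := by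
  obtain ⟨C, hC⟩ := exists_tb
  obtain ⟨f, hf, hf2⟩ := computable_search
    (fun (a : Bool × ℕ × ℕ) (c : Tb × List (List Mat × List Mat)) => VV C a.1 a.2.1 a.2.2 c.1 c.2)
    (primrec_VV C) (fun a => decide (2 ≤ a.2.1) && decide (1 ≤ a.2.2)) (by
      refine Primrec.and.comp ?_ ?_
      · exact (Primrec.nat_le.comp (Primrec.const 2)
          (Primrec.fst.comp Primrec.snd)).decide
      · exact (Primrec.nat_le.comp (Primrec.const 1)
          (Primrec.snd.comp Primrec.snd)).decide) (by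
      rintro ⟨s, k, l⟩ h
      simp only [Bool.and_eq_true, decide_eq_true_eq] at h
      obtain ⟨T, h1, h2⟩ := hC s k l h.1 h.2
      obtain ⟨ce, h3⟩ := exists_cert' (by omega : 1 ≤ k) h1 h2
      exact ⟨(T, ce), h3⟩)
  refine ⟨C, fun p => (f (p.1, p.2.1, p.2.2.1)).1.ins p.2.2.2, ?_, ?_⟩
  · refine primrec_ins.to_comp.comp ?_ ?_
    · exact Computable.fst.comp (hf.comp ((Primrec.pair Primrec.fst (Primrec.pair
        (Primrec.fst.comp Primrec.snd) (Primrec.fst.comp (Primrec.snd.comp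
          Primrec.snd)))).to_comp))
    · exact (Primrec.snd.comp (Primrec.snd.comp Primrec.snd)).to_comp
  intro s k l hk hl
  have hk1 : 1 ≤ k := by omega
  have hV := hf2 (s, k, l) (by simp [hk, hl])
  simp only at hV
  set T := (f (s, k, l)).1 with hT
  set ce := (f (s, k, l)).2 with hce
  rw [VV, List.all_eq_true] at hV
  have h1 : ∀ st ∈ fin T (k ^ (C * l)) (nn k l), ∃ b, T.ins st.2.1 = Sum.inl b := by
    intro st hst
    have h2 := hV st hst
    rcases h3 : T.ins st.2.1 with b | a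
    · exact ⟨b, rfl⟩
    · rw [h3] at h2
      simp at h2
  have key : ∀ (R : Type u) [Field R] [LinearOrder R] [IsStrictOrderedRing R] [RCF R]
      (x : ℕ → R), ∃ b, exec T.ins (k ^ (C * l)) ((List.range (nn k l)).map x) [] = some b ∧
        ∃ Cs Gs, CertOK s k l b Cs Gs x := by
    intro R _ _ _ _ x
    obtain ⟨st, hst, h2, h3⟩ := exec_fin T _ _ h1 x
    obtain ⟨b, hb⟩ := h1 st hst
    have h4 := hV st hst
    rw [hb] at h4
    simp only at h4
    rw [chk_iff R s hk1 (fin_pv T _ _ st hst)] at h4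
    exact ⟨b, h3 b hb, _, _, h4 x h2⟩
  have key0 : ∀ (x : ℕ → ℝ), ∃ b, exec T.ins (k ^ (C * l)) ((List.range (nn k l)).map x) [] =
      some b ∧ ∃ Cs Gs, CertOK s k l b Cs Gs x := by
    intro x
    obtain ⟨st, hst, h2, h3⟩ := exec_fin T _ _ h1 x
    obtain ⟨b, hb⟩ := h1 st hst
    have h4 := hV st hst
    rw [hb] at h4
    simp only at h4
    rw [chk_iff ℝ s hk1 (fin_pv T _ _ st hst)] at h4
    exact ⟨b, h3 b hb, _, _, h4 x h2⟩
  constructor
  · intro R _ _ _ _ P hP
    have := rcf_of_isRealClosed R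
    obtain ⟨x, hx, hS⟩ := inputs_eq P hP
    obtain ⟨b, hb, Cs, Gs, hok⟩ := key R x
    refine ⟨b, ?_, ?_⟩
    · rw [hx]
      exact hb
    · rw [← hS s]
      exact hok.hasComps hk1
  · intro P hP
    obtain ⟨x, hx, hS⟩ := inputs_eq P hP
    obtain ⟨b, hb, Cs, Gs, hok⟩ := key0 x
    refine ⟨b, ?_, ?_⟩
    · rw [hx]
      exact hb
    · rw [← hS s]
      exact hok.card hk1

end Pool.Agent.QCT
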