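import Pool.Agent.QCT.DpDef

/-!
# Project QCT: definable sets and functions of one variable (P9c)
-/

set_option autoImplicit false

namespace Pool.Agent.QCT.OneVar

open Set Polynomial

/-- The restriction of an integral polynomial to a line. -/
noncomputable def lineP {α : Type} (p : MvPolynomial α ℤ) (u w : α → ℝ) : ℝ[X] :=
  MvPolynomial.aeval (fun i => C (u i) + C (w i) * X) p

theorem eval_lineP {α : Type} (p : MvPolynomial α ℤ) (u w : α → ℝ) (t : ℝ) :
    (lineP p u w).eval t = MvPolynomial.aeval (fun i => u i + w i * t) p := by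
  unfold lineP
  have h := MvPolynomial.map_aeval (R := ℤ) (fun i => C (u i) + C (w i) * X : α → ℝ[X])
    (Polynomial.evalRingHom t) p
  rw [← Polynomial.coe_evalRingHom, h, MvPolynomial.aeval_def, MvPolynomial.coe_eval₂Hom]
  have h1 : (evalRingHom t).comp (algebraMap ℤ ℝ[X]) = algebraMap ℤ ℝ := RingHom.ext_int _ _
  rw [h1]
  congr 1
  ext i
  simp

theorem natDegree_lineP {α : Type} (p : MvPolynomial α ℤ) (u w : α → ℝ) :
    (lineP p u w).natDegree ≤ p.totalDegree := by
  unfold lineP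
  rw [MvPolynomial.aeval_def, MvPolynomial.eval₂_eq]
  refine natDegree_sum_le_of_forall_le _ _ fun m hm => ?_
  have h1 : (m.sum fun _ e => e) ≤ p.totalDegree := MvPolynomial.le_totalDegree hm
  refine (natDegree_mul_le).trans ?_
  have h2 : (algebraMap ℤ ℝ[X] (MvPolynomial.coeff m p)).natDegree = 0 := by
    have : algebraMap ℤ ℝ[X] (MvPolynomial.coeff m p) =
        ((MvPolynomial.coeff m p : ℤ) : ℝ[X]) := by simp
    rw [this, natDegree_intCast]
  rw [h2, zero_add]
  refine (natDegree_prod_le _ _).trans (le_trans ?_ h1)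
  unfold Finsupp.sum
  refine Finset.sum_le_sum fun i _ => ?_
  refine (natDegree_pow_le).trans ?_
  have h3 : (C (u i) + C (w i) * X : ℝ[X]).natDegree ≤ 1 := by
    refine (natDegree_add_le _ _).trans (max_le (by simp) ?_)
    exact (natDegree_C_mul_le _ _).trans natDegree_X_le
  calc m i * (C (u i) + C (w i) * X : ℝ[X]).natDegree ≤ m i * 1 := Nat.mul_le_mul_left _ h3
    _ = m i := mul_one _

theorem frontier_line {α : Type} {S : Set (α → ℝ)} (hS : DS S) :
    ∃ N : ℕ, ∀ u w : α → ℝ, (frontier {t : ℝ | (fun i => u i + w i * t) ∈ S}).Finite ∧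
      (frontier {t : ℝ | (fun i => u i + w i * t) ∈ S}).ncard ≤ N := by
  induction hS with
  | pos p =>
    refine ⟨p.totalDegree, fun u w => ?_⟩
    have h1 : frontier {t : ℝ | (fun i => u i + w i * t) ∈
        {x : α → ℝ | 0 < MvPolynomial.aeval x p}} ⊆ ((lineP p u w).roots.toFinset : Set ℝ) := by
      have h2 : {t : ℝ | (fun i => u i + w i * t) ∈ {x : α → ℝ | 0 < MvPolynomial.aeval x p}} =
          {t : ℝ | 0 < (lineP p u w).eval t} := by
        ext t
        simp only [mem_ofPred_eq, eval_lineP]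
      rw [h2]
      by_cases h3 : lineP p u w = 0
      · rw [h3]
        simp
      · intro t ht
        have h4 : (lineP p u w).eval t = 0 := by
          have h5 := frontier_lt_subset_eq (f := fun _ : ℝ => (0 : ℝ))
            (g := fun t => (lineP p u w).eval t) continuous_const (lineP p u w).continuous ht
          exact h5.symm
        simp [h3, h4]
    refine ⟨(Finset.finite_toSet _).subset h1, ?_⟩
    refine (ncard_le_ncard h1 (Finset.finite_toSet _)).trans ?_
    rw [ncard_coe_finset]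
    exact (Multiset.toFinset_card_le _).trans ((card_roots' _).trans (natDegree_lineP p u w))
  | compl hS ih =>
    obtain ⟨N, hN⟩ := ih
    refine ⟨N, fun u w => ?_⟩
    have := hN u w
    rw [← frontier_compl] at this
    exact this
  | @union S T hS hT ihS ihT =>
    obtain ⟨N, hN⟩ := ihS
    obtain ⟨M, hM⟩ := ihT
    refine ⟨N + M, fun u w => ?_⟩
    have h1 := hN u w
    have h2 := hM u w
    have h3 : frontier {t : ℝ | (fun i => u i + w i * t) ∈ S ∪ T} ⊆
        frontier {t : ℝ | (fun i => u i + w i * t) ∈ S} ∪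
          frontier {t : ℝ | (fun i => u i + w i * t) ∈ T} :=
      (frontier_union_subset _ _).trans (union_subset_union inter_subset_left inter_subset_right)
    exact ⟨(h1.1.union h2.1).subset h3, (ncard_le_ncard h3 (h1.1.union h2.1)).trans
      ((ncard_union_le _ _).trans (add_le_add h1.2 h2.2))⟩

variable {X : Type} [Sp X]

/-- The coordinates of `(x, t)`. -/
theorem e_prod (x : X) (t : ℝ) :
    (Sp.e : X × ℝ ≃ (Sp.ι (X × ℝ) → ℝ)) (x, t) =
      fun i : Sp.ι X ⊕ Unit => Sum.elim (Sp.e x) (fun _ => 0) i +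
        Sum.elim (fun _ => 0) (fun _ => 1) i * t := by
  funext i
  rcases i with i | i
  · show Sp.e x i = _
    simp
  · show t = _
    simp

theorem exists_frontier' {P : X → ℝ → Prop} (hP : DP fun p : X × ℝ => P p.1 p.2) :
    ∃ N : ℕ, ∀ x, (frontier {t | P x t}).Finite ∧ (frontier {t | P x t}).ncard ≤ N := by
  obtain ⟨N, hN⟩ := frontier_line hP
  refine ⟨N, fun x => ?_⟩
  have h1 := hN (fun i : Sp.ι X ⊕ Unit => Sum.elim (Sp.e x) (fun _ => 0) i)
    (fun i : Sp.ι X ⊕ Unit => Sum.elim (fun _ => 0) (fun _ => 1) i)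
  have h2 : {t : ℝ | P x t} = {t : ℝ | (fun i : Sp.ι X ⊕ Unit =>
      Sum.elim (Sp.e x) (fun _ => 0) i + Sum.elim (fun _ => 0) (fun _ => 1) i * t) ∈
      {v : Sp.ι (X × ℝ) → ℝ | (fun p : X × ℝ => P p.1 p.2) (Sp.e.symm v)}} := by
    ext t
    show P x t ↔ (fun p : X × ℝ => P p.1 p.2) (Sp.e.symm _)
    rw [← e_prod x t, Equiv.symm_apply_apply]
  rw [h2]
  exact h1

/-- A countable set of real numbers is contained in its frontier. -/
theorem subset_frontier_of_countable {D : Set ℝ} (hD : D.Countable) : D ⊆ frontier D := by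
  intro t ht
  refine ⟨subset_closure ht, fun h => ?_⟩
  rw [interior_eq_empty_iff_dense_compl.2 (hD.dense_compl ℝ)] at h
  exact h

/-- A discontinuity is a frontier point of a sublevel set. -/
theorem exists_rat_of_discont {g : ℝ → ℝ} {t : ℝ} (h : ¬ ContinuousAt g t) :
    ∃ c : ℚ, t ∈ frontier {s | g s < c} := by
  rw [continuousAt_iff_lower_upperSemicontinuousAt] at h
  by_cases h1 : LowerSemicontinuousAt g t
  · have h2 : ¬ UpperSemicontinuousAt g t := fun h2 => h ⟨h1, h2⟩
    rw [upperSemicontinuousAt_iff] at h2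
    push Not at h2
    obtain ⟨y, hy, h3⟩ := h2
    obtain ⟨c, hc, hc'⟩ := exists_rat_btwn hy
    refine ⟨c, subset_closure hc, fun h4 => h3 ?_⟩
    filter_upwards [mem_interior_iff_mem_nhds.1 h4] with s hs
    exact not_le.2 (lt_trans hs hc')
  · rw [lowerSemicontinuousAt_iff] at h1
    push Not at h1
    obtain ⟨y, hy, h3⟩ := h1
    obtain ⟨c, hc, hc'⟩ := exists_rat_btwn hy
    refine ⟨c, ?_, fun h4 => ?_⟩
    · by_contra h4
      refine h3 ?_
      rw [mem_closure_iff_nhds] at h4
      push Not at h4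
      obtain ⟨O, hO, h5⟩ := h4
      filter_upwards [hO] with s hs h6
      have h7 : s ∈ O ∩ {s | g s < c} := ⟨hs, lt_of_le_of_lt h6 hc⟩
      rw [h5] at h7
      exact h7
    · have h5 : t ∈ {s | g s < (c : ℝ)} := interior_subset h4
      exact absurd h5 (not_lt.2 hc'.le)

/-- A real function with finite frontiers of the sublevel sets and definable set of
discontinuities. -/
theorem discont_finite {g : ℝ → ℝ} {N : ℕ} (h1 : ∀ c : ℝ, (frontier {s | g s < c}).Finite)
    (h2 : (frontier {t | ¬ ContinuousAt g t}).Finite ∧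
      (frontier {t | ¬ ContinuousAt g t}).ncard ≤ N) :
    {t | ¬ ContinuousAt g t}.Finite ∧ {t | ¬ ContinuousAt g t}.ncard ≤ N := by
  have h3 : {t | ¬ ContinuousAt g t}.Countable := by
    refine (countable_iUnion fun c : ℚ => (h1 c).countable).mono fun t ht => ?_
    obtain ⟨c, hc⟩ := exists_rat_of_discont ht
    exact mem_iUnion.2 ⟨c, hc⟩
  have h4 := subset_frontier_of_countable h3
  exact ⟨h2.1.subset h4, (ncard_le_ncard h4 h2.1).trans h2.2⟩

omit [Sp X] in
theorem discont_pi {k : ℕ} {f : X → ℝ → (Fin k → ℝ)}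
    (h : ∀ i, ∃ N : ℕ, ∀ x, {t | ¬ ContinuousAt (fun t => f x t i) t}.Finite ∧
      {t | ¬ ContinuousAt (fun t => f x t i) t}.ncard ≤ N) :
    ∃ N : ℕ, ∀ x, {t | ¬ ContinuousAt (f x) t}.Finite ∧
      {t | ¬ ContinuousAt (f x) t}.ncard ≤ N := by
  choose N hN using h
  refine ⟨∑ i, N i, fun x => ?_⟩
  have h1 : {t | ¬ ContinuousAt (f x) t} = ⋃ i, {t | ¬ ContinuousAt (fun t => f x t i) t} := by
    ext t
    simp only [mem_ofPred_eq, mem_iUnion]
    rw [continuousAt_pi]
    push Not
    rfl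
  rw [h1]
  refine ⟨finite_iUnion fun i => (hN i x).1, ?_⟩
  refine (ncard_iUnion_le_of_fintype _).trans ?_
  exact Finset.sum_le_sum fun i _ => (hN i x).2

theorem exists_discont_of {k : ℕ} {f : X → ℝ → (Fin k → ℝ)}
    (hc : ∀ i, DP fun p : X × ℝ => ¬ ContinuousAt (fun t => f p.1 t i) p.2)
    (hl : ∀ i, DP fun p : (X × ℝ) × ℝ => f p.1.1 p.2 i < p.1.2) :
    ∃ N : ℕ, ∀ x, {t | ¬ ContinuousAt (f x) t}.Finite ∧
      {t | ¬ ContinuousAt (f x) t}.ncard ≤ N := by
  refine discont_pi fun i => ?_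
  obtain ⟨N, hN⟩ := exists_frontier' (P := fun x t => ¬ ContinuousAt (fun t => f x t i) t) (hc i)
  obtain ⟨M, hM⟩ := exists_frontier' (P := fun (p : X × ℝ) t => f p.1 t i < p.2) (hl i)
  exact ⟨N, fun x => discont_finite (fun c => (hM (x, c)).1) (hN x)⟩

/-- Continuity at a point without absolute values. -/
theorem continuousAt_iff_lt {g : ℝ → ℝ} {t : ℝ} : ContinuousAt g t ↔
    ∀ ε : ℝ, 0 < ε → ∃ δ : ℝ, 0 < δ ∧ ∀ s : ℝ, t - δ < s ∧ s < t + δ →
      g t - ε < g s ∧ g s < g t + ε := by
  rw [Metric.continuousAt_iff]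
  refine forall₂_congr fun ε _ => exists_congr fun δ => and_congr_right fun _ =>
    forall_congr' fun s => ?_
  rw [Real.dist_eq, Real.dist_eq, abs_lt, abs_lt]
  constructor
  · rintro h ⟨h1, h2⟩
    have := h ⟨by linarith, by linarith⟩
    exact ⟨by linarith, by linarith⟩
  · rintro h ⟨h1, h2⟩
    have := h ⟨by linarith, by linarith⟩
    exact ⟨by linarith, by linarith⟩

end Pool.Agent.QCT.OneVar
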