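import Pool.Agent.QCT.OneVar
import Pool.Agent.QCT.Dp

/-!
# Project QCT: definable functions of one variable (P9c)
-/

set_option autoImplicit false

namespace Pool.Agent.QCT.OneVar

variable {X : Type} [Sp X]

theorem exists_discont' {k : ℕ} {f : X → ℝ → (Fin k → ℝ)}
    (hf : DFn fun p : X × ℝ => f p.1 p.2) :
    ∃ N : ℕ, ∀ x, {t | ¬ ContinuousAt (f x) t}.Finite ∧
      {t | ¬ ContinuousAt (f x) t}.ncard ≤ N := by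
  have hfi : ∀ i, DFn fun p : X × ℝ => f p.1 p.2 i := fun i => Dp.dfn_app i hf
  have key : ∀ (i : Fin k) {Z : Type} [Sp Z] {u : Z → X} {v : Z → ℝ}, DFn u → DFn v →
      DFn fun z => f (u z) (v z) i := by
    intro i Z _ u v hu hv
    exact Dp.dfn_comp (hfi i) (Dp.dfn_prod hu hv)
  have zero : ∀ {Z : Type} [Sp Z], DFn fun _ : Z => (0 : ℝ) := by
    intro Z _
    have := Dp.dfn_int (X := Z) 0
    simpa using this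
  refine exists_discont_of (fun i => ?_) fun i => ?_
  · simp_rw [continuousAt_iff_lt]
    refine Dp.not (Dp.all (Dp.imp (Dp.lt zero Dp.dfn_snd) (Dp.ex (Dp.and
      (Dp.lt zero Dp.dfn_snd) (Dp.all (Dp.imp (Dp.and ?_ ?_) (Dp.and ?_ ?_)))))))
    · exact Dp.lt (Dp.dfn_sub (Dp.dfn_comp Dp.dfn_snd (Dp.dfn_comp Dp.dfn_fst (Dp.dfn_comp Dp.dfn_fst Dp.dfn_fst)))
        (Dp.dfn_comp Dp.dfn_snd Dp.dfn_fst)) Dp.dfn_snd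
    · exact Dp.lt Dp.dfn_snd (Dp.dfn_add (Dp.dfn_comp Dp.dfn_snd (Dp.dfn_comp Dp.dfn_fst (Dp.dfn_comp Dp.dfn_fst Dp.dfn_fst)))
        (Dp.dfn_comp Dp.dfn_snd Dp.dfn_fst))
    · exact Dp.lt (Dp.dfn_sub (key i (Dp.dfn_comp Dp.dfn_fst (Dp.dfn_comp Dp.dfn_fst (Dp.dfn_comp Dp.dfn_fst Dp.dfn_fst)))
        (Dp.dfn_comp Dp.dfn_snd (Dp.dfn_comp Dp.dfn_fst (Dp.dfn_comp Dp.dfn_fst Dp.dfn_fst))))
        (Dp.dfn_comp Dp.dfn_snd (Dp.dfn_comp Dp.dfn_fst Dp.dfn_fst)))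
        (key i (Dp.dfn_comp Dp.dfn_fst (Dp.dfn_comp Dp.dfn_fst (Dp.dfn_comp Dp.dfn_fst Dp.dfn_fst))) Dp.dfn_snd)
    · exact Dp.lt (key i (Dp.dfn_comp Dp.dfn_fst (Dp.dfn_comp Dp.dfn_fst (Dp.dfn_comp Dp.dfn_fst Dp.dfn_fst))) Dp.dfn_snd)
        (Dp.dfn_add (key i (Dp.dfn_comp Dp.dfn_fst (Dp.dfn_comp Dp.dfn_fst (Dp.dfn_comp Dp.dfn_fst Dp.dfn_fst)))
        (Dp.dfn_comp Dp.dfn_snd (Dp.dfn_comp Dp.dfn_fst (Dp.dfn_comp Dp.dfn_fst Dp.dfn_fst))))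
        (Dp.dfn_comp Dp.dfn_snd (Dp.dfn_comp Dp.dfn_fst Dp.dfn_fst)))
  · exact Dp.lt (key i (Dp.dfn_comp Dp.dfn_fst Dp.dfn_fst) Dp.dfn_snd) (Dp.dfn_comp Dp.dfn_snd Dp.dfn_fst)

end Pool.Agent.QCT.OneVar
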