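import Pool.Agent.QCT.Dp

/-!
# Project QCT: families of definable paths
-/

set_option linter.unusedSectionVars false

namespace Pool.Agent.QCT.PRl

variable {k : ℕ}

/-! ## Paths -/

theorem pathIn_congr {S : Set (Fin k → ℝ)} {y y' : Fin k → ℝ} {g h : ℝ → Fin k → ℝ}
    (hg : PathIn S y y' g) (e : ∀ t ∈ Set.Icc (0 : ℝ) 1, h t = g t) : PathIn S y y' h where
  cont := hg.cont.congr e
  zero := (e 0 ⟨le_rfl, zero_le_one⟩).trans hg.zero
  one := (e 1 ⟨zero_le_one, le_rfl⟩).trans hg.one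
  mem := fun t ht => by
    rw [e t ht]
    exact hg.mem t ht

theorem pathIn_mono {S T : Set (Fin k → ℝ)} {y y' : Fin k → ℝ} {g : ℝ → Fin k → ℝ}
    (hg : PathIn S y y' g) (h : ∀ z ∈ S, z ∈ T) : PathIn T y y' g where
  cont := hg.cont
  zero := hg.zero
  one := hg.one
  mem := fun t ht => h _ (hg.mem t ht)

theorem pathIn_const {S : Set (Fin k → ℝ)} {y : Fin k → ℝ} (h : y ∈ S) :
    PathIn S y y fun _ => y where
  cont := continuousOn_const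
  zero := rfl
  one := rfl
  mem := fun _ _ => h

theorem pathIn_left {S : Set (Fin k → ℝ)} {y y' : Fin k → ℝ} {g : ℝ → Fin k → ℝ}
    (hg : PathIn S y y' g) : y ∈ S := by
  have h := hg.mem 0 ⟨le_rfl, zero_le_one⟩
  rwa [hg.zero] at h

theorem pathIn_right {S : Set (Fin k → ℝ)} {y y' : Fin k → ℝ} {g : ℝ → Fin k → ℝ}
    (hg : PathIn S y y' g) : y' ∈ S := by
  have h := hg.mem 1 ⟨zero_le_one, le_rfl⟩
  rwa [hg.one] at h

theorem pathIn_symm {S : Set (Fin k → ℝ)} {y y' : Fin k → ℝ} {g : ℝ → Fin k → ℝ}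
    (hg : PathIn S y y' g) : PathIn S y' y fun t => g (1 - t) where
  cont := hg.cont.comp (continuous_const.sub continuous_id).continuousOn fun t ht =>
    ⟨by linarith [ht.2], by linarith [ht.1]⟩
  zero := by simp only [sub_zero]; exact hg.one
  one := by simp only [sub_self]; exact hg.zero
  mem := fun t ht => hg.mem _ ⟨by linarith [ht.2], by linarith [ht.1]⟩

/-- Concatenation. -/
theorem pathIn_concat {S : Set (Fin k → ℝ)} {y y' y'' : Fin k → ℝ} {g g' h : ℝ → Fin k → ℝ}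
    (hg : PathIn S y y' g) (hg' : PathIn S y' y'' g') (h1 : ∀ t, 2 * t ≤ 1 → h t = g (2 * t))
    (h2 : ∀ t, ¬ 2 * t ≤ 1 → h t = g' (2 * t - 1)) : PathIn S y y'' h := by
  have h3 : ∀ t, 1 ≤ 2 * t → h t = g' (2 * t - 1) := by
    intro t ht
    rcases ht.eq_or_lt with h0 | h0
    · rw [h1 t h0.ge, ← h0, hg.one, sub_self, hg'.zero]
    · exact h2 t (not_le.2 h0)
  have c1 : ContinuousOn h (Set.Icc 0 (1 / 2)) := by
    refine ContinuousOn.congr (f := fun t => g (2 * t)) ?_ fun t ht => h1 t (by linarith [ht.2])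
    exact hg.cont.comp (continuous_const.mul continuous_id).continuousOn fun t ht =>
      ⟨by linarith [ht.1], by linarith [ht.2]⟩
  have c2 : ContinuousOn h (Set.Icc (1 / 2) 1) := by
    refine ContinuousOn.congr (f := fun t => g' (2 * t - 1)) ?_ fun t ht =>
      h3 t (by linarith [ht.1])
    exact hg'.cont.comp ((continuous_const.mul continuous_id).sub continuous_const).continuousOn
      fun t ht => ⟨by linarith [ht.1], by linarith [ht.2]⟩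
  refine ⟨?_, ?_, ?_, fun t ht => ?_⟩
  · have h4 := c1.union_of_isClosed c2 isClosed_Icc isClosed_Icc
    rwa [Set.Icc_union_Icc_eq_Icc (by norm_num) (by norm_num)] at h4
  · rw [h1 0 (by norm_num), mul_zero, hg.zero]
  · rw [h2 1 (by norm_num)]
    norm_num
    exact hg'.one
  · by_cases h0 : 2 * t ≤ 1
    · rw [h1 t h0]
      exact hg.mem _ ⟨by linarith [ht.1], h0⟩
    · rw [h2 t h0]
      push Not at h0
      exact hg'.mem _ ⟨by linarith, by linarith [ht.2]⟩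

/-! ## Families of paths -/

variable {X Y : Type} [Sp X] [Sp Y]

/-- Abbreviation: the space of the parameters and the two ends. -/
abbrev Tri (X : Type) (k : ℕ) := X × (Fin k → ℝ) × (Fin k → ℝ)

theorem pr_mono {S S' : X × (Fin k → ℝ) → Prop} {E E' : Tri X k → Prop} (h : PR S E)
    (hE : ∀ p, E' p → E p) (hS : ∀ x y y' z, E' (x, y, y') → S (x, z) → S' (x, z)) :
    PR S' E' := by
  obtain ⟨g, hg, hp⟩ := h
  exact ⟨g, hg, fun x y y' h0 => pathIn_mono (hp x y y' (hE _ h0)) fun z hz => hS x y y' z h0 hz⟩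

/-- Smaller relation. -/
theorem pr_sub {S : X × (Fin k → ℝ) → Prop} {E E' : Tri X k → Prop} (h : PR S E)
    (hE : ∀ p, E' p → E p) : PR S E' :=
  pr_mono h hE fun _ _ _ _ _ hz => hz

/-- Larger set. -/
theorem pr_set {S S' : X × (Fin k → ℝ) → Prop} {E : Tri X k → Prop} (h : PR S E)
    (hS : ∀ p, S p → S' p) : PR S' E :=
  pr_mono h (fun _ h => h) fun _ _ _ _ _ hz => hS _ hz

/-- The ends are in the set. -/
theorem pr_ends {S : X × (Fin k → ℝ) → Prop} {E : Tri X k → Prop} (h : PR S E) {x : X}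
    {y y' : Fin k → ℝ} (he : E (x, y, y')) : S (x, y) ∧ S (x, y') := by
  obtain ⟨g, hg, hp⟩ := h
  exact ⟨pathIn_left (hp x y y' he), pathIn_right (hp x y y' he)⟩

/-- The ends are joined. -/
theorem pr_joined {S : X × (Fin k → ℝ) → Prop} {E : Tri X k → Prop} (h : PR S E) {x : X}
    {y y' : Fin k → ℝ} (he : E (x, y, y')) : ∃ g, PathIn {z | S (x, z)} y y' g := by
  obtain ⟨g, hg, hp⟩ := h
  exact ⟨_, hp x y y' he⟩

/-- The ends are in the same component. -/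
theorem pr_component {S : X × (Fin k → ℝ) → Prop} {E : Tri X k → Prop} (h : PR S E) {x : X}
    {y y' : Fin k → ℝ} (he : E (x, y, y')) : y' ∈ connectedComponentIn {z | S (x, z)} y := by
  obtain ⟨g, hg⟩ := pr_joined h he
  have h1 : IsPreconnected (g '' Set.Icc (0 : ℝ) 1) := isPreconnected_Icc.image g hg.cont
  have h2 : y ∈ g '' Set.Icc (0 : ℝ) 1 := ⟨0, ⟨le_rfl, zero_le_one⟩, hg.zero⟩
  have h3 : y' ∈ g '' Set.Icc (0 : ℝ) 1 := ⟨1, ⟨zero_le_one, le_rfl⟩, hg.one⟩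
  refine h1.subset_connectedComponentIn h2 ?_ h3
  rintro _ ⟨t, ht, rfl⟩
  exact hg.mem t ht

/-- General change of parameters: a path for `(x, y, y')` is a path for `(a, b, c)`. -/
theorem pr_param {S : X × (Fin k → ℝ) → Prop} {E : Tri X k → Prop}
    {S' : Y × (Fin k → ℝ) → Prop} {E' : Tri Y k → Prop} (h : PR S' E') {a : Tri X k → Tri Y k}
    (ha : DFn a) (hE : ∀ p, E p → E' (a p)) (h1 : ∀ p, E p → (a p).2.1 = p.2.1)
    (h2 : ∀ p, E p → (a p).2.2 = p.2.2)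
    (hS : ∀ p z, E p → S' ((a p).1, z) → S (p.1, z)) : PR S E := by
  obtain ⟨g, hg, hp⟩ := h
  refine ⟨fun q => g ((a (q.1, q.2.1, q.2.2.1)).1, (a (q.1, q.2.1, q.2.2.1)).2.1,
    (a (q.1, q.2.1, q.2.2.1)).2.2, q.2.2.2), ?_, fun x y y' h0 => ?_⟩
  · have d1 : DFn fun q : X × (Fin k → ℝ) × (Fin k → ℝ) × ℝ => a (q.1, q.2.1, q.2.2.1) :=
      Dp.dfn_comp ha (Dp.dfn_prod Dp.dfn_fst (Dp.dfn_prod (Dp.dfn_comp Dp.dfn_fst Dp.dfn_snd)
        (Dp.dfn_comp Dp.dfn_fst (Dp.dfn_comp Dp.dfn_snd Dp.dfn_snd))))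
    have d2 : DFn fun q : X × (Fin k → ℝ) × (Fin k → ℝ) × ℝ => q.2.2.2 :=
      Dp.dfn_comp Dp.dfn_snd (Dp.dfn_comp Dp.dfn_snd Dp.dfn_snd)
    exact Dp.dfn_comp hg (Dp.dfn_prod (Dp.dfn_comp Dp.dfn_fst d1)
      (Dp.dfn_prod (Dp.dfn_comp Dp.dfn_fst (Dp.dfn_comp Dp.dfn_snd d1))
        (Dp.dfn_prod (Dp.dfn_comp Dp.dfn_snd (Dp.dfn_comp Dp.dfn_snd d1)) d2)))
  · have h3 := hp (a (x, y, y')).1 (a (x, y, y')).2.1 (a (x, y, y')).2.2 (hE _ h0)
    have h4 := pathIn_mono (T := {z | S (x, z)}) h3 fun z hz => hS (x, y, y') z h0 hz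
    exact ⟨h4.cont, h4.zero.trans (h1 _ h0), h4.one.trans (h2 _ h0), h4.mem⟩

/-- Change of the parameter space by a definable map which may depend on the ends. -/
theorem pr_pull {S : X × (Fin k → ℝ) → Prop} {E : Tri X k → Prop}
    {S' : Y × (Fin k → ℝ) → Prop} {E' : Tri Y k → Prop} (h : PR S' E') {a : Tri X k → Y}
    (ha : DFn a) (hE : ∀ x y y', E (x, y, y') → E' (a (x, y, y'), y, y'))
    (hS : ∀ x y y' z, E (x, y, y') → S' (a (x, y, y'), z) → S (x, z)) : PR S E :=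
  pr_param h (a := fun p => (a p, p.2.1, p.2.2))
    (Dp.dfn_prod ha (Dp.dfn_prod (Dp.dfn_comp Dp.dfn_fst Dp.dfn_snd)
      (Dp.dfn_comp Dp.dfn_snd Dp.dfn_snd)))
    (fun p h => hE p.1 p.2.1 p.2.2 h) (fun _ _ => rfl) (fun _ _ => rfl)
    fun p z h0 hz => hS p.1 p.2.1 p.2.2 z h0 hz

theorem pr_refl {S : X × (Fin k → ℝ) → Prop} :
    PR S fun p : Tri X k => S (p.1, p.2.1) ∧ p.2.1 = p.2.2 := by
  refine ⟨fun q => q.2.1, Dp.dfn_comp Dp.dfn_fst Dp.dfn_snd, ?_⟩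
  rintro x y y' ⟨h1, h2⟩
  simp only at h2
  subst h2
  exact pathIn_const h1

theorem pr_symm {S : X × (Fin k → ℝ) → Prop} {E : Tri X k → Prop} (h : PR S E) :
    PR S fun p : Tri X k => E (p.1, p.2.2, p.2.1) := by
  obtain ⟨g, hg, hp⟩ := h
  refine ⟨fun q => g (q.1, q.2.2.1, q.2.1, 1 - q.2.2.2), ?_, fun x y y' h0 =>
    pathIn_symm (hp x y' y h0)⟩
  have d1 : DFn fun _ : X × (Fin k → ℝ) × (Fin k → ℝ) × ℝ => (1 : ℝ) := by
    simpa using Dp.dfn_int (X := X × (Fin k → ℝ) × (Fin k → ℝ) × ℝ) 1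
  exact Dp.dfn_comp hg (Dp.dfn_prod Dp.dfn_fst (Dp.dfn_prod
    (Dp.dfn_comp Dp.dfn_fst (Dp.dfn_comp Dp.dfn_snd Dp.dfn_snd))
    (Dp.dfn_prod (Dp.dfn_comp Dp.dfn_fst Dp.dfn_snd)
      (Dp.dfn_sub d1 (Dp.dfn_comp Dp.dfn_snd (Dp.dfn_comp Dp.dfn_snd Dp.dfn_snd))))))

open Classical in
theorem pr_or {S : X × (Fin k → ℝ) → Prop} {E E' : Tri X k → Prop} (hd : DP E) (h : PR S E)
    (h' : PR S E') : PR S fun p => E p ∨ E' p := by
  obtain ⟨g, hg, hp⟩ := h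
  obtain ⟨g', hg', hp'⟩ := h'
  refine ⟨fun q => if E (q.1, q.2.1, q.2.2.1) then g q else g' q, ?_, fun x y y' h0 => ?_⟩
  · exact Dp.dfn_ite (P := fun q : X × (Fin k → ℝ) × (Fin k → ℝ) × ℝ => E (q.1, q.2.1, q.2.2.1))
      (Dp.comp hd (Dp.dfn_prod Dp.dfn_fst (Dp.dfn_prod (Dp.dfn_comp Dp.dfn_fst Dp.dfn_snd)
      (Dp.dfn_comp Dp.dfn_fst (Dp.dfn_comp Dp.dfn_snd Dp.dfn_snd))))) hg hg'
  · by_cases h1 : E (x, y, y')
    · simp only [if_pos h1]
      exact hp x y y' h1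
    · simp only [if_neg h1]
      exact hp' x y y' (h0.resolve_left h1)

theorem pr_false {S : X × (Fin k → ℝ) → Prop} : PR S fun _ : Tri X k => False :=
  ⟨fun q => q.2.1, Dp.dfn_comp Dp.dfn_fst Dp.dfn_snd, fun _ _ _ h => h.elim⟩

theorem pr_exFin {S : X × (Fin k → ℝ) → Prop} {n : ℕ} {E : Fin n → Tri X k → Prop}
    (hd : ∀ i, DP (E i)) (h : ∀ i, PR S (E i)) : PR S fun p => ∃ i, E i p := by
  induction n with
  | zero => exact pr_sub pr_false fun p ⟨i, _⟩ => i.elim0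
  | succ n ih =>
    refine pr_sub (pr_or (hd 0) (h 0) (ih (fun i => hd i.succ) fun i => h i.succ)) ?_
    rintro p ⟨i, hi⟩
    refine Fin.cases (motive := fun i => E i p → E 0 p ∨ ∃ i : Fin n, E i.succ p) ?_ ?_ i hi
    · exact fun h => Or.inl h
    · exact fun i h => Or.inr ⟨i, h⟩

open Classical in
/-- Composition, with a given definable intermediate point. -/
theorem pr_comp_given {S : X × (Fin k → ℝ) → Prop} {E E' E'' : Tri X k → Prop} (h : PR S E)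
    (h' : PR S E') {m : Tri X k → (Fin k → ℝ)} (hm : DFn m)
    (he : ∀ x y y', E'' (x, y, y') → E (x, y, m (x, y, y')) ∧ E' (x, m (x, y, y'), y')) :
    PR S E'' := by
  obtain ⟨g, hg, hp⟩ := h
  obtain ⟨g', hg', hp'⟩ := h'
  have dx : DFn fun q : X × (Fin k → ℝ) × (Fin k → ℝ) × ℝ => q.1 := Dp.dfn_fst
  have dy : DFn fun q : X × (Fin k → ℝ) × (Fin k → ℝ) × ℝ => q.2.1 :=
    Dp.dfn_comp Dp.dfn_fst Dp.dfn_snd
  have dy' : DFn fun q : X × (Fin k → ℝ) × (Fin k → ℝ) × ℝ => q.2.2.1 :=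
    Dp.dfn_comp Dp.dfn_fst (Dp.dfn_comp Dp.dfn_snd Dp.dfn_snd)
  have dt : DFn fun q : X × (Fin k → ℝ) × (Fin k → ℝ) × ℝ => q.2.2.2 :=
    Dp.dfn_comp Dp.dfn_snd (Dp.dfn_comp Dp.dfn_snd Dp.dfn_snd)
  have dm : DFn fun q : X × (Fin k → ℝ) × (Fin k → ℝ) × ℝ => m (q.1, q.2.1, q.2.2.1) :=
    Dp.dfn_comp hm (Dp.dfn_prod dx (Dp.dfn_prod dy dy'))
  have d1 : DFn fun _ : X × (Fin k → ℝ) × (Fin k → ℝ) × ℝ => (1 : ℝ) := by
    simpa using Dp.dfn_int (X := X × (Fin k → ℝ) × (Fin k → ℝ) × ℝ) 1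
  have d2 : DFn fun _ : X × (Fin k → ℝ) × (Fin k → ℝ) × ℝ => (2 : ℝ) := by
    simpa using Dp.dfn_int (X := X × (Fin k → ℝ) × (Fin k → ℝ) × ℝ) 2
  refine ⟨fun q => if 2 * q.2.2.2 ≤ 1 then g (q.1, q.2.1, m (q.1, q.2.1, q.2.2.1), 2 * q.2.2.2)
    else g' (q.1, m (q.1, q.2.1, q.2.2.1), q.2.2.1, 2 * q.2.2.2 - 1), ?_, fun x y y' h0 => ?_⟩
  · convert Dp.dfn_ite (Dp.le (Dp.dfn_mul d2 dt) d1)
      (Dp.dfn_comp hg (Dp.dfn_prod dx (Dp.dfn_prod dy (Dp.dfn_prod dm (Dp.dfn_mul d2 dt)))))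
      (Dp.dfn_comp hg' (Dp.dfn_prod dx (Dp.dfn_prod dm (Dp.dfn_prod dy'
        (Dp.dfn_sub (Dp.dfn_mul d2 dt) d1)))))
  · obtain ⟨h1, h2⟩ := he x y y' h0
    refine pathIn_concat (hp x y _ h1) (hp' x _ y' h2) (fun t ht => ?_) fun t ht => ?_
    · exact if_pos ht
    · exact if_neg ht

/-- The composition of two relations. -/
def Cmp (E E' : Tri X k → Prop) (p : Tri X k) : Prop :=
  ∃ z, E (p.1, p.2.1, z) ∧ E' (p.1, z, p.2.2)

theorem dp_cmp {E E' : Tri X k → Prop} (h : DP E) (h' : DP E') : DP (Cmp E E') := by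
  have dx : DFn fun q : Tri X k × (Fin k → ℝ) => q.1.1 := Dp.dfn_comp Dp.dfn_fst Dp.dfn_fst
  have dy : DFn fun q : Tri X k × (Fin k → ℝ) => q.1.2.1 :=
    Dp.dfn_comp Dp.dfn_fst (Dp.dfn_comp Dp.dfn_snd Dp.dfn_fst)
  have dy' : DFn fun q : Tri X k × (Fin k → ℝ) => q.1.2.2 :=
    Dp.dfn_comp Dp.dfn_snd (Dp.dfn_comp Dp.dfn_snd Dp.dfn_fst)
  have dz : DFn fun q : Tri X k × (Fin k → ℝ) => q.2 := Dp.dfn_snd
  exact Dp.ex (P := fun (p : Tri X k) z => E (p.1, p.2.1, z) ∧ E' (p.1, z, p.2.2))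
    (Dp.and (Dp.comp h (Dp.dfn_prod dx (Dp.dfn_prod dy dz)))
      (Dp.comp h' (Dp.dfn_prod dx (Dp.dfn_prod dz dy'))))

/-- Definable choice (statement). -/
def Choice (k : ℕ) : Prop :=
  ∀ (Z : Type) [Sp Z] (P : Z → (Fin k → ℝ) → Prop),
    (DP fun p : Z × (Fin k → ℝ) => P p.1 p.2) →
    ∃ f : Z → (Fin k → ℝ), DFn f ∧ ∀ x, (∃ y, P x y) → P x (f x)

/-- Composition. -/
theorem pr_cmp (hc : Choice k) {S : X × (Fin k → ℝ) → Prop} {E E' : Tri X k → Prop} (hE : DP E)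
    (hE' : DP E') (h : PR S E) (h' : PR S E') : PR S (Cmp E E') := by
  have dx : DFn fun q : Tri X k × (Fin k → ℝ) => q.1.1 := Dp.dfn_comp Dp.dfn_fst Dp.dfn_fst
  have dy : DFn fun q : Tri X k × (Fin k → ℝ) => q.1.2.1 :=
    Dp.dfn_comp Dp.dfn_fst (Dp.dfn_comp Dp.dfn_snd Dp.dfn_fst)
  have dy' : DFn fun q : Tri X k × (Fin k → ℝ) => q.1.2.2 :=
    Dp.dfn_comp Dp.dfn_snd (Dp.dfn_comp Dp.dfn_snd Dp.dfn_fst)
  have dz : DFn fun q : Tri X k × (Fin k → ℝ) => q.2 := Dp.dfn_snd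
  obtain ⟨m, hm, h1⟩ := hc (Tri X k) (fun p z => E (p.1, p.2.1, z) ∧ E' (p.1, z, p.2.2))
    (Dp.and (Dp.comp hE (Dp.dfn_prod dx (Dp.dfn_prod dy dz)))
      (Dp.comp hE' (Dp.dfn_prod dx (Dp.dfn_prod dz dy'))))
  exact pr_comp_given h h' hm fun x y y' h0 => h1 (x, y, y') h0

/-- The powers of a relation. -/
def Pow (S : X × (Fin k → ℝ) → Prop) (E : Tri X k → Prop) : ℕ → Tri X k → Prop
  | 0 => fun p => S (p.1, p.2.1) ∧ p.2.1 = p.2.2
  | n + 1 => Cmp (Pow S E n) E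

theorem dp_refl {S : X × (Fin k → ℝ) → Prop} (hS : DP S) :
    DP fun p : Tri X k => S (p.1, p.2.1) ∧ p.2.1 = p.2.2 := by
  have dx : DFn fun q : Tri X k => q.1 := Dp.dfn_fst
  have dy : DFn fun q : Tri X k => q.2.1 := Dp.dfn_comp Dp.dfn_fst Dp.dfn_snd
  have dy' : DFn fun q : Tri X k => q.2.2 := Dp.dfn_comp Dp.dfn_snd Dp.dfn_snd
  exact Dp.and (Dp.comp hS (Dp.dfn_prod dx dy)) (Dp.eq dy dy')

theorem dp_pow {S : X × (Fin k → ℝ) → Prop} {E : Tri X k → Prop} (hS : DP S) (hE : DP E)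
    (n : ℕ) : DP (Pow S E n) := by
  induction n with
  | zero => exact dp_refl hS
  | succ n ih => exact dp_cmp ih hE

theorem pr_pow (hc : Choice k) {S : X × (Fin k → ℝ) → Prop} {E : Tri X k → Prop} (hS : DP S)
    (hE : DP E) (h : PR S E) (n : ℕ) : PR S (Pow S E n) := by
  induction n with
  | zero => exact pr_refl
  | succ n ih => exact pr_cmp hc (dp_pow hS hE n) hE ih h

theorem pow_le {S : X × (Fin k → ℝ) → Prop} {E : Tri X k → Prop}
    (hr : ∀ x y, S (x, y) → E (x, y, y)) (he : ∀ x y y', E (x, y, y') → S (x, y'))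
    {m n : ℕ} (hmn : m ≤ n) {p : Tri X k} (h : Pow S E m p) : Pow S E n p := by
  have h1 : ∀ (m : ℕ) (p : Tri X k), Pow S E m p → S (p.1, p.2.2) := by
    intro m
    induction m with
    | zero =>
      rintro p ⟨h1, h2⟩
      rw [← h2]
      exact h1
    | succ m _ =>
      rintro p ⟨z, -, h2⟩
      exact he _ _ _ h2
  induction n, hmn using Nat.le_induction with
  | base => exact h
  | succ n _ ih => exact ⟨p.2.2, ih, hr _ _ (h1 n p ih)⟩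

/-- Chains of bounded length. -/
theorem pow_of_chain {S : X × (Fin k → ℝ) → Prop} {E : Tri X k → Prop} {x : X} {n : ℕ}
    {c : ℕ → Fin k → ℝ} (h0 : S (x, c 0)) (h : ∀ i < n, E (x, c i, c (i + 1))) :
    Pow S E n (x, c 0, c n) := by
  induction n with
  | zero => exact ⟨h0, rfl⟩
  | succ n ih => exact ⟨c n, ih fun i hi => h i (by omega), h n (by omega)⟩

end Pool.Agent.QCT.PRl
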