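import Pool.Agent.QCT.StubD1
import Pool.Agent.QCT.PRl

/-!
# Project QCT, P9d: tubes are path connected
-/

namespace Pool.Agent.QCT.Tube

open Set

section Def

variable {X : Type} [Sp X] {k : ℕ}

theorem dfn_cons {f : X → ℝ} {g : X → (Fin k → ℝ)} (hf : DFn f) (hg : DFn g) :
    DFn fun x => (Fin.cons (f x) (g x) : Fin (k + 1) → ℝ) := by
  have h : (fun x => (Fin.cons (f x) (g x) : Fin (k + 1) → ℝ)) =
      fun x i => (Fin.cons f (fun j x => g x j) : Fin (k + 1) → X → ℝ) i x := by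
    funext x i
    refine Fin.cases ?_ (fun j => ?_) i
    · simp
    · simp
  rw [h]
  refine DFn.pi fun i => ?_
  refine Fin.cases ?_ (fun j => ?_) i
  · simpa using hf
  · simpa using DFn.app j hg

theorem dfn_tail {f : X → (Fin (k + 1) → ℝ)} (hf : DFn f) : DFn fun x => Fin.tail (f x) :=
  DFn.pi (f := fun (j : Fin k) x => f x j.succ) fun j => DFn.app j.succ hf

/-- The slices of a set. -/
theorem dp_slice {S : X × (Fin (k + 1) → ℝ) → Prop} (hS : DP S) :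
    DP fun q : (X × ℝ) × (Fin k → ℝ) => S (q.1.1, Fin.cons q.1.2 q.2) :=
  hS.comp (DFn.prod (DFn.fst.comp DFn.fst) (dfn_cons (DFn.snd.comp DFn.fst) DFn.snd))

/-- The piece over a set of parameters. -/
theorem dp_piece {D : (X × ℝ) × (Fin k → ℝ) → Prop} (hD : DP D) {A : X × ℝ → Prop} (hA : DP A) :
    DP fun p : X × (Fin (k + 1) → ℝ) => A (p.1, p.2 0) ∧ D ((p.1, p.2 0), Fin.tail p.2) :=
  DP.and (hA.comp (DFn.prod DFn.fst (DFn.app 0 DFn.snd)))
    (hD.comp (DFn.prod (DFn.prod DFn.fst (DFn.app 0 DFn.snd)) (dfn_tail DFn.snd)))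

end Def

theorem continuousOn_cons {k : ℕ} {f : ℝ → ℝ} {g : ℝ → Fin k → ℝ} {s : Set ℝ}
    (hf : ContinuousOn f s) (hg : ContinuousOn g s) :
    ContinuousOn (fun t => (Fin.cons (f t) (g t) : Fin (k + 1) → ℝ)) s := by
  refine continuousOn_pi.2 fun i => ?_
  refine Fin.cases ?_ (fun j => ?_) i
  · simpa using hf
  · simpa using (continuousOn_pi.1 hg) j

section Main

variable {X : Type} [Sp X] {k : ℕ} {D : (X × ℝ) × (Fin k → ℝ) → Prop} {A : X × ℝ → Prop}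

/-- The piece of `D` over `A`. -/
def Pc (D : (X × ℝ) × (Fin k → ℝ) → Prop) (A : X × ℝ → Prop) (p : X × (Fin (k + 1) → ℝ)) : Prop :=
  A (p.1, p.2 0) ∧ D ((p.1, p.2 0), Fin.tail p.2)

/-- Paths in a slice. -/
theorem pr_slice (hPR : PR D fun p => D (p.1, p.2.1) ∧ D (p.1, p.2.2)) :
    PR (Pc D A) fun p => Pc D A (p.1, p.2.1) ∧ Pc D A (p.1, p.2.2) ∧ p.2.1 0 = p.2.2 0 := by
  obtain ⟨g, hg, hp⟩ := hPR
  refine ⟨fun q => Fin.cons (q.2.1 0) (g ((q.1, q.2.1 0), Fin.tail q.2.1, Fin.tail q.2.2.1,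
    q.2.2.2)), ?_, ?_⟩
  · have dw : DFn fun q : X × (Fin (k + 1) → ℝ) × (Fin (k + 1) → ℝ) × ℝ => q.2.1 :=
      DFn.fst.comp DFn.snd
    have dw' : DFn fun q : X × (Fin (k + 1) → ℝ) × (Fin (k + 1) → ℝ) × ℝ => q.2.2.1 :=
      DFn.fst.comp (DFn.snd.comp DFn.snd)
    have dt : DFn fun q : X × (Fin (k + 1) → ℝ) × (Fin (k + 1) → ℝ) × ℝ => q.2.2.2 :=
      DFn.snd.comp (DFn.snd.comp DFn.snd)
    exact dfn_cons (DFn.app 0 dw) (hg.comp (DFn.prod (DFn.prod DFn.fst (DFn.app 0 dw))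
      (DFn.prod (dfn_tail dw) (DFn.prod (dfn_tail dw') dt))))
  · rintro x w w' ⟨⟨h1, h2⟩, ⟨h3, h4⟩, h5⟩
    simp only at h1 h2 h3 h4 h5
    rw [← h5] at h3 h4
    have h := hp (x, w 0) (Fin.tail w) (Fin.tail w') ⟨h2, h4⟩
    refine ⟨continuousOn_cons continuousOn_const h.cont, ?_, ?_, fun t ht => ?_⟩
    · simp only [h.zero]
      exact Fin.cons_self_tail w
    · simp only [h.one]
      rw [h5]
      exact Fin.cons_self_tail w'
    · refine ⟨?_, ?_⟩
      · simp only [Fin.cons_zero]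
        exact h1
      · simp only [Fin.cons_zero, Fin.tail_cons]
        exact h.mem t ht

/-- Paths along the chosen points. -/
theorem pr_choice {c : X × ℝ → (Fin k → ℝ)} (hc : DFn c)
    (h1 : ∀ x t, A (x, t) → D ((x, t), c (x, t)))
    (h2 : ∀ x t t', A (x, t) → A (x, t') → ∀ τ ∈ Set.uIcc t t', A (x, τ))
    (h3 : ∀ x t, A (x, t) → ContinuousWithinAt (fun t => c (x, t)) {t | A (x, t)} t) :
    PR (Pc D A) fun p => A (p.1, p.2.1 0) ∧ A (p.1, p.2.2 0) ∧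
      p.2.1 = Fin.cons (p.2.1 0) (c (p.1, p.2.1 0)) ∧
      p.2.2 = Fin.cons (p.2.2 0) (c (p.1, p.2.2 0)) := by
  refine ⟨fun q => Fin.cons (q.2.1 0 + q.2.2.2 * (q.2.2.1 0 - q.2.1 0))
    (c (q.1, q.2.1 0 + q.2.2.2 * (q.2.2.1 0 - q.2.1 0))), ?_, ?_⟩
  · have dw : DFn fun q : X × (Fin (k + 1) → ℝ) × (Fin (k + 1) → ℝ) × ℝ => q.2.1 0 :=
      DFn.app 0 (DFn.fst.comp DFn.snd)
    have dw' : DFn fun q : X × (Fin (k + 1) → ℝ) × (Fin (k + 1) → ℝ) × ℝ => q.2.2.1 0 :=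
      DFn.app 0 (DFn.fst.comp (DFn.snd.comp DFn.snd))
    have dt : DFn fun q : X × (Fin (k + 1) → ℝ) × (Fin (k + 1) → ℝ) × ℝ => q.2.2.2 :=
      DFn.snd.comp (DFn.snd.comp DFn.snd)
    have dτ := DFn.add dw (DFn.mul dt (DFn.sub dw' dw))
    exact dfn_cons dτ (hc.comp (DFn.prod DFn.fst dτ))
  · rintro x w w' ⟨ha, ha', hw, hw'⟩
    simp only at ha ha' hw hw' ⊢
    have hτ : ∀ s ∈ Set.Icc (0 : ℝ) 1, A (x, w 0 + s * (w' 0 - w 0)) := by
      intro s hs
      refine h2 x (w 0) (w' 0) ha ha' _ ?_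
      rw [Set.mem_uIcc]
      rcases le_total (w 0) (w' 0) with h | h
      · left
        constructor
        · have := mul_nonneg hs.1 (sub_nonneg.2 h)
          linarith
        · have := mul_le_mul_of_nonneg_right hs.2 (sub_nonneg.2 h)
          linarith
      · right
        constructor
        · have := mul_le_mul_of_nonneg_right hs.2 (sub_nonneg.2 h)
          linarith
        · have := mul_nonneg hs.1 (sub_nonneg.2 h)
          linarith
    have hcont : ContinuousOn (fun s : ℝ => w 0 + s * (w' 0 - w 0)) (Set.Icc 0 1) :=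
      (continuous_const.add (continuous_id.mul continuous_const)).continuousOn
    have hc' : ContinuousOn (fun t => c (x, t)) {t | A (x, t)} := fun t ht => h3 x t ht
    refine ⟨continuousOn_cons hcont (hc'.comp hcont hτ), ?_, ?_, fun s hs => ⟨?_, ?_⟩⟩
    · simp only [zero_mul, add_zero]
      exact hw.symm
    · simp only [one_mul, add_sub_cancel]
      exact hw'.symm
    · simp only [Fin.cons_zero]
      exact hτ s hs
    · simp only [Fin.cons_zero, Fin.tail_cons]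
      exact h1 x _ (hτ s hs)

/-- Tubes are path connected. -/
theorem tube (hPR : PR D fun p => D (p.1, p.2.1) ∧ D (p.1, p.2.2))
    {c : X × ℝ → (Fin k → ℝ)} (hc : DFn c)
    (h1 : ∀ x t, A (x, t) → D ((x, t), c (x, t)))
    (h2 : ∀ x t t', A (x, t) → A (x, t') → ∀ τ ∈ Set.uIcc t t', A (x, τ))
    (h3 : ∀ x t, A (x, t) → ContinuousWithinAt (fun t => c (x, t)) {t | A (x, t)} t) :
    PR (Pc D A) fun p => Pc D A (p.1, p.2.1) ∧ Pc D A (p.1, p.2.2) := by
  have hs := pr_slice (A := A) hPR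
  have hch := pr_choice hc h1 h2 h3
  have hPc : ∀ x t, A (x, t) → Pc D A (x, Fin.cons t (c (x, t))) := by
    intro x t h
    refine ⟨?_, ?_⟩
    · simp only [Fin.cons_zero]
      exact h
    · simp only [Fin.cons_zero, Fin.tail_cons]
      exact h1 x t h
  -- from the chosen point over `t` to a point over `t'`
  have dm' : DFn fun p : X × (Fin (k + 1) → ℝ) × (Fin (k + 1) → ℝ) =>
      (Fin.cons (p.2.2 0) (c (p.1, p.2.2 0)) : Fin (k + 1) → ℝ) :=
    dfn_cons (DFn.app 0 (DFn.snd.comp DFn.snd))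
      (hc.comp (DFn.prod DFn.fst (DFn.app 0 (DFn.snd.comp DFn.snd))))
  have dm : DFn fun p : X × (Fin (k + 1) → ℝ) × (Fin (k + 1) → ℝ) =>
      (Fin.cons (p.2.1 0) (c (p.1, p.2.1 0)) : Fin (k + 1) → ℝ) :=
    dfn_cons (DFn.app 0 (DFn.fst.comp DFn.snd))
      (hc.comp (DFn.prod DFn.fst (DFn.app 0 (DFn.fst.comp DFn.snd))))
  have h4 : PR (Pc D A) fun p : X × (Fin (k + 1) → ℝ) × (Fin (k + 1) → ℝ) =>
      A (p.1, p.2.1 0) ∧ p.2.1 = Fin.cons (p.2.1 0) (c (p.1, p.2.1 0)) ∧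
        Pc D A (p.1, p.2.2) := by
    refine PRl.pr_comp_given hch hs dm' ?_
    rintro x w w' ⟨ha, hw, hw'⟩
    refine ⟨⟨ha, ?_, hw, ?_⟩, ⟨?_, hw', ?_⟩⟩
    · simp only [Fin.cons_zero]
      exact hw'.1
    · simp only [Fin.cons_zero]
    · exact hPc x _ hw'.1
    · simp only [Fin.cons_zero]
  refine PRl.pr_comp_given hs h4 dm ?_
  rintro x w w' ⟨hw, hw'⟩
  refine ⟨⟨hw, hPc x _ hw.1, ?_⟩, ⟨?_, ?_, hw'⟩⟩
  · simp only [Fin.cons_zero]
  · simp only [Fin.cons_zero]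
    exact hw.1
  · simp only [Fin.cons_zero]

end Main

end Pool.Agent.QCT.Tube
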