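import Pool.Agent.QCT.StubD2
import Pool.Agent.QCT.CurveSel
import Pool.Agent.QCT.Tube

/-!
# Project QCT, P9d: finitely many path connected pieces
-/

namespace Pool.Agent.QCT.Pcs

open Set

/-! ## Cells of the line -/

section Cells

variable {X : Type} [Sp X]

/-- At least `j` elements of `B` are smaller. -/
def cge (B : X × ℝ → Prop) : ℕ → X × ℝ → Prop
  | 0 => fun _ => True
  | j + 1 => fun p => ∃ b : ℝ, b < p.2 ∧ B (p.1, b) ∧ cge B j (p.1, b)

theorem dp_cge {B : X × ℝ → Prop} (hB : DP B) : ∀ j, DP (cge B j)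
  | 0 => DP.const True
  | j + 1 => by
    refine DP.ex (P := fun (p : X × ℝ) (b : ℝ) => b < p.2 ∧ B (p.1, b) ∧ cge B j (p.1, b)) ?_
    have h1 : DFn fun q : (X × ℝ) × ℝ => (q.1.1, q.2) :=
      DFn.prod (DFn.fst.comp DFn.fst) DFn.snd
    exact DP.and (DP.lt DFn.snd (DFn.snd.comp DFn.fst))
      (DP.and (hB.comp h1) ((dp_cge hB j).comp h1))

theorem cge_mono {B : X × ℝ → Prop} {j : ℕ} {x : X} {t t' : ℝ} (h : cge B j (x, t))
    (ht : t ≤ t') : cge B j (x, t') := by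
  cases j with
  | zero => trivial
  | succ j =>
    obtain ⟨b, h1, h2, h3⟩ := h
    exact ⟨b, lt_of_lt_of_le h1 ht, h2, h3⟩

theorem cge_card {B : X × ℝ → Prop} {x : X} (hfin : {t | B (x, t)}.Finite) :
    ∀ (j : ℕ) (t : ℝ), cge B j (x, t) → j ≤ ({b | B (x, b) ∧ b < t} : Set ℝ).ncard
  | 0, _, _ => Nat.zero_le _
  | j + 1, t, h => by
    obtain ⟨b, h1, h2, h3⟩ := h
    have h4 := cge_card hfin j b h3
    have hf : ({b | B (x, b) ∧ b < t} : Set ℝ).Finite := hfin.subset fun b hb => hb.1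
    have hf' : ({b' | B (x, b') ∧ b' < b} : Set ℝ).Finite := hfin.subset fun b hb => hb.1
    have h5 : insert b ({b' | B (x, b') ∧ b' < b} : Set ℝ) ⊆ {b | B (x, b) ∧ b < t} := by
      intro s hs
      rcases hs with rfl | hs
      · exact ⟨h2, h1⟩
      · exact ⟨hs.1, hs.2.trans h1⟩
    have h6 := Set.ncard_le_ncard h5 hf
    rw [Set.ncard_insert_of_notMem (fun hb => lt_irrefl _ hb.2) hf'] at h6
    omega

theorem exists_cge {B : X × ℝ → Prop} {x : X} (hfin : {t | B (x, t)}.Finite) {M : ℕ}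
    (hM : ({t | B (x, t)} : Set ℝ).ncard ≤ M) (t : ℝ) :
    ∃ j : Fin (M + 1), cge B j (x, t) ∧ ¬ cge B (j + 1) (x, t) := by
  classical
  have h : ∃ j, ¬ cge B (j + 1) (x, t) := by
    refine ⟨M, fun h => ?_⟩
    have h1 := cge_card hfin _ t h
    have h2 := Set.ncard_le_ncard (s := {b | B (x, b) ∧ b < t}) (t := {t | B (x, t)})
      (fun b hb => hb.1) hfin
    omega
  have h1 : Nat.find h ≤ M := Nat.find_min' h fun h => by
    have h1 := cge_card hfin _ t h
    have h2 := Set.ncard_le_ncard (s := {b | B (x, b) ∧ b < t}) (t := {t | B (x, t)})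
      (fun b hb => hb.1) hfin
    omega
  refine ⟨⟨Nat.find h, by omega⟩, ?_, Nat.find_spec h⟩
  simp only
  rcases h2 : Nat.find h with _ | i
  · trivial
  · have h3 := Nat.find_min h (m := i) (by omega)
    exact not_not.1 h3

/-- The cells: points of `B`, intervals without points of `B`. -/
def CL (B : X × ℝ → Prop) (j : ℕ) (β : Bool) (p : X × ℝ) : Prop :=
  (B p ↔ β = true) ∧ cge B j p ∧ ¬ cge B (j + 1) p

theorem dp_CL {B : X × ℝ → Prop} (hB : DP B) (j : ℕ) (β : Bool) : DP (CL B j β) :=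
  DP.and (DP.iff hB (DP.const _)) (DP.and (dp_cge hB j) (DP.not (dp_cge hB (j + 1))))

theorem cl_between {B : X × ℝ → Prop} {j : ℕ} {β : Bool} {x : X} {t t' : ℝ}
    (h : CL B j β (x, t)) (h' : CL B j β (x, t')) {b : ℝ} (hb : t ≤ b) (hb' : b < t') :
    ¬ B (x, b) := fun hB =>
  h'.2.2 ⟨b, hb', hB, cge_mono h.2.1 hb⟩

theorem cl_eq {B : X × ℝ → Prop} {j : ℕ} {x : X} {t t' : ℝ}
    (h : CL B j true (x, t)) (h' : CL B j true (x, t')) : t = t' := by
  rcases lt_trichotomy t t' with h1 | h1 | h1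
  · exact absurd (h.1.2 rfl) (cl_between h h' le_rfl h1)
  · exact h1
  · exact absurd (h'.1.2 rfl) (cl_between h' h le_rfl h1)

theorem cl_icc {B : X × ℝ → Prop} {j : ℕ} {x : X} {t t' : ℝ}
    (h : CL B j false (x, t)) (h' : CL B j false (x, t')) {τ : ℝ} (h1 : t ≤ τ) (h2 : τ ≤ t') :
    CL B j false (x, τ) := by
  refine ⟨⟨fun hB => ?_, fun h => by simp at h⟩, cge_mono h.2.1 h1, fun h3 =>
    h'.2.2 (cge_mono h3 h2)⟩
  rcases h2.eq_or_lt with rfl | h3
  · exact h'.1.1 hB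
  · exact absurd hB (cl_between h h' h1 h3)

theorem cl_uIcc {B : X × ℝ → Prop} {j : ℕ} {x : X} {t t' : ℝ}
    (h : CL B j false (x, t)) (h' : CL B j false (x, t')) {τ : ℝ} (h1 : τ ∈ Set.uIcc t t') :
    CL B j false (x, τ) := by
  rw [Set.mem_uIcc] at h1
  rcases h1 with h1 | h1
  · exact cl_icc h h' h1.1 h1.2
  · exact cl_icc h' h h1.1 h1.2

end Cells

/-- A connected set which does not meet the frontier. -/
theorem subset_of_frontier {N I : Set ℝ} (hI : IsPreconnected I) (hd : ∀ z ∈ I, z ∉ frontier N)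
    {t : ℝ} (ht : t ∈ I) (htN : t ∈ N) {τ : ℝ} (hτ : τ ∈ I) : τ ∈ N := by
  by_contra hcon
  have hcov : ∀ z ∈ I, z ∈ interior N ∨ z ∈ (closure N)ᶜ := by
    intro z hz
    by_contra h
    push Not at h
    exact hd z hz ⟨not_not.1 h.2, h.1⟩
  have h1 : (I ∩ interior N).Nonempty :=
    ⟨t, ht, (hcov t ht).resolve_right fun h => h (subset_closure htN)⟩
  have h2 : (I ∩ (closure N)ᶜ).Nonempty :=
    ⟨τ, hτ, (hcov τ hτ).resolve_left fun h => hcon (interior_subset h)⟩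
  obtain ⟨z, -, h3, h4⟩ := hI _ _ isOpen_interior isClosed_closure.isOpen_compl hcov h1 h2
  exact h4 (subset_closure (interior_subset h3))

section Frontier

variable {X : Type} [Sp X]

theorem mem_closure_line {N : Set ℝ} {t : ℝ} :
    t ∈ closure N ↔ ∀ ε, 0 < ε → ∃ s, s ∈ N ∧ s - t < ε ∧ t - s < ε := by
  rw [Metric.mem_closure_iff]
  refine forall_congr' fun ε => forall_congr' fun _ => exists_congr fun s => ?_
  rw [Real.dist_eq, abs_lt]
  constructor
  · rintro ⟨h1, h2, h3⟩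
    exact ⟨h1, by linarith, h3⟩
  · rintro ⟨h1, h2, h3⟩
    exact ⟨h1, by linarith, h3⟩

theorem dp_closure_line {N : X × ℝ → Prop} (hN : DP N) :
    DP fun p : X × ℝ => p.2 ∈ closure {t | N (p.1, t)} := by
  have h : (fun p : X × ℝ => p.2 ∈ closure {t | N (p.1, t)}) =
      fun p => ∀ ε : ℝ, 0 < ε → ∃ s : ℝ, N (p.1, s) ∧ s - p.2 < ε ∧ p.2 - s < ε := by
    funext p
    exact propext mem_closure_line
  rw [h]
  have h1 : DFn fun q : ((X × ℝ) × ℝ) × ℝ => (q.1.1.1, q.2) :=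
    DFn.prod (DFn.fst.comp (DFn.fst.comp DFn.fst)) DFn.snd
  have h2 : DFn fun q : ((X × ℝ) × ℝ) × ℝ => q.1.1.2 := DFn.snd.comp (DFn.fst.comp DFn.fst)
  have h3 : DFn fun q : ((X × ℝ) × ℝ) × ℝ => q.1.2 := DFn.snd.comp DFn.fst
  exact DP.all (DP.imp (CurveSel.dp_pos DFn.snd) (DP.ex (DP.and (hN.comp h1)
    (DP.and (DP.lt (DFn.sub DFn.snd h2) h3) (DP.lt (DFn.sub h2 DFn.snd) h3)))))

theorem dp_frontier {N : X × ℝ → Prop} (hN : DP N) :
    DP fun p : X × ℝ => p.2 ∈ frontier {t | N (p.1, t)} := by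
  have h : (fun p : X × ℝ => p.2 ∈ frontier {t | N (p.1, t)}) =
      fun p => p.2 ∈ closure {t | N (p.1, t)} ∧ p.2 ∈ closure {t | ¬ N (p.1, t)} := by
    funext p
    rw [frontier_eq_closure_inter_closure]
    rfl
  rw [h]
  exact DP.and (dp_closure_line hN) (dp_closure_line (DP.not hN))

end Frontier

/-! ## The induction -/

/-- Reindexing by `Fin`. -/
theorem reindex {X : Type} [Sp X] {k : ℕ} {S : X × (Fin k → ℝ) → Prop} {ι : Type} [Finite ι]
    (D : ι → X × (Fin k → ℝ) → Prop) (h1 : ∀ i, DP (D i)) (h2 : ∀ p, S p ↔ ∃ i, D i p)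
    (h3 : ∀ i, PR (D i) fun p : X × (Fin k → ℝ) × (Fin k → ℝ) =>
      D i (p.1, p.2.1) ∧ D i (p.1, p.2.2)) :
    ∃ (L : ℕ) (D : Fin L → X × (Fin k → ℝ) → Prop), (∀ i, DP (D i)) ∧
      (∀ p, S p ↔ ∃ i, D i p) ∧
      ∀ i, PR (D i) fun p : X × (Fin k → ℝ) × (Fin k → ℝ) =>
        D i (p.1, p.2.1) ∧ D i (p.1, p.2.2) := by
  obtain ⟨L, ⟨e⟩⟩ := Finite.exists_equiv_fin ι
  refine ⟨L, fun j => D (e.symm j), fun j => h1 _, fun p => ?_, fun j => h3 _⟩
  rw [h2]
  constructor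
  · rintro ⟨i, hi⟩
    exact ⟨e i, by simpa using hi⟩
  · rintro ⟨j, hj⟩
    exact ⟨e.symm j, hj⟩

theorem step {X : Type} [Sp X] {k : ℕ} {S : X × (Fin (k + 1) → ℝ) → Prop} (hS : DP S)
    {L : ℕ} {D : Fin L → (X × ℝ) × (Fin k → ℝ) → Prop} (hD : ∀ i, DP (D i))
    (hcov : ∀ q : (X × ℝ) × (Fin k → ℝ), S (q.1.1, Fin.cons q.1.2 q.2) ↔ ∃ i, D i q)
    (hPR : ∀ i, PR (D i) fun p => D i (p.1, p.2.1) ∧ D i (p.1, p.2.2)) :
    ∃ (L : ℕ) (D : Fin L → X × (Fin (k + 1) → ℝ) → Prop), (∀ i, DP (D i)) ∧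
      (∀ p, S p ↔ ∃ i, D i p) ∧
      ∀ i, PR (D i) fun p : X × (Fin (k + 1) → ℝ) × (Fin (k + 1) → ℝ) =>
        D i (p.1, p.2.1) ∧ D i (p.1, p.2.2) := by
  choose c hc hcD using fun i => exists_choice (X := X × ℝ) (k := k) (P := fun q z => D i (q, z))
    (hD i)
  -- nonempty slices
  set N : Fin L → X × ℝ → Prop := fun i q => ∃ z, D i (q, z) with hN
  have hNd : ∀ i, DP (N i) := fun i => DP.ex (P := fun q z => D i (q, z)) (hD i)
  -- the bad set
  set B : X × ℝ → Prop := fun q => ∃ i : Fin L, q.2 ∈ frontier {t | N i (q.1, t)} ∨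
    ¬ ContinuousAt (fun t => c i (q.1, t)) q.2 with hB
  have hcd : ∀ i, DFn fun p : X × ℝ => (fun x t => c i (x, t)) p.1 p.2 := fun i => hc i
  have hBd : DP B := DP.exFin fun i => DP.or (dp_frontier (hNd i))
    (DP.not (CurveSel.dp_continuousAt (f := fun x t => c i (x, t)) (hcd i)))
  have hBfin : ∀ x, {t | B (x, t)}.Finite := by
    intro x
    have h : {t | B (x, t)} = ⋃ i : Fin L, (frontier {t | N i (x, t)} ∪
        {t | ¬ ContinuousAt (fun t => c i (x, t)) t}) := by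
      ext t
      simp only [hB, Set.mem_iUnion]
      rfl
    rw [h]
    refine Set.finite_iUnion fun i => Set.Finite.union ?_ ?_
    · obtain ⟨M, hM⟩ := exists_frontier (P := fun x t => N i (x, t)) (hNd i)
      exact (hM x).1
    · obtain ⟨M, hM⟩ := exists_discont (f := fun x t => c i (x, t)) (hcd i)
      exact (hM x).1
  obtain ⟨M, hM⟩ := exists_frontier (P := fun x t => B (x, t)) hBd
  have hBcard : ∀ x, ({t | B (x, t)} : Set ℝ).ncard ≤ M := fun x =>
    (Set.ncard_le_ncard (OneVar.subset_frontier_of_countable (hBfin x).countable) (hM x).1).trans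
      (hM x).2
  -- the pieces
  set A : Fin L × Fin (M + 1) × Bool → X × ℝ → Prop := fun i q =>
    CL B i.2.1 i.2.2 q ∧ N i.1 q with hA
  refine reindex (ι := Fin L × Fin (M + 1) × Bool) (fun i => Tube.Pc (D i.1) (A i))
    (fun i => Tube.dp_piece (hD i.1) (DP.and (dp_CL hBd _ _) (hNd i.1))) ?_ ?_
  · rintro ⟨x, w⟩
    have h1 := hcov ((x, w 0), Fin.tail w)
    simp only [Fin.cons_self_tail] at h1
    rw [h1]
    constructor
    · rintro ⟨i, hi⟩
      obtain ⟨j, hj⟩ := exists_cge (hBfin x) (hBcard x) (w 0)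
      obtain ⟨β, hβ⟩ : ∃ β : Bool, B (x, w 0) ↔ β = true := by
        by_cases h : B (x, w 0)
        · exact ⟨true, by simpa using h⟩
        · exact ⟨false, by simpa using h⟩
      exact ⟨(i, j, β), ⟨⟨hβ, hj⟩, _, hi⟩, hi⟩
    · rintro ⟨i, -, hi⟩
      exact ⟨i.1, hi⟩
  · rintro ⟨i, j, β⟩
    refine Tube.tube (hPR i) (hc i) ?_ ?_ ?_
    · intro x t h
      exact hcD i (x, t) h.2
    · intro x t t' h h' τ hτ
      cases β with
      | true =>
        have h1 := cl_eq h.1 h'.1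
        subst h1
        rw [Set.uIcc_self, Set.mem_singleton_iff] at hτ
        subst hτ
        exact h
      | false =>
        refine ⟨cl_uIcc h.1 h'.1 hτ, ?_⟩
        refine subset_of_frontier (N := {t | N i (x, t)}) isPreconnected_uIcc (fun z hz hzf => ?_)
          Set.left_mem_uIcc h.2 hτ
        have h1 := (cl_uIcc h.1 h'.1 hz).1.1 ⟨i, Or.inl hzf⟩
        simp at h1
    · intro x t h
      cases β with
      | true =>
        refine ContinuousWithinAt.mono continuousWithinAt_singleton (t := {t}) fun s hs => ?_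
        exact cl_eq hs.1 h.1
      | false =>
        refine ContinuousAt.continuousWithinAt ?_
        by_contra hcon
        have h1 := h.1.1.1 ⟨i, Or.inr hcon⟩
        simp at h1

theorem pieces (k : ℕ) : ∀ {X : Type} [Sp X] {S : X × (Fin k → ℝ) → Prop} (_ : DP S),
    ∃ (L : ℕ) (D : Fin L → X × (Fin k → ℝ) → Prop), (∀ i, DP (D i)) ∧
      (∀ p, S p ↔ ∃ i, D i p) ∧
      ∀ i, PR (D i) fun p : X × (Fin k → ℝ) × (Fin k → ℝ) =>
        D i (p.1, p.2.1) ∧ D i (p.1, p.2.2) := by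
  induction k with
  | zero =>
    intro X _ S hS
    refine ⟨1, fun _ => S, fun _ => hS, fun p => ⟨fun h => ⟨0, h⟩, fun ⟨_, h⟩ => h⟩, fun _ => ?_⟩
    refine PRl.pr_sub PRl.pr_refl fun p h => ⟨h.1, Subsingleton.elim _ _⟩
  | succ k ih =>
    intro X _ S hS
    obtain ⟨L, D, h1, h2, h3⟩ := ih (X := X × ℝ) (Tube.dp_slice hS)
    exact step hS h1 h2 h3

end Pool.Agent.QCT.Pcs
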