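import Pool.Agent.QCT.Sem

/-!
# Project QCT: the polynomial of a coefficient list; closed lists
-/

namespace Pool.Agent.QCT

open Polynomial

/-- The polynomial of a coefficient list. -/
noncomputable def UP.pol {R : Type*} [CommRing R] (x : ℕ → R) (p : UP) : R[X] :=
  ∑ j ∈ Finset.range p.length, C ((p.getD j []).ev x) * X ^ j

/-- Closed lists. -/
structure Closed (G : List UP) : Prop where
  tr : ∀ p ∈ G, 2 ≤ p.length → p.tr ∈ G
  dv : ∀ p ∈ G, 2 ≤ p.length → p.dv ∈ G
  prem : ∀ p ∈ G, ∀ q ∈ G, 2 ≤ q.length → q.length ≤ p.length → p.prem q ∈ G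

/-- The sign assignment is correct at `x` for all coefficients of `G`. -/
def SigOK {R : Type*} [CommRing R] [LinearOrder R] (x : ℕ → R) (σ : Asg) (G : List UP) : Prop :=
  ∀ p ∈ G, ∀ c ∈ p, lk σ c = SignType.sign (c.ev x)

/-- The column gives the signs at `y`. -/
def ColAt {R : Type*} [CommRing R] [LinearOrder R] (x : ℕ → R) (G : List UP) (c : Col) (y : R) :
    Prop := ∀ p ∈ G, lk c p = SignType.sign ((UP.pol x p).eval y)

end Pool.Agent.QCT
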