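import Pool.Agent.QCT.Prim0

/-!
# Project QCT: the operations on polynomials are primitive recursive (P12a, first half)
-/

namespace Pool.Agent.QCT.PrimA

open Pool.Agent.QCT

variable {α β γ : Type} [Primcodable α] [Primcodable β] [Primcodable γ]

theorem filterP {f : α → List β} {p : α → β → Bool} (hf : Primrec f)
    (hp : Primrec₂ p) : Primrec fun a => (f a).filter (p a) := by
  refine (Primrec.listFilterMap hf (g := fun a b => bif p a b then some b else none) ?_).of_eq ?_
  · exact Primrec.cond hp (Primrec.option_some.comp Primrec.snd) (Primrec.const none)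
  · intro a
    induction f a with
    | nil => rfl
    | cons b l ih =>
      cases h : p a b <;> simp [h, ih]

theorem nsc_p {j : α → ℕ} {p : α → Pl} (hj : Primrec j) (hp : Primrec p) :
    Primrec fun a => Pl.nsc (j a) (p a) := by
  unfold Pl.nsc
  exact Primrec.list_flatMap (Primrec.list_range.comp hj) (hp.comp Primrec.fst)

theorem mul_p {p q : α → Pl} (hp : Primrec p) (hq : Primrec q) :
    Primrec fun a => Pl.mul (p a) (q a) := by
  unfold Pl.mul
  refine Primrec.list_flatMap hp ?_
  refine Primrec.list_map (f := fun r : α × (Bool × List ℕ) => q r.1)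
    (g := fun r b => (r.2.1 == b.1, r.2.2 ++ b.2)) (hq.comp Primrec.fst) ?_
  refine Primrec.pair ?_ ?_
  · exact Primrec.beq.comp (Primrec.fst.comp (Primrec.snd.comp Primrec.fst))
      (Primrec.fst.comp Primrec.snd)
  · exact Primrec.list_append.comp (Primrec.snd.comp (Primrec.snd.comp Primrec.fst))
      (Primrec.snd.comp Primrec.snd)

theorem neg_p {p : α → Pl} (hp : Primrec p) : Primrec fun a => Pl.neg (p a) := by
  unfold Pl.neg
  refine Primrec.list_map hp (g := fun _ c => (!c.1, c.2)) ?_
  exact (Primrec.not.comp (Primrec.fst.comp Primrec.snd)).pair (Primrec.snd.comp Primrec.snd)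

theorem add_p {p q : α → Pl} (hp : Primrec p) (hq : Primrec q) :
    Primrec fun a => Pl.add (p a) (q a) := by
  unfold Pl.add
  exact Primrec.list_append.comp hp hq

theorem cnt_p {i : α → ℕ} {m : α → List ℕ} (hi : Primrec i) (hm : Primrec m) :
    Primrec fun a => cnt (i a) (m a) := by
  unfold cnt
  refine Primrec.list_length.comp (filterP (p := fun a b => decide (b = i a)) hm ?_)
  exact (Primrec.eq.comp Primrec.snd (hi.comp Primrec.fst)).decide

theorem dg_p {i : α → ℕ} {p : α → Pl} (hi : Primrec i) (hp : Primrec p) :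
    Primrec fun a => Pl.dg (i a) (p a) := by
  unfold Pl.dg
  refine Primrec.list_foldr (h := fun _ b => max b.1 b.2)
    (Primrec.list_map hp (g := fun a c => cnt (i a) c.2) ?_) (Primrec.const 0) ?_
  · exact cnt_p (hi.comp Primrec.fst) (Primrec.snd.comp Primrec.snd)
  · exact Primrec.nat_max.comp (Primrec.fst.comp Primrec.snd) (Primrec.snd.comp Primrec.snd)

theorem cf_p {i j : α → ℕ} {p : α → Pl} (hi : Primrec i) (hj : Primrec j) (hp : Primrec p) :
    Primrec fun a => Pl.cf (i a) (j a) (p a) := by
  unfold Pl.cf
  refine Primrec.list_map (g := fun a c => (c.1, c.2.filter fun b => decide (b ≠ i a)))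
    (filterP (p := fun a c => decide (cnt (i a) c.2 = j a)) hp ?_) ?_
  · exact (Primrec.eq.comp (cnt_p (hi.comp Primrec.fst) (Primrec.snd.comp Primrec.snd))
      (hj.comp Primrec.fst)).decide
  · refine (Primrec.fst.comp Primrec.snd).pair ?_
    refine filterP (f := fun q : α × (Bool × List ℕ) => q.2.2)
      (p := fun q b => decide (b ≠ i q.1)) (Primrec.snd.comp Primrec.snd) ?_
    exact ((Primrec.eq.comp Primrec.snd (hi.comp (Primrec.fst.comp Primrec.fst))).not).decide

theorem primrec_toU : Primrec₂ toU := by
  have h1 : Primrec fun q : ℕ × Pl => q.1 := Primrec.fst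
  have h2 : Primrec fun q : ℕ × Pl => q.2 := Primrec.snd
  refine (Primrec.list_map (f := fun q : ℕ × Pl => List.range (q.2.dg q.1 + 1))
    (g := fun q j => q.2.cf q.1 j) (Primrec.list_range.comp (Primrec.succ.comp (dg_p h1 h2)))
    ?_).to₂
  exact cf_p (h1.comp Primrec.fst) Primrec.snd (h2.comp Primrec.fst)

theorem lc_p {p : α → UP} (hp : Primrec p) : Primrec fun a => (p a).lc :=
  (Primrec.list_getD []).comp hp
    (Primrec.nat_sub.comp (Primrec.list_length.comp hp) (Primrec.const 1))

theorem rs_p {p q : α → UP} (hp : Primrec p) (hq : Primrec q) :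
    Primrec fun a => (p a).rs (q a) := by
  unfold UP.rs
  refine Primrec.list_map (Primrec.list_range.comp (Primrec.nat_sub.comp
    (Primrec.list_length.comp hp) (Primrec.const 1))) ?_
  have hp' : Primrec fun r : α × ℕ => p r.1 := hp.comp Primrec.fst
  have hq' : Primrec fun r : α × ℕ => q r.1 := hq.comp Primrec.fst
  have hd : Primrec fun r : α × ℕ => (p r.1).length - (q r.1).length :=
    Primrec.nat_sub.comp (Primrec.list_length.comp hp') (Primrec.list_length.comp hq')
  refine add_p (mul_p (mul_p (lc_p hq') (lc_p hq'))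
    ((Primrec.list_getD []).comp hp' Primrec.snd)) (neg_p (mul_p (mul_p (lc_p hq') (lc_p hp'))
    (Primrec.ite (Primrec.nat_le.comp hd Primrec.snd) ?_ (Primrec.const []))))
  exact (Primrec.list_getD []).comp hq' (Primrec.nat_sub.comp Primrec.snd hd)

theorem prem_p {p q : α → UP} (hp : Primrec p) (hq : Primrec q) :
    Primrec fun a => (p a).prem (q a) := by
  unfold UP.prem
  refine Primrec.ite (PrimrecPred.and (Primrec.nat_le.comp (Primrec.const 2)
    (Primrec.list_length.comp hq)) (Primrec.nat_le.comp (Primrec.list_length.comp hq)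
    (Primrec.list_length.comp hp))) ?_ (Primrec.const [])
  refine Primrec.nat_iterate (h := fun a r => if (q a).length ≤ r.length then r.rs (q a) else r)
    (Primrec.list_length.comp hp) hp ?_
  exact Primrec.ite (Primrec.nat_le.comp (Primrec.list_length.comp (hq.comp Primrec.fst))
    (Primrec.list_length.comp Primrec.snd)) (rs_p Primrec.snd (hq.comp Primrec.fst)) Primrec.snd

theorem primrec_prem : Primrec₂ UP.prem := prem_p Primrec.fst Primrec.snd

end Pool.Agent.QCT.PrimA
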