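import Pool.Agent.QCT.PrimA1

/-!
# Project QCT: the closure of a list of polynomials is primitive recursive (P12a, second half)
-/

namespace Pool.Agent.QCT.PrimA

open Pool.Agent.QCT

variable {α β γ : Type} [Primcodable α] [Primcodable β] [Primcodable γ]

theorem primrec_lc : Primrec UP.lc :=
  (Primrec.list_getD []).comp Primrec.id
    (Primrec.nat_sub.comp Primrec.list_length (Primrec.const 1))

theorem primrec_tr : Primrec UP.tr :=
  Primrec.list_take.comp (Primrec.nat_sub.comp Primrec.list_length (Primrec.const 1)) Primrec.id

theorem dv_p {p : α → UP} (hp : Primrec p) : Primrec fun a => (p a).dv := by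
  unfold UP.dv
  refine Primrec.list_map (Primrec.list_range.comp (Primrec.nat_sub.comp
    (Primrec.list_length.comp hp) (Primrec.const 1))) ?_
  refine nsc_p (Primrec.succ.comp Primrec.snd) ?_
  exact (Primrec.list_getD []).comp (hp.comp Primrec.fst) (Primrec.succ.comp Primrec.snd)

theorem primrec_dv : Primrec UP.dv := dv_p Primrec.id

theorem primrec_ops : Primrec ops := by
  unfold ops
  refine Primrec.list_append.comp Primrec.id (Primrec.list_append.comp ?_
    (Primrec.list_append.comp ?_ ?_))
  · exact Primrec.list_map Primrec.id (primrec_tr.comp Primrec.snd)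
  · exact Primrec.list_map Primrec.id (primrec_dv.comp Primrec.snd)
  · refine Primrec.list_flatMap Primrec.id ?_
    refine Primrec.list_map (f := fun q : List UP × UP => q.1)
      (g := fun q b => q.2.prem b) Primrec.fst ?_
    exact prem_p (Primrec.snd.comp Primrec.fst) Primrec.snd

theorem primrec_mxl : Primrec mxl := by
  unfold mxl
  refine Primrec.list_foldr (h := fun _ b => max b.1 b.2)
    (Primrec.list_map Primrec.id (Primrec.list_length.comp Primrec.snd)) (Primrec.const 0) ?_
  exact Primrec.nat_max.comp (Primrec.fst.comp Primrec.snd) (Primrec.snd.comp Primrec.snd)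

theorem primrec_clos : Primrec clos := by
  unfold clos
  exact Primrec.nat_iterate primrec_mxl Primrec.id (primrec_ops.comp Primrec.snd)

private theorem filter_p {f : α → List β} {p : α → β → Bool} (hf : Primrec f)
    (hp : Primrec₂ p) : Primrec fun a => (f a).filter (p a) := by
  refine (Primrec.listFilterMap hf (g := fun a b => bif p a b then some b else none) ?_).of_eq ?_
  · exact Primrec.cond hp (Primrec.option_some.comp Primrec.snd) (Primrec.const none)
  · intro a
    induction f a with
    | nil => rfl
    | cons b l ih =>
      cases h : p a b <;> simp [h, ih]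

theorem primrec_srt : Primrec srt := by
  unfold srt
  refine Primrec.list_flatMap (Primrec.list_range.comp (Primrec.succ.comp primrec_mxl)) ?_
  refine filter_p (f := fun q : List UP × ℕ => q.1)
    (p := fun q b => decide (b.length = q.2)) Primrec.fst ?_
  exact (Primrec.eq.comp (Primrec.list_length.comp Primrec.snd)
    (Primrec.snd.comp Primrec.fst)).decide

end Pool.Agent.QCT.PrimA
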