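import Pool.Agent.QCT.PrimA2

/-!
# Project QCT: the quantifier elimination is primitive recursive
-/

namespace Pool.Agent.QCT.PrimB

open Pool.Agent.QCT

/-! ## The operations on polynomials -/

theorem primrec_lc : Primrec UP.lc := PrimA.primrec_lc

theorem primrec_tr : Primrec UP.tr := PrimA.primrec_tr

theorem primrec_prem : Primrec₂ UP.prem := PrimA.primrec_prem

theorem primrec_toU : Primrec₂ toU := PrimA.primrec_toU

theorem primrec_clos : Primrec clos := PrimA.primrec_clos

theorem primrec_srt : Primrec srt := PrimA.primrec_srt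

variable {α β γ : Type} [Primcodable α] [Primcodable β] [Primcodable γ]

/-! ## General facts -/

theorem filter_p {f : α → List β} {p : α → β → Bool} (hf : Primrec f) (hp : Primrec₂ p) :
    Primrec fun a => (f a).filter (p a) := by
  refine (Primrec.listFilterMap hf (g := fun a b => bif p a b then some b else none) ?_).of_eq ?_
  · exact Primrec.cond hp (Primrec.option_some.comp Primrec.snd) (Primrec.const none)
  · intro a
    induction f a with
    | nil => rfl
    | cons b l ih =>
      cases h : p a b <;> simp [h, ih]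

theorem any_p {f : α → List β} {p : α → β → Bool} (hf : Primrec f) (hp : Primrec₂ p) :
    Primrec fun a => (f a).any (p a) := by
  refine (Primrec.list_foldr hf (Primrec.const false) (h := fun a bs => p a bs.1 || bs.2)
    ?_).of_eq ?_
  · exact Primrec.or.comp (hp.comp Primrec.fst (Primrec.fst.comp Primrec.snd))
      (Primrec.snd.comp Primrec.snd)
  · intro a
    induction f a with
    | nil => rfl
    | cons b l ih =>
      simp only [List.foldr_cons, List.any_cons]
      rw [ih]

theorem all_p {f : α → List β} {p : α → β → Bool} (hf : Primrec f) (hp : Primrec₂ p) :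
    Primrec fun a => (f a).all (p a) := by
  refine (Primrec.list_foldr hf (Primrec.const true) (h := fun a bs => p a bs.1 && bs.2)
    ?_).of_eq ?_
  · exact Primrec.and.comp (hp.comp Primrec.fst (Primrec.fst.comp Primrec.snd))
      (Primrec.snd.comp Primrec.snd)
  · intro a
    induction f a with
    | nil => rfl
    | cons b l ih =>
      simp only [List.foldr_cons, List.all_cons]
      rw [ih]

theorem lk_p [DecidableEq β] {f : α → List (β × SignType)} {g : α → β} (hf : Primrec f)
    (hg : Primrec g) : Primrec fun a => lk (f a) (g a) :=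
  Primrec.option_getD.comp (Primrec.listLookup.comp hg hf) (Primrec.const 0)

theorem mul_s {f g : α → SignType} (hf : Primrec f) (hg : Primrec g) :
    Primrec fun a => f a * g a :=
  (Primrec.dom_finite fun p : SignType × SignType => p.1 * p.2).comp (hf.pair hg)

theorem pow_s {f : α → ℕ} (hf : Primrec f) : Primrec fun a => (-1 : SignType) ^ f a := by
  have h : Primrec fun n : ℕ => (-1 : SignType) ^ n := by
    refine (Primrec.nat_rec₁ (1 : SignType) (f := fun _ s => s * (-1)) ?_).of_eq ?_
    · exact mul_s Primrec.snd (Primrec.const _)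
    · intro n
      induction n with
      | zero => rfl
      | succ n ih =>
        rw [pow_succ, ← ih]
  exact h.comp hf

theorem eq_p {f g : α → β} (hf : Primrec f) (hg : Primrec g) :
    PrimrecPred fun a => f a = g a := Primrec.eq.comp hf hg

theorem two_le_length {f : α → List β} (hf : Primrec f) :
    PrimrecPred fun a => 2 ≤ (f a).length :=
  Primrec.nat_le.comp (Primrec.const 2) (Primrec.list_length.comp hf)

/-! ## Sign tables -/

theorem lc_p {p : α → UP} (hp : Primrec p) : Primrec fun a => (p a).lc := primrec_lc.comp hp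

theorem tr_p {p : α → UP} (hp : Primrec p) : Primrec fun a => (p a).tr := primrec_tr.comp hp

theorem prem_p {p q : α → UP} (hp : Primrec p) (hq : Primrec q) :
    Primrec fun a => (p a).prem (q a) := primrec_prem.comp hp hq

theorem sgT_p {p : α → UP} {σ : α → Asg} {c : α → Col} (hp : Primrec p) (hσ : Primrec σ)
    (hc : Primrec c) : Primrec fun a => sgT (p a) (σ a) (c a) := by
  unfold sgT
  exact Primrec.ite (eq_p (lk_p hσ (lc_p hp)) (Primrec.const 0))
    (Primrec.ite (two_le_length hp) (lk_p hc (tr_p hp)) (Primrec.const 0)) (lk_p hσ (lc_p hp))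

theorem sgA_p {p : α → UP} {σ : α → Asg} {c : α → Col} (hp : Primrec p) (hσ : Primrec σ)
    (hc : Primrec c) : Primrec fun a => sgA (p a) (σ a) (c a) := by
  have h1 : Primrec fun a => ((c a).filter fun e => decide (2 ≤ e.1.length ∧ lk (σ a) e.1.lc ≠ 0 ∧
      e.2 = 0)).head? := by
    refine Primrec.list_head?.comp (filter_p hc ?_)
    refine PrimrecPred.decide ?_
    have hs : Primrec fun q : α × (UP × SignType) => q.2.1 := Primrec.fst.comp Primrec.snd
    exact (two_le_length hs).and (((eq_p (lk_p (hσ.comp Primrec.fst) (lc_p hs))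
      (Primrec.const 0)).not).and (eq_p (Primrec.snd.comp Primrec.snd) (Primrec.const 0)))
  refine (Primrec.option_casesOn h1 (Primrec.const (0 : SignType))
    (g := fun a e => lk (c a) ((p a).prem e.1)) ?_).of_eq ?_
  · exact lk_p (hc.comp Primrec.fst) (prem_p (hp.comp Primrec.fst)
      (Primrec.fst.comp Primrec.snd))
  · intro a
    unfold sgA
    split
    · rename_i e h
      rw [h]
    · rename_i h
      rw [h]

theorem spl_p {p : α → UP} {I : α → Col} {sl sr : α → SignType} (hp : Primrec p)
    (hI : Primrec I) (hl : Primrec sl) (hr : Primrec sr) :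
    Primrec fun a => spl (p a) (I a) (sl a) (sr a) := by
  unfold spl
  refine Primrec.ite (eq_p (mul_s hl hr) (Primrec.const (-1))) ?_ ?_
  · refine Primrec.pair (Primrec.list_cons.comp (hp.pair hl) hI) ?_
    refine Primrec.list_cons.comp (Primrec.pair ?_ ?_) (Primrec.const [])
    · exact Primrec.list_cons.comp (hp.pair (Primrec.const 0)) hI
    · exact Primrec.list_cons.comp (hp.pair hr) hI
  · refine Primrec.pair (Primrec.list_cons.comp (hp.pair ?_) hI) (Primrec.const [])
    exact Primrec.ite (eq_p hl (Primrec.const 0)) hr hl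

/-- The state of the fold. -/
abbrev Acc := SignType × List (Col × Col)

/-- The step of the fold. -/
def stp (p : UP) (σ : Asg) (e : Col × Col) (acc : Acc) : Acc :=
  let s := sgA p σ e.1
  let t := spl p e.2 s acc.1
  (s, ((p, s) :: e.1, t.1) :: (t.2 ++ acc.2))

theorem stp_p {p : α → UP} {σ : α → Asg} {e : α → Col × Col} {acc : α → Acc} (hp : Primrec p)
    (hσ : Primrec σ) (he : Primrec e) (ha : Primrec acc) :
    Primrec fun a => stp (p a) (σ a) (e a) (acc a) := by
  have hs := sgA_p hp hσ (Primrec.fst.comp he)
  have ht := spl_p hp (Primrec.snd.comp he) hs (Primrec.fst.comp ha)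
  exact hs.pair (Primrec.list_cons.comp
    ((Primrec.list_cons.comp (hp.pair hs) (Primrec.fst.comp he)).pair (Primrec.fst.comp ht))
    (Primrec.list_append.comp (Primrec.snd.comp ht) (Primrec.snd.comp ha)))

theorem addP_p {σ : α → Asg} {T : α → Tab} {p : α → UP} (hσ : Primrec σ) (hT : Primrec T)
    (hp : Primrec p) : Primrec fun a => addP (σ a) (T a) (p a) := by
  have hl := lk_p hσ (lc_p hp)
  have hr : Primrec fun a => (T a).2.foldr (fun e acc => stp (p a) (σ a) e acc)
      (lk (σ a) (p a).lc, []) := by
    refine Primrec.list_foldr (Primrec.snd.comp hT) (hl.pair (Primrec.const []))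
      (h := fun a b => stp (p a) (σ a) b.1 b.2) ?_
    exact stp_p (hp.comp Primrec.fst) (hσ.comp Primrec.fst) (Primrec.fst.comp Primrec.snd)
      (Primrec.snd.comp Primrec.snd)
  have ht := spl_p hp (Primrec.fst.comp hT)
    (mul_s hl (pow_s (Primrec.nat_sub.comp (Primrec.list_length.comp hp) (Primrec.const 1))))
    (Primrec.fst.comp hr)
  have h1 : Primrec fun a => (T a).2.map fun e => (((p a, sgT (p a) (σ a) e.1) :: e.1,
      (p a, sgT (p a) (σ a) e.2) :: e.2) : Col × Col) := by
    refine Primrec.list_map (Primrec.snd.comp hT) ?_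
    have hp' : Primrec fun q : α × (Col × Col) => p q.1 := hp.comp Primrec.fst
    have hσ' : Primrec fun q : α × (Col × Col) => σ q.1 := hσ.comp Primrec.fst
    have he1 : Primrec fun q : α × (Col × Col) => q.2.1 := Primrec.fst.comp Primrec.snd
    have he2 : Primrec fun q : α × (Col × Col) => q.2.2 := Primrec.snd.comp Primrec.snd
    exact (Primrec.list_cons.comp (hp'.pair (sgT_p hp' hσ' he1)) he1).pair
      (Primrec.list_cons.comp (hp'.pair (sgT_p hp' hσ' he2)) he2)
  unfold addP
  refine Primrec.ite ((two_le_length hp).and (eq_p hl (Primrec.const 0)).not) ?_ ?_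
  · exact (Primrec.fst.comp ht).pair (Primrec.list_append.comp (Primrec.snd.comp ht)
      (Primrec.snd.comp hr))
  · exact (Primrec.list_cons.comp (hp.pair (sgT_p hp hσ (Primrec.fst.comp hT)))
      (Primrec.fst.comp hT)).pair h1

theorem tabl_p {σ : α → Asg} {G : α → List UP} (hσ : Primrec σ) (hG : Primrec G) :
    Primrec fun a => tabl (σ a) (G a) := by
  unfold tabl
  refine Primrec.list_foldl (primrec_srt.comp hG) (Primrec.const (([], []) : Tab))
    (h := fun a b => addP (σ a) b.1 b.2) ?_
  exact addP_p (hσ.comp Primrec.fst) (Primrec.fst.comp Primrec.snd) (Primrec.snd.comp Primrec.snd)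

theorem cols_p {σ : α → Asg} {G : α → List UP} (hσ : Primrec σ) (hG : Primrec G) :
    Primrec fun a => cols (σ a) (G a) := by
  have h := tabl_p hσ hG
  unfold cols
  refine Primrec.list_cons.comp (Primrec.fst.comp h) (Primrec.list_flatMap (Primrec.snd.comp h) ?_)
  exact Primrec.list_cons.comp (Primrec.fst.comp Primrec.snd)
    (Primrec.list_cons.comp (Primrec.snd.comp Primrec.snd) (Primrec.const []))

/-! ## Quantifier elimination -/

theorem asg_p {K : α → List Pl} (hK : Primrec K) : Primrec fun a => asg (K a) := by
  unfold asg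
  refine Primrec.list_foldr hK (Primrec.const [[]]) (h := fun _ b => b.2.flatMap fun c =>
    [(b.1, (-1 : SignType)) :: c, (b.1, 0) :: c, (b.1, 1) :: c]) ?_
  refine Primrec.list_flatMap (Primrec.snd.comp Primrec.snd) ?_
  have h1 : Primrec fun q : (α × Pl × List Asg) × Asg => q.1.2.1 :=
    Primrec.fst.comp (Primrec.snd.comp Primrec.fst)
  have h2 : Primrec fun q : (α × Pl × List Asg) × Asg => q.2 := Primrec.snd
  have h3 : ∀ s : SignType, Primrec fun q : (α × Pl × List Asg) × Asg => (q.1.2.1, s) :: q.2 :=
    fun s => Primrec.list_cons.comp (h1.pair (Primrec.const s)) h2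
  exact Primrec.list_cons.comp (h3 _) (Primrec.list_cons.comp (h3 _) (Primrec.list_cons.comp (h3 _)
    (Primrec.const [])))

theorem evC_p {M : α → Mat} {i : α → ℕ} {c : α → Col} (hM : Primrec M) (hi : Primrec i)
    (hc : Primrec c) : Primrec fun a => (M a).evC (i a) (c a) := by
  unfold Mat.evC
  refine any_p hM (all_p Primrec.snd (PrimrecPred.decide (eq_p (lk_p ?_ (primrec_toU.comp ?_ ?_))
    ?_)))
  · exact hc.comp (Primrec.fst.comp Primrec.fst)
  · exact hi.comp (Primrec.fst.comp Primrec.fst)
  · exact Primrec.fst.comp Primrec.snd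
  · exact Primrec.snd.comp Primrec.snd

theorem pls_p {M : α → Mat} (hM : Primrec M) : Primrec fun a => (M a).pls := by
  unfold Mat.pls
  exact Primrec.list_flatMap hM (Primrec.list_map Primrec.snd (Primrec.fst.comp Primrec.snd))

theorem qe_p {b : α → Bool} {i : α → ℕ} {M : α → Mat} (hb : Primrec b) (hi : Primrec i)
    (hM : Primrec M) : Primrec fun a => qe (b a) (i a) (M a) := by
  have hG : Primrec fun a => clos ((M a).pls.map (toU (i a))) :=
    primrec_clos.comp (Primrec.list_map (pls_p hM) (primrec_toU.comp (hi.comp Primrec.fst)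
      Primrec.snd))
  have hc : Primrec fun q : α × Asg => cols q.2 (clos ((M q.1).pls.map (toU (i q.1)))) :=
    cols_p Primrec.snd (hG.comp Primrec.fst)
  have he : Primrec₂ fun (q : α × Asg) (c : Col) => (M q.1).evC (i q.1) c :=
    evC_p (hM.comp (Primrec.fst.comp Primrec.fst)) (hi.comp (Primrec.fst.comp Primrec.fst))
      Primrec.snd
  unfold qe
  refine filter_p (asg_p (Primrec.list_flatten.comp hG)) ?_
  refine (Primrec.cond (hb.comp Primrec.fst) (any_p hc he) (all_p hc he)).of_eq ?_
  intro q
  cases h : b q.1 <;> simp [h]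

theorem sg0_p {p : α → Pl} (hp : Primrec p) : Primrec fun a => (p a).sg0 := by
  have h : ∀ b : Bool, Primrec fun a => ((p a).filter fun c => decide (c.2 = [] ∧ c.1 = b)).length := by
    intro b
    refine Primrec.list_length.comp (filter_p hp (PrimrecPred.decide (PrimrecPred.and
      (eq_p ?_ (Primrec.const [])) (eq_p ?_ (Primrec.const b)))))
    · exact Primrec.snd.comp Primrec.snd
    · exact Primrec.fst.comp Primrec.snd
  unfold Pl.sg0
  exact Primrec.ite (Primrec.nat_lt.comp (h true) (h false)) (Primrec.const (-1))
    (Primrec.ite (eq_p (h true) (h false)) (Primrec.const 0) (Primrec.const 1))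

theorem ev0_p {M : α → Mat} (hM : Primrec M) : Primrec fun a => (M a).ev0 := by
  unfold Mat.ev0
  refine any_p hM (all_p Primrec.snd (PrimrecPred.decide (eq_p (sg0_p ?_) ?_)))
  · exact Primrec.fst.comp Primrec.snd
  · exact Primrec.snd.comp Primrec.snd

theorem zip_range (qs : List Bool) : qs.zip (List.range qs.length) =
    (List.range qs.length).map fun i => (qs.getD i false, i) := by
  refine List.ext_getElem (by simp) fun i h1 h2 => ?_
  simp at h1 h2
  simp [List.getD_eq_getElem?_getD, h2]

theorem decideQ_p {qs : α → List Bool} {M : α → Mat} (hq : Primrec qs) (hM : Primrec M) :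
    Primrec fun a => decideQ (qs a) (M a) := by
  have hz : Primrec fun a => (qs a).zip (List.range (qs a).length) := by
    simp only [zip_range]
    exact Primrec.list_map (Primrec.list_range.comp (Primrec.list_length.comp hq))
      (((Primrec.list_getD false).comp (hq.comp Primrec.fst) Primrec.snd).pair Primrec.snd)
  unfold decideQ
  refine ev0_p (Primrec.list_foldr hz hM (h := fun _ b => qe b.1.1 b.1.2 b.2) ?_)
  exact qe_p (Primrec.fst.comp (Primrec.fst.comp Primrec.snd))
    (Primrec.snd.comp (Primrec.fst.comp Primrec.snd)) (Primrec.snd.comp Primrec.snd)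

end Pool.Agent.QCT.PrimB
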