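import Pool.Agent.QCT.Cert

/-!
# Project QCT, definitions: semialgebraic components, execution, semantics of certificates
-/

namespace Pool.Agent.QCT

section Field

variable {R : Type*} [Field R] [LinearOrder R] {k : ℕ}

/-- Semialgebraic subsets of `R ^ k`. -/
inductive SA : Set (Fin k → R) → Prop
  | pos (p : MvPolynomial (Fin k) R) : SA {y | 0 < MvPolynomial.eval y p}
  | compl {S : Set (Fin k → R)} : SA S → SA Sᶜ
  | union {S T : Set (Fin k → R)} : SA S → SA T → SA (S ∪ T)

/-- `U` is open in `S` (for the order topology of `R ^ k`; `U ⊆ S` is not part of it). -/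
def OpenIn (S U : Set (Fin k → R)) : Prop :=
  ∀ y ∈ U, ∃ ε > 0, ∀ z ∈ S, (∀ i, |z i - y i| < ε) → z ∈ U

/-- Semialgebraically connected: not the union of two disjoint nonempty semialgebraic sets open
in it. -/
def SAConn (S : Set (Fin k → R)) : Prop :=
  ∀ U V, SA U → SA V → U ∪ V = S → Disjoint U V → OpenIn S U → OpenIn S V → U = ∅ ∨ V = ∅

/-- `S` has exactly `b` semialgebraically connected components: `S` is the disjoint union of `b`
nonempty semialgebraically connected semialgebraic sets which are open in `S`. -/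
def HasComps (S : Set (Fin k → R)) (b : ℕ) : Prop :=
  ∃ D : Fin b → Set (Fin k → R),
    (∀ i, SA (D i) ∧ (D i).Nonempty ∧ SAConn (D i) ∧ OpenIn S (D i)) ∧
    (∀ i j, i ≠ j → Disjoint (D i) (D j)) ∧ ⋃ i, D i = S

/-- Value of an operand; the registers are `r`. -/
def opv (r : List R) : Opd → R := Sum.elim (fun i => r.getD i 0) (fun z => (z : R))

/-- The result of a ring operation. -/
def res (r : List R) (o : Fin 4) (u v : Opd) : R :=
  if o = 0 then opv r u + opv r v else if o = 1 then opv r u - opv r v else opv r u * opv r v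

/-- Execution of the strategy `A` with at most `t` ring operations and sign tests. The strategy
sees only the history `h`: for each step the sign (`-1`, `0`, `1`) of the tested element, or `0` if
the step was a ring operation. -/
def exec (A : List ℤ → Ins) : ℕ → List R → List ℤ → Option ℕ
  | t, r, h => match A h, t with
    | Sum.inl b, _ => some b
    | Sum.inr _, 0 => none
    | Sum.inr (o, u, v), t + 1 =>
      if o = 3 then exec A t r (h ++ [zs (SignType.sign (opv r u))])
      else exec A t (r ++ [res r o u v]) (h ++ [0])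

/-! ## The set defined by an input -/

/-- Coordinates, zero outside. -/
def exv (y : Fin k → R) (i : ℕ) : R := if h : i < k then y ⟨i, h⟩ else 0

/-- Coordinates, with `y_k = 1`. -/
def hom (y : Fin k → R) (i : ℕ) : R := if h : i < k then y ⟨i, h⟩ else 1

/-- The polynomial `P_m` with coefficients `x`. -/
def pmv (x : ℕ → R) (m : ℕ) (y : Fin k → R) : R :=
  ∑ i ∈ Finset.range (k + 1), ∑ j ∈ (Finset.range (k + 1)).filter fun j => i ≤ j,
    x (ci k m i j) * (hom y i * hom y j)

/-- The set. -/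
def SS (s : Bool) (k l : ℕ) (x : ℕ → R) : Set (Fin k → R) :=
  {y | ∀ m < l, if s then 0 ≤ pmv x m y else pmv x m y ≤ 0}

/-- Assignment: input and blocks. -/
def asn (N : ℕ) (x : ℕ → R) (ys : List (Fin k → R)) (v : ℕ) : R :=
  if v < N then x v else exv (ys.getD ((v - N) / k) 0) ((v - N) % k)

/-- Squared distance. -/
def dist2 (y z : Fin k → R) : R := ∑ i, (y i - z i) ^ 2

/-- The `i`-th component. -/
def Csat (N : ℕ) (Cs : List Mat) (x : ℕ → R) (i : ℕ) (y : Fin k → R) : Prop :=
  (Cs.getD i []).sat (asn N x [y])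

/-- The graph of the path from `y` to `y'` in the `i`-th component. -/
def Gsat (N : ℕ) (Gs : List Mat) (x : ℕ → R) (i : ℕ) (y y' t z : Fin k → R) : Prop :=
  (Gs.getD i []).sat (asn N x [y, y', t, z])

/-- The certificate is correct for the input `x`. -/
structure CertOK (s : Bool) (k l b : ℕ) (Cs Gs : List Mat) (x : ℕ → R) : Prop where
  cover : ∀ y : Fin k → R, y ∈ SS s k l x ↔ ∃ i < b, Csat (nn k l) Cs x i y
  disj : ∀ i j, i < j → j < b → ∀ y : Fin k → R,
    ¬ (Csat (nn k l) Cs x i y ∧ Csat (nn k l) Cs x j y)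
  ne : ∀ i < b, ∃ y : Fin k → R, Csat (nn k l) Cs x i y
  opn : ∀ i < b, ∀ y : Fin k → R, Csat (nn k l) Cs x i y → ∃ ε > 0, ∀ y' : Fin k → R,
    dist2 y y' < ε → y' ∈ SS s k l x → Csat (nn k l) Cs x i y'
  ex : ∀ i < b, ∀ y y' : Fin k → R, Csat (nn k l) Cs x i y → Csat (nn k l) Cs x i y' →
    ∀ t : Fin k → R, 0 ≤ exv t 0 → exv t 0 ≤ 1 → ∃ z, Gsat (nn k l) Gs x i y y' t z ∧
      Csat (nn k l) Cs x i z
  cont : ∀ i < b, ∀ y y' : Fin k → R, Csat (nn k l) Cs x i y → Csat (nn k l) Cs x i y' →
    ∀ t z : Fin k → R, 0 ≤ exv t 0 → exv t 0 ≤ 1 → Gsat (nn k l) Gs x i y y' t z → ∀ ε > 0,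
      ∃ δ > 0, ∀ t' z' : Fin k → R, 0 ≤ exv t' 0 → exv t' 0 ≤ 1 →
        Gsat (nn k l) Gs x i y y' t' z' → (exv t 0 - exv t' 0) ^ 2 < δ → dist2 z z' < ε
  ends : ∀ i < b, ∀ y y' : Fin k → R, Csat (nn k l) Cs x i y → Csat (nn k l) Cs x i y' →
    ∀ t z : Fin k → R, Gsat (nn k l) Gs x i y y' t z →
      (exv t 0 = 0 → z = y) ∧ (exv t 0 = 1 → z = y')

/-- The exponent of `X_i`; `X_k` is `1`. -/
noncomputable def expo (k i : ℕ) : Fin k →₀ ℕ := if h : i < k then Finsupp.single ⟨i, h⟩ 1 else 0

/-- The input: for all `m < l` and `i, j ≤ k` the coefficient of `X_i X_j` in `P_m`, where `X_k` is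
`1`. -/
noncomputable def inputs {l : ℕ} (P : Fin l → MvPolynomial (Fin k) R) : List R :=
  (List.finRange l).flatMap fun m => (List.range (k + 1)).flatMap fun i =>
    (List.range (k + 1)).map fun j => (P m).coeff (expo k i + expo k j)

end Field

end Pool.Agent.QCT
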