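import Pool.Agent.QCT.StubD1
import Pool.Agent.QCT.OneVarB
import Pool.Agent.QCT.Choice

/-!
# Project QCT: existence of certificates over the reals, statements (P9b, P9c)
-/

namespace Pool.Agent.QCT

variable {X : Type} [Sp X]

/-! ## P9b: definable choice (QCT/Choice.lean) -/

theorem exists_choice {k : ℕ} {P : X → (Fin k → ℝ) → Prop}
    (hP : DP fun p : X × (Fin k → ℝ) => P p.1 p.2) :
    ∃ f : X → (Fin k → ℝ), DFn f ∧ ∀ x, (∃ y, P x y) → P x (f x) :=
  Cho.exists_choice' hP

/-! ## P9c: one variable (QCT/OneVar.lean) -/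

/-- Definable subsets of the line have finite frontier, uniformly. -/
theorem exists_frontier {P : X → ℝ → Prop} (hP : DP fun p : X × ℝ => P p.1 p.2) :
    ∃ N : ℕ, ∀ x, (frontier {t | P x t}).Finite ∧ (frontier {t | P x t}).ncard ≤ N :=
  OneVar.exists_frontier' hP

/-- Definable functions of one variable are continuous outside a finite set, uniformly. -/
theorem exists_discont {k : ℕ} {f : X → ℝ → (Fin k → ℝ)}
    (hf : DFn fun p : X × ℝ => f p.1 p.2) :
    ∃ N : ℕ, ∀ x, {t | ¬ ContinuousAt (f x) t}.Finite ∧ {t | ¬ ContinuousAt (f x) t}.ncard ≤ N :=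
  OneVar.exists_discont' hf

end Pool.Agent.QCT
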