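import Pool.Agent.QCT.StubD2
import Pool.Agent.QCT.Pieces

/-!
# Project QCT: existence of certificates over the reals, statements (P9d)
-/

namespace Pool.Agent.QCT

variable {X : Type} [Sp X]

/-! ## P9d: finitely many path connected pieces (QCT/Pieces.lean) -/

theorem exists_pieces {k : ℕ} {S : X × (Fin k → ℝ) → Prop} (hS : DP S) :
    ∃ (L : ℕ) (D : Fin L → X × (Fin k → ℝ) → Prop), (∀ i, DP (D i)) ∧
      (∀ p, S p ↔ ∃ i, D i p) ∧
      ∀ i, PR (D i) fun p : X × (Fin k → ℝ) × (Fin k → ℝ) => D i (p.1, p.2.1) ∧ D i (p.1, p.2.2) :=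
  Pcs.pieces k hS

end Pool.Agent.QCT
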