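import Pool.Agent.QCT.StubD1
import Pool.Agent.QCT.StubD2
import Pool.Agent.QCT.StubD3

/-!
# Project QCT: existence of certificates over the reals, statements (P9)

`StubD1`: P9a; `StubD2`: P9b, P9c; `StubD3`: P9d; P9e is in `Same.lean` (it uses these statements).
A proof of a statement of `StubDn` imports only `StubD1, ..., StubD(n-1)` (and the finished files
of others).
-/
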