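import Pool.Agent.QCT.DpDef
import Pool.Agent.QCT.StubA
import Pool.Agent.QCT.Dp

/-!
# Project QCT: existence of certificates over the reals, statements (P9a)
-/

namespace Pool.Agent.QCT

variable {X Y Z : Type} [Sp X] [Sp Y] [Sp Z]

/-! ## P9a: definable predicates and functions (QCT/Dp.lean) -/

theorem DP.and {P Q : X → Prop} (hP : DP P) (hQ : DP Q) : DP fun x => P x ∧ Q x :=
  Dp.and hP hQ

theorem DP.or {P Q : X → Prop} (hP : DP P) (hQ : DP Q) : DP fun x => P x ∨ Q x :=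
  Dp.or hP hQ

theorem DP.not {P : X → Prop} (hP : DP P) : DP fun x => ¬ P x :=
  Dp.not hP

theorem DP.imp {P Q : X → Prop} (hP : DP P) (hQ : DP Q) : DP fun x => P x → Q x :=
  Dp.imp hP hQ

theorem DP.iff {P Q : X → Prop} (hP : DP P) (hQ : DP Q) : DP fun x => (P x ↔ Q x) :=
  Dp.iff hP hQ

theorem DP.const (p : Prop) : DP fun _ : X => p :=
  Dp.const p

/-- Quantifier elimination. -/
theorem DP.ex {P : X → Y → Prop} (hP : DP fun p : X × Y => P p.1 p.2) :
    DP fun x => ∃ y, P x y :=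
  Dp.ex hP

theorem DP.all {P : X → Y → Prop} (hP : DP fun p : X × Y => P p.1 p.2) :
    DP fun x => ∀ y, P x y :=
  Dp.all hP

theorem DP.exFin {n : ℕ} {P : Fin n → X → Prop} (hP : ∀ i, DP (P i)) :
    DP fun x => ∃ i, P i x :=
  Dp.exFinite hP

theorem DP.allFin {n : ℕ} {P : Fin n → X → Prop} (hP : ∀ i, DP (P i)) :
    DP fun x => ∀ i, P i x :=
  Dp.allFinite hP

theorem DP.comp {P : Y → Prop} (hP : DP P) {f : X → Y} (hf : DFn f) : DP fun x => P (f x) :=
  Dp.comp hP hf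

theorem DFn.id : DFn fun x : X => x :=
  Dp.dfn_id

theorem DFn.fst : DFn fun p : X × Y => p.1 :=
  Dp.dfn_fst

theorem DFn.snd : DFn fun p : X × Y => p.2 :=
  Dp.dfn_snd

theorem DFn.prod {f : X → Y} {g : X → Z} (hf : DFn f) (hg : DFn g) :
    DFn fun x => (f x, g x) :=
  Dp.dfn_prod hf hg

theorem DFn.comp {g : Y → Z} (hg : DFn g) {f : X → Y} (hf : DFn f) : DFn fun x => g (f x) :=
  Dp.dfn_comp hg hf

theorem DFn.int (z : ℤ) : DFn fun _ : X => (z : ℝ) :=
  Dp.dfn_int z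

theorem DFn.add {f g : X → ℝ} (hf : DFn f) (hg : DFn g) : DFn fun x => f x + g x :=
  Dp.dfn_add hf hg

theorem DFn.sub {f g : X → ℝ} (hf : DFn f) (hg : DFn g) : DFn fun x => f x - g x :=
  Dp.dfn_sub hf hg

theorem DFn.mul {f g : X → ℝ} (hf : DFn f) (hg : DFn g) : DFn fun x => f x * g x :=
  Dp.dfn_mul hf hg

theorem DFn.div {f g : X → ℝ} (hf : DFn f) (hg : DFn g) : DFn fun x => f x / g x :=
  Dp.dfn_div hf hg

theorem DFn.pi {α : Type} [Finite α] {f : α → X → ℝ} (hf : ∀ i, DFn (f i)) :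
    DFn fun x => fun i => f i x :=
  Dp.dfn_pi hf

theorem DFn.app {α : Type} [Finite α] (i : α) {f : X → α → ℝ} (hf : DFn f) :
    DFn fun x => f x i :=
  Dp.dfn_app i hf

open Classical in
theorem DFn.ite {P : X → Prop} (hP : DP P) {f g : X → Y} (hf : DFn f) (hg : DFn g) :
    DFn fun x => if P x then f x else g x :=
  Dp.dfn_ite hP hf hg

theorem DP.lt {f g : X → ℝ} (hf : DFn f) (hg : DFn g) : DP fun x => f x < g x :=
  Dp.lt hf hg

theorem DP.le {f g : X → ℝ} (hf : DFn f) (hg : DFn g) : DP fun x => f x ≤ g x :=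
  Dp.le hf hg

theorem DP.eq {f g : X → Y} (hf : DFn f) (hg : DFn g) : DP fun x => f x = g x :=
  Dp.eq hf hg

/-- From predicates to matrices. -/
theorem DP.exists_mat {P : X → Prop} (hP : DP P) (c : Sp.ι X → ℕ) :
    ∃ M : Mat, ∀ (p : X) (a : ℕ → ℝ), (∀ i, a (c i) = Sp.e p i) → (M.sat a ↔ P p) :=
  Dp.exists_mat' hP c

end Pool.Agent.QCT
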