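import Pool.Agent.QCT.Sem

/-!
# Project QCT: the number of semialgebraically connected components is unique
-/

namespace Pool.Agent.QCT

variable {R : Type*} [Field R] [LinearOrder R] {k : ℕ}

theorem SA.inter {S T : Set (Fin k → R)} (hS : SA S) (hT : SA T) : SA (S ∩ T) := by
  have h := (hS.compl.union hT.compl).compl
  rwa [← Set.compl_inter, compl_compl] at h

theorem SA.diff {S T : Set (Fin k → R)} (hS : SA S) (hT : SA T) : SA (S \ T) :=
  hS.inter hT.compl

/-- A semialgebraically connected subset meets only one of the sets `D i`. -/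
theorem exists_subset {S C : Set (Fin k → R)} {b : ℕ} {D : Fin b → Set (Fin k → R)}
    (hD : ∀ i, SA (D i) ∧ OpenIn S (D i)) (hdisj : ∀ i j, i ≠ j → Disjoint (D i) (D j))
    (hU : ⋃ i, D i = S) (hC : SA C) (hCS : C ⊆ S) (hne : C.Nonempty) (hconn : SAConn C) :
    ∃ i, C ⊆ D i := by
  obtain ⟨y, hy⟩ := hne
  have hyS := hCS hy
  rw [← hU, Set.mem_iUnion] at hyS
  obtain ⟨i, hi⟩ := hyS
  refine ⟨i, ?_⟩
  have h1 := hconn (C ∩ D i) (C \ D i) (hC.inter (hD i).1) (hC.diff (hD i).1)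
    (Set.inter_union_sdiff C (D i)) (Set.disjoint_sdiff_inter.symm) ?_ ?_
  · rcases h1 with h1 | h1
    · exact absurd (show y ∈ C ∩ D i from ⟨hy, hi⟩) (by rw [h1]; exact Set.notMem_empty y)
    · exact Set.sdiff_eq_empty.1 h1
  · rintro z ⟨hz1, hz2⟩
    obtain ⟨ε, hε, h⟩ := (hD i).2 z hz2
    exact ⟨ε, hε, fun w hw hwz => ⟨hw, h w (hCS hw) hwz⟩⟩
  · rintro z ⟨hz1, hz2⟩
    have hzS := hCS hz1
    rw [← hU, Set.mem_iUnion] at hzS
    obtain ⟨j, hj⟩ := hzS
    obtain ⟨ε, hε, h⟩ := (hD j).2 z hj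
    refine ⟨ε, hε, fun w hw hwz => ⟨hw, fun hwi => ?_⟩⟩
    have hij : j ≠ i := fun hij => hz2 (hij ▸ hj)
    exact Set.disjoint_left.1 (hdisj j i hij) (h w (hCS hw) hwz) hwi

theorem HasComps.le {S : Set (Fin k → R)} {b b' : ℕ} (h : HasComps S b) (h' : HasComps S b') :
    b ≤ b' := by
  obtain ⟨D, hD, hdisj, hU⟩ := h
  obtain ⟨D', hD', hdisj', hU'⟩ := h'
  have key : ∀ i, ∃ j, D i ⊆ D' j := fun i =>
    exists_subset (fun j => ⟨(hD' j).1, (hD' j).2.2.2⟩) hdisj' hU' (hD i).1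
      (by rw [← hU]; exact Set.subset_iUnion D i) (hD i).2.1 (hD i).2.2.1
  have key' : ∀ j, ∃ i, D' j ⊆ D i := fun j =>
    exists_subset (fun i => ⟨(hD i).1, (hD i).2.2.2⟩) hdisj hU (hD' j).1
      (by rw [← hU']; exact Set.subset_iUnion D' j) (hD' j).2.1 (hD' j).2.2.1
  choose f hf using key
  choose g hg using key'
  have hgf : ∀ i, g (f i) = i := by
    intro i
    obtain ⟨y, hy⟩ := (hD i).2.1
    by_contra hne
    exact Set.disjoint_left.1 (hdisj _ _ hne) (hg _ (hf i hy)) hy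
  have hinj : Function.Injective f := fun i j hij => by rw [← hgf i, hij, hgf j]
  simpa using Fintype.card_le_of_injective f hinj

/-- The number of components is unique. -/
theorem HasComps.unique {S : Set (Fin k → R)} {b b' : ℕ} (h : HasComps S b)
    (h' : HasComps S b') : b = b' := le_antisymm (h.le h') (h'.le h)

end Pool.Agent.QCT
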